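import Pool.Agent.Work.MP_59976d_co_odd.EL

/-!
Part I: a minimal counterexample satisfies (**) (block P1).
-/

namespace Pool.Agent.Work.MP_59976d_co

open Finset
open scoped Pointwise

universe u

section partI

variable {G : Type u} [AddCommGroup G]

lemma zero_notMem_rs' [DecidableEq G] {A B : Finset G} (hadm : Adm A B) : (0 : G) ∉ rs A B := by
  intro h
  rw [mem_rs] at h
  obtain ⟨a, ha, b, hb, hne, hab⟩ := h
  have h1 : -a = b := neg_eq_of_add_eq_zero_right hab
  have h2 := hadm.uniq a ha (h1 ▸ hb)
  apply hne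
  rw [← h1, h2, neg_zero]

lemma part_zero_lt [Finite G] [DecidableEq G] (L : AddSubgroup G) {C : Finset G}
    (h0C : (0 : G) ∉ C) : (part L C 0).card + 1 ≤ Nat.card L := by
  have h1 := card_part_le L (insert 0 C) 0
  have h2 : part L (insert 0 C) 0 = insert 0 (part L C 0) := by
    ext z
    rw [mem_part, mem_insert, mem_insert, mem_part]
    constructor
    · rintro ⟨h | h, h'⟩
      · exact Or.inl h
      · exact Or.inr ⟨h, h'⟩
    · rintro (h | h)
      · subst h; exact ⟨Or.inl rfl, rfl⟩
      · exact ⟨Or.inr h.1, h.2⟩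
  rw [h2, card_insert_of_notMem (fun h => h0C (mem_part.1 h).1)] at h1
  exact h1

/-- Subgroups of prime order are unsaturated. -/
lemma unsat_prime (hKn : Stmt_Kneser.{u}) (hLC : Stmt_LCase.{u}) (hST : Stmt_Struct.{u})
    [Fintype G] [DecidableEq G] (hodd : Odd (Nat.card G))
    (hsub : ∀ H : AddSubgroup G, H ≠ ⊤ → RestrictedScherk H)
    (hquo : ∀ H : AddSubgroup G, H ≠ ⊥ → RestrictedScherk (G ⧸ H))
    (A B : Finset G) (hadm : Adm A B) (hF : (rs A B).card + 4 ≤ A.card + B.card) :
    ∀ n : ℕ, ∀ L : AddSubgroup G, (Nat.card L).Prime → Nat.card L = n → ∀ x y : G ⧸ L,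
      (part L A x).card + (part L B y).card ≤ Nat.card L := by
  classical
  intro n
  induction n using Nat.strong_induction_on with
  | _ n ih =>
  intro L hL hLn
  haveI : Fintype (G ⧸ L) := Fintype.ofFinite _
  have hLbot : L ≠ ⊥ := by
    rintro rfl
    rw [AddSubgroup.card_bot] at hL
    exact Nat.not_prime_one hL
  have hlc := hLC G hodd L hL (hquo L hLbot) A B hadm hF
  have hA0 : 1 ≤ (part L A 0).card := card_part_pos L hadm.zA
  have hB0 : 1 ≤ (part L B 0).card := card_part_pos L hadm.zB
  have hC0 := part_zero_lt L (zero_notMem_rs' hadm)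
  have hsum : ∑ i, (part L (rs A B) i).card + 2 ≤ ∑ i, (part L A i).card +
      ∑ i, (part L B i).card := by
    rw [← card_eq_sum_part, ← card_eq_sum_part, ← card_eq_sum_part]
    omega
  obtain ⟨K, m, m', g, hH, halt⟩ := hST (G ⧸ L) (Nat.card L) (fun i => (part L A i).card)
    (fun i => (part L B i).card) (fun i => (part L (rs A B) i).card)
    (fun i => card_part_le L A i) (fun i => card_part_le L B i) hA0 hB0 hC0 hlc hsum
  have hle1 : ∀ i, (part L A i).card ≤ m i := hH.le_m
  have hle2 : ∀ i, (part L B i).card ≤ m' i := hH.le_m'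
  have hle3 : ∀ i, g i ≤ (part L (rs A B) i).card := hH.g_le
  rcases halt with h1 | h2
  · by_cases hK : K = ⊤
    · intro x y
      have e1 := hH.per_m x (by rw [hK]; exact AddSubgroup.mem_top x) 0
      have e2 := hH.per_m' y (by rw [hK]; exact AddSubgroup.mem_top y) 0
      rw [add_zero] at e1 e2
      have e3 := hle1 x
      have e4 := hle2 y
      have e5 := hle3 0
      omega
    · exfalso
      set N : AddSubgroup G := K.comap (QuotientAddGroup.mk' L) with hN
      have memN : ∀ z : G, z ∈ N ↔ (QuotientAddGroup.mk z : G ⧸ L) ∈ K := fun z => Iff.rfl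
      have hNtop : N ≠ ⊤ := by
        intro h
        apply hK
        rw [eq_top_iff]
        intro q _
        obtain ⟨z, rfl⟩ := QuotientAddGroup.mk_surjective q
        rw [← memN, h]
        exact AddSubgroup.mem_top z
      set fU : G ⧸ L → ℕ := fun i => m i - (part L A i).card with hfU
      set fV : G ⧸ L → ℕ := fun i => m' i - (part L B i).card with hfV
      set fE : G ⧸ L → ℕ := fun i => (part L (rs A B) i).card - g i with hfE
      have htotal : ∑ i, fU i + ∑ i, fV i + ∑ i, fE i + 4 ≤ Nat.card K := by
        have e1 : ∑ i, m i = ∑ i, fU i + ∑ i, (part L A i).card := by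
          rw [← sum_add_distrib]
          apply sum_congr rfl
          intro i _
          have := hle1 i
          simp only [hfU]
          omega
        have e2 : ∑ i, m' i = ∑ i, fV i + ∑ i, (part L B i).card := by
          rw [← sum_add_distrib]
          apply sum_congr rfl
          intro i _
          have := hle2 i
          simp only [hfV]
          omega
        have e3 : ∑ i, (part L (rs A B) i).card = ∑ i, fE i + ∑ i, g i := by
          rw [← sum_add_distrib]
          apply sum_congr rfl
          intro i _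
          have := hle3 i
          simp only [hfE]
          omega
        have e4 := hH.total
        rw [← card_eq_sum_part] at e1 e2 e3
        omega
      have bA : (blk K A 0).card + Dv K fU 0 = Nat.card K * m 0 :=
        card_blk_add K A 0 m hH.per_m hle1
      have bB : (blk K B 0).card + Dv K fV 0 = Nat.card K * m' 0 :=
        card_blk_add K B 0 m' hH.per_m' hle2
      have bC : (blk K (rs A B) 0).card = Nat.card K * g 0 + Dv K fE 0 :=
        card_blk_eq K (rs A B) 0 g hH.per_g hle3
      have hmul : Nat.card K * g 0 + Nat.card K = Nat.card K * m 0 + Nat.card K * m' 0 := by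
        rw [← Nat.mul_add, ← h1]; ring
      have d1 := Dv_le K fU 0
      have d2 := Dv_le K fV 0
      have d3 := Dv_le K fE 0
      have hadm' : Adm (blk K A 0) (blk K B 0) := by
        refine ⟨mem_blk.2 ⟨hadm.zA, by rw [sub_zero]; exact K.zero_mem⟩,
          mem_blk.2 ⟨hadm.zB, by rw [sub_zero]; exact K.zero_mem⟩, ?_⟩
        intro a ha hb
        exact hadm.uniq a (mem_blk.1 ha).1 (mem_blk.1 hb).1
      have hinj := of_injective (hsub N hNtop) N.subtype (AddSubgroup.subtype_injective _)
        (blk K A 0) (blk K B 0) hadm'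
        (fun a ha => ⟨⟨a, (memN a).2 (by
          have := (mem_blk.1 ha).2
          rwa [sub_zero] at this)⟩, rfl⟩)
        (fun a ha => ⟨⟨a, (memN a).2 (by
          have := (mem_blk.1 ha).2
          rwa [sub_zero] at this)⟩, rfl⟩)
      have hsubset : rs (blk K A 0) (blk K B 0) ⊆ blk K (rs A B) 0 := by
        intro z hz
        rw [mem_rs] at hz
        obtain ⟨a, ha, b, hb, hne, rfl⟩ := hz
        rw [mem_blk] at ha hb ⊢
        refine ⟨mem_rs.2 ⟨a, ha.1, b, hb.1, hne, rfl⟩, ?_⟩
        have := K.add_mem ha.2 hb.2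
        rw [QuotientAddGroup.mk_add]
        simpa using this
      have hle := card_le_card hsubset
      omega
  · exfalso
    exact stmt_elim hKn G hodd A B hadm hF L hL (fun L' hL' hlt => ih (Nat.card L')
      (hLn ▸ hlt) L' hL' rfl) K m m' g hH h2

lemma hull_le_of_inCoset [Finite G] (H : AddSubgroup G) (X : Finset G) (x : G ⧸ H) :
    (hull H (part H X x)).card ≤ Nat.card H := by
  apply card_le_of_diff
  intro y hy z hz
  rw [mem_hull] at hy hz
  obtain ⟨a, ha, hya⟩ := hy
  obtain ⟨b, hb, hzb⟩ := hz
  rw [mem_part] at ha hb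
  have h1 : b - a ∈ H := by
    have : (QuotientAddGroup.mk a : G ⧸ H) = QuotientAddGroup.mk b := by rw [ha.2, hb.2]
    rw [QuotientAddGroup.eq] at this
    rwa [sub_eq_neg_add]
  have h2 := H.sub_mem (H.sub_mem hya hzb) h1
  have e : y - a - (z - b) - (b - a) = y - z := by abel
  rwa [e] at h2

theorem stmt_partI (hKn : Stmt_Kneser.{u}) (hLC : Stmt_LCase.{u}) (hST : Stmt_Struct.{u}) :
    Stmt_PartI.{u} := by
  intro G _ _ _ hodd hsub hquo A B hadm hF H hH x y
  classical
  haveI : Fintype G := Fintype.ofFinite G
  -- a subgroup of prime order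
  have hcard : Nat.card H ≠ 1 := fun h => hH (AddSubgroup.card_eq_one.1 h)
  obtain ⟨p, hp, hpd⟩ := Nat.exists_prime_and_dvd hcard
  haveI : Fact p.Prime := ⟨hp⟩
  obtain ⟨h, hh⟩ := exists_prime_addOrderOf_dvd_card' (G := H) p hpd
  set L : AddSubgroup G := AddSubgroup.zmultiples (h : G) with hL
  have hLcard : Nat.card L = p := by
    rw [hL, Nat.card_zmultiples, ← hh]
    exact AddSubgroup.addOrderOf_coe h
  have hLH : L ≤ H := by
    rw [hL, AddSubgroup.zmultiples_le]
    exact h.2
  have huns := unsat_prime hKn hLC hST hodd hsub hquo A B hadm hF p L (by rw [hLcard]; exact hp)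
    hLcard
  haveI : Fintype (G ⧸ L) := Fintype.ofFinite _
  obtain ⟨x₀, _, hx₀⟩ := Finset.exists_max_image (univ : Finset (G ⧸ L))
    (fun x => (part L A x).card) ⟨0, mem_univ _⟩
  obtain ⟨y₀, _, hy₀⟩ := Finset.exists_max_image (univ : Finset (G ⧸ L))
    (fun x => (part L B x).card) ⟨0, mem_univ _⟩
  have h1 := holes_avg H L hLH (part H A x) (part L A x₀).card
    (fun z => (card_part_mono (part_subset H A x) z).trans (hx₀ z (mem_univ z)))
  have h2 := holes_avg H L hLH (part H B y) (part L B y₀).card
    (fun z => (card_part_mono (part_subset H B y) z).trans (hy₀ z (mem_univ z)))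
  have h3 := hull_le_of_inCoset H A x
  have h4 := hull_le_of_inCoset H B y
  have h5 := huns x₀ y₀
  rw [hLcard] at h1 h2 h5
  apply Nat.le_of_mul_le_mul_left _ hp.pos
  calc p * ((part H A x).card + (part H B y).card)
      = p * (part H A x).card + p * (part H B y).card := by ring
    _ ≤ Nat.card H * (part L A x₀).card + Nat.card H * (part L B y₀).card :=
        Nat.add_le_add (h1.trans (Nat.mul_le_mul_right _ h3)) (h2.trans (Nat.mul_le_mul_right _ h4))
    _ = Nat.card H * ((part L A x₀).card + (part L B y₀).card) := by ring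
    _ ≤ Nat.card H * p := Nat.mul_le_mul_left _ h5
    _ = p * Nat.card H := by ring

end partI

end Pool.Agent.Work.MP_59976d_co
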