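import Pool.Agent.Work.MP_59976d_co_odd.Interface

/-!
Basic API: parts of finsets in cosets, hulls, condition (**).
-/

namespace Pool.Agent.Work.MP_59976d_co

open Finset
open scoped Pointwise

section parts

variable {G : Type*} [AddCommGroup G] {H : AddSubgroup G} {A A' B B' : Finset G}

lemma part_subset (H : AddSubgroup G) (A : Finset G) (x : G ⧸ H) : part H A x ⊆ A :=
  fun _ ha => (mem_part.1 ha).1

lemma part_mono (h : A ⊆ A') (x : G ⧸ H) : part H A x ⊆ part H A' x :=
  fun _ ha => mem_part.2 ⟨h (mem_part.1 ha).1, (mem_part.1 ha).2⟩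

lemma card_part_mono (h : A ⊆ A') (x : G ⧸ H) : (part H A x).card ≤ (part H A' x).card :=
  card_le_card (part_mono h x)

lemma card_eq_sum_part (H : AddSubgroup G) [Fintype (G ⧸ H)] (A : Finset G) :
    A.card = ∑ x : G ⧸ H, (part H A x).card := by
  classical
  rw [Finset.card_eq_sum_card_fiberwise (f := fun a : G => (QuotientAddGroup.mk a : G ⧸ H))
    (t := Finset.univ) (fun a _ => by simp)]
  apply Finset.sum_congr rfl
  intro x _
  unfold part
  congr

lemma part_mk_self (H : AddSubgroup G) {A : Finset G} {a : G} (ha : a ∈ A) :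
    a ∈ part H A (QuotientAddGroup.mk a) := mem_part.2 ⟨ha, rfl⟩

lemma card_part_pos {A : Finset G} {a : G} (H : AddSubgroup G) (ha : a ∈ A) :
    1 ≤ (part H A (QuotientAddGroup.mk a)).card := card_pos.2 ⟨a, part_mk_self H ha⟩

lemma card_part_le [Finite G] (H : AddSubgroup G) (A : Finset G) (x : G ⧸ H) :
    (part H A x).card ≤ Nat.card H := by
  classical
  haveI : Fintype H := Fintype.ofFinite H
  obtain ⟨g, rfl⟩ := QuotientAddGroup.mk_surjective x
  rw [Nat.card_eq_fintype_card, ← Finset.card_univ]
  apply Finset.card_le_card_of_injOn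
    (fun a => if h : a - g ∈ H then (⟨a - g, h⟩ : H) else 0) (fun _ _ => by simp)
  intro a ha b hb hab
  have h1 : ∀ c ∈ part H A (QuotientAddGroup.mk g : G ⧸ H), c - g ∈ H := by
    intro c hc
    have := (mem_part.1 hc).2
    rw [QuotientAddGroup.eq] at this
    have h2 := H.neg_mem this
    simpa [neg_add_rev, sub_eq_add_neg, add_comm] using h2
  have ha' := h1 a ha
  have hb' := h1 b hb
  simp only [dif_pos ha', dif_pos hb', Subtype.mk.injEq] at hab
  exact sub_left_injective hab

lemma SS.mono (h : SS A B) (hA : A' ⊆ A) (hB : B' ⊆ B) : SS A' B' := by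
  intro H hH x y
  have h1 := h H hH x y
  have h2 := card_part_mono (H := H) hA x
  have h3 := card_part_mono (H := H) hB y
  omega

lemma SS.symm (h : SS A B) : SS B A := by
  intro H hH x y
  have h1 := h H hH y x
  omega

variable [DecidableEq G]

lemma part_image_add (A : Finset G) (t : G) (x : G ⧸ H) :
    part H (A.image (fun a => t + a)) ((QuotientAddGroup.mk t : G ⧸ H) + x) =
      (part H A x).image (fun a => t + a) := by
  ext z
  rw [mem_part, mem_image, mem_image]
  constructor
  · rintro ⟨⟨a, ha, rfl⟩, h⟩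
    refine ⟨a, mem_part.2 ⟨ha, ?_⟩, rfl⟩
    rw [QuotientAddGroup.mk_add] at h
    exact add_left_cancel h
  · rintro ⟨a, ha, rfl⟩
    rw [mem_part] at ha
    exact ⟨⟨a, ha.1, rfl⟩, by rw [QuotientAddGroup.mk_add, ha.2]⟩

lemma card_image_add (A : Finset G) (t : G) : (A.image (fun a => t + a)).card = A.card :=
  card_image_of_injective _ (add_right_injective t)

lemma card_part_image_add (A : Finset G) (t : G) (x : G ⧸ H) :
    (part H (A.image (fun a => t + a)) x).card =
      (part H A (x - (QuotientAddGroup.mk t : G ⧸ H))).card := by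
  have h := part_image_add (H := H) A t (x - (QuotientAddGroup.mk t : G ⧸ H))
  rw [add_sub_cancel] at h
  rw [h, card_image_add]

lemma SS.translate (h : SS A B) (s t : G) :
    SS (A.image (fun a => s + a)) (B.image (fun b => t + b)) := by
  intro H hH x y
  rw [card_part_image_add, card_part_image_add]
  exact h H hH _ _

lemma rs_translate (A B : Finset G) (d : G) :
    rs (A.image (fun a => d + a)) (B.image (fun b => d + b)) =
      (rs A B).image (fun c => (d + d) + c) := by
  ext z
  rw [mem_rs, mem_image]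
  constructor
  · rintro ⟨a, ha, b, hb, hne, rfl⟩
    rw [mem_image] at ha hb
    obtain ⟨a, ha, rfl⟩ := ha
    obtain ⟨b, hb, rfl⟩ := hb
    exact ⟨a + b, mem_rs.2 ⟨a, ha, b, hb, fun h => hne (by rw [h]), rfl⟩, by abel⟩
  · rintro ⟨c, hc, rfl⟩
    rw [mem_rs] at hc
    obtain ⟨a, ha, b, hb, hne, rfl⟩ := hc
    exact ⟨d + a, mem_image_of_mem _ ha, d + b, mem_image_of_mem _ hb,
      fun h => hne (add_left_cancel h), by abel⟩

/-- Sums of parts in different cosets are restricted sums. -/
lemma part_add_part_subset {x y : G ⧸ H} (hxy : x ≠ y) (A B : Finset G) :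
    part H A x + part H B y ⊆ part H (rs A B) (x + y) := by
  intro z hz
  rw [mem_add] at hz
  obtain ⟨a, ha, b, hb, rfl⟩ := hz
  rw [mem_part] at ha hb
  refine mem_part.2 ⟨mem_rs.2 ⟨a, ha.1, b, hb.1, ?_, rfl⟩, ?_⟩
  · rintro rfl
    exact hxy (ha.2.symm.trans hb.2)
  · rw [QuotientAddGroup.mk_add, ha.2, hb.2]

lemma rs_part_part_subset (x : G ⧸ H) (A B : Finset G) :
    rs (part H A x) (part H B x) ⊆ part H (rs A B) (x + x) := by
  intro z hz
  rw [mem_rs] at hz
  obtain ⟨a, ha, b, hb, hne, rfl⟩ := hz
  rw [mem_part] at ha hb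
  refine mem_part.2 ⟨mem_rs.2 ⟨a, ha.1, b, hb.1, hne, rfl⟩, ?_⟩
  rw [QuotientAddGroup.mk_add, ha.2, hb.2]

end parts

section hulls

variable {G : Type*} [AddCommGroup G] [Finite G] {H : AddSubgroup G} {X Y : Finset G}

lemma subset_hull (H : AddSubgroup G) (X : Finset G) : X ⊆ hull H X :=
  fun x hx => mem_hull.2 ⟨x, hx, by rw [sub_self]; exact H.zero_mem⟩

lemma hull_periodic {h z : G} (hh : h ∈ H) (hz : z ∈ hull H X) : h + z ∈ hull H X := by
  rw [mem_hull] at hz ⊢
  obtain ⟨x, hx, hzx⟩ := hz
  exact ⟨x, hx, by rw [add_sub_assoc]; exact H.add_mem hh hzx⟩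

/-- The cardinality of a periodic set is divisible by the order of the period group. -/
lemma card_dvd_of_periodic (H : AddSubgroup G) (X : Finset G)
    (hX : ∀ h ∈ H, ∀ z ∈ X, h + z ∈ X) : Nat.card H ∣ X.card := by
  classical
  haveI : Fintype (G ⧸ H) := Fintype.ofFinite _
  rw [card_eq_sum_part H X]
  apply Finset.dvd_sum
  intro x _
  by_cases hne : (part H X x).Nonempty
  · obtain ⟨g, hg⟩ := hne
    rw [mem_part] at hg
    have : part H X x = (Set.toFinite (H : Set G)).toFinset.image (fun h => h + g) := by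
      ext z
      rw [mem_part, mem_image]
      constructor
      · rintro ⟨hz, hzx⟩
        refine ⟨z - g, ?_, by abel⟩
        simp only [Set.Finite.mem_toFinset, SetLike.mem_coe]
        have h1 : (QuotientAddGroup.mk g : G ⧸ H) = QuotientAddGroup.mk z := by rw [hg.2, hzx]
        rw [QuotientAddGroup.eq] at h1
        rwa [sub_eq_neg_add]
      · rintro ⟨h, hh, rfl⟩
        simp only [Set.Finite.mem_toFinset, SetLike.mem_coe] at hh
        refine ⟨hX h hh g hg.1, ?_⟩
        rw [← hg.2, eq_comm, QuotientAddGroup.eq]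
        simpa [add_comm] using hh
    rw [this, card_image_of_injective _ (add_left_injective g), ← Nat.card_eq_card_finite_toFinset]
    exact dvd_of_eq rfl
  · rw [not_nonempty_iff_eq_empty] at hne
    rw [hne, card_empty]
    exact dvd_zero _

lemma card_dvd_hull (H : AddSubgroup G) (X : Finset G) : Nat.card H ∣ (hull H X).card :=
  card_dvd_of_periodic H _ (fun _ hh _ hz => hull_periodic hh hz)

lemma card_le_hull (H : AddSubgroup G) (hX : X.Nonempty) : Nat.card H ≤ (hull H X).card := by
  apply Nat.le_of_dvd _ (card_dvd_hull H X)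
  exact card_pos.2 (hX.mono (subset_hull H X))

lemma card_hull_ge (H : AddSubgroup G) (X : Finset G) : X.card ≤ (hull H X).card :=
  card_le_card (subset_hull H X)

end hulls

end Pool.Agent.Work.MP_59976d_co
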