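import Pool.Agent.Work.MP_59976d_co_odd.Defs

/-!
Exact statements of the blocks of the proof of the restricted Scherk inequality for groups of odd
order.  See `BLUEPRINT.md` in this folder for the proofs.  Every `Stmt_*` is a `Prop`; a block is a
theorem `stmt_* : Stmt_*` in its own file, possibly assuming earlier blocks.
-/

namespace Pool.Agent.Work.MP_59976d_co

open Finset
open scoped Pointwise

universe u

/-- (KN) Kneser's theorem for finite groups, with the full stabiliser. -/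
def Stmt_Kneser : Prop :=
  ∀ (G : Type u) [AddCommGroup G] [Finite G] [DecidableEq G] (X Y : Finset G),
    X.Nonempty → Y.Nonempty →
    ∃ H : AddSubgroup G, (∀ h : G, h ∈ H ↔ ∀ z ∈ X + Y, h + z ∈ X + Y) ∧
      (hull H X).card + (hull H Y).card ≤ (X + Y).card + Nat.card H

/-- (SC) Scherk/Kemperman: a sumset with a uniquely represented element. -/
def Stmt_Scherk : Prop :=
  ∀ (G : Type u) [AddCommGroup G] [Finite G] [DecidableEq G] (X Y : Finset G) (x y : G),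
    x ∈ X → y ∈ Y → (∀ x' ∈ X, ∀ y' ∈ Y, x' + y' = x + y → x' = x) →
    X.card + Y.card ≤ (X + Y).card + 1

/-- (CDH) Consequences of (**): Cauchy-Davenport for all subsets, and critical pairs are
aperiodic. -/
def Stmt_CDH : Prop :=
  ∀ (G : Type u) [AddCommGroup G] [Finite G] [DecidableEq G] (A B : Finset G), SS A B →
    A.Nonempty → B.Nonempty →
    A.card + B.card ≤ (A + B).card + 1 ∧
    ((A + B).card + 1 = A.card + B.card → ∀ t : G, (∀ z ∈ A + B, t + z ∈ A + B) → t = 0)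

/-- (LV1) Level lemma, case `c₀ = a₀ + b₀ - 3`. -/
def Stmt_Level1 : Prop :=
  ∀ (R : Type u) [AddCommGroup R] [Fintype R] [DecidableEq R], RestrictedScherk R →
    (∀ x : R, x + x = 0 → x = 0) →
    ∀ (P : ℕ) (α β γ : R → ℕ), (∀ i, α i ≤ P) → (∀ i, β i ≤ P) →
      2 ≤ α 0 → 2 ≤ β 0 → γ 0 + 3 = α 0 + β 0 → γ 0 + 2 ≤ P →
      (∀ i j, i ≠ j → 1 ≤ α i → 1 ≤ β j → min P (α i + β j - 1) ≤ γ (i + j)) →
      (∀ i, i ≠ 0 → 1 ≤ α i → 1 ≤ β i → min P (α i + β i - 3) ≤ γ (i + i)) →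
      ∑ i ∈ univ.erase 0, (α i + β i) ≤ ∑ i ∈ univ.erase 0, γ i

/-- (LV0) Level lemma, case `c₀ = a₀ + b₀ - 2`. -/
def Stmt_Level0 : Prop :=
  ∀ (R : Type u) [AddCommGroup R] [Fintype R] [DecidableEq R], RestrictedScherk R →
    (∀ x : R, x + x = 0 → x = 0) →
    ∀ (P : ℕ) (α β γ : R → ℕ), (∀ i, α i ≤ P) → (∀ i, β i ≤ P) →
      1 ≤ α 0 → 1 ≤ β 0 → γ 0 + 2 = α 0 + β 0 → γ 0 + 1 ≤ P →
      (∀ i j, i ≠ j → 1 ≤ α i → 1 ≤ β j → min P (α i + β j - 1) ≤ γ (i + j)) →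
      (∀ i, i ≠ 0 → 1 ≤ α i → 1 ≤ β i → min P (α i + β i - 2) ≤ γ (i + i)) →
      ∑ i ∈ univ.erase 0, (α i + β i) ≤ ∑ i ∈ univ.erase 0, γ i + 1

/-- The output of the structure lemma: heights `m, m', g` periodic modulo `K`. -/
structure Heights {Q : Type u} [AddCommGroup Q] [Fintype Q] (p : ℕ) (α β γ : Q → ℕ)
    (K : AddSubgroup Q) (m m' g : Q → ℕ) : Prop where
  per_m : ∀ κ ∈ K, ∀ i, m (κ + i) = m i
  per_m' : ∀ κ ∈ K, ∀ i, m' (κ + i) = m' i
  per_g : ∀ κ ∈ K, ∀ i, g (κ + i) = g i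
  le_m : ∀ i, α i ≤ m i
  le_m' : ∀ i, β i ≤ m' i
  g_le : ∀ i, g i ≤ γ i
  m_le : ∀ i, m i ≤ p
  m'_le : ∀ i, m' i ≤ p
  add : ∀ i j, 1 ≤ m i → 1 ≤ m' j → min p (m i + m' j - 1) ≤ g (i + j)
  total : ∑ i, m i + ∑ i, m' i = ∑ i, g i + Nat.card K

/-- (ST) Structure lemma: Kneser's theorem for interval sets in `Q × ℤ/p`. -/
def Stmt_Struct : Prop :=
  ∀ (Q : Type u) [AddCommGroup Q] [Fintype Q] [DecidableEq Q] (p : ℕ) (α β γ : Q → ℕ),
    (∀ i, α i ≤ p) → (∀ i, β i ≤ p) → 1 ≤ α 0 → 1 ≤ β 0 → γ 0 + 1 ≤ p →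
    (∀ i j, 1 ≤ α i → 1 ≤ β j → min p (α i + β j - 1) ≤ γ (i + j)) →
    ∑ i, γ i + 2 ≤ ∑ i, α i + ∑ i, β i →
    ∃ (K : AddSubgroup Q) (m m' g : Q → ℕ), Heights p α β γ K m m' g ∧
      (g 0 + 1 = m 0 + m' 0 ∨
        ((∃ y, y ∉ K ∧ 1 ≤ m' y ∧ g y + 1 = m 0 + m' y ∧ g y + 1 ≤ p) ∧
         (∃ x, x ∉ K ∧ 1 ≤ m x ∧ g x + 1 = m x + m' 0 ∧ g x + 1 ≤ p) ∧
         (∃ x, x ∉ K ∧ 1 ≤ m x ∧ 1 ≤ m' (-x) ∧ g 0 + 1 = m x + m' (-x))))

/-- (VO) Theorem V: Vosper's theorem under (**). -/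
def Stmt_V : Prop :=
  ∀ (G : Type u) [AddCommGroup G] [Finite G] [DecidableEq G] (A B : Finset G), SS A B →
    2 ≤ A.card → 2 ≤ B.card → (A + B).card + 1 = A.card + B.card →
    (∃ d : G, IsAP d A ∧ IsAP d B) ∨
    (∃ H : AddSubgroup G, InCoset H A ∧ InCoset H B ∧ A.card + B.card = Nat.card H)

/-- (UN) Uniqueness of the partner of a set in a critical pair. -/
def Stmt_Uniq : Prop :=
  ∀ (G : Type u) [AddCommGroup G] [Finite G] [DecidableEq G] (A B B' : Finset G),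
    SS A B → SS A B' → 2 ≤ A.card → 1 ≤ B.card → B'.card = B.card →
    (A + B).card + 1 = A.card + B.card → (A + B').card + 1 = A.card + B'.card →
    ∃ t : G, B' = B.image (fun b => t + b)

/-- (TF) Sums with two forbidden differences in `ℤ/q`. -/
def Stmt_TwoForb : Prop :=
  ∀ (q : ℕ) [Fact q.Prime], q ≠ 2 → ∀ (e : ZMod q), e ≠ 0 → ∀ (X Y : Finset (ZMod q)),
    1 ≤ X.card → 1 ≤ Y.card → X.card + Y.card ≤ q →
    X.card + Y.card ≤ (((X ×ˢ Y).filter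
      (fun z => z.2 - z.1 ≠ e ∧ z.2 - z.1 ≠ -e)).image (fun z => z.1 + z.2)).card + 4

/-- (AF) Affinity over `ℤ/q`. -/
def Stmt_Aff : Prop :=
  ∀ (q : ℕ) [Fact q.Prime] (G : Type u) [AddCommGroup G] [Finite G] (X Y S : Finset (ZMod q))
    (ξ η ζ : ZMod q → G),
    (Xᶜ).card + (Yᶜ).card + (Sᶜ).card + 4 ≤ q →
    (∀ u ∈ X, ∀ v ∈ Y, u ≠ v → u + v ∈ S → ξ u + η v = ζ (u + v)) →
    ∃ φ : ZMod q →+ G, (∀ u ∈ X, ∀ u' ∈ X, ξ u - ξ u' = φ (u - u')) ∧
      (∀ v ∈ Y, ∀ v' ∈ Y, η v - η v' = φ (v - v'))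

/-- (NL) The level of a subgroup of odd prime index. -/
def Stmt_NLevel : Prop :=
  ∀ (G : Type u) [AddCommGroup G] [Fintype G] [DecidableEq G] (N : AddSubgroup G)
    [Fintype (G ⧸ N)], (Nat.card (G ⧸ N)).Prime → Nat.card (G ⧸ N) ≠ 2 →
    ∀ (A B : Finset G), A.Nonempty → B.Nonempty → SS A B →
      (rs A B).card + 4 ≤ A.card + B.card →
      (∀ u : G ⧸ N, (part N A u).card + (part N B u).card ≤
        (rs (part N A u) (part N B u)).card + 3) →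
      ∃ a b : ℕ, 1 ≤ a ∧ 1 ≤ b ∧ (∀ u, (part N A u).card ≤ a) ∧ (∀ u, (part N B u).card ≤ b) ∧
        (∀ w, a + b - 1 ≤ (part N (rs A B) w).card) ∧
        ∑ u, (a - (part N A u).card) + ∑ u, (b - (part N B u).card) +
          ∑ w, ((part N (rs A B) w).card - (a + b - 1)) + 4 ≤ Nat.card (G ⧸ N)

/-- (TR) Translates. -/
def Stmt_Trans : Prop :=
  ∀ (G : Type u) [AddCommGroup G] [Fintype G] [DecidableEq G] (N : AddSubgroup G)
    [Fintype (G ⧸ N)] [DecidableEq (G ⧸ N)], (Nat.card (G ⧸ N)).Prime → Nat.card (G ⧸ N) ≠ 2 →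
    ∀ (A B : Finset G), SS A B → ∀ (a b : ℕ) (X Y S : Finset (G ⧸ N)), 1 ≤ a → 1 ≤ b →
      (Xᶜ).card + (Yᶜ).card + (Sᶜ).card + 4 ≤ Nat.card (G ⧸ N) →
      (∀ u ∈ X, (part N A u).card = a) → (∀ v ∈ Y, (part N B v).card = b) →
      (∀ w ∈ S, (part N (rs A B) w).card + 1 = a + b) →
      ∃ (A₀ B₀ : Finset G) (ξ η ζ : G ⧸ N → G),
        (∀ u ∈ X, part N A u = A₀.image (fun z => ξ u + z)) ∧
        (∀ v ∈ Y, part N B v = B₀.image (fun z => η v + z)) ∧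
        (∀ u ∈ X, ∀ v ∈ Y, u ≠ v → u + v ∈ S → ξ u + η v = ζ (u + v))

/-- (W) Theorem W for groups of odd order. -/
def Stmt_W : Prop :=
  ∀ (G : Type u) [AddCommGroup G] [Finite G] [DecidableEq G], Odd (Nat.card G) →
    ∀ (A B : Finset G), A.Nonempty → B.Nonempty → SS A B →
      A.card + B.card ≤ (rs A B).card + 3

/-- (LC) Fibres over a subgroup of prime order: the sums of all pairs of fibres are large. -/
def Stmt_LCase : Prop :=
  ∀ (G : Type u) [AddCommGroup G] [Fintype G] [DecidableEq G], Odd (Nat.card G) →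
    ∀ (L : AddSubgroup G), (Nat.card L).Prime → RestrictedScherk (G ⧸ L) →
    ∀ (A B : Finset G), Adm A B → (rs A B).card + 4 ≤ A.card + B.card →
      ∀ i j : G ⧸ L, 1 ≤ (part L A i).card → 1 ≤ (part L B j).card →
        min (Nat.card L) ((part L A i).card + (part L B j).card - 1) ≤
          (part L (rs A B) (i + j)).card

/-- (EL) Elimination of the second alternative of the structure lemma. -/
def Stmt_Elim : Prop :=
  ∀ (G : Type u) [AddCommGroup G] [Fintype G] [DecidableEq G], Odd (Nat.card G) →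
    ∀ (A B : Finset G), Adm A B → (rs A B).card + 4 ≤ A.card + B.card →
    ∀ (L : AddSubgroup G) [Fintype (G ⧸ L)], (Nat.card L).Prime →
      (∀ L' : AddSubgroup G, (Nat.card L').Prime → Nat.card L' < Nat.card L → ∀ x y : G ⧸ L',
        (part L' A x).card + (part L' B y).card ≤ Nat.card L') →
      ∀ (K : AddSubgroup (G ⧸ L)) (m m' g : G ⧸ L → ℕ),
        Heights (Nat.card L) (fun i => (part L A i).card) (fun i => (part L B i).card)
          (fun i => (part L (rs A B) i).card) K m m' g →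
        ¬ ((∃ y, y ∉ K ∧ 1 ≤ m' y ∧ g y + 1 = m 0 + m' y ∧ g y + 1 ≤ Nat.card L) ∧
          (∃ x, x ∉ K ∧ 1 ≤ m x ∧ g x + 1 = m x + m' 0 ∧ g x + 1 ≤ Nat.card L) ∧
          (∃ x, x ∉ K ∧ 1 ≤ m x ∧ 1 ≤ m' (-x) ∧ g 0 + 1 = m x + m' (-x)))

/-- (P1) Part I: a minimal counterexample satisfies (**). -/
def Stmt_PartI : Prop :=
  ∀ (G : Type u) [AddCommGroup G] [Finite G] [DecidableEq G], Odd (Nat.card G) →
    (∀ H : AddSubgroup G, H ≠ ⊤ → RestrictedScherk H) →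
    (∀ H : AddSubgroup G, H ≠ ⊥ → RestrictedScherk (G ⧸ H)) →
    ∀ (A B : Finset G), Adm A B → (rs A B).card + 4 ≤ A.card + B.card → SS A B

/-- (FIN) The inequality for finite groups of odd order. -/
def Stmt_Odd : Prop :=
  ∀ (G : Type u) [AddCommGroup G] [Finite G], Odd (Nat.card G) → RestrictedScherk G

end Pool.Agent.Work.MP_59976d_co
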