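import Pool.Agent.Work.MP_59976d_co_odd.P1

/-!
Final assembly for groups of odd order and for groups without elements of order two.
-/

namespace Pool.Agent.Work.MP_59976d_co

open Finset
open scoped Pointwise

universe u

theorem stmt_odd (hP : Stmt_PartI.{u}) (hW : Stmt_W.{u}) : Stmt_Odd.{u} := by
  have key : ∀ n : ℕ, ∀ (G : Type u) [AddCommGroup G] [Finite G], Odd (Nat.card G) →
      Nat.card G = n → RestrictedScherk G := by
    intro n
    induction n using Nat.strong_induction_on with
    | _ n ih =>
    intro G _ _ hodd hn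
    classical
    rw [restrictedScherk_iff]
    intro A B hadm
    by_contra hcon
    push Not at hcon
    have hSS : SS A B := by
      apply hP G hodd _ _ A B hadm (by omega)
      · intro H hH
        apply ih (Nat.card H) _ H (odd_card_subgroup hodd H) rfl
        rw [← hn]
        rcases lt_or_ge (Nat.card H) (Nat.card G) with h | h
        · exact h
        · exact absurd (AddSubgroup.eq_top_of_le_card H h) hH
      · intro H hH
        apply ih (Nat.card (G ⧸ H)) _ (G ⧸ H) (odd_card_quotient hodd H) rfl
        rw [← hn, AddSubgroup.card_eq_card_quotient_mul_card_addSubgroup H]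
        have h1 : Nat.card H ≠ 1 := fun h => hH (AddSubgroup.card_eq_one.1 h)
        have h2 : 0 < Nat.card H := Nat.card_pos
        have h3 : 0 < Nat.card (G ⧸ H) := Nat.card_pos
        exact lt_mul_of_one_lt_right h3 (by omega)
    have := hW G hodd A B ⟨0, hadm.zA⟩ ⟨0, hadm.zB⟩ hSS
    omega
  intro G _ _ hodd
  exact key _ G hodd rfl

/-- The inequality for abelian groups without elements of order two. -/
theorem no_two_torsion_case (hO : Stmt_Odd.{u}) (G : Type u) [AddCommGroup G]
    (h2 : ∀ g : G, g + g = 0 → g = 0) : RestrictedScherk G := by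
  classical
  rw [restrictedScherk_iff]
  intro A B h
  apply of_torsion A B h
  intro A' B' hA' hB' hadm
  set T := AddCommGroup.torsion G with hT
  -- the finite subgroup generated by the two sets
  set K : AddSubgroup G := AddSubgroup.closure ((A' ∪ B' : Finset G) : Set G) with hK
  have hKT : K ≤ T := by
    rw [hK, AddSubgroup.closure_le]
    intro x hx
    rw [Finset.mem_coe, mem_union] at hx
    rcases hx with hx | hx
    · exact hA' x hx
    · exact hB' x hx
  haveI hfin : Finite K := by
    haveI : AddGroup.FG K := by
      rw [AddGroup.fg_iff_addSubgroup_fg, hK]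
      exact ⟨A' ∪ B', rfl⟩
    apply AddCommGroup.finite_of_fg_torsion
    intro x
    have h7 : IsOfFinAddOrder (x : G) := hKT x.2
    rw [isOfFinAddOrder_iff_nsmul_eq_zero] at h7 ⊢
    obtain ⟨n, hn, hx⟩ := h7
    exact ⟨n, hn, Subtype.ext hx⟩
  have hodd : Odd (Nat.card K) := by
    rw [← Nat.not_even_iff_odd]
    intro heven
    haveI : Fact (Nat.Prime 2) := ⟨Nat.prime_two⟩
    obtain ⟨x, hx⟩ := exists_prime_addOrderOf_dvd_card' (G := K) 2 heven.two_dvd
    have h3 : x + x = 0 := by
      rw [← two_nsmul, ← hx, addOrderOf_nsmul_eq_zero]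
    have h4 : (x : G) + (x : G) = 0 := by
      rw [← AddSubgroup.coe_add, h3]; rfl
    have h5 : (x : G) = 0 := h2 _ h4
    have h6 : x = 0 := Subtype.ext h5
    rw [h6, addOrderOf_zero] at hx
    omega
  apply of_injective (hO K hodd) K.subtype (AddSubgroup.subtype_injective _) A' B' hadm
  · intro a ha
    exact ⟨⟨a, AddSubgroup.subset_closure (by
      rw [Finset.mem_coe, mem_union]; exact Or.inl ha)⟩, rfl⟩
  · intro a ha
    exact ⟨⟨a, AddSubgroup.subset_closure (by
      rw [Finset.mem_coe, mem_union]; exact Or.inr ha)⟩, rfl⟩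

end Pool.Agent.Work.MP_59976d_co
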