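import Pool.Agent.Work.MP_59976d_co_odd.Interface

/-!
Level lemmas (LV0), (LV1) for the proof of the restricted Scherk inequality in groups of odd order.
-/

namespace Pool.Agent.Work.MP_59976d_co

open Finset
open scoped Pointwise

universe u

section LV

variable {R : Type u} [AddCommGroup R] [Fintype R] [DecidableEq R]

/-- Number of nonzero points where `f` is at least `k`. -/
def lvl (f : R → ℕ) (k : ℕ) : ℕ := (univ.filter (fun i => i ≠ 0 ∧ k ≤ f i)).card

/-- The set where `f` is at least `k`, together with `0`. -/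
def lset (f : R → ℕ) (k : ℕ) : Finset R := insert 0 (univ.filter (fun i => k ≤ f i))

lemma mem_lset {f : R → ℕ} {k : ℕ} {i : R} : i ∈ lset f k ↔ i = 0 ∨ k ≤ f i := by
  unfold lset
  simp

lemma card_lset (f : R → ℕ) (k : ℕ) : (lset f k).card = lvl f k + 1 := by
  have h : lset f k = insert 0 (univ.filter (fun i => i ≠ 0 ∧ k ≤ f i)) := by
    ext i
    simp only [mem_lset, mem_insert, mem_filter, mem_univ, true_and]
    tauto
  rw [h, card_insert_of_notMem (by simp)]
  rfl

lemma lvl_eq_zero {f : R → ℕ} {P k : ℕ} (h : ∀ i, f i ≤ P) (hk : P < k) : lvl f k = 0 := by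
  unfold lvl
  rw [card_eq_zero, filter_eq_empty_iff]
  intro i _ hi
  have := h i
  omega

lemma adm_lset {D : ℕ} {α β : R → ℕ}
    (hD : ∀ i, i ≠ 0 → 1 ≤ α i → 1 ≤ β (-i) → α i + β (-i) + 1 ≤ D) {k l : ℕ} (hk : 1 ≤ k)
    (hl : 1 ≤ l) (hkl : D ≤ k + l) : Adm (lset α k) (lset β l) := by
  refine ⟨mem_lset.2 (Or.inl rfl), mem_lset.2 (Or.inl rfl), ?_⟩
  intro a ha hb
  by_contra h0
  rw [mem_lset] at ha hb
  have ha' : k ≤ α a := ha.resolve_left h0
  have hb' : l ≤ β (-a) := hb.resolve_left (by simpa using h0)
  have := hD a h0 (by omega) (by omega)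
  omega

/-- One cell `(k, l)` at level `s`; `E` is a set of further points of level `s`. -/
lemma cell (hR : RestrictedScherk R) (hS : Stmt_Scherk.{u}) {P D : ℕ} {α β γ : R → ℕ}
    (hD : ∀ i, i ≠ 0 → 1 ≤ α i → 1 ≤ β (-i) → α i + β (-i) + 1 ≤ D)
    (hsum : ∀ i j, i ≠ j → 1 ≤ α i → 1 ≤ β j → min P (α i + β j - 1) ≤ γ (i + j))
    (hα0 : 1 ≤ α 0) (hβ0 : 1 ≤ β 0)
    {k l s : ℕ} (hk : 1 ≤ k) (hl : 1 ≤ l) (hkl : D ≤ k + l) (hsP : s ≤ P)
    (hs1 : s ≤ k + l - 1) (hs2 : s ≤ α 0 + l - 1) (hs3 : s ≤ k + β 0 - 1) (E : Finset R)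
    (hE : ∀ t ∈ E, t ≠ 0 ∧ s ≤ γ t ∧ t ∉ lset α k + lset β l) (e : ℕ)
    (he : (∃ i, i ≠ 0 ∧ k ≤ α i ∧ l ≤ β i ∧ γ (i + i) < s) → 1 ≤ e) :
    lvl α k + lvl β l + E.card ≤ lvl γ s + e := by
  have hadm := adm_lset hD hk hl hkl
  -- elements of the restricted sumset
  have hin : ∀ i ∈ lset α k, ∀ j ∈ lset β l, i ≠ j → i + j ≠ 0 ∧ s ≤ γ (i + j) := by
    intro i hi j hj hij
    refine ⟨?_, ?_⟩
    · intro h0
      have hj' : j = -i := by rw [eq_neg_iff_add_eq_zero, add_comm]; exact h0
      have hi0 := hadm.uniq i hi (hj' ▸ hj)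
      apply hij
      rw [hj', hi0, neg_zero]
    · rw [mem_lset] at hi hj
      by_cases hi0 : i = 0
      · have hj0 : j ≠ 0 := fun h => hij (by rw [hi0, h])
        have hj' := hj.resolve_left hj0
        have := hsum i j hij (by rw [hi0]; exact hα0) (by omega)
        rw [hi0] at this ⊢
        omega
      · have hi' := hi.resolve_left hi0
        by_cases hj0 : j = 0
        · have := hsum i j hij (by omega) (by rw [hj0]; exact hβ0)
          rw [hj0] at this ⊢
          omega
        · have hj' := hj.resolve_left hj0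
          have := hsum i j hij (by omega) (by omega)
          omega
  have hlvl : lvl γ s = (univ.filter (fun t => t ≠ 0 ∧ s ≤ γ t)).card := rfl
  by_cases hloss : ∃ i, i ≠ 0 ∧ k ≤ α i ∧ l ≤ β i ∧ γ (i + i) < s
  · have he1 := he hloss
    have h1 := (restrictedScherk_iff.1 hR) _ _ hadm
    rw [card_lset, card_lset] at h1
    have hdis : Disjoint (rs (lset α k) (lset β l)) E := by
      rw [disjoint_left]
      intro t ht htE
      rw [mem_rs] at ht
      obtain ⟨i, hi, j, hj, _, rfl⟩ := ht
      exact (hE _ htE).2.2 (add_mem_add hi hj)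
    have hsub : rs (lset α k) (lset β l) ∪ E ⊆ univ.filter (fun t => t ≠ 0 ∧ s ≤ γ t) := by
      intro t ht
      rw [mem_union] at ht
      rw [mem_filter]
      rcases ht with ht | ht
      · rw [mem_rs] at ht
        obtain ⟨i, hi, j, hj, hij, rfl⟩ := ht
        exact ⟨mem_univ _, hin i hi j hj hij⟩
      · exact ⟨mem_univ _, (hE t ht).1, (hE t ht).2.1⟩
    have h2 := card_le_card hsub
    rw [card_union_of_disjoint hdis, ← hlvl] at h2
    omega
  · have h1 := hS R (lset α k) (lset β l) 0 0 hadm.zA hadm.zB (by
      intro x hx y hy hxy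
      rw [add_zero] at hxy
      have : y = -x := by rw [eq_neg_iff_add_eq_zero, add_comm]; exact hxy
      exact hadm.uniq x hx (this ▸ hy))
    rw [card_lset, card_lset] at h1
    have hdis : Disjoint ((lset α k + lset β l).erase 0) E := by
      rw [disjoint_left]
      intro t ht htE
      exact (hE _ htE).2.2 (mem_of_mem_erase ht)
    have hsub : (lset α k + lset β l).erase 0 ∪ E ⊆ univ.filter (fun t => t ≠ 0 ∧ s ≤ γ t) := by
      intro t ht
      rw [mem_union] at ht
      rw [mem_filter]
      rcases ht with ht | ht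
      · rw [mem_erase, mem_add] at ht
        obtain ⟨ht0, i, hi, j, hj, rfl⟩ := ht
        refine ⟨mem_univ _, ht0, ?_⟩
        by_cases hij : i = j
        · subst hij
          have hi0 : i ≠ 0 := by
            rintro rfl
            exact ht0 (add_zero 0)
          rw [mem_lset] at hi hj
          by_contra hlt
          exact hloss ⟨i, hi0, hi.resolve_left hi0, hj.resolve_left hi0, by omega⟩
        · exact (hin i hi j hj hij).2
      · exact ⟨mem_univ _, (hE t ht).1, (hE t ht).2.1⟩
    have h2 := card_le_card hsub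
    have h0 : (0 : R) ∈ lset α k + lset β l := by
      have := add_mem_add hadm.zA hadm.zB
      rwa [add_zero] at this
    rw [card_union_of_disjoint hdis, ← hlvl, card_erase_of_mem h0] at h2
    omega

lemma lvl_eq_sum (f : R → ℕ) (k : ℕ) :
    lvl f k = ∑ i ∈ univ.erase (0 : R), (if k ≤ f i then 1 else 0) := by
  unfold lvl
  rw [← Finset.sum_filter, Finset.sum_const, smul_eq_mul, mul_one]
  congr 1
  ext i
  simp only [mem_filter, mem_univ, true_and, mem_erase, and_true]

lemma sum_lvl (f : R → ℕ) (N : ℕ) :
    ∑ s ∈ Icc 1 N, lvl f s = ∑ i ∈ univ.erase (0 : R), min N (f i) := by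
  simp only [lvl_eq_sum]
  rw [Finset.sum_comm]
  apply Finset.sum_congr rfl
  intro i _
  rw [← Finset.sum_filter, Finset.sum_const, smul_eq_mul, mul_one]
  have : (Icc 1 N).filter (fun k => k ≤ f i) = Icc 1 (min N (f i)) := by
    ext k
    simp only [mem_filter, mem_Icc]
    omega
  rw [this, Nat.card_Icc]
  omega

lemma sum_lvl_le (f : R → ℕ) (N : ℕ) :
    ∑ s ∈ Icc 1 N, lvl f s ≤ ∑ i ∈ univ.erase (0 : R), f i := by
  rw [sum_lvl]
  exact Finset.sum_le_sum (fun i _ => min_le_right _ _)

lemma sum_lvl_eq {f : R → ℕ} {N : ℕ} (h : ∀ i, f i ≤ N) :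
    ∑ s ∈ Icc 1 N, lvl f s = ∑ i ∈ univ.erase (0 : R), f i := by
  rw [sum_lvl]
  exact Finset.sum_congr rfl (fun i _ => min_eq_right (h i))

/-- The level of `α` used for level `s`. -/
def kk (a D s : ℕ) : ℕ := if s < a then s else if s < D then D - 1 + a - s else s

/-- The level of `β` used for level `s`. -/
def ll (a D s : ℕ) : ℕ := if s < a then D - s else if s < D then s + 1 - a else s

/-- The inverse of `ll`. -/
def li (a D l : ℕ) : ℕ := if l ≤ D - a then l + a - 1 else if l < D then D - l else l

lemma sum_kk {a D P : ℕ} (ha : 1 ≤ a) (haD : a ≤ D) (hDP : D ≤ P + 1) (f : ℕ → ℕ) :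
    ∑ s ∈ Icc 1 P, f (kk a D s) = ∑ s ∈ Icc 1 P, f s := by
  refine Finset.sum_nbij' (fun s => kk a D s) (fun s => kk a D s) ?_ ?_ ?_ ?_ ?_
  · intro s hs
    rw [mem_Icc] at hs ⊢
    unfold kk
    split_ifs <;> omega
  · intro s hs
    rw [mem_Icc] at hs ⊢
    unfold kk
    split_ifs <;> omega
  · intro s hs
    rw [mem_Icc] at hs
    unfold kk
    split_ifs <;> omega
  · intro s hs
    rw [mem_Icc] at hs
    unfold kk
    split_ifs <;> omega
  · intro s _
    rfl

lemma sum_ll {a D P : ℕ} (ha : 1 ≤ a) (haD : a ≤ D) (hDP : D ≤ P + 1) (f : ℕ → ℕ) :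
    ∑ s ∈ Icc 1 P, f (ll a D s) = ∑ s ∈ Icc 1 P, f s := by
  refine Finset.sum_nbij' (fun s => ll a D s) (fun s => li a D s) ?_ ?_ ?_ ?_ ?_
  · intro s hs
    rw [mem_Icc] at hs ⊢
    unfold ll
    split_ifs <;> omega
  · intro s hs
    rw [mem_Icc] at hs ⊢
    unfold li
    split_ifs <;> omega
  · intro s hs
    rw [mem_Icc] at hs
    unfold ll li
    split_ifs <;> omega
  · intro s hs
    rw [mem_Icc] at hs
    unfold ll li
    split_ifs <;> omega
  · intro s _
    rfl

end LV

lemma hD_of {R : Type u} [AddCommGroup R] {P : ℕ} {α β γ : R → ℕ}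
    (h2 : ∀ x : R, x + x = 0 → x = 0)
    (hsum : ∀ i j, i ≠ j → 1 ≤ α i → 1 ≤ β j → min P (α i + β j - 1) ≤ γ (i + j))
    (hP : γ 0 + 1 ≤ P) :
    ∀ i, i ≠ 0 → 1 ≤ α i → 1 ≤ β (-i) → α i + β (-i) + 1 ≤ γ 0 + 2 := by
  intro i hi h1 h3
  have h4 : i ≠ -i := by
    intro h
    apply hi
    apply h2
    rw [eq_neg_iff_add_eq_zero] at h
    exact h
  have := hsum i (-i) h4 h1 h3
  rw [add_neg_cancel] at this
  omega

/-- (LV0) from (SC). -/
theorem stmt_level0 (hS : Stmt_Scherk.{u}) : Stmt_Level0.{u} := by
  intro R _ _ _ hR h2 P α β γ hαP hβP hα0 hβ0 hγ0 hP hsum hdiag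
  have hD := hD_of h2 hsum hP
  obtain ⟨D, hDdef⟩ : ∃ D, D = γ 0 + 2 := ⟨_, rfl⟩
  obtain ⟨a, ha⟩ : ∃ a, a = α 0 := ⟨_, rfl⟩
  obtain ⟨b, hb⟩ : ∃ b, b = β 0 := ⟨_, rfl⟩
  rw [← hDdef] at hD
  have hkey : ∀ s ∈ Icc 1 P, lvl α (kk a D s) + lvl β (ll a D s) ≤
      lvl γ s + (if s = D - 1 then 1 else 0) := by
    intro s hs
    rw [mem_Icc] at hs
    rcases lt_or_ge s a with h1 | h1
    · have hk : kk a D s = s := by unfold kk; rw [if_pos h1]
      have hl : ll a D s = D - s := by unfold ll; rw [if_pos h1]
      rw [hk, hl]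
      have := cell (k := s) (l := D - s) (s := s) hR hS hD hsum hα0 hβ0 (by omega) (by omega)
        (by omega) (by omega) (by omega) (by omega) (by omega) ∅ (by simp) 0 (by
          rintro ⟨i, hi0, hi1, hi2, hi3⟩
          have := hdiag i hi0 (by omega) (by omega)
          omega)
      simp only [card_empty, add_zero] at this
      omega
    · rcases lt_or_ge s D with h3 | h3
      · have hk : kk a D s = D - 1 + a - s := by
          unfold kk; rw [if_neg (by omega), if_pos h3]
        have hl : ll a D s = s + 1 - a := by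
          unfold ll; rw [if_neg (by omega), if_pos h3]
        rw [hk, hl]
        have := cell (k := D - 1 + a - s) (l := s + 1 - a) (s := s) hR hS hD hsum hα0 hβ0
          (by omega) (by omega)
          (by omega) (by omega) (by omega) (by omega) (by omega) ∅ (by simp)
          (if s = D - 1 then 1 else 0) (by
            rintro ⟨i, hi0, hi1, hi2, hi3⟩
            have := hdiag i hi0 (by omega) (by omega)
            split_ifs with h4
            · exact le_rfl
            · omega)
        simp only [card_empty, add_zero] at this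
        exact this
      · have hk : kk a D s = s := by
          unfold kk; rw [if_neg (by omega), if_neg (by omega)]
        have hl : ll a D s = s := by
          unfold ll; rw [if_neg (by omega), if_neg (by omega)]
        rw [hk, hl]
        have := cell (k := s) (l := s) (s := s) hR hS hD hsum hα0 hβ0 (by omega) (by omega)
          (by omega) (by omega) (by omega) (by omega) (by omega) ∅ (by simp) 0 (by
            rintro ⟨i, hi0, hi1, hi2, hi3⟩
            have := hdiag i hi0 (by omega) (by omega)
            omega)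
        simp only [card_empty, add_zero] at this
        omega
  have h3 := Finset.sum_le_sum hkey
  rw [sum_add_distrib, sum_add_distrib,
    sum_kk (P := P) (a := a) (D := D) (by omega) (by omega) (by omega) (fun s => lvl α s),
    sum_ll (P := P) (a := a) (D := D) (by omega) (by omega) (by omega) (fun s => lvl β s),
    sum_lvl_eq hαP, sum_lvl_eq hβP, Finset.sum_ite_eq'] at h3
  have h4 := sum_lvl_le γ P
  rw [sum_add_distrib]
  split_ifs at h3 <;> omega

/-- The number of possible lossy points. -/
def ncell {R : Type u} [AddCommGroup R] [Fintype R] [DecidableEq R] (α β : R → ℕ)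
    (Q : ℕ → ℕ → Prop) [DecidableRel Q] : ℕ :=
  (univ.filter (fun i : R => i ≠ 0 ∧ Q (α i) (β i))).card

lemma one_le_ncell {R : Type u} [AddCommGroup R] [Fintype R] [DecidableEq R] {α β : R → ℕ}
    {Q : ℕ → ℕ → Prop} [DecidableRel Q] {i : R} (hi : i ≠ 0) (h : Q (α i) (β i)) :
    1 ≤ ncell α β Q :=
  card_pos.2 ⟨i, by rw [mem_filter]; exact ⟨mem_univ _, hi, h⟩⟩

/-- The bookkeeping in (LV1). -/
lemma level1_sum {R : Type u} [AddCommGroup R] [Fintype R] [DecidableEq R] {P D a b : ℕ}
    {α β γ : R → ℕ} (hαP : ∀ i, α i ≤ P) (hβP : ∀ i, β i ≤ P) (ha : 2 ≤ a) (hb : 2 ≤ b)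
    (hDab : D + 1 = a + b) (hDP : D ≤ P) (n1 n2 n3 x : ℕ)
    (hn : n1 + n2 + n3 + lvl α D + lvl β D ≤ lvl α a + lvl β b)
    (h1 : ∀ s ∈ Icc 1 P, s ≠ D → lvl α (kk a D s) + lvl β (ll a D s) +
      (if s = 1 then x else 0) ≤ lvl γ s +
      ((if s = D - 2 then n1 else 0) + (if s = D - 1 then n2 + x else 0)))
    (h2 : lvl α a + lvl β b ≤ lvl γ D + n3) :
    ∑ i ∈ univ.erase 0, (α i + β i) ≤ ∑ i ∈ univ.erase 0, γ i := by
  have hDm : D ∈ Icc 1 P := by rw [mem_Icc]; omega
  have hkD : kk a D D = D := by
    unfold kk; rw [if_neg (by omega), if_neg (by omega)]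
  have hlD : ll a D D = D := by
    unfold ll; rw [if_neg (by omega), if_neg (by omega)]
  have hkey2 : ∀ s ∈ Icc 1 P, (lvl α (kk a D s) + lvl β (ll a D s)) +
      (if s = 1 then x else 0) + (if s = D then lvl α a + lvl β b else 0) ≤ (lvl γ s +
      ((if s = D - 2 then n1 else 0) + (if s = D - 1 then n2 + x else 0))) +
      (if s = D then n3 + lvl α D + lvl β D else 0) := by
    intro s hs
    by_cases hsD : s = D
    · subst hsD
      have e1 : (if s = 1 then x else 0) = 0 := if_neg (by omega)
      have e2 : (if s = s - 2 then n1 else 0) = 0 := if_neg (by omega)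
      have e3 : (if s = s - 1 then n2 + x else 0) = 0 := if_neg (by omega)
      rw [hkD, hlD, e1, e2, e3, if_pos rfl, if_pos rfl]
      omega
    · have h3 := h1 s hs hsD
      rw [if_neg hsD, if_neg hsD]
      omega
  have h3 := Finset.sum_le_sum hkey2
  simp only [sum_add_distrib, Finset.sum_ite_eq'] at h3
  rw [sum_kk (P := P) (a := a) (D := D) (by omega) (by omega) (by omega) (fun s => lvl α s),
    sum_ll (P := P) (a := a) (D := D) (by omega) (by omega) (by omega) (fun s => lvl β s),
    sum_lvl_eq hαP, sum_lvl_eq hβP, if_pos hDm, if_pos hDm,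
    if_pos (by rw [mem_Icc]; omega), if_pos (by rw [mem_Icc]; omega),
    if_pos (by rw [mem_Icc]; omega)] at h3
  have h4 := sum_lvl_le γ P
  rw [sum_add_distrib]
  omega

/-- (LV1) from (SC), when `a₀ ≤ b₀`. -/
theorem level1_aux (hS : Stmt_Scherk.{u}) (R : Type u) [AddCommGroup R] [Fintype R]
    [DecidableEq R] (hR : RestrictedScherk R) (h2 : ∀ x : R, x + x = 0 → x = 0)
    (P : ℕ) (α β γ : R → ℕ) (hαP : ∀ i, α i ≤ P) (hβP : ∀ i, β i ≤ P)
    (hα0 : 2 ≤ α 0) (hβ0 : 2 ≤ β 0) (hγ0 : γ 0 + 3 = α 0 + β 0) (hP : γ 0 + 2 ≤ P)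
    (hsum : ∀ i j, i ≠ j → 1 ≤ α i → 1 ≤ β j → min P (α i + β j - 1) ≤ γ (i + j))
    (hdiag : ∀ i, i ≠ 0 → 1 ≤ α i → 1 ≤ β i → min P (α i + β i - 3) ≤ γ (i + i))
    (hab : α 0 ≤ β 0) :
    ∑ i ∈ univ.erase 0, (α i + β i) ≤ ∑ i ∈ univ.erase 0, γ i := by
  have hD := hD_of h2 hsum (by omega)
  obtain ⟨D, hDdef⟩ : ∃ D, D = γ 0 + 2 := ⟨_, rfl⟩
  obtain ⟨a, ha⟩ : ∃ a, a = α 0 := ⟨_, rfl⟩
  obtain ⟨b, hb⟩ : ∃ b, b = β 0 := ⟨_, rfl⟩
  rw [← hDdef] at hD
  have hα1 : 1 ≤ α 0 := by omega
  have hβ1 : 1 ≤ β 0 := by omega
  have hlvl : ∀ (f : R → ℕ) (k : ℕ), lvl f k = ∑ i : R, if i ≠ 0 ∧ k ≤ f i then 1 else 0 := by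
    intro f k
    unfold lvl
    rw [card_filter]
  have hnc : ∀ (Q : ℕ → ℕ → Prop) [DecidableRel Q],
      ncell α β Q = ∑ i : R, if i ≠ 0 ∧ Q (α i) (β i) then 1 else 0 := by
    intro Q _
    unfold ncell
    rw [card_filter]
  by_cases hb3 : 3 ≤ b
  · -- main case
    refine level1_sum (α := α) (β := β) (γ := γ) (P := P) (D := D) (a := a) (b := b) hαP hβP
      (by omega) (by omega) (by omega) (by omega)
      (ncell α β (fun u v => u = a + 1 ∧ v + 2 = b))
      (ncell α β (fun u v => (u = a ∧ v + 1 = b) ∨ (u = a + 1 ∧ v + 1 = b) ∨ (u = a ∧ v = b)))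
      (ncell α β (fun u v => (u = a ∧ v = b) ∨ (u = a + 1 ∧ v = b) ∨ (u = a ∧ v = b + 1))) 0
      ?_ ?_ ?_
    · rw [hnc, hnc, hnc, hlvl, hlvl, hlvl, hlvl, ← sum_add_distrib, ← sum_add_distrib,
        ← sum_add_distrib, ← sum_add_distrib, ← sum_add_distrib]
      apply Finset.sum_le_sum
      intro i _
      by_cases hi : i = 0
      · simp [hi]
      · simp only [hi, ne_eq, not_false_eq_true, true_and]
        generalize α i = u
        generalize β i = v
        split_ifs <;> omega
    · intro s hs hsD
      rw [mem_Icc] at hs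
      have hx : (if s = 1 then 0 else 0) = 0 := by split_ifs <;> rfl
      rw [hx, add_zero, add_zero]
      rcases lt_or_ge s a with h1 | h1
      · have hk : kk a D s = s := by unfold kk; rw [if_pos h1]
        have hl : ll a D s = D - s := by unfold ll; rw [if_pos h1]
        rw [hk, hl]
        have := cell (k := s) (l := D - s) (s := s) hR hS hD hsum hα1 hβ1 (by omega) (by omega)
          (by omega) (by omega) (by omega) (by omega) (by omega) ∅ (by simp) 0 (by
            rintro ⟨i, hi0, hi1, hi2, hi3⟩
            have := hdiag i hi0 (by omega) (by omega)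
            omega)
        simp only [card_empty, add_zero] at this
        omega
      · rcases lt_or_ge s D with h3 | h3
        · have hk : kk a D s = D - 1 + a - s := by
            unfold kk; rw [if_neg (by omega), if_pos h3]
          have hl : ll a D s = s + 1 - a := by
            unfold ll; rw [if_neg (by omega), if_pos h3]
          rw [hk, hl]
          have := cell (k := D - 1 + a - s) (l := s + 1 - a) (s := s) hR hS hD hsum hα1 hβ1
            (by omega) (by omega)
            (by omega) (by omega) (by omega) (by omega) (by omega) ∅ (by simp)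
            ((if s = D - 2 then ncell α β (fun u v => u = a + 1 ∧ v + 2 = b) else 0) +
              (if s = D - 1 then ncell α β (fun u v => (u = a ∧ v + 1 = b) ∨
                (u = a + 1 ∧ v + 1 = b) ∨ (u = a ∧ v = b)) else 0)) (by
              rintro ⟨i, hi0, hi1, hi2, hi3⟩
              have := hdiag i hi0 (by omega) (by omega)
              rcases (show s = D - 2 ∨ s = D - 1 by omega) with h4 | h4
              · rw [if_pos h4]
                have := one_le_ncell (α := α) (β := β)
                  (Q := fun u v => u = a + 1 ∧ v + 2 = b) hi0 (by omega)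
                omega
              · rw [if_neg (by omega), if_pos h4]
                have := one_le_ncell (α := α) (β := β)
                  (Q := fun u v => (u = a ∧ v + 1 = b) ∨
                (u = a + 1 ∧ v + 1 = b) ∨ (u = a ∧ v = b)) hi0 (by omega)
                omega)
          simp only [card_empty, add_zero] at this
          exact this
        · have hk : kk a D s = s := by
            unfold kk; rw [if_neg (by omega), if_neg (by omega)]
          have hl : ll a D s = s := by
            unfold ll; rw [if_neg (by omega), if_neg (by omega)]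
          rw [hk, hl]
          have := cell (k := s) (l := s) (s := s) hR hS hD hsum hα1 hβ1 (by omega) (by omega)
            (by omega) (by omega) (by omega) (by omega) (by omega) ∅ (by simp) 0 (by
              rintro ⟨i, hi0, hi1, hi2, hi3⟩
              have := hdiag i hi0 (by omega) (by omega)
              omega)
          simp only [card_empty, add_zero] at this
          omega
    · have := cell (k := a) (l := b) (s := D) hR hS hD hsum hα1 hβ1
          (by omega) (by omega)
          (by omega) (by omega) (by omega) (by omega) (by omega) ∅ (by simp)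
          (ncell α β (fun u v => (u = a ∧ v = b) ∨ (u = a + 1 ∧ v = b) ∨ (u = a ∧ v = b + 1)))
          (by
            rintro ⟨i, hi0, hi1, hi2, hi3⟩
            have := hdiag i hi0 (by omega) (by omega)
            exact one_le_ncell (α := α) (β := β)
              (Q := fun u v => (u = a ∧ v = b) ∨ (u = a + 1 ∧ v = b) ∨
                (u = a ∧ v = b + 1)) hi0 (by omega))
      simp only [card_empty, add_zero] at this
      exact this
  · -- the case a = b = 2, D = 3
    have ha2 : a = 2 := by omega
    have hb2 : b = 2 := by omega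
    have hD3 : D = 3 := by omega
    subst hD3
    obtain ⟨x, hx⟩ : ∃ x : ℕ, x = if (∃ i : R, i ≠ 0 ∧ α i = 3 ∧ β i = 1 ∧ γ (i + i) < 2)
      then 1 else 0 := ⟨_, rfl⟩
    have hx1 : x ≤ 1 := by rw [hx]; split_ifs <;> omega
    refine level1_sum (α := α) (β := β) (γ := γ) (P := P) (D := 3) (a := a) (b := b) hαP hβP
      (by omega) (by omega) (by omega) (by omega)
      (ncell α β (fun u v => u = 1 ∧ v = 2))
      (ncell α β (fun u v => (u = 2 ∧ v = 1) ∨ (u = 2 ∧ v = 2)))
      (ncell α β (fun u v => (u = 2 ∧ v = 2) ∨ (u = 3 ∧ v = 2) ∨ (u = 2 ∧ v = 3))) x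
      ?_ ?_ ?_
    · rw [hnc, hnc, hnc, hlvl, hlvl, hlvl, hlvl, ← sum_add_distrib, ← sum_add_distrib,
        ← sum_add_distrib, ← sum_add_distrib, ← sum_add_distrib]
      apply Finset.sum_le_sum
      intro i _
      by_cases hi : i = 0
      · simp [hi]
      · simp only [hi, ne_eq, not_false_eq_true, true_and]
        generalize α i = u
        generalize β i = v
        split_ifs <;> omega
    · intro s hs hsD
      rw [mem_Icc] at hs
      rcases (show s = 1 ∨ s = 2 ∨ 4 ≤ s by omega) with h1 | h1 | h1
      · subst h1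
        have hk : kk a 3 1 = 1 := by unfold kk; rw [if_pos (by omega)]
        have hl : ll a 3 1 = 2 := by unfold ll; rw [if_pos (by omega)]
        rw [hk, hl, if_pos rfl, if_pos (by omega), if_neg (by omega), add_zero]
        by_cases hex : ∃ i : R, i ≠ 0 ∧ α i = 3 ∧ β i = 1 ∧ γ (i + i) < 2
        · rw [if_pos hex] at hx
          obtain ⟨i, hi0, hiα, hiβ, hiγ⟩ := hex
          have hγ1 : γ (i + i) = 1 := by
            have := hdiag i hi0 (by omega) (by omega)
            omega
          have := cell (k := 1) (l := 2) (s := 1) hR hS hD hsum hα1 hβ1 (by omega) (by omega)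
            (by omega) (by omega) (by omega) (by omega) (by omega) {i + i} (by
              intro t ht
              rw [mem_singleton] at ht
              subst ht
              refine ⟨fun h => hi0 (h2 i h), by omega, ?_⟩
              intro hmem
              rw [mem_add] at hmem
              obtain ⟨u, hu, v, hv, huv⟩ := hmem
              rw [mem_lset] at hu hv
              by_cases huv' : u = v
              · subst huv'
                have hui : u = i := by
                  have h5 : (u - i) + (u - i) = 0 := by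
                    have : (u - i) + (u - i) = (u + u) - (i + i) := by abel
                    rw [this, huv, sub_self]
                  have := h2 _ h5
                  exact sub_eq_zero.1 this
                subst hui
                have := hv.resolve_left hi0
                omega
              · have hu1 : 1 ≤ α u := by
                  rcases hu with hu | hu
                  · rw [hu]; omega
                  · exact hu
                have hv1 : 2 ≤ β v := by
                  rcases hv with hv | hv
                  · rw [hv]; omega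
                  · exact hv
                have := hsum u v huv' hu1 (by omega)
                rw [huv] at this
                omega) (ncell α β (fun u v => u = 1 ∧ v = 2)) (by
              rintro ⟨j, hj0, hj1, hj2, hj3⟩
              have := hdiag j hj0 (by omega) (by omega)
              exact one_le_ncell (α := α) (β := β)
                (Q := fun u v => u = 1 ∧ v = 2) hj0 (by omega))
          rw [card_singleton] at this
          omega
        · rw [if_neg hex] at hx
          have := cell (k := 1) (l := 2) (s := 1) hR hS hD hsum hα1 hβ1 (by omega) (by omega)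
            (by omega) (by omega) (by omega) (by omega) (by omega) ∅ (by simp)
            (ncell α β (fun u v => u = 1 ∧ v = 2)) (by
              rintro ⟨j, hj0, hj1, hj2, hj3⟩
              have := hdiag j hj0 (by omega) (by omega)
              exact one_le_ncell (α := α) (β := β)
                (Q := fun u v => u = 1 ∧ v = 2) hj0 (by omega))
          rw [card_empty] at this
          omega
      · subst h1
        have hk : kk a 3 2 = 2 := by
          unfold kk; rw [if_neg (by omega), if_pos (by omega)]; omega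
        have hl : ll a 3 2 = 1 := by
          unfold ll; rw [if_neg (by omega), if_pos (by omega)]; omega
        rw [hk, hl, if_neg (by omega), if_neg (by omega), if_pos (by omega)]
        have := cell (k := 2) (l := 1) (s := 2) hR hS hD hsum hα1 hβ1 (by omega) (by omega)
          (by omega) (by omega) (by omega) (by omega) (by omega) ∅ (by simp)
          (ncell α β (fun u v => (u = 2 ∧ v = 1) ∨ (u = 2 ∧ v = 2)) + x) (by
            rintro ⟨j, hj0, hj1, hj2, hj3⟩
            have := hdiag j hj0 (by omega) (by omega)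
            by_cases h31 : α j = 3 ∧ β j = 1
            · rw [if_pos ⟨j, hj0, h31.1, h31.2, hj3⟩] at hx
              omega
            · have := one_le_ncell (α := α) (β := β)
                (Q := fun u v => (u = 2 ∧ v = 1) ∨ (u = 2 ∧ v = 2)) hj0 (by omega)
              omega)
        rw [card_empty] at this
        omega
      · have hk : kk a 3 s = s := by
          unfold kk; rw [if_neg (by omega), if_neg (by omega)]
        have hl : ll a 3 s = s := by
          unfold ll; rw [if_neg (by omega), if_neg (by omega)]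
        rw [hk, hl, if_neg (by omega), if_neg (by omega), if_neg (by omega)]
        have := cell (k := s) (l := s) (s := s) hR hS hD hsum hα1 hβ1 (by omega) (by omega)
          (by omega) (by omega) (by omega) (by omega) (by omega) ∅ (by simp) 0 (by
            rintro ⟨i, hi0, hi1, hi2, hi3⟩
            have := hdiag i hi0 (by omega) (by omega)
            omega)
        simp only [card_empty, add_zero] at this
        omega
    · have := cell (k := 2) (l := 2) (s := 3) hR hS hD hsum hα1 hβ1
          (by omega) (by omega)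
          (by omega) (by omega) (by omega) (by omega) (by omega) ∅ (by simp)
          (ncell α β (fun u v => (u = 2 ∧ v = 2) ∨ (u = 3 ∧ v = 2) ∨ (u = 2 ∧ v = 3)))
          (by
            rintro ⟨i, hi0, hi1, hi2, hi3⟩
            have := hdiag i hi0 (by omega) (by omega)
            exact one_le_ncell (α := α) (β := β)
              (Q := fun u v => (u = 2 ∧ v = 2) ∨ (u = 3 ∧ v = 2) ∨
                (u = 2 ∧ v = 3)) hi0 (by omega))
      rw [card_empty] at this
      rw [ha2, hb2]
      omega

/-- (LV1) from (SC). -/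
theorem stmt_level1 (hS : Stmt_Scherk.{u}) : Stmt_Level1.{u} := by
  intro R _ _ _ hR h2 P α β γ hαP hβP hα0 hβ0 hγ0 hP hsum hdiag
  rcases le_total (α 0) (β 0) with hab | hab
  · exact level1_aux hS R hR h2 P α β γ hαP hβP hα0 hβ0 hγ0 hP hsum hdiag hab
  · have := level1_aux hS R hR h2 P β α γ hβP hαP hβ0 hα0 (by omega) hP
      (by
        intro i j hij h1 h3
        have := hsum j i hij.symm h3 h1
        rwa [add_comm j i, add_comm (α j)] at this)
      (by
        intro i hi h1 h3
        have := hdiag i hi h3 h1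
        rwa [add_comm (α i)] at this) hab
    refine le_trans (le_of_eq ?_) this
    apply Finset.sum_congr rfl
    intro i _
    exact add_comm _ _

end Pool.Agent.Work.MP_59976d_co
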