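import Pool.Agent.Work.MP_59976d_co_odd.Interface

/-!
Kneser's theorem for finite abelian groups.
-/

namespace Pool.Agent.Work.MP_59976d_co

open Finset
open scoped Pointwise

universe u

section

variable {G : Type u} [AddCommGroup G]

/-- The stabiliser of a finite set. -/
def stb (C : Finset G) : AddSubgroup G where
  carrier := {h | ∀ z ∈ C, h + z ∈ C}
  zero_mem' := by intro z hz; simpa using hz
  add_mem' := fun {a b} ha hb z hz => by
    rw [add_assoc]; exact ha _ (hb z hz)
  neg_mem' := fun {a} ha z hz => by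
    classical
    have hsub : C.image (fun w => a + w) ⊆ C := by
      intro w hw
      obtain ⟨v, hv, rfl⟩ := mem_image.1 hw
      exact ha v hv
    have hcard : (C.image (fun w => a + w)).card = C.card :=
      card_image_of_injective _ (add_right_injective a)
    have heq : C.image (fun w => a + w) = C := eq_of_subset_of_card_le hsub hcard.ge
    rw [← heq] at hz
    obtain ⟨v, hv, rfl⟩ := mem_image.1 hz
    simpa using hv

lemma mem_stb {C : Finset G} {h : G} : h ∈ stb C ↔ ∀ z ∈ C, h + z ∈ C := Iff.rfl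

variable [Finite G]

/-- Counting lemma for one coset of `H₁ + H₂`. -/
lemma grid [DecidableEq G] (H₁ H₂ : AddSubgroup G) (C₁ C₂ : Finset G)
    (h₁ : ∀ h ∈ H₁, ∀ z ∈ C₁, h + z ∈ C₁) (h₂ : ∀ h ∈ H₂, ∀ z ∈ C₂, h + z ∈ C₂) (x : G)
    (S₁ S₂ : Finset G) (hS₁ : ∀ h, h ∈ S₁ → h ∈ H₂ ∧ x + h ∉ C₁)
    (hS₂ : ∀ h, h ∈ S₂ → h ∈ H₁ ∧ x + h ∈ C₂) :
    S₁.card * S₂.card ≤ Nat.card (H₁ ⊓ H₂ : AddSubgroup G) * (C₂ \ C₁).card := by
  classical
  have : Fintype G := Fintype.ofFinite G
  set f : G × G → G := fun p => x + p.1 + p.2 with hf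
  have hmap : ∀ p ∈ S₁ ×ˢ S₂, f p ∈ C₂ \ C₁ := by
    rintro ⟨a, b⟩ hp
    rw [mem_product] at hp
    obtain ⟨ha, hb⟩ := hp
    obtain ⟨ha1, ha2⟩ := hS₁ a ha
    obtain ⟨hb1, hb2⟩ := hS₂ b hb
    rw [mem_sdiff]
    constructor
    · have := h₂ a ha1 _ hb2
      have e : f (a, b) = a + (x + b) := by simp [hf]; abel
      rw [e]; exact this
    · intro hc
      have := h₁ (-b) (neg_mem hb1) _ hc
      apply ha2
      have e : -b + f (a, b) = x + a := by simp [hf]
      rwa [e] at this
  have hfib : ∀ y ∈ C₂ \ C₁, ((S₁ ×ˢ S₂).filter (fun p => f p = y)).card ≤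
      Nat.card (H₁ ⊓ H₂ : AddSubgroup G) := by
    intro y _
    rcases ((S₁ ×ˢ S₂).filter (fun p => f p = y)).eq_empty_or_nonempty with he | ⟨p₀, hp₀⟩
    · rw [he]; simp
    · rw [mem_filter, mem_product] at hp₀
      obtain ⟨⟨ha0, hb0⟩, hy0⟩ := hp₀
      rw [Nat.card_eq_fintype_card, ← Fintype.card_coe]
      refine Fintype.card_le_of_injective (fun p => ⟨p.1.1 - p₀.1, ?_⟩) ?_
      · have hp := p.2
        rw [mem_filter, mem_product] at hp
        obtain ⟨⟨ha, hb⟩, hy⟩ := hp
        have e1 : p.1.1 - p₀.1 ∈ H₂ := sub_mem (hS₁ _ ha).1 (hS₁ _ ha0).1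
        have e2 : p₀.2 - p.1.2 ∈ H₁ := sub_mem (hS₂ _ hb0).1 (hS₂ _ hb).1
        have e3 : p.1.1 - p₀.1 = p₀.2 - p.1.2 := by
          have : x + p.1.1 + p.1.2 = x + p₀.1 + p₀.2 := hy.trans hy0.symm
          have h4 : p.1.1 + p.1.2 = p₀.1 + p₀.2 := by
            have := congrArg (fun t => -x + t) this
            simpa [add_assoc] using this
          rw [sub_eq_sub_iff_add_eq_add, h4]; abel
        exact AddSubgroup.mem_inf.2 ⟨e3 ▸ e2, e1⟩
      · intro p q hpq
        have hp := p.2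
        have hq := q.2
        rw [mem_filter] at hp hq
        have h1 : p.1.1 = q.1.1 := by
          have := congrArg Subtype.val hpq
          simpa using this
        have h2 : p.1.2 = q.1.2 := by
          have : x + p.1.1 + p.1.2 = x + q.1.1 + q.1.2 := hp.2.trans hq.2.symm
          rw [h1] at this
          exact add_left_cancel this
        exact Subtype.ext (Prod.ext h1 h2)
  have := Finset.card_le_mul_card_image_of_maps_to hmap (Nat.card (H₁ ⊓ H₂ : AddSubgroup G)) hfib
  rwa [card_product] at this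

/-- One half of the union lemma. -/
lemma grid_half [DecidableEq G] (H₁ H₂ : AddSubgroup G) (C₁ C₂ : Finset G)
    (h₁ : ∀ h ∈ H₁, ∀ z ∈ C₁, h + z ∈ C₁) (h₂ : ∀ h ∈ H₂, ∀ z ∈ C₂, h + z ∈ C₂)
    (hne : (C₂ \ C₁).Nonempty) :
    Nat.card H₁ ≤ (C₂ \ C₁).card + Nat.card (H₁ ⊓ H₂ : AddSubgroup G) ∨
    Nat.card H₂ ≤ (C₁ \ C₂).card + Nat.card (H₁ ⊓ H₂ : AddSubgroup G) ∨
    Nat.card H₂ ≤ (C₂ \ C₁).card := by
  classical
  have : Fintype G := Fintype.ofFinite G
  obtain ⟨x, hx⟩ := hne
  rw [mem_sdiff] at hx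
  obtain ⟨hx2, hx1⟩ := hx
  set d := Nat.card (H₁ ⊓ H₂ : AddSubgroup G) with hd
  have hd0 : 0 < d := Nat.card_pos
  set S₁ : Finset G := univ.filter (fun h => h ∈ H₂ ∧ x + h ∉ C₁) with hS₁
  set T₁ : Finset G := univ.filter (fun h => h ∈ H₂ ∧ x + h ∈ C₁) with hT₁
  set S₂ : Finset G := univ.filter (fun h => h ∈ H₁ ∧ x + h ∈ C₂) with hS₂
  set T₂ : Finset G := univ.filter (fun h => h ∈ H₁ ∧ x + h ∉ C₂) with hT₂
  have cH : ∀ (H : AddSubgroup G) (p : G → Prop) [DecidablePred p],
      (univ.filter (fun h => h ∈ H ∧ p h)).card + (univ.filter (fun h => h ∈ H ∧ ¬ p h)).card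
        = Nat.card H := by
    intro H p _
    rw [Nat.card_eq_fintype_card, Fintype.card_subtype,
      ← card_filter_add_card_filter_not (s := univ.filter (fun h => h ∈ H)) p,
      filter_filter, filter_filter]
  have e1 : T₁.card + S₁.card = Nat.card H₂ := cH H₂ (fun h => x + h ∈ C₁)
  have e2 : S₂.card + T₂.card = Nat.card H₁ := cH H₁ (fun h => x + h ∈ C₂)
  -- nonempty pieces have at least `d` elements
  have big : ∀ (S : Finset G), (∀ k ∈ (H₁ ⊓ H₂ : AddSubgroup G), ∀ s ∈ S, s + k ∈ S) →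
      S.Nonempty → d ≤ S.card := by
    rintro S hS ⟨s, hs⟩
    rw [hd, Nat.card_eq_fintype_card, ← Fintype.card_coe]
    refine Fintype.card_le_of_injective (fun k => ⟨s + k.1, hS k.1 k.2 s hs⟩) ?_
    intro a b hab
    have := congrArg Subtype.val hab
    simpa using this
  have pS₁ : ∀ k ∈ (H₁ ⊓ H₂ : AddSubgroup G), ∀ s ∈ S₁, s + k ∈ S₁ := by
    intro k hk s hs
    rw [AddSubgroup.mem_inf] at hk
    rw [hS₁, mem_filter] at hs ⊢
    refine ⟨mem_univ _, add_mem hs.2.1 hk.2, fun hc => hs.2.2 ?_⟩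
    have := h₁ (-k) (neg_mem hk.1) _ hc
    have e : -k + (x + (s + k)) = x + s := by abel
    rwa [e] at this
  have pT₁ : ∀ k ∈ (H₁ ⊓ H₂ : AddSubgroup G), ∀ s ∈ T₁, s + k ∈ T₁ := by
    intro k hk s hs
    rw [AddSubgroup.mem_inf] at hk
    rw [hT₁, mem_filter] at hs ⊢
    refine ⟨mem_univ _, add_mem hs.2.1 hk.2, ?_⟩
    have := h₁ k hk.1 _ hs.2.2
    have e : k + (x + s) = x + (s + k) := by abel
    rwa [e] at this
  have pS₂ : ∀ k ∈ (H₁ ⊓ H₂ : AddSubgroup G), ∀ s ∈ S₂, s + k ∈ S₂ := by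
    intro k hk s hs
    rw [AddSubgroup.mem_inf] at hk
    rw [hS₂, mem_filter] at hs ⊢
    refine ⟨mem_univ _, add_mem hs.2.1 hk.1, ?_⟩
    have := h₂ k hk.2 _ hs.2.2
    have e : k + (x + s) = x + (s + k) := by abel
    rwa [e] at this
  have pT₂ : ∀ k ∈ (H₁ ⊓ H₂ : AddSubgroup G), ∀ s ∈ T₂, s + k ∈ T₂ := by
    intro k hk s hs
    rw [AddSubgroup.mem_inf] at hk
    rw [hT₂, mem_filter] at hs ⊢
    refine ⟨mem_univ _, add_mem hs.2.1 hk.1, fun hc => hs.2.2 ?_⟩
    have := h₂ (-k) (neg_mem hk.2) _ hc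
    have e : -k + (x + (s + k)) = x + s := by abel
    rwa [e] at this
  have nS₁ : S₁.Nonempty := ⟨0, by rw [hS₁, mem_filter]; exact ⟨mem_univ _, zero_mem _, by simpa using hx1⟩⟩
  have nS₂ : S₂.Nonempty := ⟨0, by rw [hS₂, mem_filter]; exact ⟨mem_univ _, zero_mem _, by simpa using hx2⟩⟩
  have bS₁ := big S₁ pS₁ nS₁
  have bS₂ := big S₂ pS₂ nS₂
  have g1 : S₁.card * S₂.card ≤ d * (C₂ \ C₁).card := by
    refine grid H₁ H₂ C₁ C₂ h₁ h₂ x S₁ S₂ ?_ ?_
    · intro h hh; rw [hS₁, mem_filter] at hh; exact hh.2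
    · intro h hh; rw [hS₂, mem_filter] at hh; exact hh.2
  have g2 : T₂.card * T₁.card ≤ d * (C₁ \ C₂).card := by
    have := grid H₂ H₁ C₂ C₁ h₂ h₁ x T₂ T₁ ?_ ?_
    · rwa [inf_comm] at this
    · intro h hh; rw [hT₂, mem_filter] at hh; exact hh.2
    · intro h hh; rw [hT₁, mem_filter] at hh; exact hh.2
  rcases T₁.eq_empty_or_nonempty with hT | hT
  · -- `S₁ = H₂`
    right; right
    rw [hT, card_empty, zero_add] at e1
    rw [e1] at g1
    have : d * Nat.card H₂ ≤ d * (C₂ \ C₁).card := by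
      calc d * Nat.card H₂ = Nat.card H₂ * d := mul_comm _ _
        _ ≤ Nat.card H₂ * S₂.card := Nat.mul_le_mul_left _ bS₂
        _ ≤ _ := g1
    exact Nat.le_of_mul_le_mul_left this hd0
  rcases T₂.eq_empty_or_nonempty with hT' | hT'
  · left
    rw [hT', card_empty, add_zero] at e2
    rw [e2] at g1
    have : d * Nat.card H₁ ≤ d * (C₂ \ C₁).card := by
      calc d * Nat.card H₁ ≤ S₁.card * Nat.card H₁ := Nat.mul_le_mul_right _ bS₁
        _ ≤ _ := g1
    have := Nat.le_of_mul_le_mul_left this hd0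
    omega
  have bT₁ := big T₁ pT₁ hT
  have bT₂ := big T₂ pT₂ hT'
  by_contra hcon
  push Not at hcon
  obtain ⟨c1, c2, -⟩ := hcon
  -- everything in integers
  have i1 : (d : ℤ) ≤ S₁.card := by exact_mod_cast bS₁
  have i2 : (d : ℤ) ≤ S₂.card := by exact_mod_cast bS₂
  have i3 : (d : ℤ) ≤ T₁.card := by exact_mod_cast bT₁
  have i4 : (d : ℤ) ≤ T₂.card := by exact_mod_cast bT₂
  have i5 : (S₁.card : ℤ) * S₂.card ≤ d * (C₂ \ C₁).card := by exact_mod_cast g1
  have i6 : (T₂.card : ℤ) * T₁.card ≤ d * (C₁ \ C₂).card := by exact_mod_cast g2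
  have i7 : ((C₂ \ C₁).card : ℤ) + d < S₂.card + T₂.card := by rw [← e2] at c1; exact_mod_cast c1
  have i8 : ((C₁ \ C₂).card : ℤ) + d < T₁.card + S₁.card := by rw [← e1] at c2; exact_mod_cast c2
  have id0 : (0 : ℤ) < d := by exact_mod_cast hd0
  nlinarith [mul_nonneg (sub_nonneg.2 i1) (sub_nonneg.2 i2),
    mul_nonneg (sub_nonneg.2 i3) (sub_nonneg.2 i4), mul_pos id0 (sub_pos.2 i7),
    mul_pos id0 (sub_pos.2 i8)]

/-- Kneser's union lemma: `|C| + |stb C| ≥ k` is preserved under unions. -/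
lemma stb_union [DecidableEq G] (C₁ C₂ : Finset G) (k : ℕ) (k₁ : k ≤ C₁.card + Nat.card (stb C₁))
    (k₂ : k ≤ C₂.card + Nat.card (stb C₂)) :
    k ≤ (C₁ ∪ C₂).card + Nat.card (stb (C₁ ∪ C₂)) := by
  classical
  rcases (C₂ \ C₁).eq_empty_or_nonempty with h1 | h1
  · have : C₁ ∪ C₂ = C₁ := union_eq_left.2 (sdiff_eq_empty_iff_subset.1 h1)
    rwa [this]
  rcases (C₁ \ C₂).eq_empty_or_nonempty with h2 | h2
  · have : C₁ ∪ C₂ = C₂ := union_eq_right.2 (sdiff_eq_empty_iff_subset.1 h2)
    rwa [this]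
  have hinf : Nat.card (stb C₁ ⊓ stb C₂ : AddSubgroup G) ≤ Nat.card (stb (C₁ ∪ C₂)) := by
    refine AddSubgroup.card_le_of_le ?_
    intro h hh z hz
    rw [AddSubgroup.mem_inf] at hh
    rcases mem_union.1 hz with hz | hz
    · exact mem_union_left _ (hh.1 z hz)
    · exact mem_union_right _ (hh.2 z hz)
  have c1 : (C₁ ∪ C₂).card = C₁.card + (C₂ \ C₁).card := by
    rw [← card_union_of_disjoint disjoint_sdiff, union_sdiff_self_eq_union]
  have c2 : (C₁ ∪ C₂).card = C₂.card + (C₁ \ C₂).card := by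
    rw [← card_union_of_disjoint disjoint_sdiff, union_sdiff_self_eq_union, union_comm]
  have a := grid_half (stb C₁) (stb C₂) C₁ C₂ (fun h hh => hh) (fun h hh => hh) h1
  have b := grid_half (stb C₂) (stb C₁) C₂ C₁ (fun h hh => hh) (fun h hh => hh) h2
  rw [inf_comm] at b
  omega

/-- The Dyson transform: every element of `A + B` lies in a large convergent set. -/
lemma dyson [DecidableEq G] : ∀ (n : ℕ) (A B : Finset G), B.card ≤ n → ∀ a ∈ A, ∀ b ∈ B,
    ∃ C : Finset G, C ⊆ A + B ∧ a + b ∈ C ∧ A.card + B.card ≤ C.card + Nat.card (stb C) := by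
  classical
  intro n
  induction n with
  | zero =>
    intro A B hB a _ b hb
    rw [Nat.le_zero, card_eq_zero] at hB
    rw [hB] at hb; simp at hb
  | succ n ih =>
    intro A B hB a ha b hb
    by_cases hall : ∀ a' ∈ A, ∀ b' ∈ B, a' + (b' - b) ∈ A
    · refine ⟨A + B, Subset.rfl, add_mem_add ha hb, ?_⟩
      have h1 : A.card ≤ (A + B).card := card_le_card_add_right ⟨b, hb⟩
      have h2 : B.card ≤ Nat.card (stb (A + B)) := by
        have : Fintype G := Fintype.ofFinite G
        rw [Nat.card_eq_fintype_card, ← Fintype.card_coe]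
        refine Fintype.card_le_of_injective (fun b' => ⟨b'.1 - b, ?_⟩) ?_
        · intro z hz
          obtain ⟨x, hx, y, hy, rfl⟩ := mem_add.1 hz
          have := hall x hx b'.1 b'.2
          rw [← add_assoc, add_comm (b'.1 - b) x]
          exact add_mem_add this hy
        · intro p q hpq
          have := congrArg Subtype.val hpq
          exact Subtype.ext (by simpa using this)
      omega
    · push Not at hall
      obtain ⟨a', ha', b', hb', hnot⟩ := hall
      set e : G := a' - b with he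
      set A' : Finset G := A ∪ B.image (fun y => y + e) with hA'
      set B' : Finset G := B.filter (fun y => y + e ∈ A) with hB'
      have hbB' : b ∈ B' := by
        rw [hB', mem_filter]
        refine ⟨hb, ?_⟩
        rw [he]; simpa using ha'
      have hlt : B'.card < B.card := by
        refine card_lt_card ?_
        refine ⟨filter_subset _ _, fun hsub => ?_⟩
        have := hsub hb'
        rw [hB', mem_filter] at this
        apply hnot
        have e2 : a' + (b' - b) = b' + e := by rw [he]; abel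
        rw [e2]; exact this.2
      obtain ⟨C, hC1, hC2, hC3⟩ := ih A' B' (by omega) a (mem_union_left _ ha) b hbB'
      refine ⟨C, ?_, hC2, ?_⟩
      · refine hC1.trans ?_
        intro z hz
        obtain ⟨x, hx, y, hy, rfl⟩ := mem_add.1 hz
        rw [hB', mem_filter] at hy
        rcases mem_union.1 hx with hx | hx
        · exact add_mem_add hx hy.1
        · obtain ⟨w, hw, rfl⟩ := mem_image.1 hx
          have e3 : w + e + y = (y + e) + w := by abel
          rw [e3]
          exact add_mem_add hy.2 hw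
      · have hinter : (A ∩ B.image (fun y => y + e)).card = B'.card := by
          have : A ∩ B.image (fun y => y + e) = B'.image (fun y => y + e) := by
            ext z
            simp only [mem_inter, mem_image, hB', mem_filter]
            constructor
            · rintro ⟨hz, y, hy, rfl⟩
              exact ⟨y, ⟨hy, hz⟩, rfl⟩
            · rintro ⟨y, ⟨hy, hz⟩, rfl⟩
              exact ⟨hz, y, hy, rfl⟩
          rw [this, card_image_of_injective _ (add_left_injective e)]
        have hun := card_union_add_card_inter A (B.image (fun y => y + e))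
        rw [card_image_of_injective _ (add_left_injective e), hinter] at hun
        rw [← hA'] at hun
        omega

/-- Kneser's theorem, first form. -/
lemma kneser_aux [DecidableEq G] (A B : Finset G) (hA : A.Nonempty) (hB : B.Nonempty) :
    A.card + B.card ≤ (A + B).card + Nat.card (stb (A + B)) := by
  classical
  have key : ∀ c ∈ A + B, ∃ C : Finset G, C ⊆ A + B ∧ c ∈ C ∧
      A.card + B.card ≤ C.card + Nat.card (stb C) := by
    intro c hc
    obtain ⟨a, ha, b, hb, rfl⟩ := mem_add.1 hc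
    exact dyson B.card A B le_rfl a ha b hb
  choose! F hF1 hF2 hF3 using key
  have hne : (A + B).Nonempty := hA.add hB
  have hun : ∀ S : Finset G, S.Nonempty → S ⊆ A + B →
      A.card + B.card ≤ (S.biUnion F).card + Nat.card (stb (S.biUnion F)) := by
    intro S hS
    induction hS using Finset.Nonempty.cons_induction with
    | singleton c =>
      intro hc
      rw [singleton_biUnion]
      exact hF3 c (hc (mem_singleton_self c))
    | cons c S hc hS ih =>
      intro hsub
      rw [cons_eq_insert, biUnion_insert]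
      have hc' : c ∈ A + B := hsub (mem_cons_self _ _)
      exact stb_union _ _ _ (hF3 c hc') (ih (fun s hs => hsub (mem_cons_of_mem hs)))
  have heq : (A + B).biUnion F = A + B := by
    ext z
    rw [mem_biUnion]
    constructor
    · rintro ⟨c, hc, hz⟩
      exact hF1 c hc hz
    · intro hz
      exact ⟨z, hz, hF2 z hz⟩
  have := hun (A + B) hne Subset.rfl
  rwa [heq] at this

end

/-- Kneser's theorem. -/
theorem stmt_kneser : Stmt_Kneser.{u} := by
  intro G _ _ _ X Y hX hY
  refine ⟨stb (X + Y), fun h => Iff.rfl, ?_⟩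
  set H := stb (X + Y) with hH
  have hsub : ∀ Z : Finset G, Z ⊆ hull H Z := by
    intro Z z hz
    rw [mem_hull]
    exact ⟨z, hz, by simp⟩
  have hsum : hull H X + hull H Y = X + Y := by
    apply Subset.antisymm
    · intro z hz
      obtain ⟨x, hx, y, hy, rfl⟩ := mem_add.1 hz
      obtain ⟨x', hx', hxx⟩ := mem_hull.1 hx
      obtain ⟨y', hy', hyy⟩ := mem_hull.1 hy
      have h1 : (x - x') + (y - y') ∈ H := add_mem hxx hyy
      have h2 := mem_stb.1 h1 (x' + y') (add_mem_add hx' hy')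
      have e : (x - x') + (y - y') + (x' + y') = x + y := by abel
      rwa [e] at h2
    · exact add_subset_add (hsub X) (hsub Y)
  have := kneser_aux (hull H X) (hull H Y) (hX.mono (hsub X)) (hY.mono (hsub Y))
  rwa [hsum] at this

end Pool.Agent.Work.MP_59976d_co
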