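import Pool.Agent.Work.MP_59976d_co_odd.Basic

/-!
Blocks SC and CDH: consequences of Kneser's theorem.
-/

namespace Pool.Agent.Work.MP_59976d_co

open Finset
open scoped Pointwise

universe u

/-- The elements of a subgroup as a finset. -/
noncomputable def hf {G : Type*} [AddCommGroup G] [Finite G] (H : AddSubgroup G) : Finset G :=
  (Set.toFinite (H : Set G)).toFinset

lemma mem_hf {G : Type*} [AddCommGroup G] [Finite G] {H : AddSubgroup G} {g : G} :
    g ∈ hf H ↔ g ∈ H := by
  unfold hf
  simp

lemma card_hf {G : Type*} [AddCommGroup G] [Finite G] (H : AddSubgroup G) :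
    (hf H).card = Nat.card H := by
  unfold hf
  rw [← Nat.card_eq_card_finite_toFinset]
  rfl

/-- Block SC. -/
theorem stmt_Scherk (hK : Stmt_Kneser.{u}) : Stmt_Scherk.{u} := by
  intro G _ _ _ X Y x y hx hy huniq
  obtain ⟨H, -, hH⟩ := hK G X Y ⟨x, hx⟩ ⟨y, hy⟩
  set Cx := (hf H).image (fun h => x + h) with hCx
  set Cy := (hf H).image (fun h => y + h) with hCy
  have cCx : Cx.card = Nat.card H := by
    rw [hCx, card_image_of_injective _ (add_right_injective x), card_hf]
  have cCy : Cy.card = Nat.card H := by
    rw [hCy, card_image_of_injective _ (add_right_injective y), card_hf]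
  have h1 : (X ∪ Cx).card ≤ (hull H X).card := by
    apply card_le_card
    intro z hz
    rcases mem_union.1 hz with hz | hz
    · exact subset_hull H X hz
    · rw [hCx, mem_image] at hz
      obtain ⟨h, hh, rfl⟩ := hz
      exact mem_hull.2 ⟨x, hx, by simpa using mem_hf.1 hh⟩
  have h2 : (Y ∪ Cy).card ≤ (hull H Y).card := by
    apply card_le_card
    intro z hz
    rcases mem_union.1 hz with hz | hz
    · exact subset_hull H Y hz
    · rw [hCy, mem_image] at hz
      obtain ⟨h, hh, rfl⟩ := hz
      exact mem_hull.2 ⟨y, hy, by simpa using mem_hf.1 hh⟩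
  have h3 := card_union_add_card_inter X Cx
  have h4 := card_union_add_card_inter Y Cy
  set P := (hf H).filter (fun h => x + h ∈ X) with hP
  set Q := (hf H).filter (fun h => y - h ∈ Y) with hQ
  have h5 : (X ∩ Cx).card ≤ P.card := by
    refine (card_le_card (t := P.image (fun h => x + h)) ?_).trans card_image_le
    intro z hz
    rw [mem_inter, hCx, mem_image] at hz
    obtain ⟨hzX, h, hh, rfl⟩ := hz
    exact mem_image.2 ⟨h, by rw [hP, mem_filter]; exact ⟨hh, hzX⟩, rfl⟩
  have h6 : (Y ∩ Cy).card ≤ Q.card := by
    refine (card_le_card (t := Q.image (fun h => y - h)) ?_).trans card_image_le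
    intro z hz
    rw [mem_inter, hCy, mem_image] at hz
    obtain ⟨hzY, h, hh, rfl⟩ := hz
    refine mem_image.2 ⟨-h, ?_, by abel⟩
    rw [hQ, mem_filter]
    refine ⟨mem_hf.2 (H.neg_mem (mem_hf.1 hh)), ?_⟩
    rw [sub_neg_eq_add]
    exact hzY
  have h7 := card_union_add_card_inter P Q
  have h8 : (P ∪ Q).card ≤ Nat.card H := by
    rw [← card_hf H]
    apply card_le_card
    intro z hz
    rcases mem_union.1 hz with hz | hz
    · exact (mem_filter.1 hz).1
    · exact (mem_filter.1 hz).1
  have h9 : (P ∩ Q).card ≤ 1 := by
    rw [card_le_one]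
    have hz : ∀ h ∈ P ∩ Q, h = 0 := by
      intro h hh
      rw [mem_inter, hP, hQ, mem_filter, mem_filter] at hh
      have := huniq (x + h) hh.1.2 (y - h) hh.2.2 (by abel)
      simpa using this
    intro a ha b hb
    rw [hz a ha, hz b hb]
  omega

/-- The part of the hull over a coset that meets `A` is the whole coset. -/
lemma card_part_hull {G : Type*} [AddCommGroup G] [Finite G] (H : AddSubgroup G) (A : Finset G)
    (x : G ⧸ H) (hne : (part H A x).Nonempty) : (part H (hull H A) x).card = Nat.card H := by
  apply le_antisymm (card_part_le H _ x)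
  apply Nat.le_of_dvd
  · exact card_pos.2 (hne.mono (part_mono (subset_hull H A) x))
  · apply card_dvd_of_periodic
    intro h hh z hz
    rw [mem_part] at hz ⊢
    refine ⟨hull_periodic hh hz.1, ?_⟩
    rw [QuotientAddGroup.mk_add, hz.2, (QuotientAddGroup.eq_zero_iff h).2 hh, zero_add]

/-- If all parts of `A` have at most `a` elements, then `|A| |H| ≤ |A + H| a`. -/
lemma card_mul_le {G : Type*} [AddCommGroup G] [Finite G] (H : AddSubgroup G) (A : Finset G)
    (a : ℕ) (ha : ∀ x : G ⧸ H, (part H A x).card ≤ a) :
    A.card * Nat.card H ≤ (hull H A).card * a := by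
  classical
  have : Fintype (G ⧸ H) := Fintype.ofFinite _
  rw [card_eq_sum_part H A, card_eq_sum_part H (hull H A), sum_mul, sum_mul]
  apply sum_le_sum
  intro x _
  by_cases hne : (part H A x).Nonempty
  · rw [card_part_hull H A x hne, mul_comm]
    exact Nat.mul_le_mul_left _ (ha x)
  · rw [not_nonempty_iff_eq_empty] at hne
    rw [hne]; simp

/-- Block CDH. -/
theorem stmt_CDH (hK : Stmt_Kneser.{u}) : Stmt_CDH.{u} := by
  intro G _ _ _ A B hSS hA hB
  classical
  obtain ⟨H, hst, hH⟩ := hK G A B hA hB
  by_cases hbot : H = ⊥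
  · have h1 : Nat.card H = 1 := by rw [hbot]; exact AddSubgroup.card_bot
    have h2 := card_hull_ge H A
    have h3 := card_hull_ge H B
    refine ⟨by omega, fun _ t ht => ?_⟩
    have h4 := (hst t).2 ht
    rw [hbot] at h4
    exact AddSubgroup.mem_bot.1 h4
  · have key : A.card + B.card ≤ (A + B).card := by
      have : Fintype (G ⧸ H) := Fintype.ofFinite _
      obtain ⟨x, -, hx⟩ := exists_max_image (univ : Finset (G ⧸ H))
        (fun x => (part H A x).card) univ_nonempty
      obtain ⟨y, -, hy⟩ := exists_max_image (univ : Finset (G ⧸ H))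
        (fun y => (part H B y).card) univ_nonempty
      have hab := hSS H hbot x y
      have h1 := card_mul_le H A (part H A x).card (fun z => hx z (mem_univ z))
      have h2 := card_mul_le H B (part H B y).card (fun z => hy z (mem_univ z))
      obtain ⟨r, hr⟩ := card_dvd_hull H A
      obtain ⟨s, hs⟩ := card_dvd_hull H B
      have hpos : 0 < Nat.card H := Nat.card_pos
      have hAl := card_le_hull H hA
      have hBl := card_le_hull H hB
      rw [hr] at h1 hH hAl
      rw [hs] at h2 hH hBl
      have hr1 : 1 ≤ r := by
        by_contra h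
        have : r = 0 := by omega
        rw [this] at hAl; omega
      have hs1 : 1 ≤ s := by
        by_contra h
        have : s = 0 := by omega
        rw [this] at hBl; omega
      have h1' : A.card ≤ r * (part H A x).card := by
        apply Nat.le_of_mul_le_mul_left _ hpos
        calc Nat.card H * A.card = A.card * Nat.card H := mul_comm _ _
          _ ≤ Nat.card H * r * (part H A x).card := h1
          _ = Nat.card H * (r * (part H A x).card) := by ring
      have h2' : B.card ≤ s * (part H B y).card := by
        apply Nat.le_of_mul_le_mul_left _ hpos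
        calc Nat.card H * B.card = B.card * Nat.card H := mul_comm _ _
          _ ≤ Nat.card H * s * (part H B y).card := h2
          _ = Nat.card H * (s * (part H B y).card) := by ring
      obtain ⟨r', rfl⟩ : ∃ r', r = r' + 1 := ⟨r - 1, by omega⟩
      obtain ⟨s', rfl⟩ : ∃ s', s = s' + 1 := ⟨s - 1, by omega⟩
      set a := (part H A x).card
      set b := (part H B y).card
      set n := Nat.card H
      have h3 : (r' + s' + 1) * n ≤ (A + B).card := by nlinarith
      have h4 : (r' + s' + 1) * (a + b) ≤ (r' + s' + 1) * n := Nat.mul_le_mul_left _ hab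
      nlinarith [Nat.zero_le (s' * a), Nat.zero_le (r' * b)]
    exact ⟨by omega, fun h => by omega⟩

end Pool.Agent.Work.MP_59976d_co
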