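import Pool.Agent.Work.MP_59976d_co_odd.AF2

/-!
Block AF, part 3: the main borderline case and the theorem.
-/

namespace Pool.Agent.Work.MP_59976d_co

open Finset
open scoped Pointwise

universe u

namespace AF

variable {q : ℕ} [Fact q.Prime] {G : Type u} [AddCommGroup G]

lemma card_sub_eq (H : AddSubgroup (ZMod q)) (hH : H ≠ ⊥) : Nat.card H = q := by
  have hq : q.Prime := Fact.out
  have : NeZero q := ⟨hq.ne_zero⟩
  have h1 : Nat.card H ∣ Nat.card (ZMod q) := AddSubgroup.card_addSubgroup_dvd_card H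
  rw [Nat.card_eq_fintype_card (α := ZMod q), ZMod.card] at h1
  rcases (Nat.dvd_prime hq).1 h1 with h | h
  · exact absurd (AddSubgroup.eq_bot_of_card_eq H h) hH
  · exact h

/-- The structure of the complements at a failing element. -/
lemma F_struct (hV : Stmt_V.{0}) (hq2 : q ≠ 2) (X Y S : Finset (ZMod q)) (ξ η ζ : ZMod q → G)
    (hcard : (Xᶜ).card + (Yᶜ).card + (Sᶜ).card + 4 ≤ q)
    (hrel : ∀ u ∈ X, ∀ v ∈ Y, u ≠ v → u + v ∈ S → ξ u + η v = ζ (u + v))
    (hx : 1 ≤ (Xᶜ).card) (hy : 1 ≤ (Yᶜ).card)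
    (r : ZMod q) (hrX : r ∈ X) (hrY : r ∈ Y) (hrS : r + r ∈ S) (hf : ξ r + η r ≠ ζ (r + r)) :
    ∃ d : ZMod q, Xᶜ = (range (Xᶜ).card).image (fun i : ℕ => r + ((i : ZMod q) + 1) * d) ∧
      Yᶜ = (range (Yᶜ).card).image (fun i : ℕ => r + ((i : ZMod q) + 1) * d) := by
  classical
  have hq : q.Prime := Fact.out
  have : NeZero q := ⟨hq.ne_zero⟩
  have h20 := two_ne hq2
  -- step 1
  have step1 : ∀ e : ZMod q, e ≠ 0 → r + e ∈ X → r - e ∈ Y → ∀ a, a ∉ X → ∀ b, b ∉ Y →
      a ≠ b + e := by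
    intro e he h1 h2
    refine (nonconst hq2 X Y S ξ η ζ hcard hrel e ?_).2.2.1
    intro hc
    have h3 := hc r (mem_filter.2 ⟨hrX, h2⟩) (r + e)
      (mem_filter.2 ⟨h1, by rw [add_sub_cancel_right]; exact hrY⟩)
    rw [add_sub_cancel_right] at h3
    have h4 := hrel (r + e) h1 (r - e) h2 (fun h => he (by
      have : (2 : ZMod q) * e = 0 := by linear_combination h
      exact (mul_eq_zero.1 this).resolve_left h20)) (by
        rw [show r + e + (r - e) = r + r by ring]; exact hrS)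
    rw [show r + e + (r - e) = r + r by ring] at h4
    apply hf
    rw [← h4]
    rw [sub_eq_sub_iff_add_eq_add] at h3
    exact h3
  -- step 2
  set A : Finset (ZMod q) := univ.filter (fun z => z = 0 ∨ r + z ∉ X) with hA
  set B : Finset (ZMod q) := univ.filter (fun z => z = 0 ∨ r - z ∉ Y) with hB
  have hAeq : A = insert 0 ((Xᶜ).image (fun a => a - r)) := by
    ext z
    rw [hA, mem_filter, mem_insert, mem_image]
    constructor
    · rintro ⟨-, h | h⟩
      · left; exact h
      · right; exact ⟨r + z, mem_compl.2 h, by ring⟩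
    · rintro (h | ⟨a, ha, rfl⟩)
      · exact ⟨mem_univ _, Or.inl h⟩
      · exact ⟨mem_univ _, Or.inr (by rw [show r + (a - r) = a by ring]; exact mem_compl.1 ha)⟩
  have hBeq : B = insert 0 ((Yᶜ).image (fun b => r - b)) := by
    ext z
    rw [hB, mem_filter, mem_insert, mem_image]
    constructor
    · rintro ⟨-, h | h⟩
      · left; exact h
      · right; exact ⟨r - z, mem_compl.2 h, by ring⟩
    · rintro (h | ⟨a, ha, rfl⟩)
      · exact ⟨mem_univ _, Or.inl h⟩
      · exact ⟨mem_univ _, Or.inr (by rw [show r - (r - a) = a by ring]; exact mem_compl.1 ha)⟩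
  have h0A' : (0 : ZMod q) ∉ (Xᶜ).image (fun a => a - r) := by
    rw [mem_image]
    rintro ⟨a, ha, h⟩
    rw [sub_eq_zero.1 h] at ha
    exact (mem_compl.1 ha) hrX
  have h0B' : (0 : ZMod q) ∉ (Yᶜ).image (fun b => r - b) := by
    rw [mem_image]
    rintro ⟨a, ha, h⟩
    rw [← sub_eq_zero.1 h] at ha
    exact (mem_compl.1 ha) hrY
  have hAc : A.card = (Xᶜ).card + 1 := by
    rw [hAeq, card_insert_of_notMem h0A', card_image_of_injective _ (sub_left_injective)]
  have hBc : B.card = (Yᶜ).card + 1 := by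
    rw [hBeq, card_insert_of_notMem h0B', card_image_of_injective _ (sub_right_injective)]
  have h0A : (0 : ZMod q) ∈ A := by rw [hAeq]; exact mem_insert_self _ _
  have h0B : (0 : ZMod q) ∈ B := by rw [hBeq]; exact mem_insert_self _ _
  have hsub : A + B ⊆ A ∪ B := by
    intro z hz
    rw [mem_add] at hz
    obtain ⟨a, ha, b, hb, rfl⟩ := hz
    rw [hA, mem_filter] at ha
    rw [hB, mem_filter] at hb
    by_contra hcon
    rw [mem_union, not_or, hA, hB, mem_filter, mem_filter] at hcon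
    simp only [mem_univ, true_and, not_or, not_not] at hcon
    rcases ha.2 with ha' | ha'
    · subst ha'
      rw [zero_add] at hcon
      rcases hb.2 with hb' | hb'
      · exact hcon.1.1 hb'
      · exact hb' hcon.2.2
    · rcases hb.2 with hb' | hb'
      · subst hb'
        rw [add_zero] at hcon
        exact ha' hcon.1.2
      · exact step1 (a + b) hcon.1.1 hcon.1.2 hcon.2.2 (r + a) ha' (r - b) hb' (by ring)
  have hCD := ZMod.cauchy_davenport hq ⟨0, h0A⟩ ⟨0, h0B⟩
  rw [min_eq_right (by omega)] at hCD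
  have hle := card_le_card hsub
  have hui := card_union_add_card_inter A B
  have h0I : (0 : ZMod q) ∈ A ∩ B := mem_inter.2 ⟨h0A, h0B⟩
  have hIpos := card_pos.2 ⟨_, h0I⟩
  have hI : A ∩ B = {0} := by
    have : (A ∩ B).card = 1 := by omega
    obtain ⟨z, hz⟩ := card_eq_one.1 this
    rw [hz] at h0I ⊢
    rw [mem_singleton.1 h0I]
  have hI' : ∀ z, z ∈ A → z ∈ B → z = 0 := by
    intro z h1 h2
    have : z ∈ A ∩ B := mem_inter.2 ⟨h1, h2⟩
    rw [hI, mem_singleton] at this
    exact this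
  have hSS : SS A B := by
    intro H hH x y
    rw [card_sub_eq H hH]
    have h1 := card_le_card (part_subset H A x)
    have h2 := card_le_card (part_subset H B y)
    omega
  rcases hV (ZMod q) A B hSS (by omega) (by omega) (by omega) with ⟨d, hdA, hdB⟩ | ⟨H, h1, h2, h3⟩
  swap
  · exfalso
    by_cases hH : H = ⊥
    · rw [hH] at h3
      simp at h3
      omega
    · rw [card_sub_eq H hH] at h3
      omega
  -- step 5
  obtain ⟨a, ha⟩ := hdA
  obtain ⟨b, hb⟩ := hdB
  have hAm : ∀ z, z ∈ A ↔ ∃ i : ℕ, i ≤ (Xᶜ).card ∧ a + i • d = z := by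
    intro z
    rw [ha, mem_image]
    constructor
    · rintro ⟨i, hi, h⟩
      rw [mem_range] at hi
      exact ⟨i, by omega, h⟩
    · rintro ⟨i, hi, h⟩
      exact ⟨i, mem_range.2 (by omega), h⟩
  have hBm : ∀ z, z ∈ B ↔ ∃ i : ℕ, i ≤ (Yᶜ).card ∧ b + i • d = z := by
    intro z
    rw [hb, mem_image]
    constructor
    · rintro ⟨i, hi, h⟩
      rw [mem_range] at hi
      exact ⟨i, by omega, h⟩
    · rintro ⟨i, hi, h⟩
      exact ⟨i, mem_range.2 (by omega), h⟩
  have hd : d ≠ 0 := by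
    rintro rfl
    have : A ⊆ {a} := by
      intro z hz
      obtain ⟨i, -, h⟩ := (hAm z).1 hz
      rw [mem_singleton, ← h]; simp
    have := card_le_card this
    rw [card_singleton] at this
    omega
  obtain ⟨i0, hi0, hi0'⟩ := (hAm 0).1 h0A
  obtain ⟨j0, hj0, hj0'⟩ := (hBm 0).1 h0B
  simp only [nsmul_eq_mul] at hAm hBm hi0' hj0'
  -- consequence: complements from A, B
  have hXm : ∀ z, z ∉ X ↔ z ≠ r ∧ z - r ∈ A := by
    intro z
    rw [hA, mem_filter]
    simp only [mem_univ, true_and]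
    rw [show r + (z - r) = z by ring]
    constructor
    · intro h; exact ⟨fun h1 => h (by rw [h1]; exact hrX), Or.inr h⟩
    · rintro ⟨h1, h2 | h2⟩
      · exact absurd (sub_eq_zero.1 h2) h1
      · exact h2
  have hYm : ∀ z, z ∉ Y ↔ z ≠ r ∧ r - z ∈ B := by
    intro z
    rw [hB, mem_filter]
    simp only [mem_univ, true_and]
    rw [show r - (r - z) = z by ring]
    constructor
    · intro h; exact ⟨fun h1 => h (by rw [h1]; exact hrY), Or.inr h⟩
    · rintro ⟨h1, h2 | h2⟩
      · exact absurd (sub_eq_zero.1 h2).symm h1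
      · exact h2
  have key : ∀ δ : ZMod q, δ ≠ 0 → (∀ z, z ∈ A ↔ ∃ i : ℕ, i ≤ (Xᶜ).card ∧ (i : ZMod q) * δ = z) →
      (∀ z, z ∈ B ↔ ∃ i : ℕ, i ≤ (Yᶜ).card ∧ -((i : ZMod q) * δ) = z) →
      Xᶜ = (range (Xᶜ).card).image (fun i : ℕ => r + ((i : ZMod q) + 1) * δ) ∧
      Yᶜ = (range (Yᶜ).card).image (fun i : ℕ => r + ((i : ZMod q) + 1) * δ) := by
    intro δ hδ hA2 hB2
    have hnz : ∀ i : ℕ, i + 1 < q → ((i : ZMod q) + 1) * δ ≠ 0 := by
      intro i hi
      apply mul_ne_zero _ hδ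
      have := natCast_ne (q := q) (i + 1) (by omega) hi
      push_cast at this
      exact this
    constructor
    · ext z
      rw [mem_compl, hXm, hA2, mem_image]
      constructor
      · rintro ⟨h1, i, hi, h2⟩
        rcases i with _ | i
        · exfalso; apply h1
          simp at h2
          exact (sub_eq_zero.1 h2.symm)
        · refine ⟨i, mem_range.2 (by omega), ?_⟩
          push_cast at h2
          rw [h2]; ring
      · rintro ⟨i, hi, h2⟩
        rw [mem_range] at hi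
        refine ⟨?_, i + 1, by omega, ?_⟩
        · intro h3
          rw [h3] at h2
          exact hnz i (by omega) (by linear_combination h2)
        · push_cast
          linear_combination h2
    · ext z
      rw [mem_compl, hYm, hB2, mem_image]
      constructor
      · rintro ⟨h1, i, hi, h2⟩
        rcases i with _ | i
        · exfalso; apply h1
          simp at h2
          exact (sub_eq_zero.1 h2.symm).symm
        · refine ⟨i, mem_range.2 (by omega), ?_⟩
          push_cast at h2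
          linear_combination -h2
      · rintro ⟨i, hi, h2⟩
        rw [mem_range] at hi
        refine ⟨?_, i + 1, by omega, ?_⟩
        · intro h3
          rw [h3] at h2
          exact hnz i (by omega) (by linear_combination h2)
        · push_cast
          linear_combination -h2
  rcases Nat.eq_zero_or_pos i0 with h | h
  · -- i0 = 0
    subst h
    have ha0 : a = 0 := by simpa using hi0'
    have hdA : d ∈ A := (hAm d).2 ⟨1, by omega, by rw [ha0]; simp⟩
    have hj : j0 = (Yᶜ).card := by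
      by_contra hne
      apply hd
      apply hI' d hdA
      refine (hBm d).2 ⟨j0 + 1, by omega, ?_⟩
      push_cast
      linear_combination hj0'
    refine ⟨d, key d hd ?_ ?_⟩
    · intro z
      rw [hAm, ha0]
      simp
    · intro z
      rw [hBm]
      constructor
      · rintro ⟨i, hi, h⟩
        refine ⟨(Yᶜ).card - i, by omega, ?_⟩
        rw [Nat.cast_sub hi, ← hj]
        linear_combination h - hj0'
      · rintro ⟨i, hi, h⟩
        refine ⟨(Yᶜ).card - i, by omega, ?_⟩
        rw [Nat.cast_sub hi, ← hj]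
        linear_combination h + hj0'
  · have hdA : -d ∈ A := by
      refine (hAm (-d)).2 ⟨i0 - 1, by omega, ?_⟩
      rw [Nat.cast_sub (by omega)]
      push_cast
      linear_combination hi0'
    have hj : j0 = 0 := by
      by_contra hne
      apply hd
      have : -d = 0 := by
        apply hI' _ hdA
        refine (hBm (-d)).2 ⟨j0 - 1, by omega, ?_⟩
        rw [Nat.cast_sub (by omega)]
        push_cast
        linear_combination hj0'
      exact neg_eq_zero.1 this
    subst hj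
    have hb0 : b = 0 := by simpa using hj0'
    have hdB : d ∈ B := (hBm d).2 ⟨1, by omega, by rw [hb0]; simp⟩
    have hi : i0 = (Xᶜ).card := by
      by_contra hne
      apply hd
      apply hI' d _ hdB
      refine (hAm d).2 ⟨i0 + 1, by omega, ?_⟩
      push_cast
      linear_combination hi0'
    refine ⟨-d, key (-d) (neg_ne_zero.2 hd) ?_ ?_⟩
    · intro z
      rw [hAm]
      constructor
      · rintro ⟨i, hi', h⟩
        refine ⟨(Xᶜ).card - i, by omega, ?_⟩
        rw [Nat.cast_sub hi', ← hi]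
        linear_combination h - hi0'
      · rintro ⟨i, hi', h⟩
        refine ⟨(Xᶜ).card - i, by omega, ?_⟩
        rw [Nat.cast_sub hi', ← hi]
        linear_combination h + hi0'
    · intro z
      rw [hBm, hb0]
      constructor
      · rintro ⟨i, hi', h⟩
        exact ⟨i, hi', by rw [← h]; ring⟩
      · rintro ⟨i, hi', h⟩
        exact ⟨i, hi', by rw [← h]; ring⟩

lemma sum1 {R : Type*} [CommRing R] (r d : R) (k : ℕ) :
    2 * ∑ i ∈ range k, (r + ((i : R) + 1) * d) = 2 * k * r + d * k * (k + 1) := by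
  induction k with
  | zero => simp
  | succ k ih =>
    rw [sum_range_succ, mul_add, ih]
    push_cast
    ring

lemma sum2 {R : Type*} [CommRing R] (r d : R) (k : ℕ) :
    6 * ∑ i ∈ range k, (r + ((i : R) + 1) * d) ^ 2 =
      6 * k * r ^ 2 + 6 * r * d * k * (k + 1) + d ^ 2 * k * (k + 1) * (2 * k + 1) := by
  induction k with
  | zero => simp
  | succ k ih =>
    rw [sum_range_succ, mul_add, ih]
    push_cast
    ring

/-- Sums over an arithmetic progression. -/
lemma ap_sums (Z : Finset (ZMod q)) (r d : ZMod q)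
    (h : Z = (range Z.card).image (fun i : ℕ => r + ((i : ZMod q) + 1) * d)) :
    12 * (Z.card * ∑ z ∈ Z, z ^ 2 - (∑ z ∈ Z, z) ^ 2) =
      d ^ 2 * ((Z.card : ZMod q) ^ 2 * ((Z.card + 1) * (Z.card - 1))) ∧
    2 * ∑ z ∈ Z, z = 2 * Z.card * r + d * Z.card * (Z.card + 1) := by
  classical
  set k := Z.card with hk
  have hinj : Set.InjOn (fun i : ℕ => r + ((i : ZMod q) + 1) * d) (range k : Finset ℕ) := by
    rw [← card_image_iff, ← h, card_range]
  have h1 : ∑ z ∈ Z, z = ∑ i ∈ range k, (r + ((i : ZMod q) + 1) * d) := by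
    rw [h, sum_image hinj]
  have h2 : ∑ z ∈ Z, z ^ 2 = ∑ i ∈ range k, (r + ((i : ZMod q) + 1) * d) ^ 2 := by
    rw [h, sum_image hinj]
  rw [h1, h2]
  have e1 := sum1 r d k
  have e2 := sum2 r d k
  refine ⟨?_, e1⟩
  set S1 := ∑ i ∈ range k, (r + ((i : ZMod q) + 1) * d)
  set S2 := ∑ i ∈ range k, (r + ((i : ZMod q) + 1) * d) ^ 2
  have : 12 * ((k : ZMod q) * S2 - S1 ^ 2) = 2 * k * (6 * S2) - 3 * (2 * S1) ^ 2 := by ring
  rw [this, e1, e2]
  ring

/-- Three arithmetic progressions starting right after three different points. -/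
lemma ap_contra (hq2 : q ≠ 2) (Z : Finset (ZMod q)) (hZ : 2 ≤ Z.card) (hZ' : Z.card + 1 < q)
    (F : ZMod q → Prop)
    (hF : ∀ r, F r → ∃ d, Z = (range Z.card).image (fun i : ℕ => r + ((i : ZMod q) + 1) * d))
    (r1 r2 r3 : ZMod q) (h1 : F r1) (h2 : F r2) (h3 : F r3) (h12 : r1 ≠ r2) (h13 : r1 ≠ r3)
    (h23 : r2 ≠ r3) : False := by
  have hq : q.Prime := Fact.out
  obtain ⟨d1, e1⟩ := hF r1 h1
  obtain ⟨d2, e2⟩ := hF r2 h2
  obtain ⟨d3, e3⟩ := hF r3 h3
  have f1 := ap_sums Z r1 d1 e1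
  have f2 := ap_sums Z r2 d2 e2
  have f3 := ap_sums Z r3 d3 e3
  have hk0 : ((Z.card : ℕ) : ZMod q) ≠ 0 := natCast_ne _ (by omega) (by omega)
  have hk1 : ((Z.card : ℕ) : ZMod q) + 1 ≠ 0 := by
    have := natCast_ne (q := q) (Z.card + 1) (by omega) (by omega)
    push_cast at this
    exact this
  have hk2 : ((Z.card : ℕ) : ZMod q) - 1 ≠ 0 := by
    have := natCast_ne (q := q) (Z.card - 1) (by omega) (by omega)
    rw [Nat.cast_sub (by omega)] at this
    push_cast at this
    exact this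
  have hc : ((Z.card : ZMod q) ^ 2 * ((Z.card + 1) * (Z.card - 1))) ≠ 0 :=
    mul_ne_zero (pow_ne_zero 2 hk0) (mul_ne_zero hk1 hk2)
  have h20 := two_ne hq2
  have same : ∀ r r' d : ZMod q,
      2 * ∑ z ∈ Z, z = 2 * Z.card * r + d * Z.card * (Z.card + 1) →
      2 * ∑ z ∈ Z, z = 2 * Z.card * r' + d * Z.card * (Z.card + 1) → r = r' := by
    intro r r' d g1 g2
    have : (2 * (Z.card : ZMod q)) * (r - r') = 0 := by linear_combination g2 - g1
    exact sub_eq_zero.1 ((mul_eq_zero.1 this).resolve_left (mul_ne_zero h20 hk0))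
  have sq12 : d1 ^ 2 = d2 ^ 2 := mul_right_cancel₀ hc (f1.1.symm.trans f2.1)
  have sq13 : d1 ^ 2 = d3 ^ 2 := mul_right_cancel₀ hc (f1.1.symm.trans f3.1)
  rcases sq_eq_sq_iff_eq_or_eq_neg.1 sq12 with h | h
  · subst h
    exact h12 (same r1 r2 d1 f1.2 f2.2)
  · rcases sq_eq_sq_iff_eq_or_eq_neg.1 sq13 with h' | h'
    · subst h'
      exact h13 (same r1 r3 d1 f1.2 f3.2)
    · have : d2 = d3 := by
        rw [h] at h'
        exact neg_injective h'
      subst this
      exact h23 (same r2 r3 d2 f2.2 f3.2)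

/-- The main borderline case. -/
lemma case_F (hV : Stmt_V.{0}) (hq2 : q ≠ 2) (X Y S : Finset (ZMod q)) (ξ η ζ : ZMod q → G)
    (hcard : (Xᶜ).card + (Yᶜ).card + (Sᶜ).card + 4 ≤ q)
    (hrel : ∀ u ∈ X, ∀ v ∈ Y, u ≠ v → u + v ∈ S → ξ u + η v = ζ (u + v))
    (hx : 1 ≤ (Xᶜ).card) (hy : 1 ≤ (Yᶜ).card) (hxy : 2 ≤ (Xᶜ).card ∨ 2 ≤ (Yᶜ).card)
    (e : ZMod q) (he : e ≠ 0) (V1 V2 : Finset (ZMod q))
    (hU : V1 ∪ V2 = X.filter (fun r => r - e ∈ Y)) (h1 : V1.Nonempty) (h2 : V2.Nonempty)
    (hc : V1.card + V2.card = (Sᶜ).card + 4)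
    (hno : ∀ r ∈ V1, ∀ r' ∈ V2, r + r' - e ∈ S → r' - r = e ∨ r' - r = -e)
    (hne : ∀ r ∈ V1, ∀ r' ∈ V2, ξ r - η (r - e) ≠ ξ r' - η (r' - e)) : False := by
  classical
  have hq : q.Prime := Fact.out
  have : NeZero q := ⟨hq.ne_zero⟩
  have h20 := two_ne hq2
  have hin1 : ∀ r ∈ V1, r ∈ X ∧ r - e ∈ Y := by
    intro r hr
    have : r ∈ X.filter (fun r => r - e ∈ Y) := by rw [← hU]; exact mem_union_left _ hr
    exact mem_filter.1 this
  have hin2 : ∀ r ∈ V2, r ∈ X ∧ r - e ∈ Y := by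
    intro r hr
    have : r ∈ X.filter (fun r => r - e ∈ Y) := by rw [← hU]; exact mem_union_right _ hr
    exact mem_filter.1 this
  have hee : ∀ z : ZMod q, z + e ≠ z - e := by
    intro z h
    have : (2 : ZMod q) * e = 0 := by linear_combination h
    exact he ((mul_eq_zero.1 this).resolve_left h20)
  set F : ZMod q → Prop := fun r => r ∈ X ∧ r ∈ Y ∧ r + r ∈ S ∧ ξ r + η r ≠ ζ (r + r) with hF
  have hfail : ∀ w ∈ (V1 + V2).filter (fun w => w - e ∈ S), ∃ r, F r ∧ 2 * r = w - e := by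
    intro w hw
    rw [mem_filter, mem_add] at hw
    obtain ⟨⟨r1, hr1, r2, hr2, rfl⟩, hS⟩ := hw
    rcases hno r1 hr1 r2 hr2 hS with h | h
    · obtain rfl : r2 = r1 + e := by rw [← h]; ring
      have hS' : r1 + r1 ∈ S := by
        rw [show r1 + r1 = r1 + (r1 + e) - e by ring]; exact hS
      have g1 := (hin2 _ hr2).2
      rw [add_sub_cancel_right] at g1
      refine ⟨r1, ⟨(hin1 r1 hr1).1, g1, hS', ?_⟩, by ring⟩
      intro hz
      have g2 := hrel (r1 + e) (hin2 _ hr2).1 (r1 - e) (hin1 r1 hr1).2 (hee r1)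
        (by rw [show r1 + e + (r1 - e) = r1 + r1 by ring]; exact hS')
      rw [show r1 + e + (r1 - e) = r1 + r1 by ring, ← hz] at g2
      apply hne r1 hr1 _ hr2
      rw [add_sub_cancel_right, sub_eq_sub_iff_add_eq_add]
      exact g2.symm
    · obtain rfl : r1 = r2 + e := by rw [← neg_neg e, ← h]; ring
      have hS' : r2 + r2 ∈ S := by
        rw [show r2 + r2 = r2 + e + r2 - e by ring]; exact hS
      have g1 := (hin1 _ hr1).2
      rw [add_sub_cancel_right] at g1
      refine ⟨r2, ⟨(hin2 r2 hr2).1, g1, hS', ?_⟩, by ring⟩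
      intro hz
      have g2 := hrel (r2 + e) (hin1 _ hr1).1 (r2 - e) (hin2 r2 hr2).2 (hee r2)
        (by rw [show r2 + e + (r2 - e) = r2 + r2 by ring]; exact hS')
      rw [show r2 + e + (r2 - e) = r2 + r2 by ring, ← hz] at g2
      apply hne _ hr1 r2 hr2
      rw [add_sub_cancel_right, sub_eq_sub_iff_add_eq_add]
      exact g2
  have hW : 2 < ((V1 + V2).filter (fun w => w - e ∈ S)).card := by
    have h3 := ZMod.cauchy_davenport hq h1 h2
    rw [min_eq_right (by omega)] at h3
    have h4 := card_filter_add_card_filter_not (s := V1 + V2) (fun w => w - e ∈ S)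
    have h5 : ((V1 + V2).filter (fun w => ¬ w - e ∈ S)).card ≤ (Sᶜ).card := by
      have : (V1 + V2).filter (fun w => ¬ w - e ∈ S) ⊆ (Sᶜ).image (fun w => w + e) := by
        intro w hw
        rw [mem_filter] at hw
        rw [mem_image]
        exact ⟨w - e, mem_compl.2 hw.2, by ring⟩
      exact (card_le_card this).trans card_image_le
    omega
  obtain ⟨w1, hw1, w2, hw2, w3, hw3, n12, n13, n23⟩ := Finset.two_lt_card.1 hW
  obtain ⟨r1, f1, g1⟩ := hfail w1 hw1
  obtain ⟨r2, f2, g2⟩ := hfail w2 hw2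
  obtain ⟨r3, f3, g3⟩ := hfail w3 hw3
  have m12 : r1 ≠ r2 := by
    rintro rfl; apply n12; linear_combination g2 - g1
  have m13 : r1 ≠ r3 := by
    rintro rfl; apply n13; linear_combination g3 - g1
  have m23 : r2 ≠ r3 := by
    rintro rfl; apply n23; linear_combination g3 - g2
  have hst : ∀ r, F r → ∃ d : ZMod q,
      Xᶜ = (range (Xᶜ).card).image (fun i : ℕ => r + ((i : ZMod q) + 1) * d) ∧
      Yᶜ = (range (Yᶜ).card).image (fun i : ℕ => r + ((i : ZMod q) + 1) * d) := by
    intro r hr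
    exact F_struct hV hq2 X Y S ξ η ζ hcard hrel hx hy r hr.1 hr.2.1 hr.2.2.1 hr.2.2.2
  rcases hxy with h | h
  · exact ap_contra hq2 (Xᶜ) h (by omega) F (fun r hr => (hst r hr).imp fun d hd => hd.1)
      r1 r2 r3 f1 f2 f3 m12 m13 m23
  · exact ap_contra hq2 (Yᶜ) h (by omega) F (fun r hr => (hst r hr).imp fun d hd => hd.2)
      r1 r2 r3 f1 f2 f3 m12 m13 m23

end AF

open AF in
theorem stmt_aff (hK : Stmt_Kneser.{u}) (hV : Stmt_V.{0}) : Stmt_Aff.{u} := by
  intro q _ G _ _ X Y S ξ η ζ hcard hrel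
  classical
  have hq : q.Prime := Fact.out
  have : NeZero q := ⟨hq.ne_zero⟩
  have hq2 : q ≠ 2 := by omega
  have cX := card_compl_add_card X
  have cY := card_compl_add_card Y
  rw [ZMod.card] at cX cY
  by_cases hall : ∀ e : ZMod q, ∀ r ∈ X.filter (fun r => r - e ∈ Y),
      ∀ r' ∈ X.filter (fun r => r - e ∈ Y), ξ r - η (r - e) = ξ r' - η (r' - e)
  · apply A1 hK X Y ξ η (by omega)
    intro e r hr hr1 r' hr' hr1'
    exact hall e r (mem_filter.2 ⟨hr, hr1⟩) r' (mem_filter.2 ⟨hr', hr1'⟩)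
  · obtain ⟨e, hce⟩ := not_forall.1 hall
    obtain ⟨he, heq, hdis, V1, V2, hU, hD, h1, h2, hc, hno, hne⟩ :=
      nonconst hq2 X Y S ξ η ζ hcard hrel e hce
    rcases Nat.lt_or_ge (Sᶜ).card 2 with hs | hs
    · exact (case_s hq2 S V1 V2 e (by omega) h1 h2 hc hno).elim
    rcases Nat.eq_zero_or_pos (Xᶜ).card with hx | hx
    · exact case_x0 hK X Y S ξ η ζ hcard hrel hx (by omega)
    rcases Nat.eq_zero_or_pos (Yᶜ).card with hy | hy
    · obtain ⟨φ, p1, p2⟩ := case_x0 hK Y X S η ξ ζ (by omega) (by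
        intro v hv u hu hvu hS
        rw [add_comm (η v), add_comm v]
        exact hrel u hu v hv (Ne.symm hvu) (by rw [add_comm]; exact hS)) hy (by omega)
      exact ⟨φ, p2, p1⟩
    by_cases hxy : 2 ≤ (Xᶜ).card ∨ 2 ≤ (Yᶜ).card
    · exact (case_F hV hq2 X Y S ξ η ζ hcard hrel hx hy hxy e he V1 V2 hU h1 h2 hc hno hne).elim
    · rw [not_or] at hxy
      exact case_x1 hK X Y S ξ η ζ hcard hrel (by omega) (by omega)

end Pool.Agent.Work.MP_59976d_co
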