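import Pool.Agent.Work.MP_59976d_co_odd.Basic

/-!
Block LC: fibres over a subgroup of prime order.
-/

namespace Pool.Agent.Work.MP_59976d_co

open Finset
open scoped Pointwise

universe u

/-- A subgroup of prime order is the image of an injective homomorphism from `ZMod p`. -/
lemma exists_zmod_hom {G : Type*} [AddCommGroup G] (L : AddSubgroup G)
    (hL : (Nat.card L).Prime) :
    ∃ f : ZMod (Nat.card L) →+ G, Function.Injective f ∧ ∀ g : G, g ∈ L ↔ ∃ t, f t = g := by
  have : Fact (Nat.card L).Prime := ⟨hL⟩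
  have hc : IsAddCyclic L := isAddCyclic_of_prime_card (p := Nat.card L) rfl
  let e : ZMod (Nat.card L) ≃+ L := zmodAddCyclicAddEquiv hc
  refine ⟨L.subtype.comp e.toAddMonoidHom, ?_, ?_⟩
  · exact (AddSubgroup.subtype_injective L).comp e.injective
  · intro g
    constructor
    · intro hg
      refine ⟨e.symm ⟨g, hg⟩, ?_⟩
      simp
    · rintro ⟨t, rfl⟩
      simp

/-- The pull-back of a finset along `t ↦ g + f t`. -/
def pullf {G : Type*} [AddCommGroup G] [DecidableEq G] {p : ℕ} [NeZero p] (f : ZMod p →+ G)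
    (g : G) (A : Finset G) : Finset (ZMod p) := univ.filter (fun t => g + f t ∈ A)

lemma mem_pullf {G : Type*} [AddCommGroup G] [DecidableEq G] {p : ℕ} [NeZero p]
    {f : ZMod p →+ G} {g : G} {A : Finset G} {t : ZMod p} : t ∈ pullf f g A ↔ g + f t ∈ A := by
  simp [pullf]

lemma card_pullf {G : Type*} [AddCommGroup G] [DecidableEq G] {p : ℕ} [NeZero p]
    {f : ZMod p →+ G} (hf : Function.Injective f) {L : AddSubgroup G}
    (hL : ∀ g : G, g ∈ L ↔ ∃ t, f t = g) (g : G) (A : Finset G) :
    (pullf f g A).card = (part L A (QuotientAddGroup.mk g)).card := by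
  have h : part L A (QuotientAddGroup.mk g) = (pullf f g A).image (fun t => g + f t) := by
    ext a
    rw [mem_part, mem_image]
    constructor
    · rintro ⟨ha, hag⟩
      rw [eq_comm, QuotientAddGroup.eq] at hag
      obtain ⟨t, ht⟩ := (hL _).1 hag
      refine ⟨t, mem_pullf.2 ?_, ?_⟩
      · rw [ht, add_neg_cancel_left]; exact ha
      · rw [ht, add_neg_cancel_left]
    · rintro ⟨t, ht, rfl⟩
      refine ⟨mem_pullf.1 ht, ?_⟩
      rw [eq_comm, QuotientAddGroup.eq]
      rw [neg_add_cancel_left]
      exact (hL _).2 ⟨t, rfl⟩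
  rw [h, card_image_of_injective]
  intro s t hst
  exact hf (add_left_cancel hst)

/-- Cauchy-Davenport for the parts over two different cosets of a subgroup of prime order. -/
lemma part_cd {G : Type*} [AddCommGroup G] [DecidableEq G] (L : AddSubgroup G)
    (hL : (Nat.card L).Prime) (A B : Finset G) (i j : G ⧸ L) (hij : i ≠ j)
    (hi : 1 ≤ (part L A i).card) (hj : 1 ≤ (part L B j).card) :
    min (Nat.card L) ((part L A i).card + (part L B j).card - 1) ≤
      (part L (rs A B) (i + j)).card := by
  have : Fact (Nat.card L).Prime := ⟨hL⟩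
  obtain ⟨f, hf, hfL⟩ := exists_zmod_hom L hL
  obtain ⟨g, rfl⟩ := QuotientAddGroup.mk_surjective i
  obtain ⟨g', rfl⟩ := QuotientAddGroup.mk_surjective j
  rw [← card_pullf hf hfL, ← card_pullf hf hfL, ← QuotientAddGroup.mk_add,
    ← card_pullf hf hfL (g + g')] at *
  refine (ZMod.cauchy_davenport hL (card_pos.1 hi) (card_pos.1 hj)).trans ?_
  apply card_le_card
  intro z hz
  rw [mem_add] at hz
  obtain ⟨s, hs, t, ht, rfl⟩ := hz
  rw [mem_pullf] at hs ht ⊢
  rw [mem_rs]
  refine ⟨g + f s, hs, g' + f t, ht, ?_, ?_⟩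
  · intro h
    apply hij
    rw [QuotientAddGroup.eq, hfL]
    refine ⟨s - t, ?_⟩
    rw [map_sub]
    have : f s = -g + g' + f t := by
      rw [add_assoc, ← h, neg_add_cancel_left]
    rw [this]; abel
  · rw [map_add]; abel

/-- The restricted version for one coset. -/
lemma part_anr {G : Type*} [AddCommGroup G] [DecidableEq G] (L : AddSubgroup G)
    (hL : (Nat.card L).Prime) (hL2 : Nat.card L ≠ 2) (A B : Finset G) (i : G ⧸ L)
    (hi : 1 ≤ (part L A i).card) (hj : 1 ≤ (part L B i).card) :
    Nat.card L ≤ (part L (rs A B) (i + i)).card ∨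
      (part L A i).card + (part L B i).card ≤ (part L (rs A B) (i + i)).card + 2 +
        (if (part L A i).card = (part L B i).card then 1 else 0) := by
  have : Fact (Nat.card L).Prime := ⟨hL⟩
  obtain ⟨f, hf, hfL⟩ := exists_zmod_hom L hL
  obtain ⟨g, rfl⟩ := QuotientAddGroup.mk_surjective i
  rw [← card_pullf hf hfL] at hi hj
  rw [← card_pullf hf hfL, ← card_pullf hf hfL, ← QuotientAddGroup.mk_add,
    ← card_pullf hf hfL (g + g)]
  have h1 := anr' (Nat.card L) hL2 (pullf f g A) (pullf f g B) (card_pos.1 hi) (card_pos.1 hj)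
  have h2 : (rs (pullf f g A) (pullf f g B)).card ≤ (pullf f (g + g) (rs A B)).card := by
    apply card_le_card
    intro z hz
    rw [mem_rs] at hz
    obtain ⟨s, hs, t, ht, hne, rfl⟩ := hz
    rw [mem_pullf] at hs ht ⊢
    rw [mem_rs]
    refine ⟨g + f s, hs, g + f t, ht, fun h => hne (hf (add_left_cancel h)), ?_⟩
    rw [map_add]; abel
  rcases h1 with h1 | h1
  · left; omega
  · right; omega

lemma no_two_torsion {G : Type*} [AddCommGroup G] [Finite G] (hG : Odd (Nat.card G)) (x : G)
    (hx : x + x = 0) : x = 0 := by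
  have h1 : addOrderOf x ∣ 2 := by
    rw [addOrderOf_dvd_iff_nsmul_eq_zero, two_nsmul]; exact hx
  have h2 : addOrderOf x ∣ Nat.card G := addOrderOf_dvd_natCard x
  rcases (Nat.dvd_prime Nat.prime_two).1 h1 with h | h
  · exact AddMonoid.addOrderOf_eq_one_iff.1 h
  · rw [h] at h2
    obtain ⟨k, hk⟩ := hG
    omega

/-- Block LC. -/
theorem stmt_LCase (hLV1 : Stmt_Level1.{u}) (hLV0 : Stmt_Level0.{u}) : Stmt_LCase.{u} := by
  intro G _ _ _ hodd L hL hR A B _ hF i j hi hj
  classical
  have hQodd : Odd (Nat.card (G ⧸ L)) := hodd.of_dvd_nat L.card_quotient_dvd_card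
  have hLodd : Odd (Nat.card L) := hodd.of_dvd_nat L.card_addSubgroup_dvd_card
  have hL2 : Nat.card L ≠ 2 := by
    intro h
    rw [h] at hLodd
    exact absurd hLodd (by decide)
  by_cases hij : i = j
  swap
  · exact part_cd L hL A B i j hij hi hj
  subst hij
  by_contra hlt
  have : Fintype (G ⧸ L) := Fintype.ofFinite _
  set p := Nat.card L with hp
  set α : G ⧸ L → ℕ := fun x => (part L A x).card with hα
  set β : G ⧸ L → ℕ := fun x => (part L B x).card with hβ
  set γ : G ⧸ L → ℕ := fun x => (part L (rs A B) x).card with hγ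
  have F1 : ∀ x y, x ≠ y → 1 ≤ α x → 1 ≤ β y → min p (α x + β y - 1) ≤ γ (x + y) :=
    fun x y hxy hx hy => part_cd L hL A B x y hxy hx hy
  have F2 : ∀ x, 1 ≤ α x → 1 ≤ β x → p ≤ γ (x + x) ∨
      α x + β x ≤ γ (x + x) + 2 + (if α x = β x then 1 else 0) :=
    fun x hx hy => part_anr L hL hL2 A B x hx hy
  have hαp : ∀ x, α x ≤ p := fun x => card_part_le L A x
  have hβp : ∀ x, β x ≤ p := fun x => card_part_le L B x
  have hA : A.card = ∑ x, α x := card_eq_sum_part L A
  have hB : B.card = ∑ x, β x := card_eq_sum_part L B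
  have hC : (rs A B).card = ∑ x, γ x := card_eq_sum_part L (rs A B)
  have htor : ∀ x : G ⧸ L, x + x = 0 → x = 0 := fun x => no_two_torsion hQodd x
  -- recentering
  have shift : ∀ (φ : G ⧸ L → ℕ) (k : G ⧸ L),
      φ k + ∑ x ∈ univ.erase (0 : G ⧸ L), φ (x + k) = ∑ x, φ x := by
    intro φ k
    rw [← Equiv.sum_comp (Equiv.addRight k) φ, ← Finset.add_sum_erase univ _ (mem_univ (0 : G ⧸ L))]
    simp
  have final : ∀ k : G ⧸ L, γ (k + k) + 3 < α k + β k +
      (∑ x ∈ univ.erase (0 : G ⧸ L), (α (x + k) + β (x + k)) -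
        ∑ x ∈ univ.erase (0 : G ⧸ L), γ (x + (k + k))) ∨
      (∑ x ∈ univ.erase (0 : G ⧸ L), (α (x + k) + β (x + k)) <
        ∑ x ∈ univ.erase (0 : G ⧸ L), γ (x + (k + k))) ∧
      γ (k + k) + 4 + ∑ x ∈ univ.erase (0 : G ⧸ L), γ (x + (k + k)) ≤
        α k + β k + ∑ x ∈ univ.erase (0 : G ⧸ L), (α (x + k) + β (x + k)) := by
    intro k
    have h1 := shift α k
    have h2 := shift β k
    have h3 := shift γ (k + k)
    rw [sum_add_distrib]
    omega
  by_cases hex : ∃ k, 1 ≤ α k ∧ 1 ≤ β k ∧ γ (k + k) < p ∧ γ (k + k) + 3 = α k + β k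
  · obtain ⟨k, hk1, hk2, hk3, hk4⟩ := hex
    have hk5 := F2 k hk1 hk2
    have hk6 : α k = β k := by
      rcases hk5 with h | h
      · omega
      · by_contra hne
        rw [if_neg hne] at h
        omega
    have hk7 : γ (k + k) + 2 ≤ p := by
      obtain ⟨m, hm⟩ := hLodd
      omega
    have h := hLV1 (G ⧸ L) hR htor p (fun x => α (x + k)) (fun x => β (x + k))
      (fun x => γ (x + (k + k))) (fun x => hαp _) (fun x => hβp _)
      (by simp only [zero_add]; omega) (by simp only [zero_add]; omega)
      (by simp only [zero_add]; omega) (by simp only [zero_add]; omega)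
      (fun x y hxy hx hy => by
        have := F1 (x + k) (y + k) (fun h => hxy (add_right_cancel h)) hx hy
        have e : x + k + (y + k) = x + y + (k + k) := by abel
        rw [e] at this
        exact this)
      (fun x _ hx hy => by
        have := F2 (x + k) hx hy
        have e : x + k + (x + k) = x + x + (k + k) := by abel
        rw [e] at this
        show min p (α (x + k) + β (x + k) - 3) ≤ γ (x + x + (k + k))
        rcases this with h | h
        · omega
        · split_ifs at h <;> omega)
    have h' := final k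
    omega
  · push Not at hex
    have hlt' : γ (i + i) < min p (α i + β i - 1) := not_le.1 hlt
    have hi' : 1 ≤ α i := hi
    have hj' : 1 ≤ β i := hj
    have F3 : ∀ x, 1 ≤ α x → 1 ≤ β x → min p (α x + β x - 2) ≤ γ (x + x) := by
      intro x hx hy
      by_contra hlt3
      have h1 := F2 x hx hy
      have h2 := hex x hx hy (by omega)
      rcases h1 with h | h
      · omega
      · split_ifs at h <;> omega
    have h3 := F3 i hi' hj'
    have h := hLV0 (G ⧸ L) hR htor p (fun x => α (x + i)) (fun x => β (x + i))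
      (fun x => γ (x + (i + i))) (fun x => hαp _) (fun x => hβp _)
      (by simp only [zero_add]; omega) (by simp only [zero_add]; omega)
      (by simp only [zero_add]; omega) (by simp only [zero_add]; omega)
      (fun x y hxy hx hy => by
        have := F1 (x + i) (y + i) (fun h => hxy (add_right_cancel h)) hx hy
        have e : x + i + (y + i) = x + y + (i + i) := by abel
        rw [e] at this
        exact this)
      (fun x _ hx hy => by
        have := F3 (x + i) hx hy
        have e : x + i + (x + i) = x + x + (i + i) := by abel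
        rw [e] at this
        exact this)
    have h' := final i
    omega

end Pool.Agent.Work.MP_59976d_co
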