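import Pool.Agent.Work.MP_59976d_co_odd.LC

/-!
Block NL: the level of a subgroup of odd prime index.
-/

namespace Pool.Agent.Work.MP_59976d_co

open Finset
open scoped Pointwise

universe u

/-- `Stmt_NLevel` with the hypothesis on the parts only for nonempty parts. -/
def Stmt_NLevel' : Prop :=
  ∀ (G : Type u) [AddCommGroup G] [Fintype G] [DecidableEq G] (N : AddSubgroup G)
    [Fintype (G ⧸ N)], (Nat.card (G ⧸ N)).Prime → Nat.card (G ⧸ N) ≠ 2 →
    ∀ (A B : Finset G), A.Nonempty → B.Nonempty → SS A B →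
      (rs A B).card + 4 ≤ A.card + B.card →
      (∀ u : G ⧸ N, 1 ≤ (part N A u).card → 1 ≤ (part N B u).card →
        (part N A u).card + (part N B u).card ≤
        (rs (part N A u) (part N B u)).card + 3) →
      ∃ a b : ℕ, 1 ≤ a ∧ 1 ≤ b ∧ (∀ u, (part N A u).card ≤ a) ∧ (∀ u, (part N B u).card ≤ b) ∧
        (∀ w, a + b - 1 ≤ (part N (rs A B) w).card) ∧
        ∑ u, (a - (part N A u).card) + ∑ u, (b - (part N B u).card) +
          ∑ w, ((part N (rs A B) w).card - (a + b - 1)) + 4 ≤ Nat.card (G ⧸ N)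

/-- Numerical consequence of the level lemmas: there are no lost classes. -/
lemma no_lost (hLV1 : Stmt_Level1.{u}) (hLV0 : Stmt_Level0.{u}) (R : Type u) [AddCommGroup R]
    [Fintype R] [DecidableEq R] (hR : RestrictedScherk R) (htor : ∀ x : R, x + x = 0 → x = 0)
    (P : ℕ) (α β γ : R → ℕ) (hα : ∀ i, α i ≤ P) (hβ : ∀ i, β i ≤ P)
    (F1 : ∀ x y, x ≠ y → 1 ≤ α x → 1 ≤ β y → min P (α x + β y - 1) ≤ γ (x + y))
    (F2 : ∀ x, 1 ≤ α x → 1 ≤ β x → min P (α x + β x - 3) ≤ γ (x + x))
    (F2' : ∀ x, 1 ≤ α x → 1 ≤ β x → γ (x + x) < P → γ (x + x) + 3 = α x + β x →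
      2 ≤ α x ∧ 2 ≤ β x ∧ γ (x + x) + 2 ≤ P)
    (hF : ∑ x, γ x + 4 ≤ ∑ x, α x + ∑ x, β x) :
    ∀ x, 1 ≤ α x → 1 ≤ β x → min P (α x + β x - 1) ≤ γ (x + x) := by
  intro i hi hj
  by_contra hlt
  have shift : ∀ (φ : R → ℕ) (k : R),
      φ k + ∑ x ∈ univ.erase (0 : R), φ (x + k) = ∑ x, φ x := by
    intro φ k
    rw [← Equiv.sum_comp (Equiv.addRight k) φ, ← Finset.add_sum_erase univ _ (mem_univ (0 : R))]
    simp
  by_cases hex : ∃ k, 1 ≤ α k ∧ 1 ≤ β k ∧ γ (k + k) < P ∧ γ (k + k) + 3 = α k + β k
  · obtain ⟨k, hk1, hk2, hk3, hk4⟩ := hex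
    obtain ⟨hk5, hk6, hk7⟩ := F2' k hk1 hk2 hk3 hk4
    have h := hLV1 R hR htor P (fun x => α (x + k)) (fun x => β (x + k))
      (fun x => γ (x + (k + k))) (fun x => hα _) (fun x => hβ _)
      (by simp only [zero_add]; omega) (by simp only [zero_add]; omega)
      (by simp only [zero_add]; omega) (by simp only [zero_add]; omega)
      (fun x y hxy hx hy => by
        have := F1 (x + k) (y + k) (fun h => hxy (add_right_cancel h)) hx hy
        have e : x + k + (y + k) = x + y + (k + k) := by abel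
        rw [e] at this
        exact this)
      (fun x _ hx hy => by
        have := F2 (x + k) hx hy
        have e : x + k + (x + k) = x + x + (k + k) := by abel
        rw [e] at this
        exact this)
    have h1 := shift α k
    have h2 := shift β k
    have h3 := shift γ (k + k)
    rw [sum_add_distrib] at h
    omega
  · push Not at hex
    have hlt' : γ (i + i) < min P (α i + β i - 1) := not_le.1 hlt
    have F3 : ∀ x, 1 ≤ α x → 1 ≤ β x → min P (α x + β x - 2) ≤ γ (x + x) := by
      intro x hx hy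
      by_contra hlt3
      have h1 := F2 x hx hy
      have h2 := hex x hx hy (by omega)
      omega
    have h3 := F3 i hi hj
    have h := hLV0 R hR htor P (fun x => α (x + i)) (fun x => β (x + i))
      (fun x => γ (x + (i + i))) (fun x => hα _) (fun x => hβ _)
      (by simp only [zero_add]; omega) (by simp only [zero_add]; omega)
      (by simp only [zero_add]; omega) (by simp only [zero_add]; omega)
      (fun x y hxy hx hy => by
        have := F1 (x + i) (y + i) (fun h => hxy (add_right_cancel h)) hx hy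
        have e : x + i + (y + i) = x + y + (i + i) := by abel
        rw [e] at this
        exact this)
      (fun x _ hx hy => by
        have := F3 (x + i) hx hy
        have e : x + i + (x + i) = x + x + (i + i) := by abel
        rw [e] at this
        exact this)
    have h1 := shift α i
    have h2 := shift β i
    have h3 := shift γ (i + i)
    rw [sum_add_distrib] at h
    omega

lemma eq_top_of_two_le_card {Z : Type*} [AddCommGroup Z] (hZ : (Nat.card Z).Prime)
    (K : AddSubgroup Z) (hK : 2 ≤ Nat.card K) : K = ⊤ := by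
  have hfin : Finite Z := Nat.finite_of_card_ne_zero hZ.ne_zero
  have h1 : Nat.card K ∣ Nat.card Z := K.card_addSubgroup_dvd_card
  rcases (Nat.dvd_prime hZ).1 h1 with h | h
  · omega
  · exact AddSubgroup.eq_top_of_card_eq K h

/-- Block NL. -/
theorem stmt_NLevel' (hCDH : Stmt_CDH.{u}) (hLV1 : Stmt_Level1.{u}) (hLV0 : Stmt_Level0.{u})
    (hST : Stmt_Struct.{u}) : Stmt_NLevel'.{u} := by
  intro G _ _ _ N _ hq hq2 A B hA hB hSS hF hparts
  classical
  have hZS : RestrictedScherk (G ⧸ N) := by
    apply prime_exponent (Nat.card (G ⧸ N)) hq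
    intro g _
    exact card_nsmul_eq_zero'
  have hZodd : Odd (Nat.card (G ⧸ N)) := hq.odd_of_ne_two hq2
  have htor : ∀ x : G ⧸ N, x + x = 0 → x = 0 := fun x => no_two_torsion hZodd x
  set P := 2 * Fintype.card G + 5 with hP
  set α : G ⧸ N → ℕ := fun x => (part N A x).card with hα
  set β : G ⧸ N → ℕ := fun x => (part N B x).card with hβ
  set γ : G ⧸ N → ℕ := fun x => (part N (rs A B) x).card with hγ
  have hle : ∀ (X : Finset G) (x : G ⧸ N), (part N X x).card ≤ Fintype.card G :=
    fun X x => (card_le_univ _)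
  have hαP : ∀ x, α x ≤ Fintype.card G := fun x => hle A x
  have hβP : ∀ x, β x ≤ Fintype.card G := fun x => hle B x
  have hγP : ∀ x, γ x ≤ Fintype.card G := fun x => hle _ x
  have sA : A.card = ∑ x, α x := card_eq_sum_part N A
  have sB : B.card = ∑ x, β x := card_eq_sum_part N B
  have sC : (rs A B).card = ∑ x, γ x := card_eq_sum_part N (rs A B)
  have F1 : ∀ x y, x ≠ y → 1 ≤ α x → 1 ≤ β y → α x + β y ≤ γ (x + y) + 1 := by
    intro x y hxy hx hy
    have h1 := (hCDH G (part N A x) (part N B y)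
      (hSS.mono (part_subset N A x) (part_subset N B y)) (card_pos.1 hx) (card_pos.1 hy)).1
    have h2 := card_le_card (part_add_part_subset hxy A B)
    show (part N A x).card + (part N B y).card ≤ (part N (rs A B) (x + y)).card + 1
    omega
  have F2 : ∀ x, 1 ≤ α x → 1 ≤ β x → α x + β x ≤ γ (x + x) + 3 := by
    intro x hx hy
    have h1 := hparts x hx hy
    have h2 := card_le_card (rs_part_part_subset x A B)
    show (part N A x).card + (part N B x).card ≤ (part N (rs A B) (x + x)).card + 3
    omega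
  -- one of the parts is a singleton
  have F2' : ∀ x, 1 ≤ α x → 1 ≤ β x → γ (x + x) + 3 = α x + β x → 2 ≤ α x ∧ 2 ≤ β x := by
    intro x hx hy h3
    have h2 := card_le_card (rs_part_part_subset x A B)
    have h4 : (rs (part N A x) (part N B x)).card ≤ γ (x + x) := h2
    constructor
    · by_contra hlt
      have h5 : (part N A x).card = 1 := by
        have h6 : 1 ≤ (part N A x).card := hx
        have h7 : ¬ 2 ≤ (part N A x).card := hlt
        omega
      obtain ⟨a, ha⟩ := card_eq_one.1 h5
      have h6 : ((part N B x).erase a).card ≤ (rs (part N A x) (part N B x)).card := by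
        rw [← card_image_add ((part N B x).erase a) a]
        apply card_le_card
        intro z hz
        rw [mem_image] at hz
        obtain ⟨b, hb, rfl⟩ := hz
        rw [mem_erase] at hb
        exact mem_rs.2 ⟨a, by rw [ha]; exact mem_singleton_self a, b, hb.2, hb.1.symm, rfl⟩
      have h7 : (part N B x).card - 1 ≤ ((part N B x).erase a).card := pred_card_le_card_erase
      have h8 : (part N B x).card = β x := rfl
      have h9 : α x = 1 := h5
      omega
    · by_contra hlt
      have h5 : (part N B x).card = 1 := by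
        have h6 : 1 ≤ (part N B x).card := hy
        have h7 : ¬ 2 ≤ (part N B x).card := hlt
        omega
      obtain ⟨b, hb⟩ := card_eq_one.1 h5
      have h6 : ((part N A x).erase b).card ≤ (rs (part N A x) (part N B x)).card := by
        rw [← card_image_add ((part N A x).erase b) b]
        apply card_le_card
        intro z hz
        rw [mem_image] at hz
        obtain ⟨a, ha, rfl⟩ := hz
        rw [mem_erase] at ha
        exact mem_rs.2 ⟨a, ha.2, b, by rw [hb]; exact mem_singleton_self b, ha.1, add_comm _ _⟩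
      have h7 : (part N A x).card - 1 ≤ ((part N A x).erase b).card := pred_card_le_card_erase
      have h8 : (part N A x).card = α x := rfl
      have h9 : β x = 1 := h5
      omega
  have G2 := no_lost hLV1 hLV0 (G ⧸ N) hZS htor P α β γ
    (fun i => by have := hαP i; omega) (fun i => by have := hβP i; omega)
    (fun x y hxy hx hy => by have := F1 x y hxy hx hy; omega)
    (fun x hx hy => by have := F2 x hx hy; omega)
    (fun x hx hy _ h => by
      have h1 := F2' x hx hy h
      have h2 := hγP (x + x)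
      exact ⟨h1.1, h1.2, by omega⟩)
    (by rw [← sA, ← sB, ← sC]; exact hF)
  have G3 : ∀ x y, 1 ≤ α x → 1 ≤ β y → α x + β y ≤ γ (x + y) + 1 := by
    intro x y hx hy
    by_cases hxy : x = y
    · subst hxy
      have h1 := G2 x hx hy
      have h2 := hαP x
      have h3 := hβP x
      omega
    · exact F1 x y hxy hx hy
  -- translate so that the classes `0` are nonempty
  obtain ⟨a₀, ha₀⟩ := hA
  obtain ⟨b₀, hb₀⟩ := hB
  set u₀ : G ⧸ N := QuotientAddGroup.mk a₀ with hu₀
  set v₀ : G ⧸ N := QuotientAddGroup.mk b₀ with hv₀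
  have hu : 1 ≤ α u₀ := card_part_pos N ha₀
  have hv : 1 ≤ β v₀ := card_part_pos N hb₀
  have sumshift : ∀ (φ : G ⧸ N → ℕ) (k : G ⧸ N), ∑ x, φ (x + k) = ∑ x, φ x :=
    fun φ k => Equiv.sum_comp (Equiv.addRight k) φ
  obtain ⟨K, m, m', g, hH, -⟩ := hST (G ⧸ N) P (fun x => α (x + u₀)) (fun x => β (x + v₀))
    (fun x => γ (x + (u₀ + v₀))) (fun i => by have := hαP (i + u₀); omega)
    (fun i => by have := hβP (i + v₀); omega) (by simpa using hu) (by simpa using hv)
    (by have := hγP (0 + (u₀ + v₀)); omega)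
    (fun i j hi hj => by
      have h1 := G3 (i + u₀) (j + v₀) hi hj
      have e : i + u₀ + (j + v₀) = i + j + (u₀ + v₀) := by abel
      rw [e] at h1
      show min P (α (i + u₀) + β (j + v₀) - 1) ≤ γ (i + j + (u₀ + v₀))
      omega)
    (by rw [sumshift α, sumshift β, sumshift γ]; omega)
  have t1 : ∑ x, α (x + u₀) = A.card := by rw [sumshift α, sA]
  have t2 : ∑ x, β (x + v₀) = B.card := by rw [sumshift β, sB]
  have t3 : ∑ x, γ (x + (u₀ + v₀)) = (rs A B).card := by rw [sumshift γ, sC]
  have l1 : ∑ x, α (x + u₀) ≤ ∑ x, m x := sum_le_sum fun x _ => hH.le_m x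
  have l2 : ∑ x, β (x + v₀) ≤ ∑ x, m' x := sum_le_sum fun x _ => hH.le_m' x
  have l3 : ∑ x, g x ≤ ∑ x, γ (x + (u₀ + v₀)) := sum_le_sum fun x _ => hH.g_le x
  have htot := hH.total
  have hKcard : 4 ≤ Nat.card K := by omega
  have hKtop : K = ⊤ := eq_top_of_two_le_card hq K (by omega)
  have hcK : Nat.card K = Nat.card (G ⧸ N) := by rw [hKtop]; exact AddSubgroup.card_top
  have cm : ∀ x, m x = m 0 := fun x => by
    have := hH.per_m x (by rw [hKtop]; trivial) 0
    rwa [add_zero] at this
  have cm' : ∀ x, m' x = m' 0 := fun x => by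
    have := hH.per_m' x (by rw [hKtop]; trivial) 0
    rwa [add_zero] at this
  have cg : ∀ x, g x = g 0 := fun x => by
    have := hH.per_g x (by rw [hKtop]; trivial) 0
    rwa [add_zero] at this
  have sm : ∑ x, m x = Nat.card (G ⧸ N) * m 0 := by
    rw [sum_congr rfl (fun x _ => cm x), sum_const, card_univ, ← Nat.card_eq_fintype_card,
      smul_eq_mul]
  have sm' : ∑ x, m' x = Nat.card (G ⧸ N) * m' 0 := by
    rw [sum_congr rfl (fun x _ => cm' x), sum_const, card_univ, ← Nat.card_eq_fintype_card,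
      smul_eq_mul]
  have sg : ∑ x, g x = Nat.card (G ⧸ N) * g 0 := by
    rw [sum_congr rfl (fun x _ => cg x), sum_const, card_univ, ← Nat.card_eq_fintype_card,
      smul_eq_mul]
  have hm0 : 1 ≤ m 0 := by
    have := hH.le_m 0
    simp only [zero_add] at this
    omega
  have hm'0 : 1 ≤ m' 0 := by
    have := hH.le_m' 0
    simp only [zero_add] at this
    omega
  have hsum : m 0 + m' 0 = g 0 + 1 := by
    have h1 : Nat.card (G ⧸ N) * (m 0 + m' 0) = Nat.card (G ⧸ N) * (g 0 + 1) := by
      rw [mul_add, mul_add, mul_one, ← sm, ← sm', ← sg, htot, hcK]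
    exact Nat.eq_of_mul_eq_mul_left hq.pos h1
  have ga : ∀ u, α u ≤ m 0 := fun u => by
    have := hH.le_m (u - u₀)
    simp only [sub_add_cancel] at this
    rw [cm] at this
    exact this
  have gb : ∀ u, β u ≤ m' 0 := fun u => by
    have := hH.le_m' (u - v₀)
    simp only [sub_add_cancel] at this
    rw [cm'] at this
    exact this
  have gc : ∀ w, g 0 ≤ γ w := fun w => by
    have := hH.g_le (w - (u₀ + v₀))
    simp only [sub_add_cancel] at this
    rw [cg] at this
    exact this
  refine ⟨m 0, m' 0, hm0, hm'0, ga, gb, fun w => ?_, ?_⟩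
  · have h1 := gc w
    show m 0 + m' 0 - 1 ≤ γ w
    omega
  have e1 : ∑ u, (m 0 - α u) + ∑ u, α u = Nat.card (G ⧸ N) * m 0 := by
    rw [← sum_add_distrib, sum_congr rfl (fun x _ => Nat.sub_add_cancel (ga x)), sum_const,
      card_univ, ← Nat.card_eq_fintype_card, smul_eq_mul]
  have e2 : ∑ u, (m' 0 - β u) + ∑ u, β u = Nat.card (G ⧸ N) * m' 0 := by
    rw [← sum_add_distrib, sum_congr rfl (fun x _ => Nat.sub_add_cancel (gb x)), sum_const,
      card_univ, ← Nat.card_eq_fintype_card, smul_eq_mul]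
  have hg0 : m 0 + m' 0 - 1 = g 0 := by omega
  have e3 : ∑ w, (γ w - (m 0 + m' 0 - 1)) + Nat.card (G ⧸ N) * g 0 = ∑ w, γ w := by
    rw [hg0]
    have : Nat.card (G ⧸ N) * g 0 = ∑ w : G ⧸ N, g 0 := by
      rw [sum_const, card_univ, ← Nat.card_eq_fintype_card, smul_eq_mul]
    rw [this, ← sum_add_distrib]
    exact sum_congr rfl (fun x _ => Nat.sub_add_cancel (gc x))
  have e4 : Nat.card (G ⧸ N) * m 0 + Nat.card (G ⧸ N) * m' 0 =
      Nat.card (G ⧸ N) * g 0 + Nat.card (G ⧸ N) := by
    rw [← mul_add, hsum, mul_add, mul_one]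
  show ∑ u, (m 0 - α u) + ∑ u, (m' 0 - β u) + ∑ w, (γ w - (m 0 + m' 0 - 1)) + 4 ≤ _
  omega

theorem stmt_NLevel (hCDH : Stmt_CDH.{u}) (hLV1 : Stmt_Level1.{u}) (hLV0 : Stmt_Level0.{u})
    (hST : Stmt_Struct.{u}) : Stmt_NLevel.{u} := by
  intro G _ _ _ N _ hq hq2 A B hA hB hSS hF hparts
  exact stmt_NLevel' hCDH hLV1 hLV0 hST G N hq hq2 A B hA hB hSS hF (fun u _ _ => hparts u)

end Pool.Agent.Work.MP_59976d_co
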