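import Pool.Agent.Work.MP_59976d_co_odd.Basic

/-!
Structure lemma (ST): Kneser's theorem for interval sets in `Q × ℤ/p`.
-/

set_option linter.unusedSectionVars false

namespace Pool.Agent.Work.MP_59976d_co

open Finset
open scoped Pointwise

universe u

section ST

variable {Q : Type u} [AddCommGroup Q] [Fintype Q] [DecidableEq Q] {p : ℕ} [NeZero p]

/-- The set below the graph of `f`. -/
def Iset (p : ℕ) [NeZero p] (f : Q → ℕ) : Finset (Q × ZMod p) :=
  univ.filter (fun z => z.2.val < f z.1)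

lemma mem_Iset {f : Q → ℕ} {z : Q × ZMod p} : z ∈ Iset p f ↔ z.2.val < f z.1 := by
  unfold Iset
  simp

lemma card_Iset {f : Q → ℕ} (hf : ∀ i, f i ≤ p) : (Iset p f).card = ∑ i, f i := by
  unfold Iset
  rw [card_filter, ← Finset.univ_product_univ, Finset.sum_product]
  apply Finset.sum_congr rfl
  intro i _
  rw [← card_filter]
  have h : (univ.filter (fun w : ZMod p => w.val < f i)).card = (range (f i)).card := by
    apply Finset.card_nbij' (fun w : ZMod p => w.val) (fun n : ℕ => (n : ZMod p))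
    · intro w hw
      simp only [coe_filter, mem_univ, true_and, Set.mem_ofPred_eq] at hw
      simpa using hw
    · intro n hn
      simp only [coe_range, Set.mem_Iio] at hn
      simp only [coe_filter, mem_univ, true_and, Set.mem_ofPred_eq]
      rw [ZMod.val_natCast_of_lt (lt_of_lt_of_le hn (hf i))]
      exact hn
    · intro w _
      simp
    · intro n hn
      simp only [coe_range, Set.mem_Iio] at hn
      exact ZMod.val_natCast_of_lt (lt_of_lt_of_le hn (hf i))
  rw [h, card_range]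

lemma Iset_mono {f f' : Q → ℕ} (h : ∀ i, f i ≤ f' i) : Iset p f ⊆ Iset p f' := by
  intro z hz
  rw [mem_Iset] at hz ⊢
  exact lt_of_lt_of_le hz (h _)

lemma val_add_lt {a b : ℕ} {u v : ZMod p} (hu : u.val < a) (hv : v.val < b) :
    (u + v).val < min p (a + b - 1) := by
  have h1 : (u + v).val ≤ u.val + v.val := by
    rw [ZMod.val_add]
    exact Nat.mod_le _ _
  have h2 := ZMod.val_lt (u + v)
  rw [lt_min_iff]
  omega

/-- The height function of the sumset. -/
noncomputable def gsup (p : ℕ) (α β : Q → ℕ) (t : Q) : ℕ :=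
  univ.sup (fun i => if 1 ≤ α i ∧ 1 ≤ β (t - i) then min p (α i + β (t - i) - 1) else 0)

lemma le_gsup {α β : Q → ℕ} {i j : Q} (hi : 1 ≤ α i) (hj : 1 ≤ β j) :
    min p (α i + β j - 1) ≤ gsup p α β (i + j) := by
  unfold gsup
  have h := Finset.le_sup (f := fun i' => if 1 ≤ α i' ∧ 1 ≤ β (i + j - i') then
    min p (α i' + β (i + j - i') - 1) else 0) (mem_univ i)
  simp only [add_sub_cancel_left] at h
  rw [if_pos ⟨hi, hj⟩] at h
  exact h

lemma gsup_le {α β : Q → ℕ} {t : Q} {c : ℕ}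
    (h : ∀ i j, i + j = t → 1 ≤ α i → 1 ≤ β j → min p (α i + β j - 1) ≤ c) :
    gsup p α β t ≤ c := by
  unfold gsup
  apply Finset.sup_le
  intro i _
  split_ifs with h1
  · exact h i (t - i) (by abel) h1.1 h1.2
  · exact Nat.zero_le _

lemma exists_of_lt_gsup {α β : Q → ℕ} {t : Q} {c : ℕ} (h : c < gsup p α β t) :
    ∃ i j, i + j = t ∧ 1 ≤ α i ∧ 1 ≤ β j ∧ c < min p (α i + β j - 1) := by
  unfold gsup at h
  rw [Finset.lt_sup_iff] at h
  obtain ⟨i, _, hi⟩ := h
  split_ifs at hi with h1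
  · exact ⟨i, t - i, by abel, h1.1, h1.2, hi⟩
  · omega

lemma Iset_add {α β : Q → ℕ} (hα : ∀ i, α i ≤ p) (hβ : ∀ i, β i ≤ p) :
    Iset p α + Iset p β = Iset p (gsup p α β) := by
  ext ⟨t, w⟩
  rw [mem_add]
  constructor
  · rintro ⟨⟨i, u⟩, hi, ⟨j, v⟩, hj, hij⟩
    rw [mem_Iset] at hi hj
    simp only [Prod.mk_add_mk, Prod.mk.injEq] at hij hi hj
    rw [mem_Iset]
    simp only
    rw [← hij.1, ← hij.2]
    exact lt_of_lt_of_le (val_add_lt hi hj) (le_gsup (by omega) (by omega))
  · intro h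
    rw [mem_Iset] at h
    simp only at h
    obtain ⟨i, j, hij, hi, hj, hlt⟩ := exists_of_lt_gsup h
    rw [lt_min_iff] at hlt
    have hai := hα i
    have hbj := hβ j
    refine ⟨(i, ((min w.val (α i - 1) : ℕ) : ZMod p)), ?_,
      (j, ((w.val - min w.val (α i - 1) : ℕ) : ZMod p)), ?_, ?_⟩
    · rw [mem_Iset]
      simp only
      rw [ZMod.val_natCast_of_lt (by omega)]
      omega
    · rw [mem_Iset]
      simp only
      rw [ZMod.val_natCast_of_lt (by omega)]
      omega
    · simp only [Prod.mk_add_mk, Prod.mk.injEq]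
      refine ⟨hij, ?_⟩
      rw [← Nat.cast_add]
      have : min w.val (α i - 1) + (w.val - min w.val (α i - 1)) = w.val := by omega
      rw [this, ZMod.natCast_zmod_val]

/-- The height function of the hull. -/
noncomputable def hsup (K : AddSubgroup Q) (α : Q → ℕ) (i : Q) : ℕ := by
  classical
  exact univ.sup (fun κ => if κ ∈ K then α (κ + i) else 0)

lemma le_hsup {K : AddSubgroup Q} (α : Q → ℕ) {κ : Q} (hκ : κ ∈ K) (i : Q) :
    α (κ + i) ≤ hsup K α i := by
  classical
  unfold hsup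
  have h := Finset.le_sup (f := fun κ => if κ ∈ K then α (κ + i) else 0) (mem_univ κ)
  simp only [if_pos hκ] at h
  exact h

lemma le_hsup_self (K : AddSubgroup Q) (α : Q → ℕ) (i : Q) : α i ≤ hsup K α i := by
  have := le_hsup (K := K) α K.zero_mem i
  rwa [zero_add] at this

lemma hsup_eq (K : AddSubgroup Q) (α : Q → ℕ) (i : Q) :
    ∃ κ ∈ K, hsup K α i = α (κ + i) := by
  classical
  have h0 : ∃ κ ∈ K, hsup K α i ≤ α (κ + i) := by
    by_contra hcon
    push Not at hcon
    have h1 : 0 < hsup K α i := by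
      have := hcon 0 K.zero_mem
      omega
    have h2 : hsup K α i < hsup K α i := by
      conv_lhs => unfold hsup
      rw [Finset.sup_lt_iff h1]
      intro κ _
      split_ifs with hκ
      · exact hcon κ hκ
      · exact h1
    exact lt_irrefl _ h2
  obtain ⟨κ, hκ, h⟩ := h0
  exact ⟨κ, hκ, le_antisymm h (le_hsup α hκ i)⟩

lemma hsup_per (K : AddSubgroup Q) (α : Q → ℕ) {κ : Q} (hκ : κ ∈ K) (i : Q) :
    hsup K α (κ + i) = hsup K α i := by
  apply le_antisymm
  · obtain ⟨κ', hκ', h⟩ := hsup_eq K α (κ + i)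
    rw [h, ← add_assoc]
    exact le_hsup α (K.add_mem hκ' hκ) i
  · obtain ⟨κ', hκ', h⟩ := hsup_eq K α i
    rw [h]
    have := le_hsup α (K.sub_mem hκ' hκ) (κ + i)
    have e : κ' - κ + (κ + i) = κ' + i := by abel
    rwa [e] at this

/-- One item of the second alternative. -/
lemma item (hKn : Stmt_Kneser.{u}) (K : AddSubgroup Q) (m m' g : Q → ℕ)
    (H : AddSubgroup (Q × ZMod p)) (hH : ∀ h, h ∈ H ↔ ∀ z ∈ Iset p g, h + z ∈ Iset p g)
    (hHK : ∀ h : Q × ZMod p, h ∈ H ↔ h.1 ∈ K ∧ h.2 = 0) (hcard : Nat.card H = Nat.card K)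
    (hm : ∀ κ ∈ K, ∀ i, m (κ + i) = m i) (hm' : ∀ κ ∈ K, ∀ i, m' (κ + i) = m' i)
    (hg : ∀ κ ∈ K, ∀ i, g (κ + i) = g i)
    (m_le : ∀ i, m i ≤ p) (m'_le : ∀ i, m' i ≤ p) (g_le : ∀ i, g i ≤ p)
    (add : ∀ i j, 1 ≤ m i → 1 ≤ m' j → min p (m i + m' j - 1) ≤ g (i + j))
    (total : ∑ i, m i + ∑ i, m' i = ∑ i, g i + Nat.card K)
    (hI : Iset p m + Iset p m' = Iset p g) (m0 : 1 ≤ m 0) (m'0 : 1 ≤ m' 0) (g0 : g 0 < p)
    (hne : m 0 + m' 0 ≤ g 0) :
    ∃ y, y ∉ K ∧ 1 ≤ m' y ∧ g y + 1 = m 0 + m' y ∧ g y + 1 ≤ p := by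
  classical
  by_contra hcon
  push Not at hcon
  have hm0p : m 0 < p := by omega
  -- the enlarged set
  set m1 : Q → ℕ := fun i => if i ∈ K then m 0 + 1 else m i with hm1
  have hmK : ∀ i ∈ K, m i = m 0 := by
    intro i hi
    have := hm i hi 0
    rwa [add_zero] at this
  have hm'K : ∀ i ∈ K, m' i = m' 0 := by
    intro i hi
    have := hm' i hi 0
    rwa [add_zero] at this
  have hgK : ∀ i ∈ K, g i = g 0 := by
    intro i hi
    have := hg i hi 0
    rwa [add_zero] at this
  have hmm1 : ∀ i, m i ≤ m1 i := by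
    intro i
    simp only [hm1]
    split_ifs with h
    · rw [hmK i h]; omega
    · exact le_rfl
  have hm1p : ∀ i, m1 i ≤ p := by
    intro i
    simp only [hm1]
    split_ifs with h
    · omega
    · exact m_le i
  have hsum1 : ∑ i, m1 i = ∑ i, m i + Nat.card K := by
    have h1 : ∀ i, m1 i = m i + (if i ∈ K then 1 else 0) := by
      intro i
      simp only [hm1]
      split_ifs with h
      · rw [hmK i h]
      · rfl
    rw [Finset.sum_congr rfl (fun i _ => h1 i), sum_add_distrib, ← card_filter]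
    congr 1
    rw [Nat.card_eq_fintype_card, Fintype.card_subtype]
  have hI1 : Iset p m1 + Iset p m' = Iset p g := by
    apply Subset.antisymm
    · rintro ⟨t, w⟩ htw
      rw [mem_add] at htw
      obtain ⟨⟨i, u⟩, hi, ⟨j, v⟩, hj, hij⟩ := htw
      rw [mem_Iset] at hi hj
      simp only [Prod.mk_add_mk, Prod.mk.injEq] at hij hi hj
      rw [mem_Iset]
      simp only
      rw [← hij.1, ← hij.2]
      have hlt := val_add_lt (p := p) hi hj
      simp only [hm1] at hlt
      by_cases hiK : i ∈ K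
      · rw [if_pos hiK] at hlt
        rw [hg i hiK j]
        by_cases hjK : j ∈ K
        · rw [hm'K j hjK] at hlt
          rw [hgK j hjK]
          rw [lt_min_iff] at hlt
          omega
        · have h1 := hcon j hjK (by omega)
          have h2 := add 0 j m0 (by omega)
          rw [zero_add] at h2
          rw [lt_min_iff] at hlt
          by_cases h3 : g j + 1 = m 0 + m' j
          · have := h1 h3
            omega
          · omega
      · rw [if_neg hiK] at hlt
        have him : m1 i = m i := by simp only [hm1]; rw [if_neg hiK]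
        rw [him] at hi
        exact lt_of_lt_of_le hlt (add i j (by omega) (by omega))
    · rw [← hI]
      exact add_subset_add_right (Iset_mono hmm1)
  have hne1 : (Iset p m1).Nonempty :=
    ⟨0, by rw [mem_Iset]; simp only [Prod.fst_zero, Prod.snd_zero, ZMod.val_zero]
           exact lt_of_lt_of_le (by omega) (hmm1 0)⟩
  have hne2 : (Iset p m').Nonempty :=
    ⟨0, by rw [mem_Iset]; simp only [Prod.fst_zero, Prod.snd_zero, ZMod.val_zero]; omega⟩
  obtain ⟨H', hH', hk⟩ := hKn (Q × ZMod p) (Iset p m1) (Iset p m') hne1 hne2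
  have hHH' : H' = H := by
    ext h
    rw [hH', hH, hI1]
  subst hHH'
  have h1 := card_hull_ge H' (Iset p m1)
  have h2 := card_hull_ge H' (Iset p m')
  rw [card_Iset hm1p] at h1
  rw [card_Iset m'_le] at h2
  rw [hI1, card_Iset g_le, hcard] at hk
  have hKpos : 0 < Nat.card K := Nat.card_pos
  omega

/-- (ST) for `p ≠ 0`. -/
lemma struct_aux (hKn : Stmt_Kneser.{u}) (α β γ : Q → ℕ)
    (hα : ∀ i, α i ≤ p) (hβ : ∀ i, β i ≤ p) (hα0 : 1 ≤ α 0) (hβ0 : 1 ≤ β 0) (hγ0 : γ 0 + 1 ≤ p)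
    (hsum : ∀ i j, 1 ≤ α i → 1 ≤ β j → min p (α i + β j - 1) ≤ γ (i + j))
    (htot : ∑ i, γ i + 2 ≤ ∑ i, α i + ∑ i, β i) :
    ∃ (K : AddSubgroup Q) (m m' g : Q → ℕ), Heights p α β γ K m m' g ∧
      (g 0 + 1 = m 0 + m' 0 ∨
        ((∃ y, y ∉ K ∧ 1 ≤ m' y ∧ g y + 1 = m 0 + m' y ∧ g y + 1 ≤ p) ∧
         (∃ x, x ∉ K ∧ 1 ≤ m x ∧ g x + 1 = m x + m' 0 ∧ g x + 1 ≤ p) ∧
         (∃ x, x ∉ K ∧ 1 ≤ m x ∧ 1 ≤ m' (-x) ∧ g 0 + 1 = m x + m' (-x)))) := by
  classical
  have hIadd := Iset_add (p := p) hα hβ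
  set g : Q → ℕ := gsup p α β with hgdef
  have hgγ : ∀ t, g t ≤ γ t := by
    intro t
    apply gsup_le
    intro i j hij hi hj
    rw [← hij]
    exact hsum i j hi hj
  have hgp : ∀ t, g t ≤ p := by
    intro t
    apply gsup_le
    intro i j _ _ _
    exact min_le_left _ _
  have hne1 : (Iset p α).Nonempty :=
    ⟨0, by rw [mem_Iset]; simp only [Prod.fst_zero, Prod.snd_zero, ZMod.val_zero]; omega⟩
  have hne2 : (Iset p β).Nonempty :=
    ⟨0, by rw [mem_Iset]; simp only [Prod.fst_zero, Prod.snd_zero, ZMod.val_zero]; omega⟩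
  obtain ⟨H, hH, hk⟩ := hKn (Q × ZMod p) (Iset p α) (Iset p β) hne1 hne2
  rw [hIadd] at hH hk
  have hg00 := le_gsup (p := p) hα0 hβ0
  rw [add_zero, ← hgdef] at hg00
  have hg0p : g 0 < p := lt_of_le_of_lt (hgγ 0) (by omega)
  have hg01 : 1 ≤ g 0 := by omega
  -- periods have second component zero
  have hsecond : ∀ h : Q × ZMod p, h ∈ H → h.2 = 0 := by
    rintro ⟨κ, h⟩ hh
    simp only
    by_contra hne
    have hneg := H.neg_mem hh
    rw [hH] at hh hneg
    -- fibre over 0 is moved into the fibre over κ and back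
    have hstep : ∀ w : ZMod p, w.val < g 0 → (h + w).val < g κ := by
      intro w hw
      have := hh (0, w) (by rw [mem_Iset]; exact hw)
      rw [mem_Iset] at this
      simpa using this
    have hback : ∀ w : ZMod p, w.val < g κ → (-h + w).val < g 0 := by
      intro w hw
      have := hneg (κ, w) (by rw [mem_Iset]; exact hw)
      rw [mem_Iset] at this
      simpa using this
    have h1 := hback 0 (by
      have := hstep 0 (by rw [ZMod.val_zero]; omega)
      rw [ZMod.val_zero]; omega)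
    rw [add_zero, ZMod.neg_val, if_neg hne] at h1
    have hp1 : 1 ≤ p := by omega
    have hlt := ZMod.val_lt h
    have hc : ((p - 1 : ℕ) : ZMod p).val = p - 1 := ZMod.val_natCast_of_lt (by omega)
    have h2 := hstep (((p - 1 : ℕ) : ZMod p) - h) (by
      rw [ZMod.val_sub (by rw [hc]; omega), hc]
      omega)
    rw [add_sub_cancel, hc] at h2
    have h3 := hback (h + ((p - 1 : ℕ) : ZMod p)) (by
      have := ZMod.val_lt (h + ((p - 1 : ℕ) : ZMod p))
      omega)
    rw [neg_add_cancel_left, hc] at h3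
    omega
  -- the subgroup K
  set K : AddSubgroup Q := H.comap (AddMonoidHom.inl Q (ZMod p)) with hKdef
  have hmemK : ∀ κ, κ ∈ K ↔ ((κ, 0) : Q × ZMod p) ∈ H := by
    intro κ
    rw [hKdef, AddSubgroup.mem_comap]
    rfl
  have hHK : ∀ h : Q × ZMod p, h ∈ H ↔ h.1 ∈ K ∧ h.2 = 0 := by
    rintro ⟨κ, u⟩
    simp only
    rw [hmemK]
    constructor
    · intro hh
      have h0 : u = 0 := hsecond _ hh
      subst h0
      exact ⟨hh, rfl⟩
    · rintro ⟨hh, rfl⟩
      exact hh
  have hcard : Nat.card H = Nat.card K := by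
    apply Nat.card_congr
    exact
      { toFun := fun h => ⟨h.1.1, ((hHK h.1).1 h.2).1⟩
        invFun := fun κ => ⟨(κ.1, 0), (hmemK κ.1).1 κ.2⟩
        left_inv := by
          rintro ⟨⟨κ, u⟩, hh⟩
          have h0 : u = 0 := hsecond _ hh
          subst h0
          rfl
        right_inv := by
          rintro ⟨κ, hκ⟩
          rfl }
  have hgle : ∀ κ ∈ K, ∀ i, g i ≤ g (κ + i) := by
    intro κ hκ i
    by_contra hcon
    push Not at hcon
    have hlt : g (κ + i) < p := lt_of_lt_of_le hcon (hgp i)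
    have h1 := (hH _).1 ((hmemK κ).1 hκ) (i, ((g (κ + i) : ℕ) : ZMod p)) (by
      rw [mem_Iset]
      simp only
      rw [ZMod.val_natCast_of_lt hlt]
      exact hcon)
    rw [mem_Iset] at h1
    simp only [Prod.mk_add_mk, zero_add] at h1
    rw [ZMod.val_natCast_of_lt hlt] at h1
    exact lt_irrefl _ h1
  have hgper : ∀ κ ∈ K, ∀ i, g (κ + i) = g i := by
    intro κ hκ i
    apply le_antisymm _ (hgle κ hκ i)
    have := hgle (-κ) (K.neg_mem hκ) (κ + i)
    rwa [neg_add_cancel_left] at this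
  -- heights of the hulls
  set m : Q → ℕ := hsup K α with hm
  set m' : Q → ℕ := hsup K β with hm'
  have hmper : ∀ κ ∈ K, ∀ i, m (κ + i) = m i := fun κ hκ i => hsup_per K α hκ i
  have hm'per : ∀ κ ∈ K, ∀ i, m' (κ + i) = m' i := fun κ hκ i => hsup_per K β hκ i
  have hmle : ∀ i, m i ≤ p := by
    intro i
    obtain ⟨κ, _, h⟩ := hsup_eq K α i
    rw [hm, h]
    exact hα _
  have hm'le : ∀ i, m' i ≤ p := by
    intro i
    obtain ⟨κ, _, h⟩ := hsup_eq K β i
    rw [hm', h]
    exact hβ _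
  have hhull : ∀ f : Q → ℕ, Iset p (hsup K f) ⊆ hull H (Iset p f) := by
    rintro f ⟨i, u⟩ hz
    rw [mem_Iset] at hz
    simp only at hz
    obtain ⟨κ, hκ, h⟩ := hsup_eq K f i
    rw [h] at hz
    rw [mem_hull]
    refine ⟨(κ + i, u), by rw [mem_Iset]; exact hz, ?_⟩
    have e : ((i, u) : Q × ZMod p) - (κ + i, u) = (-κ, 0) := by
      rw [Prod.mk_sub_mk, sub_self]
      congr 1
      abel
    rw [e]
    exact (hmemK _).1 (K.neg_mem hκ)
  have hperI : ∀ f : Q → ℕ, (∀ κ ∈ K, ∀ i, f (κ + i) = f i) → (∀ i, f i ≤ p) →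
      Nat.card K ∣ ∑ i, f i := by
    intro f hf hfp
    rw [← card_Iset hfp, ← hcard]
    apply card_dvd_of_periodic
    rintro ⟨κ, u⟩ hh ⟨i, w⟩ hz
    have hh' := (hHK _).1 hh
    simp only at hh'
    rw [mem_Iset] at hz ⊢
    simp only [Prod.mk_add_mk] at hz ⊢
    rw [hh'.2, zero_add, hf κ hh'.1 i]
    exact hz
  have hadd : ∀ i j, 1 ≤ m i → 1 ≤ m' j → min p (m i + m' j - 1) ≤ g (i + j) := by
    intro i j hi hj
    obtain ⟨κ, hκ, h⟩ := hsup_eq K α i
    obtain ⟨κ', hκ', h'⟩ := hsup_eq K β j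
    have h1 : 1 ≤ α (κ + i) := by rw [← h]; exact hi
    have h2 : 1 ≤ β (κ' + j) := by rw [← h']; exact hj
    have h3 := le_gsup (p := p) h1 h2
    have e : κ + i + (κ' + j) = (κ + κ') + (i + j) := by abel
    rw [e, ← hgdef, hgper _ (K.add_mem hκ hκ'), ← h, ← h'] at h3
    exact h3
  have htotal : ∑ i, m i + ∑ i, m' i = ∑ i, g i + Nat.card K := by
    have h1 := card_le_card (hhull α)
    have h2 := card_le_card (hhull β)
    rw [← hm, card_Iset hmle] at h1
    rw [← hm', card_Iset hm'le] at h2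
    rw [card_Iset hgp, hcard] at hk
    have h3 : ∑ i, α i ≤ ∑ i, m i := Finset.sum_le_sum (fun i _ => le_hsup_self K α i)
    have h4 : ∑ i, β i ≤ ∑ i, m' i := Finset.sum_le_sum (fun i _ => le_hsup_self K β i)
    have h5 : ∑ i, g i ≤ ∑ i, γ i := Finset.sum_le_sum (fun i _ => hgγ i)
    have d1 := hperI m hmper hmle
    have d2 := hperI m' hm'per hm'le
    have d3 := hperI g hgper hgp
    have d4 := Nat.dvd_sub (Nat.dvd_add d1 d2) d3
    have d5 := Nat.le_of_dvd (by omega) d4
    omega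
  have hm0 : 1 ≤ m 0 := hα0.trans (le_hsup_self K α 0)
  have hm'0 : 1 ≤ m' 0 := hβ0.trans (le_hsup_self K β 0)
  refine ⟨K, m, m', g, ⟨hmper, hm'per, hgper, le_hsup_self K α, le_hsup_self K β, hgγ, hmle,
    hm'le, hadd, htotal⟩, ?_⟩
  by_cases hfirst : g 0 + 1 = m 0 + m' 0
  · exact Or.inl hfirst
  right
  have h00 := hadd 0 0 hm0 hm'0
  rw [add_zero] at h00
  have hge : m 0 + m' 0 ≤ g 0 := by omega
  have hImm' : Iset p m + Iset p m' = Iset p g := by
    apply Subset.antisymm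
    · rintro ⟨t, w⟩ htw
      rw [mem_add] at htw
      obtain ⟨⟨i, u⟩, hi, ⟨j, v⟩, hj, hij⟩ := htw
      rw [mem_Iset] at hi hj
      simp only [Prod.mk_add_mk, Prod.mk.injEq] at hij hi hj
      rw [mem_Iset]
      simp only
      rw [← hij.1, ← hij.2]
      exact lt_of_lt_of_le (val_add_lt hi hj) (hadd i j (by omega) (by omega))
    · rw [← hIadd]
      exact add_subset_add (Iset_mono (le_hsup_self K α)) (Iset_mono (le_hsup_self K β))
  refine ⟨?_, ?_, ?_⟩
  · exact item hKn K m m' g H hH hHK hcard hmper hm'per hgper hmle hm'le hgp hadd htotal hImm'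
      hm0 hm'0 hg0p hge
  · obtain ⟨y, h1, h2, h3, h4⟩ := item hKn K m' m g H hH hHK hcard hm'per hmper hgper hm'le hmle
      hgp (by
        intro i j hi hj
        have := hadd j i hj hi
        rwa [add_comm j i, add_comm (m j)] at this)
      (by rw [add_comm]; exact htotal) (by rw [add_comm]; exact hImm') hm'0 hm0 hg0p (by omega)
    exact ⟨y, h1, h2, by omega, h4⟩
  · have hlt : g 0 - 1 < gsup p α β 0 := by rw [← hgdef]; omega
    obtain ⟨i, j, hij, hi, hj, hlt'⟩ := exists_of_lt_gsup hlt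
    have hj' : j = -i := by rw [eq_neg_iff_add_eq_zero, add_comm]; exact hij
    subst hj'
    rw [lt_min_iff] at hlt'
    have hmi := le_hsup_self K α i
    have hmi' := le_hsup_self K β (-i)
    rw [← hm] at hmi
    rw [← hm'] at hmi'
    have h1 := hadd i (-i) (by omega) (by omega)
    rw [add_neg_cancel] at h1
    refine ⟨i, ?_, by omega, by omega, by omega⟩
    intro hiK
    have e1 := hmper i hiK 0
    have e2 := hm'per (-i) (K.neg_mem hiK) 0
    rw [add_zero] at e1 e2
    omega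

end ST

/-- (ST) from (KN). -/
theorem stmt_struct (hKn : Stmt_Kneser.{u}) : Stmt_Struct.{u} := by
  intro Q _ _ _ p α β γ hα hβ hα0 hβ0 hγ0 hsum htot
  have : NeZero p := ⟨by omega⟩
  exact struct_aux hKn α β γ hα hβ hα0 hβ0 hγ0 hsum htot

end Pool.Agent.Work.MP_59976d_co
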