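import Pool.Agent.Work.MP_59976d_co_odd.Basic

/-!
AP1 (the partner of an arithmetic progression in a critical pair) and block UN (uniqueness of the
partner of a set in a critical pair), given Theorem V and CDH.
-/

namespace Pool.Agent.Work.MP_59976d_co

open Finset
open scoped Pointwise

universe u

section

variable {G : Type u} [AddCommGroup G] [DecidableEq G]

/-- A set which `+d` leaves only once and which contains no full orbit is a string. -/
lemma string (d : G) : ∀ (n : ℕ) (B : Finset G) (b₀ : G), B.card = n + 1 → b₀ ∈ B →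
    (∀ b ∈ B, b ≠ b₀ → b + d ∈ B) → (∀ b : G, ¬ ∀ j : ℕ, b + j • d ∈ B) →
    B = (range (n + 1)).image (fun j : ℕ => b₀ - j • d) := by
  intro n
  induction n with
  | zero =>
    intro B b₀ hc hb _ _
    obtain ⟨x, rfl⟩ := card_eq_one.1 hc
    rw [mem_singleton] at hb
    simp [hb]
  | succ n ih =>
    intro B b₀ hc hb hstep hfull
    have hc' : (B.erase b₀).card = n + 1 := by
      rw [card_erase_of_mem hb, hc]; rfl
    have hmem : b₀ - d ∈ B.erase b₀ := by
      by_contra hnot
      have hcl : ∀ b ∈ B.erase b₀, b + d ∈ B.erase b₀ := by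
        intro b hbm
        have hb' := mem_erase.1 hbm
        refine mem_erase.2 ⟨?_, hstep b hb'.2 hb'.1⟩
        intro h
        apply hnot
        have e : b₀ - d = b := by rw [← h, add_sub_cancel_right]
        rw [e]
        exact hbm
      have hne : (B.erase b₀).Nonempty := card_pos.1 (by omega)
      obtain ⟨b, hbm⟩ := hne
      apply hfull b
      intro j
      have : b + j • d ∈ B.erase b₀ := by
        induction j with
        | zero => simpa using hbm
        | succ j ihj =>
          rw [succ_nsmul, ← add_assoc]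
          exact hcl _ ihj
      exact (mem_erase.1 this).2
    have hIH := ih (B.erase b₀) (b₀ - d) hc' hmem ?_ ?_
    · rw [← insert_erase hb, hIH]
      ext z
      simp only [mem_insert, mem_image, mem_range]
      constructor
      · rintro (rfl | ⟨j, hj, rfl⟩)
        · exact ⟨0, by omega, by simp⟩
        · refine ⟨j + 1, by omega, ?_⟩
          rw [succ_nsmul]; abel
      · rintro ⟨j, hj, rfl⟩
        rcases j with _ | j
        · left; simp
        · right
          refine ⟨j, by omega, ?_⟩
          rw [succ_nsmul]; abel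
    · intro b hbm hne
      have hb' := mem_erase.1 hbm
      refine mem_erase.2 ⟨?_, hstep b hb'.2 hb'.1⟩
      intro h
      apply hne
      rw [← h, add_sub_cancel_right]
    · intro b hb'
      exact hfull b (fun j => (mem_erase.1 (hb' j)).2)

/-- Reversal: a descending string is an arithmetic progression. -/
lemma isAP_of_string (d b₀ : G) (n : ℕ) (B : Finset G) (hc : B.card = n + 1)
    (h : B = (range (n + 1)).image (fun j : ℕ => b₀ - j • d)) : IsAP d B := by
  refine ⟨b₀ - n • d, ?_⟩
  rw [hc]
  rw [h]
  ext z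
  simp only [mem_image, mem_range]
  constructor
  · rintro ⟨j, hj, rfl⟩
    refine ⟨n - j, by omega, ?_⟩
    have : n • d = (n - j) • d + j • d := by rw [← add_nsmul]; congr 1; omega
    rw [this]; abel
  · rintro ⟨j, hj, rfl⟩
    refine ⟨n - j, by omega, ?_⟩
    have : n • d = (n - j) • d + j • d := by rw [← add_nsmul]; congr 1; omega
    rw [this]; abel

/-- Two arithmetic progressions with the same difference and length are translates. -/
lemma IsAP.translate {d : G} {B B' : Finset G} (h : IsAP d B) (h' : IsAP d B')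
    (hc : B'.card = B.card) : ∃ t : G, B' = B.image (fun b => t + b) := by
  obtain ⟨b, hb⟩ := h
  obtain ⟨b', hb'⟩ := h'
  refine ⟨b' - b, ?_⟩
  rw [hb', hc]
  conv_rhs => rw [hb, image_image]
  congr 1
  funext i
  simp only [Function.comp]
  abel

/-- Differences inside an arithmetic progression. -/
lemma IsAP.sub_mem {d : G} {A : Finset G} (h : IsAP d A) {a a' : G} (ha : a ∈ A) (ha' : a' ∈ A) :
    a' - a ∈ AddSubgroup.zmultiples d := by
  obtain ⟨a₀, h0⟩ := h
  rw [h0] at ha ha'
  obtain ⟨i, _, rfl⟩ := mem_image.1 ha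
  obtain ⟨j, _, rfl⟩ := mem_image.1 ha'
  have e : a₀ + j • d - (a₀ + i • d) = j • d - i • d := by abel
  rw [e]
  exact AddSubgroup.sub_mem _ (AddSubgroup.nsmul_mem _ (AddSubgroup.mem_zmultiples d) _)
    (AddSubgroup.nsmul_mem _ (AddSubgroup.mem_zmultiples d) _)

variable [Finite G]

omit [DecidableEq G] [Finite G] in
lemma mk_eq_iff {H : AddSubgroup G} {a b : G} :
    (QuotientAddGroup.mk a : G ⧸ H) = QuotientAddGroup.mk b ↔ b - a ∈ H := by
  rw [QuotientAddGroup.eq, sub_eq_neg_add]

omit [DecidableEq G] in
lemma card_part_full {H : AddSubgroup G} {B : Finset G} {b : G}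
    (h : ∀ k ∈ H, b + k ∈ B) :
    Nat.card H ≤ (part H B (QuotientAddGroup.mk b)).card := by
  classical
  have : Fintype G := Fintype.ofFinite G
  rw [Nat.card_eq_fintype_card, ← Fintype.card_coe]
  refine Fintype.card_le_of_injective (fun k => ⟨b + k.1, mem_part.2 ⟨h k.1 k.2, ?_⟩⟩) ?_
  · rw [mk_eq_iff]
    have : b - (b + k.1) = -k.1 := by abel
    rw [this]; exact neg_mem k.2
  · intro p q hpq
    have := congrArg Subtype.val hpq
    exact Subtype.ext (by simpa using this)

/-- (AP1) The partner of an arithmetic progression in a critical pair. -/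
theorem ap_partner (hC : Stmt_CDH.{u}) (A B : Finset G) (d : G) (hSS : SS A B)
    (hA : IsAP d A) (hA2 : 2 ≤ A.card) (hB : B.Nonempty)
    (hcrit : (A + B).card + 1 = A.card + B.card) : IsAP d B := by
  classical
  have hAne : A.Nonempty := card_pos.1 (by omega)
  have hd0 : d ≠ 0 := by
    rintro rfl
    obtain ⟨a₀, h0⟩ := hA
    have : A.card ≤ 1 := by
      rw [card_le_one]
      intro x hx y hy
      rw [h0] at hx hy
      obtain ⟨i, _, rfl⟩ := mem_image.1 hx
      obtain ⟨j, _, rfl⟩ := mem_image.1 hy
      simp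
    omega
  -- no full coset in `B`
  have hfull : ∀ b : G, ¬ ∀ j : ℕ, b + j • d ∈ B := by
    intro b hb
    set H := AddSubgroup.zmultiples d with hH
    have hHne : H ≠ ⊥ := by
      rw [hH, Ne, AddSubgroup.zmultiples_eq_bot]; exact hd0
    obtain ⟨a, ha⟩ := hAne
    have h1 := hSS H hHne (QuotientAddGroup.mk a) (QuotientAddGroup.mk b)
    have h2 : part H A (QuotientAddGroup.mk a) = A := by
      ext x
      rw [mem_part]
      refine ⟨fun h => h.1, fun hx => ⟨hx, ?_⟩⟩
      rw [mk_eq_iff]
      exact hA.sub_mem hx ha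
    have h3 : Nat.card H ≤ (part H B (QuotientAddGroup.mk b)).card := by
      apply card_part_full
      intro k hk
      obtain ⟨j, _, rfl⟩ := (mem_zmultiples_iff_mem_range_addOrderOf.1 hk |> Finset.mem_image.1)
      exact hb _
    rw [h2] at h1
    omega
  -- the sets `B + {0, ..., i d}`
  set F : ℕ → Finset G := fun i => (range (i + 1)).biUnion (fun j => B.image (fun b => b + j • d))
    with hF
  have memF : ∀ i z, z ∈ F i ↔ ∃ j, j ≤ i ∧ ∃ b ∈ B, b + j • d = z := by
    intro i z
    simp only [hF, mem_biUnion, mem_range, mem_image, Nat.lt_succ_iff]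
  have F0 : F 0 = B := by
    ext z; rw [memF]
    constructor
    · rintro ⟨j, hj, b, hb, rfl⟩
      obtain rfl : j = 0 := by omega
      simpa using hb
    · intro hz
      exact ⟨0, le_rfl, z, hz, by simp⟩
  have Fmono : ∀ i, F i ⊆ F (i + 1) := by
    intro i z hz
    rw [memF] at hz ⊢
    obtain ⟨j, hj, h⟩ := hz
    exact ⟨j, by omega, h⟩
  have Fstep : ∀ i z, z ∈ F i → z + d ∈ F (i + 1) := by
    intro i z hz
    rw [memF] at hz ⊢
    obtain ⟨j, hj, b, hb, rfl⟩ := hz
    exact ⟨j + 1, by omega, b, hb, by rw [succ_nsmul]; abel⟩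
  -- `A + B` is a translate of `F (|A| - 1)`
  obtain ⟨a₀, hA0⟩ := hA
  have hAB : A + B = (F (A.card - 1)).image (fun z => a₀ + z) := by
    ext z
    rw [mem_add, mem_image]
    constructor
    · rintro ⟨x, hx, y, hy, rfl⟩
      rw [hA0] at hx
      obtain ⟨i, hi, rfl⟩ := mem_image.1 hx
      rw [mem_range] at hi
      refine ⟨y + i • d, (memF _ _).2 ⟨i, by omega, y, hy, rfl⟩, by abel⟩
    · rintro ⟨w, hw, rfl⟩
      rw [memF] at hw
      obtain ⟨j, hj, b, hb, rfl⟩ := hw
      refine ⟨a₀ + j • d, ?_, b, hb, by abel⟩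
      rw [hA0]
      exact mem_image.2 ⟨j, mem_range.2 (by omega), rfl⟩
  have hcardAB : (A + B).card = (F (A.card - 1)).card := by
    rw [hAB]; exact card_image_of_injective _ (add_right_injective a₀)
  -- strict growth
  have grow : ∀ i, i < A.card - 1 → (F i).card + 1 ≤ (F (i + 1)).card := by
    intro i hi
    by_contra hcon
    have heq : F i = F (i + 1) := eq_of_subset_of_card_le (Fmono i) (by omega)
    have hper : ∀ z ∈ F i, z + d ∈ F i := by
      intro z hz
      rw [heq]; exact Fstep i z hz
    have hper' : ∀ (j : ℕ) z, z ∈ F i → z + j • d ∈ F i := by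
      intro j
      induction j with
      | zero => intro z hz; simpa using hz
      | succ j ih =>
        intro z hz
        rw [succ_nsmul, ← add_assoc]
        exact hper _ (ih z hz)
    have hall : F (A.card - 1) = F i := by
      apply Subset.antisymm
      · intro z hz
        rw [memF] at hz
        obtain ⟨j, hj, b, hb, rfl⟩ := hz
        apply hper'
        rw [memF]
        exact ⟨0, by omega, b, hb, by simp⟩
      · intro z hz
        rw [memF] at hz ⊢
        obtain ⟨j, hj, h⟩ := hz
        exact ⟨j, by omega, h⟩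
    apply hd0
    refine (hC G A B hSS hAne hB).2 hcrit d ?_
    intro z hz
    rw [hAB, mem_image] at hz ⊢
    obtain ⟨w, hw, rfl⟩ := hz
    refine ⟨w + d, ?_, by abel⟩
    rw [hall] at hw ⊢
    exact hper w hw
  have growAll : ∀ m i, i + m ≤ A.card - 1 → (F i).card + m ≤ (F (i + m)).card := by
    intro m
    induction m with
    | zero => intro i _; simp
    | succ m ih =>
      intro i hi
      have h1 := ih i (by omega)
      have h2 := grow (i + m) (by omega)
      have : i + (m + 1) = i + m + 1 := by omega
      rw [this]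
      omega
  have hF1 : (F 1).card = B.card + 1 := by
    have h1 := grow 0 (by omega)
    rw [F0] at h1
    simp only [zero_add] at h1
    have h2 := growAll (A.card - 2) 1 (by omega)
    have e : 1 + (A.card - 2) = A.card - 1 := by omega
    rw [e] at h2
    omega
  -- exactly one exit
  set E : Finset G := B.filter (fun b => b + d ∉ B) with hE
  have hEcard : E.card = 1 := by
    have h1 : F 1 = B ∪ E.image (fun b => b + d) := by
      ext z
      rw [memF, mem_union, mem_image]
      constructor
      · rintro ⟨j, hj, b, hb, rfl⟩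
        rcases (show j = 0 ∨ j = 1 by omega) with rfl | rfl
        · left; simpa using hb
        · by_cases h : b + d ∈ B
          · left; simpa using h
          · right
            exact ⟨b, mem_filter.2 ⟨hb, h⟩, by simp⟩
      · rintro (hz | ⟨b, hb, rfl⟩)
        · exact ⟨0, by omega, z, hz, by simp⟩
        · exact ⟨1, le_rfl, b, (mem_filter.1 hb).1, by simp⟩
    have hdis : Disjoint B (E.image (fun b => b + d)) := by
      rw [disjoint_right]
      intro z hz
      obtain ⟨b, hb, rfl⟩ := mem_image.1 hz
      exact (mem_filter.1 hb).2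
    have h2 : (F 1).card = B.card + E.card := by
      rw [h1, card_union_of_disjoint hdis, card_image_of_injective _ (add_left_injective d)]
    omega
  obtain ⟨b₀, hb₀⟩ := card_eq_one.1 hEcard
  have hb₀E : b₀ ∈ E := by rw [hb₀]; exact mem_singleton_self _
  have hb₀B : b₀ ∈ B := (mem_filter.1 hb₀E).1
  have hBpos : 0 < B.card := card_pos.2 hB
  obtain ⟨n, hn⟩ : ∃ n, B.card = n + 1 := ⟨B.card - 1, by omega⟩
  refine isAP_of_string d b₀ n B hn (string d n B b₀ hn hb₀B ?_ hfull)
  intro b hb hne
  by_contra h
  apply hne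
  have : b ∈ E := mem_filter.2 ⟨hb, h⟩
  rw [hb₀, mem_singleton] at this
  exact this

/-- A coset of `H` as a finset. -/
lemma coset_card (H : AddSubgroup G) (g : G) :
    ((Set.toFinite (H : Set G)).toFinset.image (fun h => g + h)).card = Nat.card H := by
  rw [card_image_of_injective _ (add_right_injective g), ← Nat.card_eq_card_finite_toFinset]
  rfl

lemma mem_cosetF {H : AddSubgroup G} {g z : G} :
    z ∈ (Set.toFinite (H : Set G)).toFinset.image (fun h => g + h) ↔ z - g ∈ H := by
  simp only [mem_image, Set.Finite.mem_toFinset, SetLike.mem_coe]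
  constructor
  · rintro ⟨h, hh, rfl⟩
    simpa using hh
  · intro h
    exact ⟨z - g, h, by abel⟩

omit [DecidableEq G] [Finite G] in
lemma InCoset.sub_mem {H : AddSubgroup G} {A : Finset G} (h : InCoset H A) {a b : G}
    (ha : a ∈ A) (hb : b ∈ A) : b - a ∈ H := by
  obtain ⟨x, hx⟩ := h
  rw [← mk_eq_iff, hx a ha, hx b hb]

/-- In the coset case the group is unique. -/
lemma coset_le {A B : Finset G} {H K : AddSubgroup G} (hSS : SS A B) (hA2 : 2 ≤ A.card)
    (hB : B.Nonempty)
    (hBH : InCoset H B) (hcard : A.card + B.card = Nat.card H) (hK : InCoset K A)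
    (hKH : K ≤ H) : K = H := by
  classical
  have : Fintype G := Fintype.ofFinite G
  have : Fintype (G ⧸ K) := Fintype.ofFinite _
  have hKne : K ≠ ⊥ := by
    rintro rfl
    have : A.card ≤ 1 := by
      rw [card_le_one]
      intro x hx y hy
      have := hK.sub_mem hx hy
      rw [AddSubgroup.mem_bot, sub_eq_zero] at this
      exact this.symm
    omega
  have hAne : A.Nonempty := card_pos.1 (by omega)
  obtain ⟨a, ha⟩ := hAne
  have hpA : part K A (QuotientAddGroup.mk a) = A := by
    ext x
    rw [mem_part]
    refine ⟨fun h => h.1, fun hx => ⟨hx, ?_⟩⟩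
    rw [mk_eq_iff]
    exact hK.sub_mem hx ha
  -- the set of `K`-cosets meeting `B`
  set R : Finset (G ⧸ K) := B.image (fun b => (QuotientAddGroup.mk b : G ⧸ K)) with hR
  have hBsum : B.card = ∑ x ∈ R, (part K B x).card := by
    rw [card_eq_sum_part K B]
    symm
    apply sum_subset (subset_univ _)
    intro x _ hx
    rw [card_eq_zero, eq_empty_iff_forall_notMem]
    intro b hb
    rw [mem_part] at hb
    exact hx (mem_image.2 ⟨b, hb.1, hb.2⟩)
  have hb1 : B.card + R.card * A.card ≤ R.card * Nat.card K := by
    have : ∑ x ∈ R, ((part K B x).card + A.card) ≤ ∑ x ∈ R, Nat.card K := by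
      apply sum_le_sum
      intro x _
      have := hSS K hKne (QuotientAddGroup.mk a) x
      rw [hpA] at this
      omega
    rw [sum_add_distrib, ← hBsum] at this
    simpa using this
  have hb2 : R.card * Nat.card K ≤ Nat.card H := by
    obtain ⟨b, hb⟩ := hB
    have hsub : hull K B ⊆ (Set.toFinite (H : Set G)).toFinset.image (fun h => b + h) := by
      intro z hz
      obtain ⟨x, hx, hzx⟩ := mem_hull.1 hz
      rw [mem_cosetF]
      have h1 := hBH.sub_mem hb hx
      have h2 := hKH hzx
      have e : z - b = (z - x) + (x - b) := by abel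
      rw [e]; exact add_mem h2 h1
    have h3 := card_le_card hsub
    rw [coset_card] at h3
    refine le_trans ?_ h3
    rw [card_eq_sum_part K (hull K B)]
    calc R.card * Nat.card K = ∑ x ∈ R, Nat.card K := by simp
      _ ≤ ∑ x ∈ R, (part K (hull K B) x).card := by
          apply sum_le_sum
          intro x hx
          obtain ⟨y, hy, rfl⟩ := mem_image.1 hx
          apply card_part_full
          intro k hk
          rw [mem_hull]
          exact ⟨y, hy, by simpa using hk⟩
      _ ≤ ∑ x, (part K (hull K B) x).card := sum_le_sum_of_subset (subset_univ _)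
  have hRpos : 1 ≤ R.card := card_pos.2 (hB.image _)
  have hR1 : R.card ≤ 1 := by
    by_contra hcon
    have h2 : 2 ≤ R.card := by omega
    have h3 : 2 * A.card ≤ R.card * A.card := Nat.mul_le_mul_right _ h2
    omega
  have hR2 : R.card = 1 := by omega
  rw [hR2, one_mul, one_mul] at hb1
  have hle : Nat.card H ≤ Nat.card K := by omega
  exact AddSubgroup.eq_of_le_of_card_ge hKH hle

end

/-- (UN) Uniqueness of the partner of a set in a critical pair. -/
theorem stmt_uniq (hC : Stmt_CDH.{u}) (hV : Stmt_V.{u}) : Stmt_Uniq.{u} := by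
  intro G _ _ _ A B B' hS hS' hA2 hB1 hBB' hc hc'
  classical
  have hAne : A.Nonempty := card_pos.1 (by omega)
  have hBne : B.Nonempty := card_pos.1 (by omega)
  have hB'ne : B'.Nonempty := card_pos.1 (by omega)
  rcases (show B.card = 1 ∨ 2 ≤ B.card by omega) with h1 | h2
  · obtain ⟨b, rfl⟩ := card_eq_one.1 h1
    rw [h1] at hBB'
    obtain ⟨b', rfl⟩ := card_eq_one.1 hBB'
    exact ⟨b' - b, by simp⟩
  rcases hV G A B hS hA2 h2 hc with ⟨d, hdA, hdB⟩ | ⟨H, hHA, hHB, hHc⟩
  · exact hdB.translate (ap_partner hC A B' d hS' hdA hA2 hB'ne hc') hBB'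
  rcases hV G A B' hS' hA2 (by omega) hc' with ⟨d, hdA, hdB'⟩ | ⟨H', hHA', hHB', hHc'⟩
  · exact (ap_partner hC A B d hS hdA hA2 hBne hc).translate hdB' hBB'
  -- both of coset type
  have hKA : InCoset (H ⊓ H') A := by
    obtain ⟨a, ha⟩ := hAne
    refine ⟨QuotientAddGroup.mk a, fun x hx => ?_⟩
    rw [mk_eq_iff, AddSubgroup.mem_inf]
    exact ⟨hHA.sub_mem hx ha, hHA'.sub_mem hx ha⟩
  have e1 : H ⊓ H' = H := coset_le hS hA2 hBne hHB hHc hKA inf_le_left
  have e2 : H ⊓ H' = H' := coset_le hS' hA2 hB'ne hHB' hHc' hKA inf_le_right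
  have e3 : H = H' := e1.symm.trans e2
  subst e3
  -- `A + B` is a coset minus a point
  have key : ∀ C : Finset G, C.Nonempty → InCoset H C → A.card + C.card = Nat.card H →
      (A + C).card + 1 = A.card + C.card →
      ∃ z : G, (∀ c, c ∈ C ↔ (∀ a ∈ A, z - a - c ∈ H) ∧ z - c ∉ A) := by
    intro C hCne hCH hCc hcrit
    obtain ⟨a, ha⟩ := hAne
    obtain ⟨c, hcC⟩ := hCne
    set K : Finset G := (Set.toFinite (H : Set G)).toFinset.image (fun h => (a + c) + h) with hK
    have hKc : K.card = Nat.card H := coset_card H _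
    obtain ⟨z, hzK, hzn⟩ : ∃ z ∈ K, z ∉ A + C := by
      apply exists_mem_notMem_of_card_lt_card
      omega
    rw [hK, mem_cosetF] at hzK
    refine ⟨z, ?_⟩
    have dir1 : ∀ c', c' ∈ C → (∀ a' ∈ A, z - a' - c' ∈ H) ∧ z - c' ∉ A := by
      intro c' hc'
      constructor
      · intro a' ha'
        have h1 := hHA.sub_mem ha' ha
        have h2 := hCH.sub_mem hc' hcC
        have e : z - a' - c' = (z - (a + c)) + (a - a') + (c - c') := by abel
        rw [e]; exact add_mem (add_mem hzK h1) h2
      · intro hmem
        apply hzn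
        have e : z = (z - c') + c' := by abel
        rw [e]; exact add_mem_add hmem hc'
    intro c'
    refine ⟨dir1 c', ?_⟩
    rintro ⟨h1, h2⟩
    -- counting in the coset of `c`
    set L : Finset G := (Set.toFinite (H : Set G)).toFinset.image (fun h => c + h) with hL
    have hLc : L.card = Nat.card H := coset_card H _
    set A' : Finset G := A.image (fun x => z - x) with hA'
    have hA'c : A'.card = A.card := card_image_of_injective _ (sub_right_injective)
    have hdis : Disjoint C A' := by
      rw [disjoint_left]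
      intro x hx hx'
      obtain ⟨y, hy, rfl⟩ := mem_image.1 hx'
      have := (dir1 _ hx).2
      apply this
      have e : z - (z - y) = y := by abel
      rw [e]; exact hy
    have hsub : C ∪ A' ⊆ L := by
      intro x hx
      rw [hL, mem_cosetF]
      rcases mem_union.1 hx with hx | hx
      · exact hCH.sub_mem hcC hx
      · obtain ⟨y, hy, rfl⟩ := mem_image.1 hx
        have h3 := hHA.sub_mem hy ha
        have e : z - y - c = (z - (a + c)) + (a - y) := by abel
        rw [e]; exact add_mem hzK h3
    have heq : C ∪ A' = L := by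
      apply eq_of_subset_of_card_le hsub
      rw [card_union_of_disjoint hdis, hA'c, hLc]
      omega
    have hc'L : c' ∈ L := by
      rw [hL, mem_cosetF]
      have h3 := h1 a ha
      have e : c' - c = (z - (a + c)) - (z - a - c') := by abel
      rw [e]; exact sub_mem hzK h3
    rw [← heq] at hc'L
    rcases mem_union.1 hc'L with h | h
    · exact h
    · exfalso
      obtain ⟨y, hy, hyc⟩ := mem_image.1 h
      apply h2
      have e : z - c' = y := by rw [← hyc]; abel
      rw [e]; exact hy
  obtain ⟨z, hz⟩ := key B hBne hHB hHc hc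
  obtain ⟨z', hz'⟩ := key B' hB'ne hHB' hHc' hc'
  refine ⟨z' - z, ?_⟩
  ext w
  rw [mem_image, hz' w]
  constructor
  · rintro ⟨h1, h2⟩
    refine ⟨w - (z' - z), ?_, by abel⟩
    rw [hz]
    refine ⟨fun a ha => ?_, fun h => h2 ?_⟩
    · have := h1 a ha
      have e : z - a - (w - (z' - z)) = z' - a - w := by abel
      rw [e]; exact this
    · have e : z - (w - (z' - z)) = z' - w := by abel
      rwa [e] at h
  · rintro ⟨b, hb, rfl⟩
    rw [hz] at hb
    obtain ⟨h1, h2⟩ := hb
    refine ⟨fun a ha => ?_, fun h => h2 ?_⟩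
    · have := h1 a ha
      have e : z' - a - (z' - z + b) = z - a - b := by abel
      rw [e]; exact this
    · have e : z' - (z' - z + b) = z - b := by abel
      rwa [e] at h

end Pool.Agent.Work.MP_59976d_co
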