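import Pool.Agent.Work.MP_59976d_co_odd.Basic

/-!
Block VO: Vosper's theorem under condition (**).
-/

namespace Pool.Agent.Work.MP_59976d_co

open Finset
open scoped Pointwise

universe u

namespace VO

section basic

variable {G : Type u} [AddCommGroup G] [DecidableEq G]

/-- Translate. -/
def tr (t : G) (M : Finset G) : Finset G := M.image (fun b => t + b)

lemma mem_tr {t z : G} {M : Finset G} : z ∈ tr t M ↔ z - t ∈ M := by
  unfold tr
  rw [mem_image]
  constructor
  · rintro ⟨b, hb, rfl⟩
    rwa [add_sub_cancel_left]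
  · intro h
    exact ⟨z - t, h, by abel⟩

lemma card_tr (t : G) (M : Finset G) : (tr t M).card = M.card := card_image_add M t

lemma add_tr (A M : Finset G) (t : G) : A + tr t M = tr t (A + M) := by
  ext z
  rw [mem_tr, mem_add, mem_add]
  constructor
  · rintro ⟨a, ha, b, hb, rfl⟩
    rw [mem_tr] at hb
    exact ⟨a, ha, b - t, hb, by abel⟩
  · rintro ⟨a, ha, b, hb, h⟩
    refine ⟨a, ha, b + t, mem_tr.2 (by rwa [add_sub_cancel_right]), ?_⟩
    rw [← add_assoc, h]
    abel

lemma tr_add (A M : Finset G) (t : G) : tr t A + M = tr t (A + M) := by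
  rw [add_comm, add_tr, add_comm]

lemma tr_tr (s t : G) (M : Finset G) : tr s (tr t M) = tr (s + t) M := by
  ext z
  rw [mem_tr, mem_tr, mem_tr]
  rw [show z - s - t = z - (s + t) by abel]

lemma tr_union (t : G) (M N : Finset G) : tr t (M ∪ N) = tr t M ∪ tr t N := by
  ext z
  simp only [mem_tr, mem_union]

/-- A critical pair, one member in a coset: the other too. -/
lemma inCoset_of_crit (hC : Stmt_CDH.{u}) [Finite G] {A M : Finset G} (hS : SS A M)
    (hA : A.Nonempty) (hM : 2 ≤ M.card) (hcrit : (A + M).card + 1 = A.card + M.card)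
    (H : AddSubgroup G) (hHM : InCoset H M) : InCoset H A := by
  classical
  obtain ⟨y, hy⟩ := hHM
  obtain ⟨a, ha⟩ := hA
  have hMne : M.Nonempty := card_pos.1 (by omega)
  refine ⟨QuotientAddGroup.mk a, ?_⟩
  by_contra hcon
  push Not at hcon
  obtain ⟨a', ha', hne⟩ := hcon
  set A₁ := part H A (QuotientAddGroup.mk a) with hA₁
  set A₂ := A \ A₁ with hA₂
  have hA₁ne : A₁.Nonempty := ⟨a, part_mk_self H ha⟩
  have hA₂ne : A₂.Nonempty := ⟨a', mem_sdiff.2 ⟨ha', fun h => hne (mem_part.1 h).2⟩⟩
  have hsub₁ : A₁ ⊆ A := part_subset _ _ _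
  have hsub₂ : A₂ ⊆ A := sdiff_subset
  have hun : A₁ + M ∪ (A₂ + M) = A + M := by
    rw [← union_add, hA₂, union_sdiff_of_subset hsub₁]
  have hdis : Disjoint (A₁ + M) (A₂ + M) := by
    rw [disjoint_left]
    intro z hz1 hz2
    rw [mem_add] at hz1 hz2
    obtain ⟨u, hu, m, hm, rfl⟩ := hz1
    obtain ⟨v, hv, m', hm', hvm⟩ := hz2
    rw [mem_sdiff] at hv
    apply hv.2
    refine mem_part.2 ⟨hv.1, ?_⟩
    have h1 := congrArg (QuotientAddGroup.mk : G → G ⧸ H) hvm
    rw [QuotientAddGroup.mk_add, QuotientAddGroup.mk_add, hy m' hm', hy m hm] at h1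
    rw [add_right_cancel h1]
    exact (mem_part.1 hu).2
  have h1 := (hC G A₁ M (hS.mono hsub₁ subset_rfl) hA₁ne hMne).1
  have h2 := (hC G A₂ M (hS.mono hsub₂ subset_rfl) hA₂ne hMne).1
  have h3 := card_union_of_disjoint hdis
  rw [hun] at h3
  have h4 : A₂.card = A.card - A₁.card := card_sdiff_of_subset hsub₁
  have h5 := card_le_card hsub₁
  omega

omit [DecidableEq G] in
/-- Full coset of the multiples of `d`. -/
lemma exists_not_mem_of_SS [Finite G] {A B : Finset G} (hS : SS A B) (hA : A.Nonempty) {d : G}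
    (hd : d ≠ 0) (b : G) : ∃ i : ℕ, b + i • d ∉ B := by
  classical
  by_contra hcon
  push Not at hcon
  obtain ⟨a, ha⟩ := hA
  set H := AddSubgroup.zmultiples d with hH
  have hHne : H ≠ ⊥ := by
    intro h
    apply hd
    have : d ∈ H := AddSubgroup.mem_zmultiples d
    rw [h] at this
    simpa using this
  have h1 := hS H hHne (QuotientAddGroup.mk a) (QuotientAddGroup.mk b)
  have h2 := card_part_pos H ha
  have h3 : Nat.card H ≤ (part H B (QuotientAddGroup.mk b)).card := by
    have : Fintype H := Fintype.ofFinite H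
    rw [Nat.card_eq_fintype_card, ← Finset.card_univ]
    apply Finset.card_le_card_of_injOn (fun h : H => b + (h : G))
    · intro h _
      have hmem : ∀ g ∈ H, ∃ i : ℕ, i • d = g := by
        intro g h4
        rw [hH, ← mem_multiples_iff_mem_zmultiples] at h4
        exact AddSubmonoid.mem_multiples_iff _ _ |>.1 h4
      obtain ⟨i, hi⟩ := hmem _ h.2
      show b + (h : G) ∈ (part H B (QuotientAddGroup.mk b) : Set G)
      rw [mem_coe, mem_part]
      refine ⟨?_, ?_⟩
      · rw [← hi]; exact hcon i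
      · rw [eq_comm, QuotientAddGroup.eq]
        simp
    · intro h _ h' _ hh
      exact Subtype.ext (add_left_cancel hh)
  omega

/-- String lemma. -/
lemma isAP_of_card_union {B : Finset G} {d : G} (hB : (B ∪ tr d B).card = B.card + 1)
    (hfull : ∀ b : G, ∃ i : ℕ, b + i • d ∉ B) : IsAP d B := by
  classical
  -- the end point
  have h1 : (tr d B \ B).card = 1 := by
    have := card_union_add_card_inter B (tr d B)
    have h2 : (tr d B \ B).card = (tr d B ∪ B).card - B.card := by
      rw [← card_sdiff_of_subset subset_union_right, union_sdiff_right]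
    rw [union_comm] at h2
    omega
  obtain ⟨z₀, hz₀⟩ := card_eq_one.1 h1
  set b₀ := z₀ - d with hb₀
  have hz₀mem : z₀ ∈ tr d B \ B := by rw [hz₀]; exact mem_singleton_self _
  rw [mem_sdiff, mem_tr] at hz₀mem
  have hb₀B : b₀ ∈ B := hz₀mem.1
  have hb₀d : b₀ + d ∉ B := by rw [hb₀, sub_add_cancel]; exact hz₀mem.2
  have huniq : ∀ b ∈ B, b + d ∉ B → b = b₀ := by
    intro b hb hbd
    have : b + d ∈ tr d B \ B := by
      rw [mem_sdiff, mem_tr, add_sub_cancel_right]
      exact ⟨hb, hbd⟩
    rw [hz₀, mem_singleton] at this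
    rw [hb₀, ← this, add_sub_cancel_right]
  -- every element reaches the end point
  have hreach : ∀ b ∈ B, ∃ k : ℕ, b + k • d = b₀ ∧ ∀ j ≤ k, b + j • d ∈ B := by
    intro b hb
    have hex := hfull b
    set n := Nat.find hex with hn
    have hn1 : b + n • d ∉ B := Nat.find_spec hex
    have hn0 : n ≠ 0 := by
      intro h
      rw [h, zero_smul, add_zero] at hn1
      exact hn1 hb
    obtain ⟨k, hk⟩ := Nat.exists_eq_succ_of_ne_zero hn0
    have hlt : ∀ j ≤ k, b + j • d ∈ B := by
      intro j hj
      have := Nat.find_min hex (m := j) (by omega)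
      simpa using this
    refine ⟨k, huniq _ (hlt k le_rfl) ?_, hlt⟩
    rw [hk, Nat.succ_eq_add_one, add_smul, one_smul, ← add_assoc] at hn1
    exact hn1
  choose! f hf1 hf2 using hreach
  obtain ⟨b₁, hb₁, hmax⟩ := B.exists_max_image f ⟨b₀, hb₀B⟩
  set k := f b₁ with hk
  have hB2 : B = (range (k + 1)).image (fun i : ℕ => b₁ + i • d) := by
    apply Subset.antisymm
    · intro b hb
      rw [mem_image]
      refine ⟨k - f b, mem_range.2 (by omega), ?_⟩
      have h3 := hf1 b hb
      have h4 := hf1 b₁ hb₁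
      rw [← hk] at h4
      have h5 : k = (k - f b) + f b := (Nat.sub_add_cancel (hmax b hb)).symm
      have h6 : b₁ + (k - f b) • d + f b • d = b + f b • d := by
        rw [h3, ← h4, add_assoc, ← add_smul, ← h5]
      exact add_right_cancel h6
    · intro z hz
      rw [mem_image] at hz
      obtain ⟨i, hi, rfl⟩ := hz
      rw [mem_range] at hi
      exact hf2 b₁ hb₁ i (by omega)
  have hinj : Set.InjOn (fun i : ℕ => b₁ + i • d) (range (k + 1) : Set ℕ) := by
    have key : ∀ i i' : ℕ, i < i' → i' ≤ k → b₁ + i • d ≠ b₁ + i' • d := by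
      intro i i' hlt hle heq
      apply hb₀d
      have h4 := hf1 b₁ hb₁
      rw [← hk] at h4
      have h5 : b₀ + d = b₁ + (k - (i' - i) + 1) • d := by
        have h6 : (i' - i) • d = 0 := by
          have h7 : i • d = i' • d := add_left_cancel heq
          have h8 : i' • d = (i' - i) • d + i • d := by rw [← add_smul, Nat.sub_add_cancel hlt.le]
          rw [h8] at h7
          have := add_eq_right.1 h7.symm
          exact this
        have h9 : k = (k - (i' - i)) + (i' - i) := by omega
        have h10 : k • d = (k - (i' - i)) • d := by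
          conv_lhs => rw [h9, add_smul, h6, add_zero]
        rw [← h4, h10, add_smul, one_smul, add_assoc]
      rw [h5]
      exact hf2 b₁ hb₁ _ (by omega)
    intro i hi i' hi' heq
    rw [mem_coe, mem_range] at hi hi'
    rcases lt_trichotomy i i' with h | h | h
    · exact absurd heq (key i i' h (by omega))
    · exact h
    · exact absurd heq.symm (key i' i h (by omega))
  have hcard : B.card = k + 1 := by
    conv_lhs => rw [hB2]
    rw [card_image_of_injOn hinj, card_range]
  exact ⟨b₁, by rw [hcard]; exact hB2⟩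

/-- Critical pairs containing a progression. -/
lemma isAP_of_isAP (hC : Stmt_CDH.{u}) [Finite G] {A B : Finset G} (hS : SS A B) {d : G}
    (hAP : IsAP d A) (hA : 2 ≤ A.card) (hB : B.Nonempty)
    (hcrit : (A + B).card + 1 = A.card + B.card) : IsAP d B := by
  obtain ⟨a, ha⟩ := hAP
  have hAne : A.Nonempty := card_pos.1 (by omega)
  set k := A.card with hk
  have hd : d ≠ 0 := by
    rintro rfl
    have : A.card ≤ 1 := by
      rw [ha]
      refine (card_le_card (t := {a}) ?_).trans (by simp)
      intro z hz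
      rw [mem_image] at hz
      obtain ⟨i, _, rfl⟩ := hz
      simp
    omega
  -- the partial sums
  set S : ℕ → Finset G := fun j => (range j).image (fun i : ℕ => a + i • d) + B with hSdef
  have hSk : S k = A + B := by rw [hSdef]; simp only; rw [← ha]
  have hstep : ∀ j, 1 ≤ j → S (j + 1) = S j ∪ tr d (S j) := by
    intro j hj
    ext z
    rw [mem_union, mem_tr, hSdef]
    simp only [mem_add, mem_image, mem_range]
    constructor
    · rintro ⟨_, ⟨i, hi, rfl⟩, b, hb, rfl⟩
      rcases Nat.eq_zero_or_pos i with rfl | hi0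
      · exact Or.inl ⟨_, ⟨0, by omega, rfl⟩, b, hb, rfl⟩
      · obtain ⟨i', rfl⟩ := Nat.exists_eq_succ_of_ne_zero hi0.ne'
        refine Or.inr ⟨_, ⟨i', by omega, rfl⟩, b, hb, ?_⟩
        rw [Nat.succ_eq_add_one, add_smul, one_smul]
        abel
    · rintro (⟨_, ⟨i, hi, rfl⟩, b, hb, rfl⟩ | ⟨_, ⟨i, hi, rfl⟩, b, hb, h⟩)
      · exact ⟨_, ⟨i, by omega, rfl⟩, b, hb, rfl⟩
      · refine ⟨_, ⟨i + 1, by omega, rfl⟩, b, hb, ?_⟩
        have hz : z = a + i • d + b + d := by rw [h]; abel
        rw [add_smul, one_smul, hz]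
        abel
  have hgrow : ∀ j, 1 ≤ j → j < k → (S j).card + 1 ≤ (S (j + 1)).card := by
    intro j hj hjk
    have hsub : S j ⊆ S (j + 1) := by rw [hstep j hj]; exact subset_union_left
    by_contra hcon
    have heq : S j = S (j + 1) := eq_of_subset_of_card_le hsub (by omega)
    have hst : ∀ z ∈ S j, d + z ∈ S j := by
      intro z hz
      have : d + z ∈ S (j + 1) := by
        rw [hstep j hj, mem_union, mem_tr]
        right
        rwa [add_sub_cancel_left]
      rwa [← heq] at this
    have hall : ∀ n, S (j + n) = S j := by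
      intro n
      induction n with
      | zero => rfl
      | succ n ih =>
        rw [← add_assoc, hstep (j + n) (by omega), ih]
        apply union_eq_left.2
        intro z hz
        rw [mem_tr] at hz
        have := hst _ hz
        rwa [add_sub_cancel] at this
    have h1 := hall (k - j)
    rw [Nat.add_sub_cancel' hjk.le, hSk] at h1
    exact hd ((hC G A B hS hAne hB).2 hcrit d (by rw [h1]; exact hst))
  have hgrow2 : ∀ n, 2 + n ≤ k → (S 2).card + n ≤ (S (2 + n)).card := by
    intro n
    induction n with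
    | zero => intro _; rfl
    | succ n ih =>
      intro hn
      have h1 := ih (by omega)
      have h2 := hgrow (2 + n) (by omega) (by omega)
      have h3 : S (2 + (n + 1)) = S (2 + n + 1) := rfl
      rw [h3]
      omega
  have h3 := hgrow2 (k - 2) (by omega)
  rw [Nat.add_sub_cancel' hA, hSk] at h3
  have hS1 : S 1 = tr a B := by
    ext z
    rw [hSdef, mem_tr]
    simp only [mem_add, mem_image, mem_range]
    constructor
    · rintro ⟨_, ⟨i, hi, rfl⟩, b, hb, rfl⟩
      obtain rfl : i = 0 := by omega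
      rw [zero_smul, add_zero, add_sub_cancel_left]
      exact hb
    · intro h
      exact ⟨_, ⟨0, by omega, rfl⟩, z - a, h, by rw [zero_smul, add_zero]; abel⟩
  have hS2 : S 2 = tr a (B ∪ tr d B) := by
    rw [hstep 1 le_rfl, hS1, tr_union, tr_tr, tr_tr, add_comm d a]
  have h4 : (S 1).card + 1 ≤ (S 2).card := hgrow 1 le_rfl (by omega)
  rw [hS2, card_tr] at h3 h4
  rw [hS1, card_tr] at h4
  exact isAP_of_card_union (by omega) (exists_not_mem_of_SS hS hAne hd)

/-- A pair with two elements. -/
lemma isAP_pair [Finite G] {A M : Finset G} (hS : SS A M)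
    (hM : M.card = 2) (hcrit : (A + M).card + 1 = A.card + M.card) :
    ∃ d : G, (A ∪ tr d A).card = A.card + 1 ∧ IsAP d A := by
  obtain ⟨x, y, hxy, rfl⟩ := card_eq_two.1 hM
  have hd : y - x ≠ 0 := sub_ne_zero.2 hxy.symm
  have h1 : A + {x, y} = tr x (A ∪ tr (y - x) A) := by
    ext z
    rw [mem_tr, mem_union, mem_tr, mem_add]
    constructor
    · rintro ⟨a, ha, b, hb, rfl⟩
      rw [mem_insert, mem_singleton] at hb
      rcases hb with rfl | rfl
      · left; rwa [add_sub_cancel_right]
      · right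
        rwa [show a + b - x - (b - x) = a by abel]
    · rintro (h | h)
      · exact ⟨z - x, h, x, by simp, by abel⟩
      · exact ⟨_, h, y, by simp, by abel⟩
  have h2 : (A ∪ tr (y - x) A).card = A.card + 1 := by
    rw [h1, card_tr] at hcrit
    omega
  exact ⟨y - x, h2, isAP_of_card_union h2
    (exists_not_mem_of_SS hS.symm (card_pos.1 (by omega)) hd)⟩

/-- Three translates of a Sidon set. -/
lemma sidon_three {X Y : Finset G} (hX : ∀ t : G, t ≠ 0 → (X ∩ tr t X).card ≤ 1)
    (hY : 3 ≤ Y.card) : 3 * X.card ≤ (X + Y).card + 3 := by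
  obtain ⟨Y', hY', hcard⟩ := exists_subset_card_eq hY
  obtain ⟨x, y, z, hxy, hxz, hyz, rfl⟩ := card_eq_three.1 hcard
  have hsub : tr x X ∪ tr y X ∪ tr z X ⊆ X + Y := by
    intro w hw
    rw [mem_union, mem_union, mem_tr, mem_tr, mem_tr] at hw
    rw [mem_add]
    rcases hw with (h | h) | h
    · exact ⟨_, h, x, hY' (by simp), by abel⟩
    · exact ⟨_, h, y, hY' (by simp), by abel⟩
    · exact ⟨_, h, z, hY' (by simp), by abel⟩
  have hint : ∀ u v : G, u ≠ v → (tr u X ∩ tr v X).card ≤ 1 := by
    intro u v huv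
    have h1 : tr u X ∩ tr v X = tr u (X ∩ tr (v - u) X) := by
      ext w
      rw [mem_inter, mem_tr, mem_tr, mem_tr, mem_inter, mem_tr]
      rw [show w - u - (v - u) = w - v by abel]
    rw [h1, card_tr]
    exact hX _ (sub_ne_zero.2 huv.symm)
  have h1 := card_union_add_card_inter (tr x X) (tr y X)
  have h2 := card_union_add_card_inter (tr x X ∪ tr y X) (tr z X)
  have h3 : ((tr x X ∪ tr y X) ∩ tr z X).card ≤ 2 := by
    rw [union_inter_distrib_right]
    refine (card_union_le _ _).trans ?_
    have := hint x z hxz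
    have := hint y z hyz
    omega
  have h4 := hint x y hxy
  have h5 := card_le_card hsub
  rw [card_tr, card_tr] at h1
  rw [card_tr] at h2
  omega

end basic

section main

variable {G : Type u} [AddCommGroup G] [Finite G] [DecidableEq G]

omit [DecidableEq G] in
lemma card_hull_eq (P : AddSubgroup G) [DecidableEq (G ⧸ P)] (X : Finset G) :
    (hull P X).card = (X.image (QuotientAddGroup.mk : G → G ⧸ P)).card * Nat.card P := by
  classical
  have h1 : ∀ a ∈ X.image (QuotientAddGroup.mk : G → G ⧸ P),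
      ((hull P X).filter fun g => (QuotientAddGroup.mk g : G ⧸ P) = a).card = Nat.card P := by
    intro a ha
    obtain ⟨x, hx, rfl⟩ := mem_image.1 ha
    have h2 : (hull P X).filter (fun g => (QuotientAddGroup.mk g : G ⧸ P) =
        QuotientAddGroup.mk x) = (Set.toFinite (P : Set G)).toFinset.image (fun h => h + x) := by
      ext z
      rw [mem_filter, mem_image]
      simp only [Set.Finite.mem_toFinset, SetLike.mem_coe]
      constructor
      · rintro ⟨-, hzx⟩
        refine ⟨z - x, ?_, by abel⟩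
        rw [eq_comm, QuotientAddGroup.eq] at hzx
        rwa [sub_eq_neg_add]
      · rintro ⟨h, hh, rfl⟩
        refine ⟨mem_hull.2 ⟨x, hx, by rwa [add_sub_cancel_right]⟩, ?_⟩
        rw [eq_comm, QuotientAddGroup.eq]
        simpa [add_comm] using hh
    rw [h2, card_image_of_injective _ (add_left_injective x), ← Nat.card_eq_card_finite_toFinset]
    rfl
  have h3 : (hull P X).card = ∑ a ∈ X.image (QuotientAddGroup.mk : G → G ⧸ P),
      ((hull P X).filter fun g => (QuotientAddGroup.mk g : G ⧸ P) = a).card := by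
    apply card_eq_sum_card_fiberwise
    intro g hg
    rw [mem_coe, mem_hull] at hg
    obtain ⟨x, hx, hgx⟩ := hg
    rw [mem_coe, mem_image]
    refine ⟨x, hx, ?_⟩
    rw [QuotientAddGroup.eq]
    rwa [← sub_eq_neg_add]
  rw [h3, sum_congr rfl h1, sum_const, smul_eq_mul]

omit [Finite G] [DecidableEq G] in
lemma card_le_classes (P : AddSubgroup G) [DecidableEq (G ⧸ P)] (X : Finset G) (n : ℕ)
    (hn : ∀ x : G ⧸ P, (part P X x).card ≤ n) :
    X.card ≤ (X.image (QuotientAddGroup.mk : G → G ⧸ P)).card * n := by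
  classical
  rw [mul_comm]
  apply card_le_mul_card_image
  intro a _
  have h1 := hn a
  unfold part at h1
  convert h1

/-- The key estimate: a translate with a large overlap. -/
lemma key (hK : Stmt_Kneser.{u}) (hC : Stmt_CDH.{u}) {A M : Finset G} (hS : SS A M)
    (hA : 2 ≤ A.card) (hM : 2 ≤ M.card) (hcrit : (A + M).card + 1 = A.card + M.card)
    (hmin : ∀ M' ⊆ M, 2 ≤ M'.card → (A + M').card + 1 = A.card + M'.card → M'.card = M.card)
    (H : AddSubgroup G) (hHM : InCoset H M) (hHA : InCoset H A)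
    (hH : ∀ P : AddSubgroup G, InCoset P A → H ≤ P)
    (t : G) (ht : t ≠ 0) (hI : 2 ≤ (M ∩ tr t M).card) :
    (∀ u ∈ A + M, ∀ z : G, z - u ∈ H → z ∈ A + (M ∪ tr t M)) ∧
      Nat.card H + 4 ≤ A.card + 2 * M.card := by
  classical
  have hAne : A.Nonempty := card_pos.1 (by omega)
  have hMne : M.Nonempty := card_pos.1 (by omega)
  set I := M ∩ tr t M with hIdef
  set J := M ∪ tr t M with hJdef
  have hIM : I ⊆ M := inter_subset_left
  have hJ1 : J.card + I.card = 2 * M.card := by
    have := card_union_add_card_inter M (tr t M)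
    rw [card_tr] at this
    rw [hJdef, hIdef]
    omega
  -- step 1
  have h1 : A.card + I.card ≤ (A + I).card := by
    by_contra hcon
    have h2 := (hC G A I (hS.mono subset_rfl hIM) hAne (card_pos.1 (by omega))).1
    have h3 := hmin I hIM hI (by omega)
    have h4 : I = M := eq_of_subset_of_card_le hIM (by omega)
    have h5 : M = tr t M := by
      apply eq_of_subset_of_card_le
      · rw [← h4]
        exact inter_subset_right.trans (by rw [h4])
      · rw [card_tr]
    apply ht
    apply (hC G A M hS hAne hMne).2 hcrit t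
    intro z hz
    have h6 : tr t (A + M) = A + M := by rw [← add_tr, ← h5]
    rw [← h6, mem_tr, add_sub_cancel_left]
    exact hz
  -- step 2
  have h2 : (A + J).card + (A + I).card ≤ 2 * (A + M).card := by
    have h3 : A + J = (A + M) ∪ tr t (A + M) := by
      rw [hJdef, add_union, add_tr]
    have h4 : A + I ⊆ (A + M) ∩ tr t (A + M) := by
      rw [← add_tr]
      exact subset_inter (add_subset_add_left inter_subset_left)
        (add_subset_add_left inter_subset_right)
    have h5 := card_union_add_card_inter (A + M) (tr t (A + M))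
    rw [card_tr, ← h3] at h5
    have h6 := card_le_card h4
    omega
  -- step 3
  have h3 : (A + J).card + 2 ≤ A.card + J.card := by omega
  have hMJ : M ⊆ J := subset_union_left
  have hJne : J.Nonempty := hMne.mono hMJ
  -- step 4
  obtain ⟨P, hP, hPc⟩ := hK G A J hAne hJne
  have hA1 := card_hull_ge P A
  have hJ2 := card_hull_ge P J
  have hPne : P ≠ ⊥ := by
    rintro rfl
    rw [AddSubgroup.card_bot] at hPc
    omega
  have hSP := hS P hPne
  -- classes
  set r := (A.image (QuotientAddGroup.mk : G → G ⧸ P)).card with hr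
  set s := (J.image (QuotientAddGroup.mk : G → G ⧸ P)).card with hs
  have hr1 : (hull P A).card = r * Nat.card P := card_hull_eq P A
  have hs1 : (hull P J).card = s * Nat.card P := card_hull_eq P J
  have hspos : 1 ≤ s := card_pos.2 (hJne.image _)
  have hAP : InCoset P A := by
    have hr2 : r ≤ 1 := by
      by_contra hr2
      push Not at hr2
      -- maximal parts
      have : Fintype (G ⧸ P) := Fintype.ofFinite _
      obtain ⟨xa, -, hxa⟩ := (univ : Finset (G ⧸ P)).exists_max_image
        (fun x => (part P A x).card) ⟨0, mem_univ _⟩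
      obtain ⟨xb, -, hxb⟩ := (univ : Finset (G ⧸ P)).exists_max_image
        (fun x => (part P M x).card) ⟨0, mem_univ _⟩
      set a := (part P A xa).card with ha
      set b := (part P M xb).card with hb
      have hab : a + b ≤ Nat.card P := hSP xa xb
      have h5 : A.card ≤ r * a := card_le_classes P A a fun x => hxa x (mem_univ _)
      have h6 : J.card ≤ s * (2 * b) := by
        apply card_le_classes P J (2 * b)
        intro x
        have h7 : part P J x ⊆ part P M x ∪ part P (tr t M) x := by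
          intro z hz
          rw [mem_part, hJdef, mem_union] at hz
          rw [mem_union, mem_part, mem_part]
          tauto
        have h8 := (card_le_card h7).trans (card_union_le _ _)
        have h9 := hxb x (mem_univ _)
        have h10 : (part P (tr t M) x).card ≤ b := by
          unfold tr
          rw [card_part_image_add]
          exact hxb _ (mem_univ _)
        omega
      generalize Nat.card P = p at *
      have h7 : r * p + 2 ≤ r * a + p := by omega
      have h8 : r * p + s * p + 2 ≤ r * a + s * (2 * b) + p := by omega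
      obtain ⟨c, hc⟩ : ∃ c, p = a + c := ⟨p - a, by omega⟩
      subst hc
      have h9 : r * c + 2 ≤ a + c := by nlinarith
      have h10 : 2 * c ≤ r * c := Nat.mul_le_mul_right c hr2
      have hbc : b ≤ c := by omega
      have h11 : 2 * b + 2 ≤ a + c := by omega
      obtain ⟨e, he⟩ : ∃ e, a + c = 2 * b + e := ⟨a + c - 2 * b, by omega⟩
      have h12 : r * c + s * e + 2 ≤ a + c := by
        have h13 : r * (a + c) + s * (a + c) + 2 ≤ r * a + s * (2 * b) + (a + c) := h8
        have h14 : s * (a + c) = s * (2 * b) + s * e := by rw [he, mul_add]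
        have h15 : r * (a + c) = r * a + r * c := mul_add _ _ _
        omega
      have h16 : e ≤ s * e := Nat.le_mul_of_pos_left e hspos
      omega
    have hr3 := card_le_one.1 hr2
    obtain ⟨a₀, ha₀⟩ := hAne
    refine ⟨QuotientAddGroup.mk a₀, fun a ha => ?_⟩
    exact hr3 _ (mem_image_of_mem _ ha) _ (mem_image_of_mem _ ha₀)
  have hHP : H ≤ P := hH P hAP
  -- everything in one coset of H
  obtain ⟨xA, hxA⟩ := hHA
  obtain ⟨xM, hxM⟩ := hHM
  have htH : t ∈ H := by
    obtain ⟨m, hm⟩ : I.Nonempty := card_pos.1 (by omega)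
    rw [hIdef, mem_inter, mem_tr] at hm
    have h5 : (QuotientAddGroup.mk (m - t) : G ⧸ H) = QuotientAddGroup.mk m :=
      (hxM _ hm.2).trans (hxM _ hm.1).symm
    rw [QuotientAddGroup.eq] at h5
    rwa [show -(m - t) + m = t by abel] at h5
  have hxJ : ∀ m ∈ J, (QuotientAddGroup.mk m : G ⧸ H) = xM := by
    intro m hm
    rw [hJdef, mem_union, mem_tr] at hm
    rcases hm with hm | hm
    · exact hxM m hm
    · rw [← hxM _ hm, QuotientAddGroup.eq]
      rw [show -m + (m - t) = -t by abel]
      exact H.neg_mem htH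
  have hAJ : ∀ z ∈ A + J, (QuotientAddGroup.mk z : G ⧸ H) = xA + xM := by
    intro z hz
    rw [mem_add] at hz
    obtain ⟨a, ha, m, hm, rfl⟩ := hz
    rw [QuotientAddGroup.mk_add, hxA a ha, hxJ m hm]
  obtain ⟨z₀, hz₀⟩ : (A + J).Nonempty := hAne.add hJne
  have hPH : P = H := by
    apply le_antisymm _ hHP
    intro h hh
    have h5 := hAJ _ ((hP h).1 hh z₀ hz₀)
    rw [← hAJ z₀ hz₀, eq_comm, QuotientAddGroup.eq] at h5
    rwa [show -z₀ + (h + z₀) = h by abel] at h5
  subst hPH
  refine ⟨?_, ?_⟩
  · intro u hu z hz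
    have h5 := (hP _).1 hz u (add_subset_add_left hMJ hu)
    rwa [sub_add_cancel] at h5
  · have h5 : Nat.card P ≤ (A + J).card := by
      have h6 : Nat.card P ∣ (A + J).card :=
        card_dvd_of_periodic P _ fun h hh z hz => (hP h).1 hh z hz
      exact Nat.le_of_dvd (card_pos.2 ⟨z₀, hz₀⟩) h6
    omega

omit [Finite G] [DecidableEq G] in
lemma ss_card {A B : Finset G} (hS : SS A B) {H : AddSubgroup G} (hH : H ≠ ⊥)
    (hA : InCoset H A) (hB : InCoset H B) : A.card + B.card ≤ Nat.card H := by
  obtain ⟨x, hx⟩ := hA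
  obtain ⟨y, hy⟩ := hB
  have h1 := hS H hH x y
  have h2 : part H A x = A := by
    ext a
    rw [mem_part]
    exact ⟨fun h => h.1, fun h => ⟨h, hx a h⟩⟩
  have h3 : part H B y = B := by
    ext a
    rw [mem_part]
    exact ⟨fun h => h.1, fun h => ⟨h, hy a h⟩⟩
  rwa [h2, h3] at h1

omit [Finite G] [DecidableEq G] in
lemma ne_bot_of_inCoset {A : Finset G} (hA : 2 ≤ A.card) {H : AddSubgroup G}
    (hHA : InCoset H A) : H ≠ ⊥ := by
  rintro rfl
  obtain ⟨x, hx⟩ := hHA
  obtain ⟨a, ha, a', ha', hne⟩ := one_lt_card.1 (show 1 < A.card by omega)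
  have h1 := (hx a ha).trans (hx a' ha').symm
  rw [QuotientAddGroup.eq, AddSubgroup.mem_bot] at h1
  exact hne (neg_add_eq_zero.1 h1)

/-- The extension step. -/
lemma caseC (hC : Stmt_CDH.{u}) {A B M : Finset G} (hS : SS A B) (hA : 2 ≤ A.card)
    (hB : B.Nonempty) (hM : M ⊆ B) (hcrit : (A + B).card + 1 = A.card + B.card)
    {H : AddSubgroup G} (hHA : InCoset H A) (hcard : A.card + M.card = Nat.card H) :
    InCoset H B ∧ A.card + B.card = Nat.card H := by
  have h1 : InCoset H B := inCoset_of_crit hC hS.symm hB hA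
    (by rw [add_comm B A, hcrit, add_comm]) H hHA
  refine ⟨h1, ?_⟩
  have h2 := ss_card hS (ne_bot_of_inCoset hA hHA) hHA h1
  have h3 := card_le_card hM
  omega

/-- The case with a large overlap. -/
lemma caseA (hK : Stmt_Kneser.{u}) (hC : Stmt_CDH.{u}) {A M : Finset G} (hS : SS A M)
    (hA : 2 ≤ A.card) (hM : 2 ≤ M.card) (hcrit : (A + M).card + 1 = A.card + M.card)
    (hmin : ∀ M' ⊆ M, 2 ≤ M'.card → (A + M').card + 1 = A.card + M'.card → M'.card = M.card)
    (t : G) (ht : t ≠ 0) (hI : 2 ≤ (M ∩ tr t M).card) :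
    ∃ H : AddSubgroup G, InCoset H A ∧ InCoset H M ∧ A.card + M.card = Nat.card H := by
  classical
  have hAne : A.Nonempty := card_pos.1 (by omega)
  have hMne : M.Nonempty := card_pos.1 (by omega)
  set H : AddSubgroup G := AddSubgroup.closure {x | ∃ a ∈ A, ∃ a' ∈ A, x = a - a'} with hHdef
  have hHA : InCoset H A := by
    obtain ⟨a₀, ha₀⟩ := hAne
    refine ⟨QuotientAddGroup.mk a₀, fun a ha => ?_⟩
    rw [QuotientAddGroup.eq]
    exact AddSubgroup.subset_closure ⟨a₀, ha₀, a, ha, by abel⟩
  have hH : ∀ P : AddSubgroup G, InCoset P A → H ≤ P := by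
    rintro P ⟨x, hx⟩
    rw [hHdef, AddSubgroup.closure_le]
    rintro _ ⟨a, ha, a', ha', rfl⟩
    have h1 := (hx a' ha').trans (hx a ha).symm
    rw [QuotientAddGroup.eq] at h1
    rwa [SetLike.mem_coe, sub_eq_neg_add]
  have hHM : InCoset H M := inCoset_of_crit hC hS.symm hMne hA
    (by rw [add_comm M A, hcrit, add_comm]) H hHA
  have hHne := ne_bot_of_inCoset hA hHA
  have hle := ss_card hS hHne hHA hHM
  obtain ⟨-, hk1⟩ := key hK hC hS hA hM hcrit hmin H hHM hHA hH t ht hI
  refine ⟨H, hHA, hHM, le_antisymm hle ?_⟩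
  by_contra hcon
  push Not at hcon
  obtain ⟨xA, hxA⟩ := hHA
  obtain ⟨xM, hxM⟩ := hHM
  set C := hull H (A + M) with hCdef
  have hCcard : Nat.card H ≤ C.card := card_le_hull H (hAne.add hMne)
  have hDcard : 2 ≤ (C \ (A + M)).card := by
    have hsub : A + M ⊆ C := subset_hull H _
    rw [card_sdiff_of_subset hsub]
    omega
  obtain ⟨d₁, hd₁, d₂, hd₂, hne⟩ := one_lt_card.1 (show 1 < (C \ (A + M)).card by omega)
  rw [mem_sdiff] at hd₁ hd₂
  have ht' : d₁ - d₂ ≠ 0 := sub_ne_zero.2 hne
  have hI' : (M ∩ tr (d₁ - d₂) M).card ≤ 1 := by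
    by_contra hI'
    obtain ⟨hk2, -⟩ := key hK hC hS hA hM hcrit hmin H ⟨xM, hxM⟩ ⟨xA, hxA⟩ hH (d₁ - d₂) ht'
      (by omega)
    obtain ⟨u, hu, hdu⟩ := mem_hull.1 hd₁.1
    have h1 := hk2 u hu d₁ hdu
    rw [add_union, mem_union, add_tr, mem_tr] at h1
    rcases h1 with h1 | h1
    · exact hd₁.2 h1
    · rw [sub_sub_cancel] at h1
      exact hd₂.2 h1
  -- the reflected copies
  set N₁ := M.image (fun m => d₁ - m) with hN₁
  set N₂ := M.image (fun m => d₂ - m) with hN₂
  have hN₁c : N₁.card = M.card := card_image_of_injective _ fun x y h => by simpa using h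
  have hN₂c : N₂.card = M.card := card_image_of_injective _ fun x y h => by simpa using h
  have hint : (N₁ ∩ N₂).card ≤ 1 := by
    refine le_trans ?_ hI'
    apply card_le_card_of_injOn (fun z => d₁ - z)
    · intro z hz
      rw [mem_coe, mem_inter, hN₁, hN₂, mem_image, mem_image] at hz
      obtain ⟨⟨m, hm, rfl⟩, m', hm', h⟩ := hz
      show d₁ - (d₁ - m) ∈ (M ∩ tr (d₁ - d₂) M : Finset G)
      rw [sub_sub_cancel, mem_inter, mem_tr]
      refine ⟨hm, ?_⟩
      have h1 : m - (d₁ - d₂) = m' := by
        have h2 : m' = d₂ - (d₁ - m) := by rw [← h]; abel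
        rw [h2]; abel
      rwa [h1]
    · intro x _ y _ h
      simpa using h
  have hun := card_union_add_card_inter N₁ N₂
  have hcl : ∀ d ∈ C, (QuotientAddGroup.mk d : G ⧸ H) = xA + xM := by
    intro d hd
    obtain ⟨u, hu, hdu⟩ := mem_hull.1 hd
    rw [mem_add] at hu
    obtain ⟨a, ha, m, hm, rfl⟩ := hu
    rw [← hxA a ha, ← hxM m hm, ← QuotientAddGroup.mk_add, eq_comm, QuotientAddGroup.eq]
    rwa [← sub_eq_neg_add]
  have hN : ∀ z ∈ N₁ ∪ N₂, (QuotientAddGroup.mk z : G ⧸ H) = xA ∧ z ∉ A := by
    have aux : ∀ d ∈ C, d ∉ A + M → ∀ m ∈ M,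
        (QuotientAddGroup.mk (d - m) : G ⧸ H) = xA ∧ d - m ∉ A := by
      intro d hd hd' m hm
      refine ⟨?_, fun h => hd' ?_⟩
      · rw [QuotientAddGroup.mk_sub, hcl d hd, hxM m hm, add_sub_cancel_right]
      · rw [mem_add]
        exact ⟨_, h, m, hm, by abel⟩
    intro z hz
    rw [mem_union, hN₁, hN₂, mem_image, mem_image] at hz
    rcases hz with ⟨m, hm, rfl⟩ | ⟨m, hm, rfl⟩
    · exact aux d₁ hd₁.1 hd₁.2 m hm
    · exact aux d₂ hd₂.1 hd₂.2 m hm
  have hdis : Disjoint A (N₁ ∪ N₂) := by
    rw [disjoint_left]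
    intro a ha hz
    exact (hN a hz).2 ha
  have hpart : part H (A ∪ (N₁ ∪ N₂)) xA = A ∪ (N₁ ∪ N₂) := by
    ext z
    rw [mem_part]
    refine ⟨fun h => h.1, fun h => ⟨h, ?_⟩⟩
    rcases mem_union.1 h with h | h
    · exact hxA z h
    · exact (hN z h).1
  have h1 := card_part_le H (A ∪ (N₁ ∪ N₂)) xA
  rw [hpart, card_union_of_disjoint hdis] at h1
  omega

omit [Finite G] in
/-- A minimal critical subset. -/
lemma exists_min {A B : Finset G} (hB : 2 ≤ B.card)
    (hcrit : (A + B).card + 1 = A.card + B.card) :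
    ∃ M ⊆ B, 2 ≤ M.card ∧ (A + M).card + 1 = A.card + M.card ∧
      ∀ M' ⊆ M, 2 ≤ M'.card → (A + M').card + 1 = A.card + M'.card → M'.card = M.card := by
  classical
  obtain ⟨M, hM, hmin⟩ := (B.powerset.filter
    (fun M => 2 ≤ M.card ∧ (A + M).card + 1 = A.card + M.card)).exists_min_image
      Finset.card ⟨B, by simp [hB, hcrit]⟩
  rw [mem_filter, mem_powerset] at hM
  refine ⟨M, hM.1, hM.2.1, hM.2.2, fun M' hM' h1 h2 => ?_⟩
  exact le_antisymm (card_le_card hM')
    (hmin M' (by rw [mem_filter, mem_powerset]; exact ⟨hM'.trans hM.1, h1, h2⟩))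

end main

end VO

/-- Theorem V: Vosper's theorem under condition (**). -/
theorem stmt_V (hK : Stmt_Kneser.{u}) (hC : Stmt_CDH.{u}) : Stmt_V.{u} := by
  classical
  intro G _ _ _ A B hS hA hB hcrit
  have hAne : A.Nonempty := card_pos.1 (by omega)
  have hBne : B.Nonempty := card_pos.1 (by omega)
  obtain ⟨M, hMB, hM, hMcrit, hmin⟩ := VO.exists_min hB hcrit
  have hSM : SS A M := hS.mono subset_rfl hMB
  have hMne : M.Nonempty := card_pos.1 (by omega)
  have hcritM' : (M + A).card + 1 = M.card + A.card := by rw [add_comm M A, hMcrit, add_comm]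
  rcases Nat.lt_or_ge 2 M.card with h3 | h2
  · by_cases hov : ∃ t : G, t ≠ 0 ∧ 2 ≤ (M ∩ VO.tr t M).card
    · -- large overlap
      obtain ⟨t, ht, hI⟩ := hov
      obtain ⟨H, hHA, -, hcard⟩ := VO.caseA hK hC hSM hA hM hMcrit hmin t ht hI
      obtain ⟨hHB, hc⟩ := VO.caseC hC hS hA hBne hMB hcrit hHA hcard
      exact Or.inr ⟨H, hHA, hHB, hc⟩
    · -- `M` is a Sidon set
      push Not at hov
      obtain ⟨A', hA'A, hA', hA'crit, hmin'⟩ := VO.exists_min hA hcritM'
      have hSA' : SS M A' := hSM.symm.mono subset_rfl hA'A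
      rcases Nat.lt_or_ge 2 A'.card with h3' | h2'
      · by_cases hov' : ∃ t : G, t ≠ 0 ∧ 2 ≤ (A' ∩ VO.tr t A').card
        · obtain ⟨t, ht, hI⟩ := hov'
          obtain ⟨H, hHM, -, hcard⟩ := VO.caseA hK hC hSA' hM hA' hA'crit hmin' t ht hI
          obtain ⟨hHA, hc⟩ := VO.caseC hC hSM.symm hM hAne hA'A hcritM' hHM hcard
          obtain ⟨hHB, hc'⟩ := VO.caseC hC hS hA hBne hMB hcrit hHA (by omega)
          exact Or.inr ⟨H, hHA, hHB, hc'⟩
        · push Not at hov'
          exfalso
          have h4 := VO.sidon_three (X := M) (Y := A') (fun t ht => by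
            have := hov t ht; omega) h3'
          have h5 := VO.sidon_three (X := A') (Y := M) (fun t ht => by
            have := hov' t ht; omega) h3
          rw [add_comm A' M] at h5
          omega
      · exfalso
        obtain ⟨d, hd, -⟩ := VO.isAP_pair hSA' (by omega) hA'crit
        have hd0 : d ≠ 0 := by
          rintro rfl
          have : M ∪ VO.tr 0 M = M := by
            ext z
            rw [mem_union, VO.mem_tr, sub_zero, or_self]
          rw [this] at hd
          omega
        have h4 := card_union_add_card_inter M (VO.tr d M)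
        rw [VO.card_tr] at h4
        have := hov d hd0
        omega
  · obtain ⟨d, -, hd⟩ := VO.isAP_pair hSM (by omega) hMcrit
    exact Or.inl ⟨d, hd, VO.isAP_of_isAP hC hS hd hA hBne hcrit⟩

end Pool.Agent.Work.MP_59976d_co
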