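import Pool.Agent.Work.MP_59976d_co_odd.NL

/-!
Block W: Theorem W for groups of odd order.
-/

namespace Pool.Agent.Work.MP_59976d_co

open Finset
open scoped Pointwise

universe u

/-- A nontrivial finite abelian group has a subgroup of prime index. -/
lemma exists_prime_index (G : Type*) [AddCommGroup G] [Finite G] [Nontrivial G] :
    ∃ N : AddSubgroup G, (Nat.card (G ⧸ N)).Prime := by
  have hfin : Finite (AddSubgroup G) :=
    Finite.of_injective (fun H : AddSubgroup G => (H : Set G)) SetLike.coe_injective
  obtain ⟨N, hN⟩ := IsCoatomic.exists_coatom (AddSubgroup G)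
  refine ⟨N, ?_⟩
  have hcard : Nat.card (G ⧸ N) ≠ 1 := by
    intro h
    apply hN.1
    have h1 : N.index = 1 := h
    exact AddSubgroup.index_eq_one.1 h1
  obtain ⟨q, hq, hqd⟩ := Nat.exists_prime_and_dvd hcard
  have : Fact q.Prime := ⟨hq⟩
  obtain ⟨z, hz⟩ := exists_prime_addOrderOf_dvd_card' (G := G ⧸ N) q hqd
  have hlt : N < (AddSubgroup.zmultiples z).comap (QuotientAddGroup.mk' N) := by
    refine lt_of_le_of_ne ?_ ?_
    · intro n hn
      rw [AddSubgroup.mem_comap]
      have : QuotientAddGroup.mk' N n = 0 := (QuotientAddGroup.eq_zero_iff n).2 hn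
      rw [this]
      exact AddSubgroup.zero_mem _
    · intro h
      obtain ⟨g, rfl⟩ := QuotientAddGroup.mk_surjective z
      have h1 : g ∈ (AddSubgroup.zmultiples ((QuotientAddGroup.mk g : G ⧸ N))).comap
          (QuotientAddGroup.mk' N) := by
        rw [AddSubgroup.mem_comap]
        exact AddSubgroup.mem_zmultiples _
      rw [← h] at h1
      have h2 : (QuotientAddGroup.mk g : G ⧸ N) = 0 := (QuotientAddGroup.eq_zero_iff g).2 h1
      rw [h2, addOrderOf_zero] at hz
      exact hq.one_lt.ne hz
  have htop := hN.2 _ hlt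
  have hz' : AddSubgroup.zmultiples z = ⊤ := by
    rw [eq_top_iff]
    intro y _
    obtain ⟨g, rfl⟩ := QuotientAddGroup.mk_surjective y
    have h1 : g ∈ (AddSubgroup.zmultiples z).comap (QuotientAddGroup.mk' N) := by
      rw [htop]; trivial
    exact h1
  have h1 : Nat.card (G ⧸ N) = q := by
    rw [← hz, ← Nat.card_zmultiples, hz', AddSubgroup.card_top]
  rw [h1]
  exact hq

/-- The parts over one coset of `N`, as subsets of `N`. -/
lemma parts_in_subgroup {G : Type u} [AddCommGroup G] [Finite G] [DecidableEq G]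
    (N : AddSubgroup G) (A B : Finset G) (hSS : SS A B)
    (hW : ∀ A' B' : Finset N, A'.Nonempty → B'.Nonempty → SS A' B' →
      A'.card + B'.card ≤ (rs A' B').card + 3) (u : G ⧸ N)
    (hA : 1 ≤ (part N A u).card) (hB : 1 ≤ (part N B u).card) :
    (part N A u).card + (part N B u).card ≤ (rs (part N A u) (part N B u)).card + 3 := by
  obtain ⟨g, rfl⟩ := QuotientAddGroup.mk_surjective u
  have hinj : Function.Injective (fun n : N => g + (n : G)) := fun a b h =>
    Subtype.ext (add_left_cancel h)
  have hmem : ∀ n : N, (QuotientAddGroup.mk (g + (n : G)) : G ⧸ N) = QuotientAddGroup.mk g := by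
    intro n
    rw [eq_comm, QuotientAddGroup.eq, neg_add_cancel_left]
    exact n.2
  have himg : ∀ X : Finset G, part N X (QuotientAddGroup.mk g) =
      (X.preimage (fun n : N => g + (n : G)) hinj.injOn).image (fun n : N => g + (n : G)) := by
    intro X
    ext z
    rw [mem_part, mem_image]
    constructor
    · rintro ⟨hz, hzg⟩
      rw [eq_comm, QuotientAddGroup.eq] at hzg
      refine ⟨⟨-g + z, hzg⟩, ?_, by simp⟩
      rw [mem_preimage]
      simpa using hz
    · rintro ⟨n, hn, rfl⟩
      rw [mem_preimage] at hn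
      exact ⟨hn, hmem n⟩
  set A' := A.preimage (fun n : N => g + (n : G)) hinj.injOn with hA'
  set B' := B.preimage (fun n : N => g + (n : G)) hinj.injOn with hB'
  have cA : (part N A (QuotientAddGroup.mk g)).card = A'.card := by
    rw [himg A, card_image_of_injective _ hinj]
  have cB : (part N B (QuotientAddGroup.mk g)).card = B'.card := by
    rw [himg B, card_image_of_injective _ hinj]
  have hSS' : SS A' B' := by
    intro H' hH' x y
    set H := H'.map N.subtype with hH
    have hHbot : H ≠ ⊥ := by
      intro h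
      apply hH'
      rw [hH] at h
      rw [← AddSubgroup.map_bot N.subtype] at h
      exact AddSubgroup.map_injective (AddSubgroup.subtype_injective N) h
    have hcardH : Nat.card H = Nat.card H' := by
      rw [hH]
      exact Nat.card_congr
        ((H'.equivMapOfInjective N.subtype (AddSubgroup.subtype_injective N)).symm.toEquiv)
    obtain ⟨n, rfl⟩ := QuotientAddGroup.mk_surjective x
    obtain ⟨m, rfl⟩ := QuotientAddGroup.mk_surjective y
    have hle : ∀ (X : Finset G) (k : N),
        (part H' (X.preimage (fun n : N => g + (n : G)) hinj.injOn)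
          (QuotientAddGroup.mk k)).card ≤ (part H X (QuotientAddGroup.mk (g + (k : G)))).card := by
      intro X k
      rw [← card_image_of_injective _ hinj]
      apply card_le_card
      intro z hz
      rw [mem_image] at hz
      obtain ⟨l, hl, rfl⟩ := hz
      rw [mem_part, mem_preimage] at hl
      refine mem_part.2 ⟨hl.1, ?_⟩
      have h1 := hl.2
      rw [QuotientAddGroup.eq] at h1 ⊢
      rw [hH, AddSubgroup.mem_map]
      refine ⟨-l + k, h1, ?_⟩
      simp only [AddSubgroup.coe_subtype, AddSubgroup.coe_add, AddSubgroup.coe_neg]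
      abel
    have h1 := hSS H hHbot (QuotientAddGroup.mk (g + (n : G))) (QuotientAddGroup.mk (g + (m : G)))
    have h2 : (part H' A' (QuotientAddGroup.mk n)).card ≤ _ := hle A n
    have h3 : (part H' B' (QuotientAddGroup.mk m)).card ≤ _ := hle B m
    omega
  have h1 := hW A' B' (card_pos.1 (by omega)) (card_pos.1 (by omega)) hSS'
  have h2 : (rs A' B').card ≤
      (rs (part N A (QuotientAddGroup.mk g)) (part N B (QuotientAddGroup.mk g))).card := by
    have hinj2 : Function.Injective (fun n : N => (g + g) + (n : G)) := fun a b h =>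
      Subtype.ext (add_left_cancel h)
    rw [← card_image_of_injective _ hinj2]
    apply card_le_card
    intro z hz
    rw [mem_image] at hz
    obtain ⟨c, hc, rfl⟩ := hz
    rw [mem_rs] at hc
    obtain ⟨a, ha, b, hb, hne, rfl⟩ := hc
    rw [hA', mem_preimage] at ha
    rw [hB', mem_preimage] at hb
    rw [mem_rs]
    refine ⟨g + a, mem_part.2 ⟨ha, hmem a⟩, g + b, mem_part.2 ⟨hb, hmem b⟩, ?_, ?_⟩
    · intro h
      exact hne (hinj h)
    · rw [AddSubgroup.coe_add]; abel
  omega

/-- Block W. -/
theorem stmt_W (hNL : Stmt_NLevel'.{u}) (hTR : Stmt_Trans.{u}) (hAF : Stmt_Aff.{u}) :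
    Stmt_W.{u} := by
  have key : ∀ (n : ℕ) (G : Type u) [AddCommGroup G] [Finite G] [DecidableEq G],
      Nat.card G = n → Odd (Nat.card G) → ∀ (A B : Finset G), A.Nonempty → B.Nonempty → SS A B →
      A.card + B.card ≤ (rs A B).card + 3 := by
    intro n
    induction n using Nat.strong_induction_on with
    | _ n ih =>
    intro G _ _ _ hn hodd A B hA hB hSS
    by_contra hlt
    have hF : (rs A B).card + 4 ≤ A.card + B.card := by omega
    classical
    have : Fintype G := Fintype.ofFinite G
    have hnt : Nontrivial G := by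
      by_contra h
      rw [not_nontrivial_iff_subsingleton] at h
      have h1 : A.card ≤ 1 := card_le_one.2 (fun a _ b _ => Subsingleton.elim a b)
      have h2 : B.card ≤ 1 := card_le_one.2 (fun a _ b _ => Subsingleton.elim a b)
      omega
    obtain ⟨N, hq⟩ := exists_prime_index G
    have : Fintype (G ⧸ N) := Fintype.ofFinite _
    have hqodd : Odd (Nat.card (G ⧸ N)) := hodd.of_dvd_nat N.card_quotient_dvd_card
    have hq2 : Nat.card (G ⧸ N) ≠ 2 := by
      intro h
      rw [h] at hqodd
      exact absurd hqodd (by decide)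
    have hNlt : Nat.card N < n := by
      rw [← hn, AddSubgroup.card_eq_card_quotient_mul_card_addSubgroup N]
      have h1 : 0 < Nat.card N := Nat.card_pos
      have h2 := hq.two_le
      nlinarith
    have hNodd : Odd (Nat.card N) := hodd.of_dvd_nat N.card_addSubgroup_dvd_card
    obtain ⟨a, b, ha, hb, hαa, hβb, hγ, htot⟩ := hNL G N hq hq2 A B hA hB hSS hF
      (fun u hu hv => parts_in_subgroup N A B hSS
        (fun A' B' hA' hB' hSS' => ih (Nat.card N) hNlt N rfl hNodd A' B' hA' hB' hSS') u hu hv)
    set X : Finset (G ⧸ N) := univ.filter (fun u => (part N A u).card = a) with hX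
    set Y : Finset (G ⧸ N) := univ.filter (fun u => (part N B u).card = b) with hY
    set S : Finset (G ⧸ N) := univ.filter (fun w => (part N (rs A B) w).card + 1 = a + b) with hS
    have cX : (Xᶜ).card ≤ ∑ u, (a - (part N A u).card) := by
      rw [card_eq_sum_ones]
      refine (sum_le_sum (g := fun u => a - (part N A u).card) (fun u hu => ?_)).trans
        (sum_le_sum_of_subset (subset_univ _))
      rw [mem_compl, hX, mem_filter] at hu
      have h1 := hαa u
      have h2 : (part N A u).card ≠ a := fun h => hu ⟨mem_univ _, h⟩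
      omega
    have cY : (Yᶜ).card ≤ ∑ u, (b - (part N B u).card) := by
      rw [card_eq_sum_ones]
      refine (sum_le_sum (g := fun u => b - (part N B u).card) (fun u hu => ?_)).trans
        (sum_le_sum_of_subset (subset_univ _))
      rw [mem_compl, hY, mem_filter] at hu
      have h1 := hβb u
      have h2 : (part N B u).card ≠ b := fun h => hu ⟨mem_univ _, h⟩
      omega
    have cS : (Sᶜ).card ≤ ∑ w, ((part N (rs A B) w).card - (a + b - 1)) := by
      rw [card_eq_sum_ones]
      refine (sum_le_sum (g := fun w => (part N (rs A B) w).card - (a + b - 1))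
        (fun u hu => ?_)).trans (sum_le_sum_of_subset (subset_univ _))
      rw [mem_compl, hS, mem_filter] at hu
      have h1 := hγ u
      have h2 : (part N (rs A B) u).card + 1 ≠ a + b := fun h => hu ⟨mem_univ _, h⟩
      omega
    have hcomp : (Xᶜ).card + (Yᶜ).card + (Sᶜ).card + 4 ≤ Nat.card (G ⧸ N) := by omega
    have hXc : (Xᶜ).card + X.card = Nat.card (G ⧸ N) := by
      rw [card_compl, Nat.card_eq_fintype_card]
      have := card_le_univ X
      omega
    have hYc : (Yᶜ).card + Y.card = Nat.card (G ⧸ N) := by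
      rw [card_compl, Nat.card_eq_fintype_card]
      have := card_le_univ Y
      omega
    obtain ⟨A₀, B₀, ξ, η, ζ, hA₀, hB₀, hadd⟩ := hTR G N hq hq2 A B hSS a b X Y S ha hb hcomp
      (fun u hu => by rw [hX, mem_filter] at hu; exact hu.2)
      (fun u hu => by rw [hY, mem_filter] at hu; exact hu.2)
      (fun u hu => by rw [hS, mem_filter] at hu; exact hu.2)
    -- identify the quotient with `ZMod q`
    set q := Nat.card (G ⧸ N) with hqdef
    have hqF : Fact q.Prime := ⟨hq⟩
    have hcyc : IsAddCyclic (G ⧸ N) := isAddCyclic_of_prime_card (p := q) hqdef.symm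
    let e : ZMod q ≃+ G ⧸ N := zmodAddCyclicAddEquiv hcyc
    have hcardpre : ∀ T : Finset (G ⧸ N), ((T.map e.symm.toEquiv.toEmbedding)ᶜ).card = (Tᶜ).card := by
      intro T
      rw [card_compl, card_compl, card_map, ZMod.card, ← Nat.card_eq_fintype_card]
    have hmemmap : ∀ (T : Finset (G ⧸ N)) (t : ZMod q),
        t ∈ T.map e.symm.toEquiv.toEmbedding ↔ e t ∈ T := by
      intro T t
      rw [mem_map]
      constructor
      · rintro ⟨x, hx, rfl⟩
        simpa using hx
      · intro h
        exact ⟨e t, h, by simp⟩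
    obtain ⟨φ, hφ1, hφ2⟩ := hAF q G (X.map e.symm.toEquiv.toEmbedding)
      (Y.map e.symm.toEquiv.toEmbedding) (S.map e.symm.toEquiv.toEmbedding)
      (fun t => ξ (e t)) (fun t => η (e t)) (fun t => ζ (e t))
      (by rw [hcardpre, hcardpre, hcardpre]; exact hcomp)
      (fun s hs t ht hne hst => by
        rw [hmemmap] at hs ht hst
        rw [map_add] at hst ⊢
        exact hadd (e s) hs (e t) ht (fun h => hne (e.injective h)) hst)
    -- nonempty model parts
    have hX2 : 2 ≤ X.card := by omega
    have hY1 : 1 ≤ Y.card := by omega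
    obtain ⟨u₀, hu₀⟩ := card_pos.1 (show 0 < X.card by omega)
    obtain ⟨v₀, hv₀⟩ := card_pos.1 hY1
    have hpa : 0 < (part N A u₀).card := by
      have := (mem_filter.1 hu₀).2
      rw [this]; exact ha
    have hpb : 0 < (part N B v₀).card := by
      have := (mem_filter.1 hv₀).2
      rw [this]; exact hb
    obtain ⟨z₀, hz₀⟩ := card_pos.1 hpa
    obtain ⟨y₀, hy₀⟩ := card_pos.1 hpb
    rw [hA₀ u₀ hu₀, mem_image] at hz₀
    rw [hB₀ v₀ hv₀, mem_image] at hy₀
    obtain ⟨z, hz, -⟩ := hz₀
    obtain ⟨y, hy, -⟩ := hy₀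
    have hzA : ∀ u ∈ X, ξ u + z ∈ A ∧ (QuotientAddGroup.mk (ξ u + z) : G ⧸ N) = u := by
      intro u hu
      have h1 : ξ u + z ∈ part N A u := by
        rw [hA₀ u hu]
        exact mem_image_of_mem _ hz
      exact mem_part.1 h1
    have hyB : ∀ v ∈ Y, η v + y ∈ B ∧ (QuotientAddGroup.mk (η v + y) : G ⧸ N) = v := by
      intro v hv
      have h1 : η v + y ∈ part N B v := by
        rw [hB₀ v hv]
        exact mem_image_of_mem _ hy
      exact mem_part.1 h1
    set R := φ.range with hR
    have hRcard : Nat.card R ≤ q := by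
      have h1 : Nat.card R ≤ Nat.card (ZMod q) :=
        Nat.card_le_card_of_surjective φ.rangeRestrict φ.rangeRestrict_surjective
      rwa [Nat.card_zmod] at h1
    have hξR : ∀ u ∈ X, ∀ u' ∈ X, ξ u - ξ u' ∈ R := by
      intro u hu u' hu'
      have h1 := hφ1 (e.symm u) ((hmemmap X _).2 (by simpa using hu)) (e.symm u')
        ((hmemmap X _).2 (by simpa using hu'))
      simp only [AddEquiv.apply_symm_apply] at h1
      rw [h1]
      exact ⟨_, rfl⟩
    have hηR : ∀ u ∈ Y, ∀ u' ∈ Y, η u - η u' ∈ R := by
      intro u hu u' hu'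
      have h1 := hφ2 (e.symm u) ((hmemmap Y _).2 (by simpa using hu)) (e.symm u')
        ((hmemmap Y _).2 (by simpa using hu'))
      simp only [AddEquiv.apply_symm_apply] at h1
      rw [h1]
      exact ⟨_, rfl⟩
    have hRbot : R ≠ ⊥ := by
      intro h
      obtain ⟨u, hu, u', hu', hne⟩ := one_lt_card.1 (show 1 < X.card by omega)
      have h1 := hξR u hu u' hu'
      rw [h, AddSubgroup.mem_bot, sub_eq_zero] at h1
      apply hne
      rw [← (hzA u hu).2, ← (hzA u' hu').2, h1]
    have hpX : X.card ≤ (part R A (QuotientAddGroup.mk (ξ u₀ + z))).card := by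
      have hinj : Set.InjOn (fun u => ξ u + z) (X : Set (G ⧸ N)) := by
        intro u hu u' hu' h
        have h' : ξ u + z = ξ u' + z := h
        rw [← (hzA u hu).2, ← (hzA u' hu').2, h']
      rw [← card_image_of_injOn hinj]
      apply card_le_card
      intro w hw
      rw [mem_image] at hw
      obtain ⟨u, hu, rfl⟩ := hw
      refine mem_part.2 ⟨(hzA u hu).1, ?_⟩
      rw [QuotientAddGroup.eq]
      have h1 := hξR u₀ hu₀ u hu
      have h2 : -(ξ u + z) + (ξ u₀ + z) = ξ u₀ - ξ u := by abel
      rw [h2]; exact h1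
    have hpY : Y.card ≤ (part R B (QuotientAddGroup.mk (η v₀ + y))).card := by
      have hinj : Set.InjOn (fun u => η u + y) (Y : Set (G ⧸ N)) := by
        intro u hu u' hu' h
        have h' : η u + y = η u' + y := h
        rw [← (hyB u hu).2, ← (hyB u' hu').2, h']
      rw [← card_image_of_injOn hinj]
      apply card_le_card
      intro w hw
      rw [mem_image] at hw
      obtain ⟨u, hu, rfl⟩ := hw
      refine mem_part.2 ⟨(hyB u hu).1, ?_⟩
      rw [QuotientAddGroup.eq]
      have h1 := hηR v₀ hv₀ u hu
      have h2 : -(η u + y) + (η v₀ + y) = η v₀ - η u := by abel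
      rw [h2]; exact h1
    have hfin := hSS R hRbot (QuotientAddGroup.mk (ξ u₀ + z)) (QuotientAddGroup.mk (η v₀ + y))
    omega
  intro G _ _ _ hodd A B hA hB hSS
  exact key (Nat.card G) G rfl hodd A B hA hB hSS

end Pool.Agent.Work.MP_59976d_co
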