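import Pool.Agent.Work.MP_59976d_co_odd.FIN
import Pool.Agent.Work.MP_59976d_co_odd.SC
import Pool.Agent.Work.MP_59976d_co_odd.KN
import Pool.Agent.Work.MP_59976d_co_odd.ST
import Pool.Agent.Work.MP_59976d_co_odd.LV
import Pool.Agent.Work.MP_59976d_co_odd.LC
import Pool.Agent.Work.MP_59976d_co_odd.NL
import Pool.Agent.Work.MP_59976d_co_odd.W
import Pool.Agent.Work.MP_59976d_co_odd.VO
import Pool.Agent.Work.MP_59976d_co_odd.UN
import Pool.Agent.Work.MP_59976d_co_odd.AF
import Pool.Agent.Work.MP_59976d_co_odd_helper80.TR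

/-!
All blocks together.
-/

namespace Pool.Agent.Work.MP_59976d_co

universe u

theorem all_odd : Stmt_Odd.{u} := by
  have hK : Stmt_Kneser.{u} := stmt_kneser
  have hS : Stmt_Scherk.{u} := stmt_Scherk hK
  have hC : Stmt_CDH.{u} := stmt_CDH hK
  have h0 : Stmt_Level0.{u} := stmt_level0 hS
  have h1 : Stmt_Level1.{u} := stmt_level1 hS
  have hST : Stmt_Struct.{u} := stmt_struct hK
  have hV : Stmt_V.{u} := stmt_V hK hC
  have hV0 : Stmt_V.{0} := stmt_V stmt_kneser (stmt_CDH stmt_kneser)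
  have hU : Stmt_Uniq.{u} := stmt_uniq hC hV
  have hTR : Stmt_Trans.{u} := stmt_Trans hC hU
  have hAF : Stmt_Aff.{u} := stmt_aff hK hV0
  have hNL : Stmt_NLevel'.{u} := stmt_NLevel' hC h1 h0 hST
  have hW : Stmt_W.{u} := stmt_W hNL hTR hAF
  have hLC : Stmt_LCase.{u} := stmt_LCase h1 h0
  exact stmt_odd (stmt_partI hK hLC hST) hW

/-- The inequality of Q1 in abelian groups without elements of order two. -/
theorem no_two_torsion_all (G : Type u) [AddCommGroup G] (h2 : ∀ g : G, g + g = 0 → g = 0) :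
    RestrictedScherk G :=
  no_two_torsion_case all_odd G h2

end Pool.Agent.Work.MP_59976d_co
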