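import Pool.Agent.Work.MP_59976d_co_odd.Basic

/-!
Block AF, part 1: Kneser for graphs of functions, small combinatorial lemmas.
-/

namespace Pool.Agent.Work.MP_59976d_co

open Finset
open scoped Pointwise

universe u

namespace AF

variable {q : ℕ} [Fact q.Prime] {G : Type u} [AddCommGroup G]

/-- Kneser's theorem applied to the graphs of two functions. -/
lemma pair_lemma [Finite G] (hK : Stmt_Kneser.{u}) (X Y : Finset (ZMod q)) (ξ η : ZMod q → G)
    (hcard : q + 1 < X.card + Y.card)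
    (hc : ∀ u ∈ X, ∀ v ∈ Y, ∀ u' ∈ X, ∀ v' ∈ Y, u + v = u' + v' → ξ u + η v = ξ u' + η v') :
    ∃ φ : ZMod q →+ G, (∀ u ∈ X, ∀ u' ∈ X, ξ u - ξ u' = φ (u - u')) ∧
      (∀ v ∈ Y, ∀ v' ∈ Y, η v - η v' = φ (v - v')) := by
  classical
  have hq : q.Prime := Fact.out
  haveI : NeZero q := ⟨hq.ne_zero⟩
  have hXle : X.card ≤ q := by have := card_le_univ X; rwa [ZMod.card] at this
  have hYle : Y.card ≤ q := by have := card_le_univ Y; rwa [ZMod.card] at this
  have hXne : X.Nonempty := card_pos.1 (by omega)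
  have hYne : Y.Nonempty := card_pos.1 (by omega)
  have hXY : ∀ e : ZMod q, ∃ u ∈ X, ∃ v ∈ Y, u + v = e := by
    intro e
    have h1 := ZMod.cauchy_davenport hq hXne hYne
    have h2 : X + Y = univ := by
      apply eq_univ_of_card
      rw [ZMod.card]
      have := card_le_univ (X + Y)
      rw [ZMod.card] at this
      rw [min_eq_left (by omega)] at h1
      omega
    have : e ∈ X + Y := by rw [h2]; exact mem_univ e
    exact mem_add.1 this
  choose a ha b hb hab using hXY
  set l : ZMod q → G := fun e => ξ (a e) + η (b e) with hl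
  have hlam : ∀ u ∈ X, ∀ v ∈ Y, ξ u + η v = l (u + v) := fun u hu v hv =>
    hc u hu v hv _ (ha _) _ (hb _) (hab _).symm
  set ΓX : Finset (ZMod q × G) := X.image (fun u => (u, ξ u)) with hΓX
  set ΓY : Finset (ZMod q × G) := Y.image (fun v => (v, η v)) with hΓY
  have hcX : ΓX.card = X.card := card_image_of_injective _ (fun x y h => (Prod.mk.inj h).1)
  have hcY : ΓY.card = Y.card := card_image_of_injective _ (fun x y h => (Prod.mk.inj h).1)
  have hsum : ∀ z : ZMod q × G, z ∈ ΓX + ΓY ↔ z.2 = l z.1 := by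
    intro z
    rw [mem_add]
    constructor
    · rintro ⟨x, hx, y, hy, rfl⟩
      rw [hΓX, mem_image] at hx
      rw [hΓY, mem_image] at hy
      obtain ⟨u, hu, rfl⟩ := hx
      obtain ⟨v, hv, rfl⟩ := hy
      exact hlam u hu v hv
    · intro h
      refine ⟨(a z.1, ξ (a z.1)), mem_image_of_mem _ (ha _), (b z.1, η (b z.1)),
        mem_image_of_mem _ (hb _), ?_⟩
      ext
      · exact hab _
      · exact h.symm
  have hcs : (ΓX + ΓY).card ≤ q := by
    have : ΓX + ΓY ⊆ (univ : Finset (ZMod q)).image (fun e => (e, l e)) := by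
      intro z hz
      rw [mem_image]
      exact ⟨z.1, mem_univ _, Prod.ext rfl ((hsum z).1 hz).symm⟩
    refine (card_le_card this).trans (card_image_le.trans ?_)
    rw [card_univ, ZMod.card]
  haveI : Finite (ZMod q × G) := inferInstance
  obtain ⟨H, hH, hcard2⟩ := hK (ZMod q × G) ΓX ΓY (hXne.image _) (hYne.image _)
  have hHne : H ≠ ⊥ := by
    rintro rfl
    have h1 := card_le_card (subset_hull (⊥ : AddSubgroup (ZMod q × G)) ΓX)
    have h2 := card_le_card (subset_hull (⊥ : AddSubgroup (ZMod q × G)) ΓY)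
    have h3 : Nat.card (⊥ : AddSubgroup (ZMod q × G)) = 1 := by simp
    omega
  have hper : ∀ h ∈ H, ∀ e : ZMod q, h.2 + l e = l (h.1 + e) := by
    intro h hh e
    have := (hH h).1 hh (e, l e) ((hsum _).2 rfl)
    exact (hsum _).1 this
  obtain ⟨h, hh, h0⟩ : ∃ h : ZMod q × G, h ∈ H ∧ h ≠ 0 := by
    by_contra hcon
    push Not at hcon
    exact hHne ((AddSubgroup.eq_bot_iff_forall H).2 hcon)
  have ht : h.1 ≠ 0 := by
    intro h1
    apply h0
    have := hper h hh 0
    rw [h1, zero_add] at this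
    exact Prod.ext h1 (by simpa using this)
  -- normalise
  set k : ℕ := ((h.1)⁻¹ : ZMod q).val with hk
  have hk1 : k • h ∈ H := H.nsmul_mem hh k
  set g : G := k • h.2 with hg
  have hk2 : k • h = (1, g) := by
    ext
    · rw [Prod.smul_fst, nsmul_eq_mul, hk, ZMod.natCast_val, ZMod.cast_id', id,
        inv_mul_cancel₀ ht]
    · rfl
  rw [hk2] at hk1
  have hqg : q • g = 0 := by
    have h1 : q • ((1 : ZMod q), g) ∈ H := H.nsmul_mem hk1 q
    have h2 := hper _ h1 0
    have h3 : (q • ((1 : ZMod q), g)).1 = 0 := by simp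
    rw [h3, zero_add] at h2
    simpa using h2
  set φ : ZMod q →+ G := ZMod.lift q ⟨zmultiplesHom G g, by simp [hqg]⟩ with hφ
  have hφn : ∀ n : ℕ, φ (n : ZMod q) = n • g := by
    intro n
    have := ZMod.lift_coe q ⟨zmultiplesHom G g, by simp [hqg]⟩ (n : ℤ)
    simp only [Int.cast_natCast] at this
    rw [hφ, this]
    simp
  have hφl : ∀ h e : ZMod q, l (h + e) = φ h + l e := by
    intro h e
    have h1 : h.val • ((1 : ZMod q), g) ∈ H := H.nsmul_mem hk1 _
    have h2 := hper _ h1 e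
    have h3 : (h.val • ((1 : ZMod q), g)).1 = h := by simp
    have h4 : (h.val • ((1 : ZMod q), g)).2 = φ h := by
      conv_rhs => rw [← ZMod.natCast_zmod_val h, hφn]
      rfl
    rw [h3, h4] at h2
    exact h2.symm
  refine ⟨φ, ?_, ?_⟩
  · intro u hu u' hu'
    obtain ⟨v, hv⟩ := hYne
    have h1 := hlam u hu v hv
    have h2 := hlam u' hu' v hv
    have h3 := hφl (u - u') (u' + v)
    rw [show u - u' + (u' + v) = u + v by ring, ← h1, ← h2] at h3
    have h4 : ξ u + η v - (ξ u' + η v) = φ (u - u') := by rw [h3]; abel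
    rw [← h4]; abel
  · intro v hv v' hv'
    obtain ⟨u, hu⟩ := hXne
    have h1 := hlam u hu v hv
    have h2 := hlam u hu v' hv'
    have h3 := hφl (v - v') (u + v')
    rw [show v - v' + (u + v') = u + v by ring, ← h1, ← h2] at h3
    have h4 : ξ u + η v - (ξ u + η v') = φ (v - v') := by rw [h3]; abel
    rw [← h4]; abel

/-- (A1) -/
lemma A1 [Finite G] (hK : Stmt_Kneser.{u}) (X Y : Finset (ZMod q)) (ξ η : ZMod q → G)
    (hcard : q + 1 < X.card + Y.card)
    (hc : ∀ e : ZMod q, ∀ r ∈ X, r - e ∈ Y → ∀ r' ∈ X, r' - e ∈ Y →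
      ξ r - η (r - e) = ξ r' - η (r' - e)) :
    ∃ φ : ZMod q →+ G, (∀ u ∈ X, ∀ u' ∈ X, ξ u - ξ u' = φ (u - u')) ∧
      (∀ v ∈ Y, ∀ v' ∈ Y, η v - η v' = φ (v - v')) := by
  classical
  have hneg : ∀ v : ZMod q, v ∈ Y.image (fun v => -v) ↔ -v ∈ Y := by
    intro v
    rw [mem_image]
    constructor
    · rintro ⟨w, hw, rfl⟩; rwa [neg_neg]
    · intro h; exact ⟨-v, h, neg_neg v⟩
  obtain ⟨φ, h1, h2⟩ := pair_lemma hK X (Y.image (fun v => -v)) ξ (fun v => -η (-v))
    (by rw [card_image_of_injective _ neg_injective]; exact hcard) (by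
      intro u hu v hv u' hu' v' hv' h
      rw [hneg] at hv hv'
      have := hc (u + v) u hu (by rw [show u - (u + v) = -v by ring]; exact hv) u' hu'
        (by rw [h, show u' - (u' + v') = -v' by ring]; exact hv')
      rw [show u - (u + v) = -v by ring, h, show u' - (u' + v') = -v' by ring] at this
      rw [← sub_eq_add_neg, ← sub_eq_add_neg]
      exact this)
  refine ⟨φ, h1, ?_⟩
  intro v hv v' hv'
  have := h2 (-v') ((hneg _).2 (by rwa [neg_neg])) (-v) ((hneg _).2 (by rwa [neg_neg]))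
  simp only [neg_neg] at this
  rw [show -v' - -v = v - v' by ring] at this
  rw [← this]; abel

/-- (A2) -/
lemma A2 [Finite G] (hK : Stmt_Kneser.{u}) (X Y S : Finset (ZMod q)) (ξ η ζ : ZMod q → G)
    (hcard : (Xᶜ).card + (Yᶜ).card + (Sᶜ).card + 4 ≤ q)
    (hrel : ∀ u ∈ X, ∀ v ∈ Y, u ≠ v → u + v ∈ S → ξ u + η v = ζ (u + v))
    (hc : ∀ e : ZMod q, ∀ j ∈ Y, e - j ∈ S → ∀ j' ∈ Y, e - j' ∈ S →
      η j + ζ (e - j) = η j' + ζ (e - j')) :
    ∃ φ : ZMod q →+ G, (∀ u ∈ X, ∀ u' ∈ X, ξ u - ξ u' = φ (u - u')) ∧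
      (∀ v ∈ Y, ∀ v' ∈ Y, η v - η v' = φ (v - v')) := by
  classical
  have hq : q.Prime := Fact.out
  haveI : NeZero q := ⟨hq.ne_zero⟩
  have hcY := card_compl_add_card Y
  have hcS := card_compl_add_card S
  rw [ZMod.card] at hcY hcS
  obtain ⟨φ, h1, h2⟩ := pair_lemma hK Y S η ζ (by omega) (by
      intro u hu v hv u' hu' v' hv' h
      have := hc (u + v) u hu (by rw [show u + v - u = v by ring]; exact hv) u' hu'
        (by rw [h, show u' + v' - u' = v' by ring]; exact hv')
      rw [show u + v - u = v by ring, h, show u' + v' - u' = v' by ring] at this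
      exact this)
  refine ⟨φ, ?_, h1⟩
  -- for every u there is an admissible v
  have hex : ∀ u : ZMod q, ∃ v ∈ Y, u ≠ v ∧ u + v ∈ S := by
    intro u
    by_contra hcon
    push Not at hcon
    have hsub : (univ : Finset (ZMod q)) ⊆ (insert u (Yᶜ)) ∪ (Sᶜ).image (fun w => w - u) := by
      intro v _
      by_cases hv : v ∈ Y
      · by_cases huv : u = v
        · exact mem_union_left _ (by rw [huv]; exact mem_insert_self _ _)
        · apply mem_union_right
          rw [mem_image]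
          exact ⟨u + v, mem_compl.2 (hcon v hv huv), by ring⟩
      · exact mem_union_left _ (mem_insert_of_mem (mem_compl.2 hv))
    have h3 := card_le_card hsub
    rw [card_univ, ZMod.card] at h3
    have h4 := card_union_le (insert u (Yᶜ)) ((Sᶜ).image (fun w => w - u))
    have h5 := card_insert_le u (Yᶜ)
    have h6 : ((Sᶜ).image (fun w => w - u)).card ≤ (Sᶜ).card := card_image_le
    omega
  intro u hu u' hu'
  obtain ⟨v, hv, huv, hw⟩ := hex u
  obtain ⟨v', hv', huv', hw'⟩ := hex u'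
  have e1 := hrel u hu v hv huv hw
  have e2 := hrel u' hu' v' hv' huv' hw'
  have e3 := h1 v hv v' hv'
  have e4 := h2 _ hw _ hw'
  have e5 : ξ u - ξ u' = (ζ (u + v) - ζ (u' + v')) - (η v - η v') := by
    rw [← e1, ← e2]; abel
  rw [e5, e4, e3, ← map_sub]
  congr 1
  ring

/-- Splitting a set on which a function is not constant. -/
lemma split {α β : Type*} [DecidableEq α] (V : Finset α) (f : α → β)
    (h : ¬ ∀ r ∈ V, ∀ r' ∈ V, f r = f r') :
    ∃ V1 V2 : Finset α, V1 ∪ V2 = V ∧ Disjoint V1 V2 ∧ V1.Nonempty ∧ V2.Nonempty ∧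
      V1.card + V2.card = V.card ∧ ∀ r ∈ V1, ∀ r' ∈ V2, f r ≠ f r' := by
  classical
  push Not at h
  obtain ⟨r, hr, r', hr', hne⟩ := h
  refine ⟨V.filter (fun z => f z = f r), V.filter (fun z => ¬ f z = f r),
    filter_union_filter_not_eq _ _, disjoint_filter_filter_not _ _ _,
    ⟨r, mem_filter.2 ⟨hr, rfl⟩⟩, ⟨r', mem_filter.2 ⟨hr', fun h => hne h.symm⟩⟩,
    card_filter_add_card_filter_not _, ?_⟩
  intro z hz z' hz'
  rw [mem_filter] at hz hz'
  rw [hz.2]
  exact fun h => hz'.2 h.symm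

lemma two_sum {V : Finset (ZMod q)} {a b : ZMod q} (h : ∀ v ∈ V, v = a ∨ v = b)
    (hc : V.card = 2) : ∑ v ∈ V, v = a + b := by
  have h1 : V ⊆ {a, b} := by
    intro v hv
    rw [mem_insert, mem_singleton]
    exact h v hv
  have h2 : ({a, b} : Finset (ZMod q)).card ≤ 2 := card_le_two
  have h3 : V = {a, b} := eq_of_subset_of_card_le h1 (by omega)
  have hab : a ≠ b := by
    rintro rfl
    rw [h3] at hc
    simp at hc
  rw [h3, sum_pair hab]

lemma three_sum {V : Finset (ZMod q)} {a b c : ZMod q} (h : ∀ v ∈ V, v = a ∨ v = b ∨ v = c)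
    (hc : V.card = 3) : ∑ v ∈ V, v = a + b + c := by
  have h1 : V ⊆ {a, b, c} := by
    intro v hv
    rw [mem_insert, mem_insert, mem_singleton]
    exact h v hv
  have h2 : ({a, b, c} : Finset (ZMod q)).card ≤ 3 := card_le_three
  have h3 : V = {a, b, c} := eq_of_subset_of_card_le h1 (by omega)
  have hbc : b ≠ c := by
    rintro rfl
    rw [h3] at hc
    have : ({a, b, b} : Finset (ZMod q)).card ≤ 2 := by
      rw [insert_eq_of_mem (mem_singleton_self b)]; exact card_le_two
    omega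
  have ha : a ∉ ({b, c} : Finset (ZMod q)) := by
    intro ha
    rw [h3, insert_eq_of_mem ha] at hc
    have : ({b, c} : Finset (ZMod q)).card ≤ 2 := card_le_two
    omega
  rw [h3, sum_insert ha, sum_pair hbc, add_assoc]

lemma card_le_two_of {V : Finset (ZMod q)} {a b : ZMod q} (h : ∀ v ∈ V, v = a ∨ v = b) :
    V.card ≤ 2 := by
  have h1 : V ⊆ {a, b} := by
    intro v hv
    rw [mem_insert, mem_singleton]
    exact h v hv
  exact (card_le_card h1).trans card_le_two

lemma card_le_three_of {V : Finset (ZMod q)} {a b c : ZMod q}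
    (h : ∀ v ∈ V, v = a ∨ v = b ∨ v = c) : V.card ≤ 3 := by
  have h1 : V ⊆ {a, b, c} := by
    intro v hv
    rw [mem_insert, mem_insert, mem_singleton]
    exact h v hv
  exact (card_le_card h1).trans card_le_three

lemma natCast_ne (n : ℕ) (hn : 0 < n) (h : n < q) : ((n : ℕ) : ZMod q) ≠ 0 := by
  rw [Ne, ZMod.natCast_eq_zero_iff]
  intro hd
  have := Nat.le_of_dvd hn hd
  omega

end AF

end Pool.Agent.Work.MP_59976d_co
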