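import Pool.Agent.Work.MP_59976d_co_odd.Interface
import Pool.Agent.Work.MP_59976d_co.ZModCase

/-!
Block TF: sums with two forbidden differences in `ℤ/q`, by the Combinatorial Nullstellensatz.
-/

namespace Pool.Agent.Work.MP_59976d_co

open Finset MvPolynomial

namespace TF

lemma coeff_pow (p : ℕ) (N i j : ℕ) :
    coeff (Finsupp.single (0 : Fin 2) i + Finsupp.single 1 j)
      ((X 0 + X 1) ^ N : MvPolynomial (Fin 2) (ZMod p)) =
      if i + j = N then (N.choose i : ZMod p) else 0 := by
  rw [add_pow, coeff_sum]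
  have : ∀ k ∈ range (N + 1),
      coeff (Finsupp.single (0 : Fin 2) i + Finsupp.single 1 j)
        ((X 0 ^ k * X 1 ^ (N - k) * ((N).choose k : MvPolynomial (Fin 2) (ZMod p)))) =
        if k = i ∧ N - k = j then ((N).choose k : ZMod p) else 0 := by
    intro k hk
    have e : (X 0 ^ k * X 1 ^ (N - k) *
        ((N).choose k : MvPolynomial (Fin 2) (ZMod p))) =
        monomial (Finsupp.single (0 : Fin 2) k + Finsupp.single 1 (N - k))
          ((N).choose k : ZMod p) := by
      rw [X_pow_eq_monomial, X_pow_eq_monomial, monomial_mul, one_mul]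
      have : ((N).choose k : MvPolynomial (Fin 2) (ZMod p)) =
          C ((N).choose k : ZMod p) := by simp
      rw [this, mul_comm, C_mul_monomial, mul_one]
    rw [e, coeff_monomial]
    have hiff : (Finsupp.single (0 : Fin 2) k + Finsupp.single 1 (N - k) =
        Finsupp.single (0 : Fin 2) i + Finsupp.single 1 j) ↔ (k = i ∧ N - k = j) := by
      constructor
      · intro h
        have h0 := DFunLike.congr_fun h 0
        have h1 := DFunLike.congr_fun h 1
        simp at h0 h1
        exact ⟨h0, h1⟩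
      · rintro ⟨rfl, rfl⟩; rfl
    simp only [hiff]
  rw [Finset.sum_congr rfl this]
  by_cases hij : i + j = N
  · rw [if_pos hij]
    rw [Finset.sum_eq_single i]
    · rw [if_pos ⟨rfl, by omega⟩]
    · intro b _ hb
      rw [if_neg (fun h => hb h.1)]
    · intro hi
      exfalso; apply hi; rw [mem_range]; omega
  · rw [if_neg hij]
    apply Finset.sum_eq_zero
    intro k hk
    rw [mem_range] at hk
    rw [if_neg]
    rintro ⟨rfl, h⟩
    omega

/-- coefficient after multiplication by `X 0`. -/
lemma coeff_X0 (p : ℕ) (i j : ℕ) (P : MvPolynomial (Fin 2) (ZMod p)) :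
    coeff (Finsupp.single (0 : Fin 2) i + Finsupp.single 1 j) (X 0 * P) =
      if i = 0 then 0 else coeff (Finsupp.single (0 : Fin 2) (i - 1) + Finsupp.single 1 j) P := by
  split_ifs with h
  · subst h
    rw [mul_comm, coeff_mul_X', if_neg]
    simp
  · obtain ⟨k, rfl⟩ : ∃ k, i = k + 1 := ⟨i - 1, by omega⟩
    have e0 : Finsupp.single (0 : Fin 2) (k + 1) + Finsupp.single (1 : Fin 2) j =
        Finsupp.single (0 : Fin 2) 1 + (Finsupp.single (0 : Fin 2) k +
          Finsupp.single (1 : Fin 2) j) := by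
      rw [← add_assoc, ← Finsupp.single_add, add_comm 1 k]
    rw [e0, coeff_X_mul]
    simp

/-- coefficient after multiplication by `X 1`. -/
lemma coeff_X1 (p : ℕ) (i j : ℕ) (P : MvPolynomial (Fin 2) (ZMod p)) :
    coeff (Finsupp.single (0 : Fin 2) i + Finsupp.single 1 j) (X 1 * P) =
      if j = 0 then 0 else coeff (Finsupp.single (0 : Fin 2) i + Finsupp.single 1 (j - 1)) P := by
  split_ifs with h
  · subst h
    rw [mul_comm, coeff_mul_X', if_neg]
    simp
  · obtain ⟨k, rfl⟩ : ∃ k, j = k + 1 := ⟨j - 1, by omega⟩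
    have e0 : Finsupp.single (0 : Fin 2) i + Finsupp.single (1 : Fin 2) (k + 1) =
        Finsupp.single (1 : Fin 2) 1 + (Finsupp.single (0 : Fin 2) i +
          Finsupp.single (1 : Fin 2) k) := by
      rw [add_left_comm, ← Finsupp.single_add, add_comm 1 k]
    rw [e0, coeff_X_mul]
    simp

/-- The leading coefficient. -/
lemma coeff_main (p : ℕ) (a b N : ℕ) (hN : a + b = N + 2) :
    ((a.factorial : ZMod p) * (b.factorial : ZMod p)) *
      coeff (Finsupp.single (0 : Fin 2) a + Finsupp.single 1 b)
      (((X 1 - X 0) * (X 1 - X 0) * (X 0 + X 1) ^ N : MvPolynomial (Fin 2) (ZMod p))) =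
      (N.factorial : ZMod p) * (((a : ZMod p) - b) ^ 2 - (a + b)) := by
  have e : ((X 1 - X 0) * (X 1 - X 0) * (X 0 + X 1) ^ N : MvPolynomial (Fin 2) (ZMod p)) =
      X 1 * (X 1 * (X 0 + X 1) ^ N) - X 0 * (X 1 * (X 0 + X 1) ^ N)
        - X 0 * (X 1 * (X 0 + X 1) ^ N) + X 0 * (X 0 * (X 0 + X 1) ^ N) := by ring
  rw [e]
  simp only [coeff_add, coeff_sub, coeff_X0, coeff_X1, coeff_pow]
  have key : ∀ i j : ℕ, i + j = N → ((i.factorial : ZMod p) * (j.factorial : ZMod p)) *
      (N.choose i : ZMod p) = (N.factorial : ZMod p) := by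
    intro i j hij
    have := Nat.choose_mul_factorial_mul_factorial (n := N) (k := i) (by omega)
    have h2 : N - i = j := by omega
    rw [h2] at this
    rw [← this]
    push_cast
    ring
  -- four terms
  rcases a with _ | _ | a
  · -- a = 0
    obtain ⟨rfl⟩ : b = N + 2 := by omega
    have h1 := key 0 N (by omega)
    simp at h1 ⊢
    rw [Nat.factorial_succ, Nat.factorial_succ]
    push_cast
    ring
  · -- a = 1
    obtain ⟨rfl⟩ : b = N + 1 := by omega
    rcases N with _ | N
    · simp; norm_num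
    · have h1 := key 1 N (by omega)
      have h2 := key 0 (N + 1) (by omega)
      simp at h1 h2 ⊢
      rw [Nat.factorial_succ (N + 1), Nat.factorial_succ N]
      push_cast
      rw [if_pos (by omega : 1 + N = N + 1)]
      ring
  · rcases b with _ | _ | b
    · obtain ⟨rfl⟩ : N = a := by omega
      simp
      rw [Nat.factorial_succ, Nat.factorial_succ]
      push_cast
      ring
    · obtain ⟨rfl⟩ : N = a + 1 := by omega
      have h1 := key (a + 1) 0 (by omega)
      have h2 := key a 1 (by omega)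
      simp at h1 h2 ⊢
      rw [Nat.factorial_succ (a + 1), Nat.factorial_succ a]
      push_cast
      ring
    · obtain ⟨rfl⟩ : N = a + b + 2 := by omega
      have h1 := key (a + 2) b (by omega)
      have h2 := key (a + 1) (b + 1) (by omega)
      have h3 := key a (b + 2) (by omega)
      have f1 : a + 1 + 1 + b = a + b + 2 := by omega
      have f2 : a + 1 + (b + 1) = a + b + 2 := by omega
      have f3 : a + (b + 1 + 1) = a + b + 2 := by omega
      simp only [Nat.add_eq_zero_iff, one_ne_zero, and_false, if_false, Nat.add_sub_cancel, f1, f2, f3,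
        if_true]
      have g1 : (((a + 1 + 1).factorial : ℕ) : ZMod p) = (a + 2) * (((a + 1).factorial : ℕ) : ZMod p) := by
        rw [Nat.factorial_succ (a + 1)]; push_cast; ring
      have g2 : (((a + 1).factorial : ℕ) : ZMod p) = (a + 1) * ((a.factorial : ℕ) : ZMod p) := by
        rw [Nat.factorial_succ a]; push_cast; ring
      have g3 : (((b + 1 + 1).factorial : ℕ) : ZMod p) = (b + 2) * (((b + 1).factorial : ℕ) : ZMod p) := by
        rw [Nat.factorial_succ (b + 1)]; push_cast; ring
      have g4 : (((b + 1).factorial : ℕ) : ZMod p) = (b + 1) * ((b.factorial : ℕ) : ZMod p) := by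
        rw [Nat.factorial_succ b]; push_cast; ring
      simp only [show a + 2 = a + 1 + 1 from rfl, show b + 2 = b + 1 + 1 from rfl, g1, g2, g3, g4]
        at h1 h2 h3 ⊢
      push_cast
      linear_combination ((b : ZMod p) + 2) * (b + 1) * h1 - 2 * (a + 2) * (b + 2) * h2 +
        (a + 2) * (a + 1) * h3

/-- The core of the argument. -/
lemma core (q : ℕ) [Fact q.Prime] (e : ZMod q) (A B R : Finset (ZMod q)) (a b : ℕ)
    (hX : A.card = a + 1) (hY : B.card = b + 1) (hR : R.card + 2 ≤ a + b) (hab : a + b < q + 2)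
    (h : ∀ x ∈ A, ∀ y ∈ B, y - x ≠ e → y - x ≠ -e → x + y ∈ R)
    (hne : ((a : ZMod q) - b) ^ 2 - (a + b) ≠ 0) : False := by
  obtain ⟨N, hN⟩ : ∃ N, a + b = N + 2 := ⟨a + b - 2, by omega⟩
  set P : Polynomial (ZMod q) :=
    (∏ c ∈ R, (Polynomial.X - Polynomial.C c)) * Polynomial.X ^ (N - R.card) with hP
  have hPmonic : P.Monic := by
    rw [hP]
    exact (Polynomial.monic_prod_of_monic _ _ (fun c _ => Polynomial.monic_X_sub_C c)).mul
      (Polynomial.monic_X_pow _)
  have hPdeg : P.natDegree = N := by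
    rw [hP, Polynomial.Monic.natDegree_mul
      (Polynomial.monic_prod_of_monic _ _ (fun c _ => Polynomial.monic_X_sub_C c))
      (Polynomial.monic_X_pow _), Polynomial.natDegree_X_pow,
      Polynomial.natDegree_prod_of_monic _ _ (fun c _ => Polynomial.monic_X_sub_C c)]
    simp only [Polynomial.natDegree_X_sub_C, sum_const, smul_eq_mul, mul_one]
    omega
  set L : MvPolynomial (Fin 2) (ZMod q) := X 0 + X 1 with hL
  set f : MvPolynomial (Fin 2) (ZMod q) :=
    ((X 1 - X 0) * (X 1 - X 0) - C (e * e)) * Polynomial.aeval L P with hf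
  set t : Fin 2 →₀ ℕ := Finsupp.single (0 : Fin 2) a + Finsupp.single 1 b with ht
  have htdeg : t.degree = N + 2 := by
    rw [ht, map_add, Finsupp.degree_single, Finsupp.degree_single]; omega
  have hhom1 : ∀ j, (((X 1 - X 0) * (X 1 - X 0) * L ^ j) :
      MvPolynomial (Fin 2) (ZMod q)).IsHomogeneous (2 + j) := by
    intro j
    have h1 : ((X 1 - X 0) : MvPolynomial (Fin 2) (ZMod q)).IsHomogeneous 1 :=
      (isHomogeneous_X _ _).sub (isHomogeneous_X _ _)
    have h2 : (L ^ j).IsHomogeneous (1 * j) := by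
      apply IsHomogeneous.pow
      exact (isHomogeneous_X _ _).add (isHomogeneous_X _ _)
    rw [one_mul] at h2
    exact (h1.mul h1).mul h2
  have hhom2 : ∀ j, ((L ^ j) : MvPolynomial (Fin 2) (ZMod q)).IsHomogeneous j := by
    intro j
    have h2 : (L ^ j).IsHomogeneous (1 * j) := by
      apply IsHomogeneous.pow
      exact (isHomogeneous_X _ _).add (isHomogeneous_X _ _)
    rw [one_mul] at h2
    exact h2
  have hfsum : f = ∑ j ∈ range (N + 1), (P.coeff j • ((X 1 - X 0) * (X 1 - X 0) * L ^ j) -
      (P.coeff j * (e * e)) • L ^ j) := by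
    rw [hf, Polynomial.aeval_eq_sum_range, hPdeg, Finset.mul_sum]
    apply Finset.sum_congr rfl
    intro j _
    rw [mul_smul_comm, sub_mul, smul_sub, mul_smul, C_mul']
  have hcoeff : coeff t f = coeff t ((X 1 - X 0) * (X 1 - X 0) * L ^ N) := by
    rw [hfsum, coeff_sum, Finset.sum_range_succ, Finset.sum_eq_zero, zero_add]
    · rw [coeff_sub, coeff_smul, coeff_smul]
      have : P.coeff N = 1 := by
        rw [← hPdeg]; exact hPmonic
      rw [this, one_smul, (hhom2 N).coeff_eq_zero, smul_zero, sub_zero]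
      rw [htdeg]; omega
    · intro j hj
      rw [mem_range] at hj
      rw [coeff_sub, coeff_smul, coeff_smul]
      rw [(hhom1 j).coeff_eq_zero, (hhom2 j).coeff_eq_zero, smul_zero, smul_zero, sub_zero]
      · rw [htdeg]; omega
      · rw [htdeg]; omega
  have hcne : coeff t f ≠ 0 := by
    rw [hcoeff]
    intro h0
    have h1 := coeff_main q a b N hN
    rw [← ht, ← hL, h0, mul_zero] at h1
    have h2 : ((N.factorial : ℕ) : ZMod q) ≠ 0 := by
      rw [Ne, ZMod.natCast_eq_zero_iff, (Fact.out : q.Prime).dvd_factorial]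
      omega
    exact (mul_ne_zero h2 hne) h1.symm
  have hdegle : f.totalDegree ≤ N + 2 := by
    rw [hfsum]
    apply totalDegree_finsetSum_le
    intro j hj
    rw [mem_range] at hj
    refine (totalDegree_sub _ _).trans (max_le ?_ ?_)
    · refine (totalDegree_smul_le _ _).trans ((hhom1 j).totalDegree_le.trans ?_)
      omega
    · refine (totalDegree_smul_le _ _).trans ((hhom2 j).totalDegree_le.trans ?_)
      omega
  have hdeg : f.totalDegree = t.degree := by
    apply le_antisymm
    · rw [htdeg]; exact hdegle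
    · have := le_totalDegree (p := f) (s := t) (mem_support_iff.2 hcne)
      rw [Finsupp.degree_apply]
      exact this
  obtain ⟨s, hs, hsf⟩ := combinatorial_nullstellensatz_exists_eval_nonzero f t hcne hdeg
    (fun i => if i = 0 then A else B) (by
      intro i
      fin_cases i
      · simp [ht, hX]
      · simp [ht, hY])
  apply hsf
  have hs0 := hs 0
  have hs1 := hs 1
  simp at hs0 hs1
  rw [hf, map_mul]
  by_cases heq : s 1 - s 0 = e
  · simp [heq]
  by_cases heq2 : s 1 - s 0 = -e
  · simp [heq2]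
  have hmemC : s 0 + s 1 ∈ R := h _ hs0 _ hs1 heq heq2
  have : eval s (Polynomial.aeval L P) = Polynomial.eval (s 0 + s 1) P := by
    have h1 : eval s (Polynomial.aeval L P) = Polynomial.eval₂ (RingHom.id _) (s 0 + s 1) P := by
      rw [Polynomial.aeval_def, Polynomial.hom_eval₂]
      congr 1
      · ext x; simp
      · simp [hL]
    rw [h1]; rfl
  rw [this, hP, Polynomial.eval_mul, Polynomial.eval_prod]
  rw [Finset.prod_eq_zero hmemC (by simp)]
  simp

end TF

open TF in
theorem stmt_twoForb : Stmt_TwoForb := by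
  intro q _ hq2 e he X Y hX hY hXY
  classical
  have hq : q.Prime := Fact.out
  set R := ((X ×ˢ Y).filter
      (fun z => z.2 - z.1 ≠ e ∧ z.2 - z.1 ≠ -e)).image (fun z => z.1 + z.2) with hR
  have hmem : ∀ x ∈ X, ∀ y ∈ Y, y - x ≠ e → y - x ≠ -e → x + y ∈ R := by
    intro x hx y hy h1 h2
    rw [hR, mem_image]
    exact ⟨(x, y), mem_filter.2 ⟨mem_product.2 ⟨hx, hy⟩, h1, h2⟩, rfl⟩
  by_contra hcon
  push Not at hcon
  -- the case of a singleton
  rcases Nat.lt_or_ge X.card 2 with h1 | h1
  · obtain ⟨x, hx⟩ := card_eq_one.1 (by omega : X.card = 1)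
    have hsub : (Y \ {x + e, x - e}).image (fun y => x + y) ⊆ R := by
      intro z hz
      rw [mem_image] at hz
      obtain ⟨y, hy, rfl⟩ := hz
      rw [mem_sdiff, mem_insert, mem_singleton, not_or] at hy
      apply hmem x (by rw [hx]; exact mem_singleton_self x) y hy.1
      · intro h; exact hy.2.1 (by rw [← h]; ring)
      · intro h; exact hy.2.2 (by rw [sub_eq_add_neg, ← h]; ring)
    have h2 := card_le_card hsub
    rw [card_image_of_injective _ (add_right_injective x)] at h2
    have h3 := le_card_sdiff ({x + e, x - e} : Finset (ZMod q)) Y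
    have h4 : ({x + e, x - e} : Finset (ZMod q)).card ≤ 2 := card_le_two
    omega
  rcases Nat.lt_or_ge Y.card 2 with h2 | h2
  · obtain ⟨y, hy⟩ := card_eq_one.1 (by omega : Y.card = 1)
    have hsub : (X \ {y - e, y + e}).image (fun x => x + y) ⊆ R := by
      intro z hz
      rw [mem_image] at hz
      obtain ⟨x, hx, rfl⟩ := hz
      rw [mem_sdiff, mem_insert, mem_singleton, not_or] at hx
      apply hmem x hx.1 y (by rw [hy]; exact mem_singleton_self y)
      · intro h; exact hx.2.1 (by rw [← h]; ring)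
      · intro h; exact hx.2.2 (by rw [← neg_neg e, ← h]; ring)
    have h2 := card_le_card hsub
    rw [card_image_of_injective _ (add_left_injective y)] at h2
    have h3 := le_card_sdiff ({y - e, y + e} : Finset (ZMod q)) X
    have h4 : ({y - e, y + e} : Finset (ZMod q)).card ≤ 2 := card_le_two
    omega
  obtain ⟨n, hn⟩ : ∃ n, X.card = n + 2 := ⟨X.card - 2, by omega⟩
  obtain ⟨m, hm⟩ : ∃ m, Y.card = m + 2 := ⟨Y.card - 2, by omega⟩
  -- first choice: remove a point of X
  have hA : ((n : ZMod q) - (m + 1 : ℕ)) ^ 2 - (n + (m + 1 : ℕ)) = 0 := by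
    by_contra hne
    obtain ⟨x, hx⟩ := card_pos.1 hX
    exact core q e (X.erase x) Y R n (m + 1) (by rw [card_erase_of_mem hx]; omega) (by omega)
      (by omega) (by omega) (fun x' hx' y hy => hmem x' (mem_of_mem_erase hx') y hy) hne
  have hB : (((n + 1 : ℕ) : ZMod q) - m) ^ 2 - ((n + 1 : ℕ) + m) = 0 := by
    by_contra hne
    obtain ⟨y, hy⟩ := card_pos.1 hY
    exact core q e X (Y.erase y) R (n + 1) m (by omega) (by rw [card_erase_of_mem hy]; omega)
      (by omega) (by omega) (fun x hx y' hy' => hmem x hx y' (mem_of_mem_erase hy')) hne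
  push_cast at hA hB
  have h4 : ((4 : ℕ) : ZMod q) * ((n : ZMod q) - m) = 0 := by
    push_cast
    linear_combination hB - hA
  have h4' : ((4 : ℕ) : ZMod q) ≠ 0 := by
    rw [Ne, ZMod.natCast_eq_zero_iff]
    intro hd
    have : q ∣ 2 := hq.dvd_of_dvd_pow (show q ∣ 2 ^ 2 by exact hd)
    have := (Nat.prime_dvd_prime_iff_eq hq Nat.prime_two).1 this
    exact hq2 this
  have hnm : (n : ZMod q) = m := sub_eq_zero.1 ((mul_eq_zero.1 h4).resolve_left h4')
  have hnm' : n = m := by
    rw [ZMod.natCast_eq_natCast_iff'] at hnm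
    rwa [Nat.mod_eq_of_lt (by omega), Nat.mod_eq_of_lt (by omega)] at hnm
  subst hnm'
  have h5 : ((2 : ℕ) : ZMod q) * (n : ZMod q) = 0 := by
    push_cast
    linear_combination -hA
  have h2' : ((2 : ℕ) : ZMod q) ≠ 0 := by
    rw [Ne, ZMod.natCast_eq_zero_iff]
    intro hd
    exact hq2 ((Nat.prime_dvd_prime_iff_eq hq Nat.prime_two).1 hd)
  have h6 : (n : ZMod q) = 0 := (mul_eq_zero.1 h5).resolve_left h2'
  rw [ZMod.natCast_eq_zero_iff] at h6
  have : n = 0 := by
    by_contra h0
    have := Nat.le_of_dvd (by omega) h6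
    omega
  omega

end Pool.Agent.Work.MP_59976d_co
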