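import Pool.Agent.Work.MP_59976d_co_odd.AF1
import Pool.Agent.Work.MP_59976d_co_odd.TF

/-!
Block AF, part 2: the generic case and the small borderline cases.
-/

namespace Pool.Agent.Work.MP_59976d_co

open Finset
open scoped Pointwise

universe u

namespace AF

variable {q : ℕ} [Fact q.Prime] {G : Type u} [AddCommGroup G]

/-- The set `V_e`. -/
lemma card_V (X Y : Finset (ZMod q)) (e : ZMod q) :
    q ≤ (X.filter (fun r => r - e ∈ Y)).card + (Xᶜ).card + (Yᶜ).card ∧
    ((X.filter (fun r => r - e ∈ Y)).card + (Xᶜ).card + (Yᶜ).card ≤ q →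
      ∀ a, a ∉ X → ∀ b, b ∉ Y → a ≠ b + e) := by
  classical
  have hq : q.Prime := Fact.out
  have : NeZero q := ⟨hq.ne_zero⟩
  set V := X.filter (fun r => r - e ∈ Y) with hV
  set Z := (Yᶜ).image (fun b => b + e) with hZ
  have hZc : Z.card = (Yᶜ).card := card_image_of_injective _ (add_left_injective e)
  have hcomp : Vᶜ = Xᶜ ∪ Z := by
    ext r
    rw [mem_compl, hV, mem_filter, mem_union, mem_compl, hZ, mem_image]
    constructor
    · intro h
      by_cases hr : r ∈ X
      · right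
        exact ⟨r - e, mem_compl.2 (fun h1 => h ⟨hr, h1⟩), by ring⟩
      · left; exact hr
    · rintro (h | ⟨b, hb, rfl⟩) ⟨h1, h2⟩
      · exact h h1
      · rw [show b + e - e = b by ring] at h2
        exact (mem_compl.1 hb) h2
  have h1 := card_compl_add_card V
  rw [ZMod.card, hcomp] at h1
  have h2 := card_union_le (Xᶜ) Z
  refine ⟨by omega, ?_⟩
  intro h3 a ha b hb hab
  have h4 := card_union_add_card_inter (Xᶜ) Z
  have h5 : (Xᶜ ∩ Z).Nonempty := ⟨a, mem_inter.2 ⟨mem_compl.2 ha, by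
    rw [hZ, mem_image]; exact ⟨b, mem_compl.2 hb, hab.symm⟩⟩⟩
  have h6 := card_pos.2 h5
  omega

/-- If `la^e` is not constant we are in the borderline case. -/
lemma nonconst (hq2 : q ≠ 2) (X Y S : Finset (ZMod q)) (ξ η ζ : ZMod q → G)
    (hcard : (Xᶜ).card + (Yᶜ).card + (Sᶜ).card + 4 ≤ q)
    (hrel : ∀ u ∈ X, ∀ v ∈ Y, u ≠ v → u + v ∈ S → ξ u + η v = ζ (u + v)) (e : ZMod q)
    (hc : ¬ ∀ r ∈ X.filter (fun r => r - e ∈ Y), ∀ r' ∈ X.filter (fun r => r - e ∈ Y),
      ξ r - η (r - e) = ξ r' - η (r' - e)) :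
    e ≠ 0 ∧ (Xᶜ).card + (Yᶜ).card + (Sᶜ).card + 4 = q ∧ (∀ a, a ∉ X → ∀ b, b ∉ Y → a ≠ b + e) ∧
    ∃ V1 V2 : Finset (ZMod q), V1 ∪ V2 = X.filter (fun r => r - e ∈ Y) ∧ Disjoint V1 V2 ∧
      V1.Nonempty ∧ V2.Nonempty ∧ V1.card + V2.card = (Sᶜ).card + 4 ∧
      (∀ r ∈ V1, ∀ r' ∈ V2, r + r' - e ∈ S → r' - r = e ∨ r' - r = -e) ∧
      (∀ r ∈ V1, ∀ r' ∈ V2, ξ r - η (r - e) ≠ ξ r' - η (r' - e)) := by
  classical
  have hq : q.Prime := Fact.out
  have : NeZero q := ⟨hq.ne_zero⟩
  obtain ⟨V1, V2, hU, hD, h1, h2, hsum, hne⟩ := split _ _ hc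
  obtain ⟨hV, hV'⟩ := card_V X Y e
  have hin1 : ∀ r ∈ V1, r ∈ X ∧ r - e ∈ Y := by
    intro r hr
    have : r ∈ X.filter (fun r => r - e ∈ Y) := by rw [← hU]; exact mem_union_left _ hr
    exact mem_filter.1 this
  have hin2 : ∀ r ∈ V2, r ∈ X ∧ r - e ∈ Y := by
    intro r hr
    have : r ∈ X.filter (fun r => r - e ∈ Y) := by rw [← hU]; exact mem_union_right _ hr
    exact mem_filter.1 this
  have hno : ∀ r ∈ V1, ∀ r' ∈ V2, r + r' - e ∈ S → r' - r = e ∨ r' - r = -e := by
    intro r hr r' hr' hS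
    by_contra hcon
    rw [not_or] at hcon
    apply hne r hr r' hr'
    have e1 := hrel r (hin1 r hr).1 (r' - e) (hin2 r' hr').2
      (fun h => hcon.1 (by rw [h]; ring)) (by rw [show r + (r' - e) = r + r' - e by ring]; exact hS)
    have e2 := hrel r' (hin2 r' hr').1 (r - e) (hin1 r hr).2
      (fun h => hcon.2 (by rw [h]; ring)) (by rw [show r' + (r - e) = r + r' - e by ring]; exact hS)
    rw [show r + (r' - e) = r + r' - e by ring] at e1
    rw [show r' + (r - e) = r + r' - e by ring] at e2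
    rw [← e2] at e1
    rw [sub_eq_sub_iff_add_eq_add]
    exact e1
  -- the number of sums
  by_cases he : e = 0
  · exfalso
    subst he
    have hsub : V1 + V2 ⊆ Sᶜ := by
      intro w hw
      rw [mem_add] at hw
      obtain ⟨r, hr, r', hr', rfl⟩ := hw
      rw [mem_compl]
      intro hS
      have := hno r hr r' hr' (by rw [sub_zero]; exact hS)
      have h3 : r' - r = 0 := by rcases this with h | h <;> simpa using h
      have h4 : r' = r := sub_eq_zero.1 h3
      exact (Finset.disjoint_left.1 hD) hr (by rw [← h4]; exact hr')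
    have h3 := card_le_card hsub
    have h4 := ZMod.cauchy_davenport hq h1 h2
    omega
  · have hTF := stmt_twoForb q hq2 e he V1 V2 (card_pos.2 h1) (card_pos.2 h2) (by
      have h5 := card_le_univ (X.filter (fun r => r - e ∈ Y))
      rw [ZMod.card] at h5
      omega)
    have hR : (((V1 ×ˢ V2).filter
      (fun z => z.2 - z.1 ≠ e ∧ z.2 - z.1 ≠ -e)).image (fun z => z.1 + z.2)).card ≤ (Sᶜ).card := by
      have : (((V1 ×ˢ V2).filter
        (fun z => z.2 - z.1 ≠ e ∧ z.2 - z.1 ≠ -e)).image (fun z => z.1 + z.2)) ⊆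
          (Sᶜ).image (fun w => w + e) := by
        intro w hw
        rw [mem_image] at hw
        obtain ⟨z, hz, rfl⟩ := hw
        rw [mem_filter, mem_product] at hz
        rw [mem_image]
        refine ⟨z.1 + z.2 - e, mem_compl.2 ?_, by ring⟩
        intro hS
        rcases hno _ hz.1.1 _ hz.1.2 hS with h | h
        · exact hz.2.1 h
        · exact hz.2.2 h
      exact (card_le_card this).trans card_image_le
    refine ⟨he, by omega, hV' (by omega), V1, V2, hU, hD, h1, h2, by omega, hno, hne⟩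

lemma two_two (V1 V2 : Finset (ZMod q)) (h1 : V1.Nonempty) (h2 : V2.Nonempty)
    (h4 : 4 ≤ V1.card + V2.card) (f1 f2 : ZMod q → ZMod q)
    (h12 : ∀ r ∈ V1, ∀ r' ∈ V2, r' = f1 r ∨ r' = f2 r)
    (h21 : ∀ r' ∈ V2, ∀ r ∈ V1, r = f1 r' ∨ r = f2 r')
    (hinj : ∀ r r', f1 r + f2 r = f1 r' + f2 r' → r = r') : False := by
  classical
  obtain ⟨a, ha⟩ := h1
  obtain ⟨b, hb⟩ := h2
  have c2 := card_le_two_of (h12 a ha)
  have c1 := card_le_two_of (h21 b hb)
  have h3 : 1 < V1.card := by omega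
  obtain ⟨r, hr, r', hr', hne⟩ := Finset.one_lt_card.1 h3
  have e1 := two_sum (h12 r hr) (by omega)
  have e2 := two_sum (h12 r' hr') (by omega)
  exact hne (hinj r r' (e1.symm.trans e2))

lemma three_three (V1 V2 : Finset (ZMod q)) (h1 : V1.Nonempty) (h2 : V2.Nonempty)
    (h5 : 5 ≤ V1.card + V2.card) (f1 f2 f3 : ZMod q → ZMod q)
    (h12 : ∀ r ∈ V1, ∀ r' ∈ V2, r' = f1 r ∨ r' = f2 r ∨ r' = f3 r)
    (h21 : ∀ r' ∈ V2, ∀ r ∈ V1, r = f1 r' ∨ r = f2 r' ∨ r = f3 r')
    (hinj : ∀ r r', f1 r + f2 r + f3 r = f1 r' + f2 r' + f3 r' → r = r') : False := by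
  classical
  obtain ⟨a, ha⟩ := h1
  obtain ⟨b, hb⟩ := h2
  have c2 := card_le_three_of (h12 a ha)
  have c1 := card_le_three_of (h21 b hb)
  rcases Nat.lt_or_ge V2.card 3 with h3 | h3
  · have h6 : 1 < V2.card := by omega
    obtain ⟨r, hr, r', hr', hne⟩ := Finset.one_lt_card.1 h6
    have e1 := three_sum (h21 r hr) (by omega)
    have e2 := three_sum (h21 r' hr') (by omega)
    exact hne (hinj r r' (e1.symm.trans e2))
  · have h6 : 1 < V1.card := by omega
    obtain ⟨r, hr, r', hr', hne⟩ := Finset.one_lt_card.1 h6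
    have e1 := three_sum (h12 r hr) (by omega)
    have e2 := three_sum (h12 r' hr') (by omega)
    exact hne (hinj r r' (e1.symm.trans e2))

lemma two_ne (hq2 : q ≠ 2) : (2 : ZMod q) ≠ 0 := by
  have hq : q.Prime := Fact.out
  have := natCast_ne (q := q) 2 (by omega) (lt_of_le_of_ne hq.two_le (Ne.symm hq2))
  simpa using this

/-- Borderline case, `s ≤ 1`. -/
lemma case_s (hq2 : q ≠ 2) (S V1 V2 : Finset (ZMod q)) (e : ZMod q) (hs : (Sᶜ).card ≤ 1)
    (h1 : V1.Nonempty) (h2 : V2.Nonempty)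
    (hV : V1.card + V2.card = (Sᶜ).card + 4)
    (hno : ∀ r ∈ V1, ∀ r' ∈ V2, r + r' - e ∈ S → r' - r = e ∨ r' - r = -e) : False := by
  classical
  have h20 := two_ne hq2
  rcases Nat.lt_or_ge (Sᶜ).card 1 with h0 | h0
  · have hS : ∀ w, w ∈ S := by
      intro w
      by_contra h
      have := card_pos.2 ⟨w, mem_compl.2 h⟩
      omega
    refine two_two V1 V2 h1 h2 (by omega) (fun r => r + e) (fun r => r - e) ?_ ?_ ?_
    · intro r hr r' hr'
      rcases hno r hr r' hr' (hS _) with h | h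
      · left; rw [← h]; ring
      · right; rw [sub_eq_add_neg r e, ← h]; ring
    · intro r' hr' r hr
      rcases hno r hr r' hr' (hS _) with h | h
      · right; rw [← h]; ring
      · left; rw [← neg_neg e, ← h]; ring
    · intro r r' h
      have : (2 : ZMod q) * (r - r') = 0 := by linear_combination h
      exact sub_eq_zero.1 ((mul_eq_zero.1 this).resolve_left h20)
  · obtain ⟨w, hw⟩ := card_eq_one.1 (le_antisymm hs h0)
    have hS : ∀ z, z ∉ S → z = w := by
      intro z h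
      have := mem_compl.2 h
      rw [hw, mem_singleton] at this
      exact this
    refine three_three V1 V2 h1 h2 (by omega) (fun r => r + e) (fun r => r - e)
      (fun r => w + e - r) ?_ ?_ ?_
    · intro r hr r' hr'
      by_cases hz : r + r' - e ∈ S
      · rcases hno r hr r' hr' hz with h | h
        · left; rw [← h]; ring
        · right; left; rw [sub_eq_add_neg r e, ← h]; ring
      · right; right; rw [← hS _ hz]; ring
    · intro r' hr' r hr
      by_cases hz : r + r' - e ∈ S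
      · rcases hno r hr r' hr' hz with h | h
        · right; left; rw [← h]; ring
        · left; rw [← neg_neg e, ← h]; ring
      · right; right; rw [← hS _ hz]; ring
    · intro r r' h
      linear_combination h

/-- The relation for (A2). -/
lemma rel2 (X Y S : Finset (ZMod q)) (ξ η ζ : ZMod q → G)
    (hrel : ∀ u ∈ X, ∀ v ∈ Y, u ≠ v → u + v ∈ S → ξ u + η v = ζ (u + v)) (e j j' : ZMod q)
    (hj : j ∈ Y) (hj' : j' ∈ Y) (hS : e - j ∈ S) (hS' : e - j' ∈ S)
    (hX : e - j - j' ∈ X) (h1 : j' ≠ e - 2 * j) (h2 : j ≠ e - 2 * j') :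
    η j + ζ (e - j) = η j' + ζ (e - j') := by
  have e1 := hrel _ hX j hj (fun h => h1 (by linear_combination -h))
    (by rw [show e - j - j' + j = e - j' by ring]; exact hS')
  have e2 := hrel _ hX j' hj' (fun h => h2 (by linear_combination -h))
    (by rw [show e - j - j' + j' = e - j by ring]; exact hS)
  rw [show e - j - j' + j = e - j' by ring] at e1
  rw [show e - j - j' + j' = e - j by ring] at e2
  rw [← e1, ← e2]
  abel

/-- Splitting for (A2). -/
lemma nonconst2 (X Y S : Finset (ZMod q)) (ξ η ζ : ZMod q → G)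
    (hrel : ∀ u ∈ X, ∀ v ∈ Y, u ≠ v → u + v ∈ S → ξ u + η v = ζ (u + v)) (e : ZMod q)
    (hc : ¬ ∀ j ∈ Y.filter (fun j => e - j ∈ S), ∀ j' ∈ Y.filter (fun j => e - j ∈ S),
      η j + ζ (e - j) = η j' + ζ (e - j')) :
    ∃ V1 V2 : Finset (ZMod q), V1.Nonempty ∧ V2.Nonempty ∧
      q ≤ V1.card + V2.card + (Yᶜ).card + (Sᶜ).card ∧
      (∀ j ∈ V1, ∀ j' ∈ V2, e - j - j' ∈ X → j' = e - 2 * j ∨ j = e - 2 * j') := by
  classical
  have hq : q.Prime := Fact.out
  have : NeZero q := ⟨hq.ne_zero⟩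
  obtain ⟨V1, V2, hU, hD, h1, h2, hsum, hne⟩ := split _ _ hc
  have hin1 : ∀ r ∈ V1, r ∈ Y ∧ e - r ∈ S := by
    intro r hr
    have : r ∈ Y.filter (fun j => e - j ∈ S) := by rw [← hU]; exact mem_union_left _ hr
    exact mem_filter.1 this
  have hin2 : ∀ r ∈ V2, r ∈ Y ∧ e - r ∈ S := by
    intro r hr
    have : r ∈ Y.filter (fun j => e - j ∈ S) := by rw [← hU]; exact mem_union_right _ hr
    exact mem_filter.1 this
  refine ⟨V1, V2, h1, h2, ?_, ?_⟩
  · have hsub : (univ : Finset (ZMod q)) ⊆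
        Y.filter (fun j => e - j ∈ S) ∪ (Yᶜ ∪ (Sᶜ).image (fun w => e - w)) := by
      intro v _
      by_cases hv : v ∈ Y
      · by_cases hw : e - v ∈ S
        · exact mem_union_left _ (mem_filter.2 ⟨hv, hw⟩)
        · apply mem_union_right
          apply mem_union_right
          rw [mem_image]
          exact ⟨e - v, mem_compl.2 hw, by ring⟩
      · exact mem_union_right _ (mem_union_left _ (mem_compl.2 hv))
    have h3 := card_le_card hsub
    rw [card_univ, ZMod.card] at h3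
    have h4 := card_union_le (Y.filter (fun j => e - j ∈ S)) (Yᶜ ∪ (Sᶜ).image (fun w => e - w))
    have h5 := card_union_le (Yᶜ) ((Sᶜ).image (fun w => e - w))
    have h6 : ((Sᶜ).image (fun w => e - w)).card ≤ (Sᶜ).card := card_image_le
    omega
  · intro j hj j' hj' hX
    by_contra hcon
    rw [not_or] at hcon
    exact hne j hj j' hj' (rel2 X Y S ξ η ζ hrel e j j' (hin1 j hj).1 (hin2 j' hj').1
      (hin1 j hj).2 (hin2 j' hj').2 hX hcon.1 hcon.2)

/-- Case `x = 0`. -/
lemma case_x0 [Finite G] (hK : Stmt_Kneser.{u}) (X Y S : Finset (ZMod q)) (ξ η ζ : ZMod q → G)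
    (hcard : (Xᶜ).card + (Yᶜ).card + (Sᶜ).card + 4 ≤ q)
    (hrel : ∀ u ∈ X, ∀ v ∈ Y, u ≠ v → u + v ∈ S → ξ u + η v = ζ (u + v))
    (hx : (Xᶜ).card = 0) (h6 : 6 ≤ q) :
    ∃ φ : ZMod q →+ G, (∀ u ∈ X, ∀ u' ∈ X, ξ u - ξ u' = φ (u - u')) ∧
      (∀ v ∈ Y, ∀ v' ∈ Y, η v - η v' = φ (v - v')) := by
  classical
  have hX : ∀ w, w ∈ X := by
    intro w
    by_contra h
    have := card_pos.2 ⟨w, mem_compl.2 h⟩
    omega
  apply A2 hK X Y S ξ η ζ hcard hrel
  intro e
  by_contra hcon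
  have hcon' : ¬ ∀ j ∈ Y.filter (fun j => e - j ∈ S), ∀ j' ∈ Y.filter (fun j => e - j ∈ S),
      η j + ζ (e - j) = η j' + ζ (e - j') := by
    intro h
    apply hcon
    intro j hj hS j' hj' hS'
    exact h j (mem_filter.2 ⟨hj, hS⟩) j' (mem_filter.2 ⟨hj', hS'⟩)
  obtain ⟨V1, V2, h1, h2, h3, h4⟩ := nonconst2 X Y S ξ η ζ hrel e hcon'
  have h20 := two_ne (q := q) (by omega)
  have h50 : (5 : ZMod q) ≠ 0 := by
    have := natCast_ne (q := q) 5 (by omega) (by omega)
    simpa using this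
  have hhalf : ∀ j j' : ZMod q, j = e - 2 * j' → j' = (e - j) * 2⁻¹ := by
    intro j j' h
    rw [h]
    field_simp
    ring
  refine two_two V1 V2 h1 h2 (by omega) (fun j => e - 2 * j) (fun j => (e - j) * 2⁻¹) ?_ ?_ ?_
  · intro j hj j' hj'
    rcases h4 j hj j' hj' (hX _) with h | h
    · left; exact h
    · right; exact hhalf _ _ h
  · intro j' hj' j hj
    rcases h4 j hj j' hj' (hX _) with h | h
    · right; exact hhalf _ _ h
    · left; exact h
  · intro r r' h
    have h5 : (5 : ZMod q) * (r - r') = 0 := by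
      have h6 : (2 : ZMod q) * 2⁻¹ = 1 := mul_inv_cancel₀ h20
      linear_combination (-2 : ZMod q) * h - (r - r') * h6
    exact sub_eq_zero.1 ((mul_eq_zero.1 h5).resolve_left h50)

/-- Case `x = y = 1`. -/
lemma case_x1 [Finite G] (hK : Stmt_Kneser.{u}) (X Y S : Finset (ZMod q)) (ξ η ζ : ZMod q → G)
    (hcard : (Xᶜ).card + (Yᶜ).card + (Sᶜ).card + 4 ≤ q)
    (hrel : ∀ u ∈ X, ∀ v ∈ Y, u ≠ v → u + v ∈ S → ξ u + η v = ζ (u + v))
    (hx : (Xᶜ).card = 1) (h8 : 8 ≤ q) :
    ∃ φ : ZMod q →+ G, (∀ u ∈ X, ∀ u' ∈ X, ξ u - ξ u' = φ (u - u')) ∧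
      (∀ v ∈ Y, ∀ v' ∈ Y, η v - η v' = φ (v - v')) := by
  classical
  obtain ⟨c, hc⟩ := card_eq_one.1 hx
  have hX : ∀ z, z ∉ X → z = c := by
    intro z h
    have := mem_compl.2 h
    rw [hc, mem_singleton] at this
    exact this
  apply A2 hK X Y S ξ η ζ hcard hrel
  intro e
  by_contra hcon
  have hcon' : ¬ ∀ j ∈ Y.filter (fun j => e - j ∈ S), ∀ j' ∈ Y.filter (fun j => e - j ∈ S),
      η j + ζ (e - j) = η j' + ζ (e - j') := by
    intro h
    apply hcon
    intro j hj hS j' hj' hS'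
    exact h j (mem_filter.2 ⟨hj, hS⟩) j' (mem_filter.2 ⟨hj', hS'⟩)
  obtain ⟨V1, V2, h1, h2, h3, h4⟩ := nonconst2 X Y S ξ η ζ hrel e hcon'
  have h20 := two_ne (q := q) (by omega)
  have h70 : (7 : ZMod q) ≠ 0 := by
    have := natCast_ne (q := q) 7 (by omega) (by omega)
    simpa using this
  have hhalf : ∀ j j' : ZMod q, j = e - 2 * j' → j' = (e - j) * 2⁻¹ := by
    intro j j' h
    rw [h]
    field_simp
    ring
  refine three_three V1 V2 h1 h2 (by omega) (fun j => e - 2 * j) (fun j => (e - j) * 2⁻¹)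
    (fun j => e - c - j) ?_ ?_ ?_
  · intro j hj j' hj'
    by_cases hz : e - j - j' ∈ X
    · rcases h4 j hj j' hj' hz with h | h
      · left; exact h
      · right; left; exact hhalf _ _ h
    · right; right
      have := hX _ hz
      linear_combination -this
  · intro j' hj' j hj
    by_cases hz : e - j - j' ∈ X
    · rcases h4 j hj j' hj' hz with h | h
      · right; left; exact hhalf _ _ h
      · left; exact h
    · right; right
      have := hX _ hz
      linear_combination -this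
  · intro r r' h
    have h5 : (7 : ZMod q) * (r - r') = 0 := by
      have h6 : (2 : ZMod q) * 2⁻¹ = 1 := mul_inv_cancel₀ h20
      linear_combination (-2 : ZMod q) * h - (r - r') * h6
    exact sub_eq_zero.1 ((mul_eq_zero.1 h5).resolve_left h70)

end AF

end Pool.Agent.Work.MP_59976d_co
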