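import Pool.Agent.Work.MP_59976d_co.Elem

/-!
Definitions for the proof of the restricted Scherk inequality in groups of odd order.
`rs A B` (restricted sumset), `Adm A B` (admissible pair) are in `MP_59976d_co.Step`,
`RestrictedScherk G` in `MP_59976d_co.Defs`, `restrictedScherk_iff` in `MP_59976d_co.Main`.
-/

namespace Pool.Agent.Work.MP_59976d_co

open Finset
open scoped Pointwise

variable {G : Type*} [AddCommGroup G]

/-- The part of `A` in the coset `x` of `H`. -/
noncomputable def part (H : AddSubgroup G) (A : Finset G) (x : G ⧸ H) : Finset G := by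
  classical
  exact A.filter (fun a => (QuotientAddGroup.mk a : G ⧸ H) = x)

lemma mem_part {H : AddSubgroup G} {A : Finset G} {x : G ⧸ H} {a : G} :
    a ∈ part H A x ↔ a ∈ A ∧ (QuotientAddGroup.mk a : G ⧸ H) = x := by
  unfold part
  simp

/-- The union of the `H`-cosets meeting `X`. -/
noncomputable def hull [Finite G] (H : AddSubgroup G) (X : Finset G) : Finset G :=
  (Set.toFinite {g : G | ∃ x ∈ X, g - x ∈ H}).toFinset

lemma mem_hull [Finite G] {H : AddSubgroup G} {X : Finset G} {g : G} :
    g ∈ hull H X ↔ ∃ x ∈ X, g - x ∈ H := by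
  unfold hull
  simp

/-- Condition (**): no pair of cosets of a nontrivial subgroup is more than half full. -/
def SS (A B : Finset G) : Prop :=
  ∀ H : AddSubgroup G, H ≠ ⊥ → ∀ x y : G ⧸ H,
    (part H A x).card + (part H B y).card ≤ Nat.card H

/-- `A` is an arithmetic progression with difference `d`. -/
def IsAP [DecidableEq G] (d : G) (A : Finset G) : Prop :=
  ∃ a : G, A = (Finset.range A.card).image (fun i : ℕ => a + i • d)

/-- `A` lies in one coset of `H`. -/
def InCoset (H : AddSubgroup G) (A : Finset G) : Prop :=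
  ∃ x : G ⧸ H, ∀ a ∈ A, (QuotientAddGroup.mk a : G ⧸ H) = x

end Pool.Agent.Work.MP_59976d_co
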