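import Pool.Agent.Work.MP_59976d_co_odd.EL2

/-!
Elimination of the second alternative of the structure lemma (block EL).
-/

namespace Pool.Agent.Work.MP_59976d_co

open Finset
open scoped Pointwise

universe u

section odd

variable {G : Type u} [AddCommGroup G] [Finite G]

/-- In a group of odd order a subgroup containing `x + x` contains `x`. -/
lemma half_mem (hodd : Odd (Nat.card G)) (K : AddSubgroup G) {x : G} (h : x + x ∈ K) : x ∈ K := by
  obtain ⟨j, hj⟩ := hodd
  have h1 : Nat.card G • x = 0 := card_nsmul_eq_zero'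
  have h2 : x = (j + 1) • (x + x) := by
    rw [← two_nsmul, ← mul_nsmul]
    have : 2 * (j + 1) = Nat.card G + 1 := by omega
    rw [this, add_nsmul, h1, zero_add, one_nsmul]
  rw [h2]
  exact K.nsmul_mem h _

lemma odd_card_of_dvd {m n : ℕ} (h : m ∣ n) (hn : Odd n) : Odd m := Odd.of_dvd_nat hn h

lemma odd_card_quotient (hodd : Odd (Nat.card G)) (L : AddSubgroup G) : Odd (Nat.card (G ⧸ L)) :=
  odd_card_of_dvd (AddSubgroup.card_quotient_dvd_card L) hodd

lemma odd_card_subgroup (hodd : Odd (Nat.card G)) (L : AddSubgroup G) : Odd (Nat.card L) :=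
  odd_card_of_dvd (AddSubgroup.card_addSubgroup_dvd_card L) hodd

end odd

section blocks

variable {G : Type u} [AddCommGroup G] {L : AddSubgroup G}

open Classical in
/-- The part of `S` in the coset `q + K`, `K ≤ G ⧸ L`. -/
noncomputable def blk (K : AddSubgroup (G ⧸ L)) (S : Finset G) (q : G ⧸ L) : Finset G :=
  S.filter (fun a => (QuotientAddGroup.mk a : G ⧸ L) - q ∈ K)

lemma mem_blk {K : AddSubgroup (G ⧸ L)} {S : Finset G} {q : G ⧸ L} {a : G} :
    a ∈ blk K S q ↔ a ∈ S ∧ (QuotientAddGroup.mk a : G ⧸ L) - q ∈ K := by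
  unfold blk
  simp

open Classical in
/-- The coset `q + K` as a finset. -/
noncomputable def kcos {Q : Type u} [AddCommGroup Q] [Fintype Q] (K : AddSubgroup Q) (q : Q) :
    Finset Q := univ.filter (fun x => x - q ∈ K)

lemma mem_kcos {Q : Type u} [AddCommGroup Q] [Fintype Q] {K : AddSubgroup Q} {q x : Q} :
    x ∈ kcos K q ↔ x - q ∈ K := by
  unfold kcos
  simp

lemma card_kcos {Q : Type u} [AddCommGroup Q] [Fintype Q] (K : AddSubgroup Q) (q : Q) :
    (kcos K q).card = Nat.card K := by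
  classical
  rw [← Fintype.card_coe, ← Nat.card_eq_fintype_card]
  apply Nat.card_congr
  exact
    { toFun := fun x => ⟨x.1 - q, mem_kcos.1 x.2⟩
      invFun := fun x => ⟨x.1 + q, mem_kcos.2 (by rw [add_sub_cancel_right]; exact x.2)⟩
      left_inv := fun x => by simp
      right_inv := fun x => by simp }

/-- Sum of a function over a coset. -/
noncomputable def Dv {Q : Type u} [AddCommGroup Q] [Fintype Q] (K : AddSubgroup Q) (f : Q → ℕ)
    (q : Q) : ℕ := ∑ x ∈ kcos K q, f x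

lemma Dv_le {Q : Type u} [AddCommGroup Q] [Fintype Q] (K : AddSubgroup Q) (f : Q → ℕ) (q : Q) :
    Dv K f q ≤ ∑ x, f x :=
  sum_le_sum_of_subset (subset_univ _)

lemma Dv_add_le {Q : Type u} [AddCommGroup Q] [Fintype Q] (K : AddSubgroup Q) (f : Q → ℕ)
    {q q' : Q} (h : q - q' ∉ K) : Dv K f q + Dv K f q' ≤ ∑ x, f x := by
  classical
  unfold Dv
  rw [← sum_union]
  · exact sum_le_sum_of_subset (subset_univ _)
  · rw [Finset.disjoint_left]
    intro x hx hx'
    rw [mem_kcos] at hx hx'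
    apply h
    have := K.sub_mem hx' hx
    rwa [sub_sub_sub_cancel_left] at this

lemma Dv_const {Q : Type u} [AddCommGroup Q] [Fintype Q] (K : AddSubgroup Q) (m : Q → ℕ)
    (hm : ∀ κ ∈ K, ∀ i, m (κ + i) = m i) (q : Q) : Dv K m q = Nat.card K * m q := by
  unfold Dv
  rw [sum_congr rfl (g := fun _ => m q), sum_const, card_kcos, smul_eq_mul]
  intro x hx
  rw [mem_kcos] at hx
  have := hm _ hx q
  rwa [sub_add_cancel] at this

variable [Fintype (G ⧸ L)]

lemma card_blk (K : AddSubgroup (G ⧸ L)) (S : Finset G) (q : G ⧸ L) :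
    (blk K S q).card = Dv K (fun x => (part L S x).card) q := by
  classical
  unfold Dv
  rw [Finset.card_eq_sum_card_fiberwise (f := fun a : G => (QuotientAddGroup.mk a : G ⧸ L))
    (t := kcos K q)]
  · apply Finset.sum_congr rfl
    intro x hx
    rw [mem_kcos] at hx
    congr 1
    ext a
    rw [mem_filter, mem_blk, mem_part]
    constructor
    · rintro ⟨⟨h1, _⟩, h2⟩; exact ⟨h1, h2⟩
    · rintro ⟨h1, h2⟩; exact ⟨⟨h1, by rw [h2]; exact hx⟩, h2⟩
  · intro a ha
    have := (mem_blk.1 (Finset.mem_coe.1 ha)).2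
    exact Finset.mem_coe.2 (mem_kcos.2 this)

/-- The heights bound the parts of a block. -/
lemma part_blk_le (K : AddSubgroup (G ⧸ L)) (S : Finset G) (q : G ⧸ L) (m : G ⧸ L → ℕ)
    (hm : ∀ κ ∈ K, ∀ i, m (κ + i) = m i) (hle : ∀ i, (part L S i).card ≤ m i) (x : G ⧸ L) :
    (part L (blk K S q) x).card ≤ m q := by
  by_cases hx : x - q ∈ K
  · have h1 := hm _ hx q
    rw [sub_add_cancel] at h1
    rw [← h1]
    refine le_trans (card_le_card ?_) (hle x)
    intro a ha
    rw [mem_part, mem_blk] at ha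
    exact mem_part.2 ⟨ha.1.1, ha.2⟩
  · have : part L (blk K S q) x = ∅ := by
      rw [Finset.eq_empty_iff_forall_notMem]
      intro a ha
      rw [mem_part, mem_blk] at ha
      exact hx (ha.2 ▸ ha.1.2)
    rw [this, card_empty]
    exact Nat.zero_le _

/-- Cardinality of a block and its deviation. -/
lemma card_blk_add (K : AddSubgroup (G ⧸ L)) (S : Finset G) (q : G ⧸ L) (m : G ⧸ L → ℕ)
    (hm : ∀ κ ∈ K, ∀ i, m (κ + i) = m i) (hle : ∀ i, (part L S i).card ≤ m i) :
    (blk K S q).card + Dv K (fun i => m i - (part L S i).card) q = Nat.card K * m q := by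
  rw [card_blk, ← Dv_const K m hm q]
  unfold Dv
  rw [← sum_add_distrib]
  apply sum_congr rfl
  intro x _
  have := hle x
  omega

lemma card_blk_eq (K : AddSubgroup (G ⧸ L)) (S : Finset G) (q : G ⧸ L) (g : G ⧸ L → ℕ)
    (hg : ∀ κ ∈ K, ∀ i, g (κ + i) = g i) (hle : ∀ i, g i ≤ (part L S i).card) :
    (blk K S q).card = Nat.card K * g q + Dv K (fun i => (part L S i).card - g i) q := by
  rw [card_blk, ← Dv_const K g hg q]
  unfold Dv
  rw [← sum_add_distrib]
  apply sum_congr rfl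
  intro x _
  have := hle x
  show (part L S x).card = g x + ((part L S x).card - g x)
  omega

end blocks

section primes

variable {G : Type u} [AddCommGroup G] [Fintype G] [DecidableEq G]

/-- Prime divisors of the order of a saturated subgroup are large. -/
lemma prime_ge (A B : Finset G) (p : ℕ)
    (hsmall : ∀ L' : AddSubgroup G, (Nat.card L').Prime → Nat.card L' < p → ∀ x y : G ⧸ L',
        (part L' A x).card + (part L' B y).card ≤ Nat.card L')
    (H : AddSubgroup G) (X Y : Finset G) (hXA : X ⊆ A) (hYB : Y ⊆ B) (hX : X.Nonempty)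
    (hY : Y.Nonempty) (hx hy : ℕ) (hhx : (hull H X).card = X.card + hx)
    (hhy : (hull H Y).card = Y.card + hy) (hlt : hx + hy < Nat.card H)
    (r : ℕ) (hr : r.Prime) (hrd : r ∣ Nat.card H) : p ≤ r := by
  classical
  by_contra hcon
  push Not at hcon
  haveI : Fact r.Prime := ⟨hr⟩
  obtain ⟨h, hh⟩ := exists_prime_addOrderOf_dvd_card' (G := H) r hrd
  set L' : AddSubgroup G := AddSubgroup.zmultiples (h : G) with hL'
  have hcard : Nat.card L' = r := by
    rw [hL', Nat.card_zmultiples, ← hh]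
    exact AddSubgroup.addOrderOf_coe h
  have hLH : L' ≤ H := by
    rw [hL', AddSubgroup.zmultiples_le]
    exact h.2
  haveI : Fintype (G ⧸ L') := Fintype.ofFinite _
  obtain ⟨x₀, _, hx₀⟩ := Finset.exists_max_image (univ : Finset (G ⧸ L'))
    (fun x => (part L' A x).card) ⟨0, mem_univ _⟩
  have hs := hsmall L' (by rw [hcard]; exact hr) (by rw [hcard]; exact hcon)
  have h1 := no_sub H L' hLH X Y hX hY (part L' A x₀).card (Nat.card L' - (part L' A x₀).card)
    (fun x => (card_part_mono hXA x).trans (hx₀ x (mem_univ x)))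
    (fun y => (card_part_mono hYB y).trans (by have := hs x₀ y; omega))
    (by have := hs x₀ 0; omega) hx hy hhx hhy
  omega

lemma three_le_of_dvd {h k : ℕ} (hd : h ∣ k) (hne : h ≠ k) (hk : Odd k) : 3 * h ≤ k := by
  obtain ⟨j, rfl⟩ := hd
  rw [Nat.odd_mul] at hk
  obtain ⟨i, hi⟩ := hk.2
  have : j ≠ 1 := by rintro rfl; exact hne (mul_one h).symm
  have h3 : 3 ≤ j := by omega
  calc 3 * h = h * 3 := by ring
    _ ≤ h * j := Nat.mul_le_mul_left _ h3

end primes

section final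

variable {G : Type u} [AddCommGroup G] [Fintype G] [DecidableEq G]

/-- The final count for three subgroups. -/
lemma final_count (hodd : Odd (Nat.card G)) (A B C : Finset G)
    (hC : ∀ a ∈ A, ∀ b ∈ B, a ≠ b → a + b ∈ C) (hA0 : (0 : G) ∈ A) (hB0 : (0 : G) ∈ B)
    (huniq : ∀ a ∈ A, -a ∈ B → a = 0)
    (H₁ H₂ H₃ N : AddSubgroup G) (n₁ n₂ n₃ : ℕ) (N₁ N₂ N₃ : Finset G)
    (hN₁ : ∀ h ∈ H₁, h ∉ A → h ∈ N₁) (hN₂ : ∀ h ∈ H₂, h ∉ B → h ∈ N₂)
    (hN₃ : ∀ h ∈ H₃, h ∈ C → h ∈ N₃) (hc₁ : N₁.card ≤ n₁) (hc₂ : N₂.card ≤ n₂)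
    (hc₃ : N₃.card ≤ n₃) (h1 : n₁ + n₂ + n₃ + 4 ≤ Nat.card H₁)
    (h2 : n₁ + n₂ + n₃ + 4 ≤ Nat.card H₂) (h3 : n₁ + n₂ + n₃ + 4 ≤ Nat.card H₃)
    (hH₁ : H₁ ≤ N) (hH₂ : H₂ ≤ N) (hH₃ : H₃ ≤ N) (k p : ℕ) (hp : p.Prime)
    (hk : Nat.card N = k * p)
    (hsome : Nat.card H₁ = k ∨ Nat.card H₂ = k ∨ Nat.card H₃ = k)
    (hp1 : ∀ r : ℕ, r.Prime → r ∣ Nat.card H₁ → p ≤ r)
    (hp2 : ∀ r : ℕ, r.Prime → r ∣ Nat.card H₂ → p ≤ r)
    (hp3 : ∀ r : ℕ, r.Prime → r ∣ Nat.card H₃ → p ≤ r) : False := by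
  classical
  -- pairwise intersections are small
  have i12 : Nat.card (H₁ ⊓ H₂ : AddSubgroup G) ≤ n₁ + n₂ + 1 := by
    have hsub : (univ.filter (fun h : G => h ∈ H₁ ⊓ H₂)) ⊆
        N₁ ∪ N₂.image (fun h => -h) ∪ {0} := by
      intro h hh
      rw [mem_filter] at hh
      obtain ⟨_, hh1, hh2⟩ := hh
      rw [mem_union, mem_union, mem_singleton, mem_image]
      by_cases hA : h ∈ A
      · by_cases hB : -h ∈ B
        · exact Or.inr (huniq h hA hB)
        · exact Or.inl (Or.inr ⟨-h, hN₂ _ (H₂.neg_mem hh2) hB, neg_neg h⟩)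
      · exact Or.inl (Or.inl (hN₁ _ hh1 hA))
    have hcard : (univ.filter (fun h : G => h ∈ H₁ ⊓ H₂)).card =
        Nat.card (H₁ ⊓ H₂ : AddSubgroup G) := by
      rw [← Fintype.card_subtype, Nat.card_eq_fintype_card]
    have h5 := card_le_card hsub
    have h6 := card_union_le (N₁ ∪ N₂.image (fun h => -h)) {0}
    have h7 := card_union_le N₁ (N₂.image (fun h => -h))
    have h8 := card_image_le (s := N₂) (f := fun h => -h)
    rw [card_singleton] at h6
    omega
  have i13 : Nat.card (H₁ ⊓ H₃ : AddSubgroup G) ≤ n₁ + n₃ + 1 := by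
    have hsub : (univ.filter (fun h : G => h ∈ H₁ ⊓ H₃)) ⊆ N₁ ∪ N₃ ∪ {0} := by
      intro h hh
      rw [mem_filter] at hh
      obtain ⟨_, hh1, hh2⟩ := hh
      rw [mem_union, mem_union, mem_singleton]
      by_cases hA : h ∈ A
      · by_cases h0 : h = 0
        · exact Or.inr h0
        · refine Or.inl (Or.inr (hN₃ _ hh2 ?_))
          have := hC h hA 0 hB0 h0
          rwa [add_zero] at this
      · exact Or.inl (Or.inl (hN₁ _ hh1 hA))
    have hcard : (univ.filter (fun h : G => h ∈ H₁ ⊓ H₃)).card =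
        Nat.card (H₁ ⊓ H₃ : AddSubgroup G) := by
      rw [← Fintype.card_subtype, Nat.card_eq_fintype_card]
    have h5 := card_le_card hsub
    have h6 := card_union_le (N₁ ∪ N₃) {0}
    have h7 := card_union_le N₁ N₃
    rw [card_singleton] at h6
    omega
  have i23 : Nat.card (H₂ ⊓ H₃ : AddSubgroup G) ≤ n₂ + n₃ + 1 := by
    have hsub : (univ.filter (fun h : G => h ∈ H₂ ⊓ H₃)) ⊆ N₂ ∪ N₃ ∪ {0} := by
      intro h hh
      rw [mem_filter] at hh
      obtain ⟨_, hh1, hh2⟩ := hh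
      rw [mem_union, mem_union, mem_singleton]
      by_cases hB : h ∈ B
      · by_cases h0 : h = 0
        · exact Or.inr h0
        · refine Or.inl (Or.inr (hN₃ _ hh2 ?_))
          have := hC 0 hA0 h hB (fun h' => h0 h'.symm)
          rwa [zero_add] at this
      · exact Or.inl (Or.inl (hN₂ _ hh1 hB))
    have hcard : (univ.filter (fun h : G => h ∈ H₂ ⊓ H₃)).card =
        Nat.card (H₂ ⊓ H₃ : AddSubgroup G) := by
      rw [← Fintype.card_subtype, Nat.card_eq_fintype_card]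
    have h5 := card_le_card hsub
    have h6 := card_union_le (N₂ ∪ N₃) {0}
    have h7 := card_union_le N₂ N₃
    rw [card_singleton] at h6
    omega
  -- not nested
  have m12 : ¬ H₁ ≤ H₂ := fun h => by
    rw [inf_eq_left.2 h] at i12; omega
  have m21 : ¬ H₂ ≤ H₁ := fun h => by
    rw [inf_eq_right.2 h] at i12; omega
  have m13 : ¬ H₁ ≤ H₃ := fun h => by
    rw [inf_eq_left.2 h] at i13; omega
  have m31 : ¬ H₃ ≤ H₁ := fun h => by
    rw [inf_eq_right.2 h] at i13; omega
  have m23 : ¬ H₂ ≤ H₃ := fun h => by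
    rw [inf_eq_left.2 h] at i23; omega
  have m32 : ¬ H₃ ≤ H₂ := fun h => by
    rw [inf_eq_right.2 h] at i23; omega
  set t := (Mset H₁ H₂ H₃).card with ht
  have htcard := card_Mset H₁ H₂ H₃
  obtain ⟨κ, hκ1, hκ2, hκ3, hκ⟩ : ∃ κ, κ ≤ Nat.card H₁ ∧ κ ≤ Nat.card H₂ ∧ κ ≤ Nat.card H₃ ∧
      n₁ + n₂ + n₃ + 4 ≤ κ := ⟨n₁ + n₂ + n₃ + 4, h1, h2, h3, le_refl _⟩
  have hthree : κ * Nat.card (H₁ ⊓ H₂ : AddSubgroup G) ≤ t ∧
      κ * Nat.card (H₁ ⊓ H₃ : AddSubgroup G) ≤ t ∧ κ * Nat.card (H₂ ⊓ H₃ : AddSubgroup G) ≤ t := by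
    rcases hsome with hk1 | hk2 | hk3
    · have hN : Nat.card N = Nat.card H₁ * p := by rw [hk, hk1]
      have hsup : H₁ ⊔ H₂ ⊔ H₃ = N := by
        rw [sup_eq_of_card hH₁ hH₂ hp hN m21]
        exact sup_eq_left.2 hH₃
      rw [hsup] at htcard
      exact final_ineq hH₁ hH₂ hH₃ hp hN m21 m31 m32 hp3 hκ2 hκ3 htcard
    · have hN : Nat.card N = Nat.card H₂ * p := by rw [hk, hk2]
      have hsup : H₁ ⊔ H₂ ⊔ H₃ = N := by
        rw [sup_comm H₁ H₂, sup_eq_of_card hH₂ hH₁ hp hN m12]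
        exact sup_eq_left.2 hH₃
      rw [hsup] at htcard
      have := final_ineq hH₂ hH₁ hH₃ hp hN m12 m32 m31 hp3 hκ1 hκ3 (t := t)
        (by rw [htcard]; ring)
      rw [inf_comm H₂ H₁] at this
      exact ⟨this.1, this.2.2, this.2.1⟩
    · have hN : Nat.card N = Nat.card H₃ * p := by rw [hk, hk3]
      have hsup : H₁ ⊔ H₂ ⊔ H₃ = N := by
        rw [sup_comm, ← sup_assoc, sup_eq_of_card hH₃ hH₁ hp hN m13]
        exact sup_eq_left.2 hH₂
      rw [hsup] at htcard
      have := final_ineq hH₃ hH₁ hH₂ hp hN m13 m23 m21 hp2 hκ1 hκ2 (t := t)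
        (by rw [htcard]; ring)
      rw [inf_comm H₃ H₁, inf_comm H₃ H₂] at this
      exact ⟨this.2.2, this.1, this.2.1⟩
  have hcount := count_Mset H₁ H₂ H₃ A B C hC (fun x hx => half_mem hodd H₃ hx) N₁ N₂ N₃
    hN₁ hN₂ hN₃
  rw [← ht] at hcount
  have htpos : 0 < t := by
    rw [ht]
    exact card_pos.2 ⟨(0, 0), mem_Mset.2 ⟨H₁.zero_mem, H₂.zero_mem,
      by simpa using H₃.zero_mem⟩⟩
  have hlast : Nat.card (H₁ ⊓ H₂ ⊓ H₃ : AddSubgroup G) ≤ Nat.card (H₁ ⊓ H₂ : AddSubgroup G) :=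
    card_le_of_le' inf_le_left
  have e1 : κ * t ≤ t * n₁ + t * n₂ + t * n₃ + t := by
    calc κ * t ≤ κ * (Nat.card (H₂ ⊓ H₃ : AddSubgroup G) * N₁.card +
          Nat.card (H₁ ⊓ H₃ : AddSubgroup G) * N₂.card +
          Nat.card (H₁ ⊓ H₂ : AddSubgroup G) * N₃.card +
          Nat.card (H₁ ⊓ H₂ ⊓ H₃ : AddSubgroup G)) := Nat.mul_le_mul_left _ hcount
      _ = (κ * Nat.card (H₂ ⊓ H₃ : AddSubgroup G)) * N₁.card +
          (κ * Nat.card (H₁ ⊓ H₃ : AddSubgroup G)) * N₂.card +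
          (κ * Nat.card (H₁ ⊓ H₂ : AddSubgroup G)) * N₃.card +
          κ * Nat.card (H₁ ⊓ H₂ ⊓ H₃ : AddSubgroup G) := by ring
      _ ≤ t * n₁ + t * n₂ + t * n₃ + t := by
          apply Nat.add_le_add
          · apply Nat.add_le_add
            · apply Nat.add_le_add
              · exact Nat.mul_le_mul hthree.2.2 hc₁
              · exact Nat.mul_le_mul hthree.2.1 hc₂
            · exact Nat.mul_le_mul hthree.1 hc₃
          · exact (Nat.mul_le_mul_left _ hlast).trans hthree.1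
  have e2 : (n₁ + n₂ + n₃ + 4) * t ≤ κ * t := Nat.mul_le_mul_right _ hκ
  have e3 : (n₁ + n₂ + n₃ + 4) * t = t * n₁ + t * n₂ + t * n₃ + 4 * t := by ring
  omega

/-- The whole elimination. -/
theorem stmt_elim (hKn : Stmt_Kneser.{u}) : Stmt_Elim.{u} := by
  intro G _ _ _ hodd A B hadm hF L _ hL hsmall K m m' g hH
  rintro ⟨⟨y, hyK, hmy, hgy, hgyp⟩, ⟨x, hxK, hmx, hgx, hgxp⟩, ⟨w, hwK, hmw, hmw', hgw⟩⟩
  classical
  set p := Nat.card L with hp
  set k := Nat.card K with hk
  set C := rs A B with hC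
  set N : AddSubgroup G := K.comap (QuotientAddGroup.mk' L) with hN
  have memN : ∀ z : G, z ∈ N ↔ (QuotientAddGroup.mk z : G ⧸ L) ∈ K := fun z => Iff.rfl
  have hLN : L ≤ N := by
    intro z hz
    rw [memN, (QuotientAddGroup.eq_zero_iff z).2 hz]
    exact K.zero_mem
  have hcardN : Nat.card N = k * p := by
    rw [card_eq_card_mul_relIndex hLN, mul_comm]
    congr 1
    have h1 := AddSubgroup.relIndex_ker (K := N) (QuotientAddGroup.mk' L)
    rw [QuotientAddGroup.ker_mk'] at h1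
    rw [h1, hN, AddSubgroup.map_comap_eq_self_of_surjective (QuotientAddGroup.mk'_surjective L)]
  have hQodd : Odd (Nat.card (G ⧸ L)) := odd_card_quotient hodd L
  have hkodd : Odd k := odd_card_subgroup hQodd K
  -- zero is not a restricted sum
  have h0C : (0 : G) ∉ C := by
    intro h
    rw [hC, mem_rs] at h
    obtain ⟨a, ha, b, hb, hne, hab⟩ := h
    have h1 : -a = b := neg_eq_of_add_eq_zero_right hab
    have h2 := hadm.uniq a ha (h1 ▸ hb)
    apply hne
    rw [← h1, h2, neg_zero]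
  have hγ0 : (part L C 0).card + 1 ≤ p := by
    have h1 := card_part_le L (insert 0 C) 0
    have h2 : part L (insert 0 C) 0 = insert 0 (part L C 0) := by
      ext z
      rw [mem_part, mem_insert, mem_insert, mem_part]
      constructor
      · rintro ⟨h | h, h'⟩
        · exact Or.inl h
        · exact Or.inr ⟨h, h'⟩
      · rintro (h | h)
        · subst h; exact ⟨Or.inl rfl, rfl⟩
        · exact ⟨Or.inr h.1, h.2⟩
    rw [h2, card_insert_of_notMem (fun h => h0C (mem_part.1 h).1)] at h1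
    exact h1
  have hg0 : g 0 + 1 ≤ p := by
    have : g 0 ≤ (part L C 0).card := hH.g_le 0
    omega
  -- deviations
  set fU : G ⧸ L → ℕ := fun i => m i - (part L A i).card with hfU
  set fV : G ⧸ L → ℕ := fun i => m' i - (part L B i).card with hfV
  set fE : G ⧸ L → ℕ := fun i => (part L C i).card - g i with hfE
  have hleA : ∀ i, (part L A i).card ≤ m i := hH.le_m
  have hleB : ∀ i, (part L B i).card ≤ m' i := hH.le_m'
  have hleC : ∀ i, g i ≤ (part L C i).card := hH.g_le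
  have htotal : ∑ i, fU i + ∑ i, fV i + ∑ i, fE i + 4 ≤ k := by
    have e1 : ∑ i, m i = ∑ i, fU i + ∑ i, (part L A i).card := by
      rw [← sum_add_distrib]
      apply sum_congr rfl
      intro i _
      have := hleA i
      simp only [hfU]
      omega
    have e2 : ∑ i, m' i = ∑ i, fV i + ∑ i, (part L B i).card := by
      rw [← sum_add_distrib]
      apply sum_congr rfl
      intro i _
      have := hleB i
      simp only [hfV]
      omega
    have e3 : ∑ i, (part L C i).card = ∑ i, fE i + ∑ i, g i := by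
      rw [← sum_add_distrib]
      apply sum_congr rfl
      intro i _
      have := hleC i
      simp only [hfE]
      omega
    have e4 := hH.total
    rw [← card_eq_sum_part] at e1 e2 e3
    omega
  -- blocks
  have bA : ∀ q, (blk K A q).card + Dv K fU q = k * m q :=
    fun q => card_blk_add K A q m hH.per_m hleA
  have bB : ∀ q, (blk K B q).card + Dv K fV q = k * m' q :=
    fun q => card_blk_add K B q m' hH.per_m' hleB
  have bC : ∀ q, (blk K C q).card = k * g q + Dv K fE q :=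
    fun q => card_blk_eq K C q g hH.per_g hleC
  have hsum : ∀ q q' : G ⧸ L, q - q' ∉ K → blk K A q + blk K B q' ⊆ blk K C (q + q') := by
    intro q q' hq z hz
    rw [mem_add] at hz
    obtain ⟨a, ha, b, hb, rfl⟩ := hz
    rw [mem_blk] at ha hb ⊢
    refine ⟨?_, ?_⟩
    · rw [hC, mem_rs]
      refine ⟨a, ha.1, b, hb.1, ?_, rfl⟩
      rintro rfl
      apply hq
      have := K.sub_mem hb.2 ha.2
      rwa [sub_sub_sub_cancel_left] at this
    · rw [QuotientAddGroup.mk_add]
      have := K.add_mem ha.2 hb.2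
      have e : (QuotientAddGroup.mk a : G ⧸ L) - q + (QuotientAddGroup.mk b - q') =
        QuotientAddGroup.mk a + QuotientAddGroup.mk b - (q + q') := by abel
      rwa [e] at this
  have hZN : ∀ q : G ⧸ L, ∀ z ∈ blk K C q, ∀ z' ∈ blk K C q, z - z' ∈ N := by
    intro q z hz z' hz'
    rw [memN]
    have := K.sub_mem (mem_blk.1 hz).2 (mem_blk.1 hz').2
    rwa [sub_sub_sub_cancel_right, ← QuotientAddGroup.mk_sub] at this
  have h0A : (0 : G) ∈ blk K A 0 := mem_blk.2 ⟨hadm.zA, by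
    rw [sub_zero]; exact K.zero_mem⟩
  have h0B : (0 : G) ∈ blk K B 0 := mem_blk.2 ⟨hadm.zB, by
    rw [sub_zero]; exact K.zero_mem⟩
  have hkpos : 0 < k := Nat.card_pos
  have neA : ∀ q, 1 ≤ m q → (blk K A q).Nonempty := by
    intro q hq
    rw [← card_pos]
    have h1 := bA q
    have h2 := Dv_le K fU q
    have h3 : k * 1 ≤ k * m q := Nat.mul_le_mul_left _ hq
    omega
  have neB : ∀ q, 1 ≤ m' q → (blk K B q).Nonempty := by
    intro q hq
    rw [← card_pos]
    have h1 := bB q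
    have h2 := Dv_le K fV q
    have h3 : k * 1 ≤ k * m' q := Nat.mul_le_mul_left _ hq
    omega
  have hyK' : (0 : G ⧸ L) - y ∉ K := fun h => hyK (by simpa using K.neg_mem h)
  have hxK' : x - (0 : G ⧸ L) ∉ K := fun h => hxK (by simpa using h)
  have hwK' : w - (-w) ∉ K := fun h => hwK (half_mem hQodd K (by simpa using h))
  have hwK0 : w - 0 ∉ K := fun h => hwK (by simpa using h)
  have hwK1 : (-w) - 0 ∉ K := fun h => hwK (by simpa using h)
  have hyK0 : y - 0 ∉ K := fun h => hyK (by simpa using h)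
  -- the three triples
  have kmul : ∀ a b c : ℕ, c + 1 = a + b → k * c + k = k * (a + b) := by
    intro a b c h
    rw [← h]; ring
  obtain ⟨H₁, hx₁, hy₁, ρ₁, hper₁, hHN₁, hd₁, hhx₁, hhy₁, hρ₁, hxU₁, hyU₁, hρE₁, hs₁, hk₁⟩ :=
    triple hKn (blk K A 0) (blk K B y) (blk K C (0 + y)) ⟨0, h0A⟩ (neB y hmy)
      (hsum 0 y hyK') L N hL hLN (hZN _) k hcardN (m 0) (m' y)
      (part_blk_le K A 0 m hH.per_m hleA) (part_blk_le K B y m' hH.per_m' hleB)
      (by omega) (Dv K fU 0) (Dv K fV y) (Dv K fE (0 + y)) (Dv K fV 0 + Dv K fE 0)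
      (bA 0) (bB y)
      (by
        have h1 := bC (0 + y)
        have h2 := kmul (m 0) (m' y) (g (0 + y)) (by rw [zero_add]; exact hgy)
        omega)
      (by
        have h1 := Dv_le K fU 0
        have h2 := Dv_add_le K fV (q := y) (q' := 0) hyK0
        have h3 := Dv_add_le K fE (q := 0 + y) (q' := 0) (by rw [zero_add]; exact hyK0)
        omega)
  obtain ⟨H₂, hx₂, hy₂, ρ₂, hper₂, hHN₂, hd₂, hhx₂, hhy₂, hρ₂, hxU₂, hyU₂, hρE₂, hs₂, hk₂⟩ :=
    triple hKn (blk K A x) (blk K B 0) (blk K C (x + 0)) (neA x hmx) ⟨0, h0B⟩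
      (hsum x 0 hxK') L N hL hLN (hZN _) k hcardN (m x) (m' 0)
      (part_blk_le K A x m hH.per_m hleA) (part_blk_le K B 0 m' hH.per_m' hleB)
      (by omega) (Dv K fU x) (Dv K fV 0) (Dv K fE (x + 0)) (Dv K fU 0 + Dv K fE 0)
      (bA x) (bB 0)
      (by
        have h1 := bC (x + 0)
        have h2 := kmul (m x) (m' 0) (g (x + 0)) (by rw [add_zero]; exact hgx)
        omega)
      (by
        have h1 := Dv_le K fV 0
        have h2 := Dv_add_le K fU (q := x) (q' := 0) hxK'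
        have h3 := Dv_add_le K fE (q := x + 0) (q' := 0) (by rw [add_zero]; exact hxK')
        omega)
  obtain ⟨H₃, hx₃, hy₃, ρ₃, hper₃, hHN₃, hd₃, hhx₃, hhy₃, hρ₃, hxU₃, hyU₃, hρE₃, hs₃, hk₃⟩ :=
    triple hKn (blk K A w) (blk K B (-w)) (blk K C (w + -w)) (neA w hmw) (neB (-w) hmw')
      (hsum w (-w) hwK') L N hL hLN (hZN _) k hcardN (m w) (m' (-w))
      (part_blk_le K A w m hH.per_m hleA) (part_blk_le K B (-w) m' hH.per_m' hleB)
      (by omega) (Dv K fU w) (Dv K fV (-w)) (Dv K fE (w + -w)) (Dv K fU 0 + Dv K fV 0)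
      (bA w) (bB (-w))
      (by
        have h1 := bC (w + -w)
        have h2 := kmul (m w) (m' (-w)) (g (w + -w)) (by rw [add_neg_cancel]; exact hgw)
        omega)
      (by
        have h1 := Dv_le K fE (w + -w)
        have h2 := Dv_add_le K fU (q := w) (q' := 0) hwK0
        have h3 := Dv_add_le K fV (q := -w) (q' := 0) hwK1
        omega)
  rw [zero_add] at hρE₁ hk₁
  rw [add_zero] at hρE₂ hk₂
  rw [add_neg_cancel] at hρE₃ hk₃
  -- some subgroup has order k
  have hsome : Nat.card H₁ = k ∨ Nat.card H₂ = k ∨ Nat.card H₃ = k := by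
    by_contra hcon
    push Not at hcon
    obtain ⟨c1, c2, c3⟩ := hcon
    have t1 := three_le_of_dvd hd₁ c1 hkodd
    have t2 := three_le_of_dvd hd₂ c2 hkodd
    have t3 := three_le_of_dvd hd₃ c3 hkodd
    have s12 : y - x ∈ K := by
      by_contra h
      have h1 := Dv_add_le K fU (q := x) (q' := 0) hxK'
      have h2 := Dv_add_le K fV (q := y) (q' := 0) hyK0
      have h3 := Dv_add_le K fE (q := y) (q' := x) h
      omega
    have s13 : y - (-w) ∈ K := by
      by_contra h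
      have h1 := Dv_add_le K fU (q := w) (q' := 0) hwK0
      have h2 := Dv_add_le K fV (q := y) (q' := -w) h
      have h3 := Dv_add_le K fE (q := y) (q' := 0) hyK0
      omega
    have s23 : x - w ∈ K := by
      by_contra h
      have h1 := Dv_add_le K fU (q := x) (q' := w) h
      have h2 := Dv_add_le K fV (q := -w) (q' := 0) hwK1
      have h3 := Dv_add_le K fE (q := x) (q' := 0) hxK'
      omega
    apply hyK
    apply half_mem hQodd
    have := K.add_mem (K.add_mem s12 s23) s13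
    have e : y - x + (x - w) + (y - -w) = y + y := by abel
    rwa [e] at this
  have hρ3lt : ρ₃ = (blk K C (w + -w) \ (blk K A w + blk K B (-w))).card := by
    rw [card_sdiff_of_subset (hsum w (-w) hwK')]
    omega
  have hCsum : ∀ a ∈ A, ∀ b ∈ B, a ≠ b → a + b ∈ C := by
    intro a ha b hb hne
    rw [hC]
    exact mem_rs.2 ⟨a, ha, b, hb, hne, rfl⟩
  refine final_count hodd A B C hCsum hadm.zA hadm.zB hadm.uniq H₁ H₂ H₃ N hx₁ hy₂ ρ₃
    (hull H₁ (blk K A 0) \ blk K A 0) (hull H₂ (blk K B 0) \ blk K B 0)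
    (blk K C (w + -w) \ (blk K A w + blk K B (-w))) ?_ ?_ ?_ ?_ ?_ hρ3lt.ge ?_ ?_ ?_ hHN₁ hHN₂ hHN₃
    k p hL hcardN hsome ?_ ?_ ?_
  · intro h hh hA
    rw [mem_sdiff]
    refine ⟨mem_hull.2 ⟨0, h0A, by rwa [sub_zero]⟩, fun h' => hA (mem_blk.1 h').1⟩
  · intro h hh hB
    rw [mem_sdiff]
    refine ⟨mem_hull.2 ⟨0, h0B, by rwa [sub_zero]⟩, fun h' => hB (mem_blk.1 h').1⟩
  · intro h hh hC'
    rw [mem_sdiff, add_neg_cancel]
    refine ⟨mem_blk.2 ⟨hC', by rw [sub_zero]; exact hHN₃ hh⟩, fun h' => ?_⟩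
    have h1 := hper₃ (-h) (H₃.neg_mem hh) h h'
    rw [neg_add_cancel] at h1
    exact h0C (mem_blk.1 (hsum w (-w) hwK' h1)).1
  · rw [card_sdiff_of_subset (subset_hull _ _)]
    omega
  · rw [card_sdiff_of_subset (subset_hull _ _)]
    omega
  · omega
  · omega
  · omega
  · exact fun r hr hrd => prime_ge A B p hsmall H₁ _ _ (filter_subset _ _) (filter_subset _ _)
      ⟨0, h0A⟩ (neB y hmy) hx₁ hy₁ hhx₁ hhy₁ (by omega) r hr hrd
  · exact fun r hr hrd => prime_ge A B p hsmall H₂ _ _ (filter_subset _ _) (filter_subset _ _)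
      (neA x hmx) ⟨0, h0B⟩ hx₂ hy₂ hhx₂ hhy₂ (by omega) r hr hrd
  · exact fun r hr hrd => prime_ge A B p hsmall H₃ _ _ (filter_subset _ _) (filter_subset _ _)
      (neA w hmw) (neB (-w) hmw') hx₃ hy₃ hhx₃ hhy₃ (by omega) r hr hrd

end final

end Pool.Agent.Work.MP_59976d_co
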