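import Pool.Agent.Work.MP_59976d_co_odd.Basic

/-!
Elimination of the second alternative: cardinalities of subgroups and counting lemmas.
-/

namespace Pool.Agent.Work.MP_59976d_co

open Finset
open scoped Pointwise

section cards

variable {G : Type*} [AddCommGroup G] [Finite G]

/-- Lagrange in the form used here. -/
lemma card_eq_card_mul_relIndex {H K : AddSubgroup G} (h : H ≤ K) :
    Nat.card K = Nat.card H * H.relIndex K := by
  have h1 := AddSubgroup.relIndex_mul_relIndex (⊥ : AddSubgroup G) H K bot_le h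
  rw [AddSubgroup.relIndex_bot_left, AddSubgroup.relIndex_bot_left] at h1
  exact h1.symm

lemma card_dvd_card {H K : AddSubgroup G} (h : H ≤ K) : Nat.card H ∣ Nat.card K :=
  ⟨_, card_eq_card_mul_relIndex h⟩

lemma card_sup_mul_card_inf (H K : AddSubgroup G) :
    Nat.card (H ⊔ K : AddSubgroup G) * Nat.card (H ⊓ K : AddSubgroup G) =
      Nat.card H * Nat.card K := by
  have h1 := card_eq_card_mul_relIndex (show H ≤ H ⊔ K from le_sup_left)
  have h2 := card_eq_card_mul_relIndex (show H ⊓ K ≤ K from inf_le_right)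
  rw [AddSubgroup.relIndex_sup_left] at h1
  rw [AddSubgroup.inf_relIndex_right] at h2
  rw [h1, h2]
  ring

lemma card_le_of_le' {H K : AddSubgroup G} (h : H ≤ K) : Nat.card H ≤ Nat.card K :=
  Nat.le_of_dvd Nat.card_pos (card_dvd_card h)

lemma eq_of_le_of_card_le' {H K : AddSubgroup G} (h : H ≤ K) (hc : Nat.card K ≤ Nat.card H) :
    H = K := by
  apply AddSubgroup.eq_of_le_of_card_ge h hc

lemma card_le_of_diff (T : Finset G) (J : AddSubgroup G) (h : ∀ x ∈ T, ∀ y ∈ T, x - y ∈ J) :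
    T.card ≤ Nat.card J := by
  classical
  haveI : Fintype J := Fintype.ofFinite J
  rcases T.eq_empty_or_nonempty with rfl | ⟨x₀, hx₀⟩
  · simp
  rw [Nat.card_eq_fintype_card, ← Finset.card_univ]
  apply Finset.card_le_card_of_injOn
    (fun x => if hx : x - x₀ ∈ J then (⟨x - x₀, hx⟩ : J) else 0) (fun _ _ => by simp)
  intro a ha b hb hab
  have ha' := h a ha x₀ hx₀
  have hb' := h b hb x₀ hx₀
  simp only [dif_pos ha', dif_pos hb', Subtype.mk.injEq] at hab
  exact sub_left_injective hab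

/-- If the cardinality of `P` is `k`, `N` has order `k p`, `Q` is not inside `P`, then
`P ⊔ Q = N`. -/
lemma sup_eq_of_card {N P Q : AddSubgroup G} (hP : P ≤ N) (hQ : Q ≤ N) {p : ℕ}
    (hp : p.Prime) (hN : Nat.card N = Nat.card P * p) (hQP : ¬ Q ≤ P) : P ⊔ Q = N := by
  apply eq_of_le_of_card_le' (sup_le hP hQ)
  have h1 := card_eq_card_mul_relIndex (show P ≤ P ⊔ Q from le_sup_left)
  have h2 := card_dvd_card (show P ⊔ Q ≤ N from sup_le hP hQ)
  rw [h1, hN] at h2
  have h3 := Nat.dvd_of_mul_dvd_mul_left (Nat.card_pos) h2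
  rcases (Nat.dvd_prime hp).1 h3 with h4 | h4
  · exfalso
    rw [h4, mul_one] at h1
    have h5 := eq_of_le_of_card_le' (show P ≤ P ⊔ Q from le_sup_left) h1.le
    apply hQP
    rw [h5]
    exact le_sup_right
  · rw [h1, h4, hN]

/-- The three inequalities needed in the count. -/
lemma final_ineq {N P Q R : AddSubgroup G} (hP : P ≤ N) (hQ : Q ≤ N) (hR : R ≤ N) {p κ t : ℕ}
    (hp : p.Prime) (hN : Nat.card N = Nat.card P * p) (hQP : ¬ Q ≤ P) (hRP : ¬ R ≤ P)
    (hRQ : ¬ R ≤ Q) (hpr : ∀ r : ℕ, r.Prime → r ∣ Nat.card R → p ≤ r)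
    (hκQ : κ ≤ Nat.card Q) (hκR : κ ≤ Nat.card R)
    (ht : t * Nat.card N = Nat.card P * Nat.card Q * Nat.card R) :
    κ * Nat.card (P ⊓ Q : AddSubgroup G) ≤ t ∧ κ * Nat.card (P ⊓ R : AddSubgroup G) ≤ t ∧
      κ * Nat.card (Q ⊓ R : AddSubgroup G) ≤ t := by
  have hNpos : 0 < Nat.card N := Nat.card_pos
  have hPQ := sup_eq_of_card hP hQ hp hN hQP
  have hPR := sup_eq_of_card hP hR hp hN hRP
  have h1 := card_sup_mul_card_inf P Q
  have h2 := card_sup_mul_card_inf P R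
  rw [hPQ] at h1
  rw [hPR] at h2
  refine ⟨?_, ?_, ?_⟩
  · have h3 : t = Nat.card (P ⊓ Q : AddSubgroup G) * Nat.card R := by
      apply Nat.eq_of_mul_eq_mul_left hNpos
      calc Nat.card N * t = t * Nat.card N := by ring
        _ = Nat.card P * Nat.card Q * Nat.card R := ht
        _ = Nat.card N * (Nat.card (P ⊓ Q : AddSubgroup G) * Nat.card R) := by rw [← h1]; ring
    rw [h3, mul_comm]
    exact Nat.mul_le_mul_left _ hκR
  · have h3 : t = Nat.card (P ⊓ R : AddSubgroup G) * Nat.card Q := by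
      apply Nat.eq_of_mul_eq_mul_left hNpos
      calc Nat.card N * t = t * Nat.card N := by ring
        _ = (Nat.card P * Nat.card R) * Nat.card Q := by rw [ht]; ring
        _ = Nat.card N * (Nat.card (P ⊓ R : AddSubgroup G) * Nat.card Q) := by rw [← h2]; ring
    rw [h3, mul_comm]
    exact Nat.mul_le_mul_left _ hκQ
  · have h3 : t * p = Nat.card Q * Nat.card R := by
      have hPpos : 0 < Nat.card P := Nat.card_pos
      apply Nat.eq_of_mul_eq_mul_left hPpos
      calc Nat.card P * (t * p) = t * (Nat.card P * p) := by ring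
        _ = t * Nat.card N := by rw [hN]
        _ = Nat.card P * (Nat.card Q * Nat.card R) := by rw [ht]; ring
    have h4 := card_eq_card_mul_relIndex (show Q ⊓ R ≤ R from inf_le_right)
    have h5 : p ≤ (Q ⊓ R).relIndex R := by
      have hne : (Q ⊓ R).relIndex R ≠ 1 := by
        intro h
        rw [h, mul_one] at h4
        have := eq_of_le_of_card_le' (show Q ⊓ R ≤ R from inf_le_right) h4.le
        exact hRQ (by rw [← this]; exact inf_le_left)
      obtain ⟨r, hr, hrd⟩ := Nat.exists_prime_and_dvd hne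
      have h6 : r ∣ Nat.card R := by rw [h4]; exact Dvd.dvd.mul_left hrd _
      have h7 := hpr r hr h6
      have h8 : 0 < (Q ⊓ R).relIndex R := by
        rcases Nat.eq_zero_or_pos ((Q ⊓ R).relIndex R) with h | h
        · rw [h, mul_zero] at h4
          have : 0 < Nat.card R := Nat.card_pos
          omega
        · exact h
      exact h7.trans (Nat.le_of_dvd h8 hrd)
    apply Nat.le_of_mul_le_mul_right _ hp.pos
    rw [h3, h4]
    calc κ * Nat.card (Q ⊓ R : AddSubgroup G) * p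
        ≤ Nat.card Q * Nat.card (Q ⊓ R : AddSubgroup G) * (Q ⊓ R).relIndex R :=
          Nat.mul_le_mul (Nat.mul_le_mul_right _ hκQ) h5
      _ = Nat.card Q * (Nat.card (Q ⊓ R : AddSubgroup G) * (Q ⊓ R).relIndex R) := by ring

end cards

section triples

variable {G : Type*} [AddCommGroup G] [Fintype G] [DecidableEq G]

open Classical in
/-- Pairs `(h₁, h₂) ∈ H₁ × H₂` with `h₁ + h₂ ∈ H₃`. -/
noncomputable def Mset (H₁ H₂ H₃ : AddSubgroup G) : Finset (G × G) :=
  univ.filter (fun z => z.1 ∈ H₁ ∧ z.2 ∈ H₂ ∧ z.1 + z.2 ∈ H₃)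

lemma mem_Mset {H₁ H₂ H₃ : AddSubgroup G} {z : G × G} :
    z ∈ Mset H₁ H₂ H₃ ↔ z.1 ∈ H₁ ∧ z.2 ∈ H₂ ∧ z.1 + z.2 ∈ H₃ := by
  unfold Mset
  simp

lemma card_Mset (H₁ H₂ H₃ : AddSubgroup G) :
    (Mset H₁ H₂ H₃).card * Nat.card (H₁ ⊔ H₂ ⊔ H₃ : AddSubgroup G) =
      Nat.card H₁ * Nat.card H₂ * Nat.card H₃ := by
  classical
  let f : (H₁ × H₂) × H₃ →+ G :=
    (AddMonoidHom.coprod (AddMonoidHom.coprod H₁.subtype H₂.subtype) H₃.subtype)
  have hrange : f.range = H₁ ⊔ H₂ ⊔ H₃ := by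
    ext x
    constructor
    · rintro ⟨⟨⟨a, b⟩, c⟩, rfl⟩
      apply AddSubgroup.add_mem
      · apply AddSubgroup.add_mem
        · exact AddSubgroup.mem_sup_left (AddSubgroup.mem_sup_left a.2)
        · exact AddSubgroup.mem_sup_left (AddSubgroup.mem_sup_right b.2)
      · exact AddSubgroup.mem_sup_right c.2
    · intro hx
      rw [AddSubgroup.mem_sup] at hx
      obtain ⟨y, hy, z, hz, rfl⟩ := hx
      rw [AddSubgroup.mem_sup] at hy
      obtain ⟨a, ha, b, hb, rfl⟩ := hy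
      exact ⟨((⟨a, ha⟩, ⟨b, hb⟩), ⟨z, hz⟩), rfl⟩
  have hker : Nat.card f.ker = (Mset H₁ H₂ H₃).card := by
    have hmem : ∀ z : f.ker, ((z.1.1.1 : G), (z.1.1.2 : G)) ∈ Mset H₁ H₂ H₃ := by
      intro z
      rw [mem_Mset]
      refine ⟨z.1.1.1.2, z.1.1.2.2, ?_⟩
      have hz : (z.1.1.1 : G) + (z.1.1.2 : G) + (z.1.2 : G) = 0 := z.2
      have h2 : (z.1.1.1 : G) + (z.1.1.2 : G) = -(z.1.2 : G) := eq_neg_of_add_eq_zero_left hz
      show (z.1.1.1 : G) + (z.1.1.2 : G) ∈ H₃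
      rw [h2]
      exact H₃.neg_mem z.1.2.2
    rw [← Fintype.card_coe (Mset H₁ H₂ H₃), ← Nat.card_eq_fintype_card]
    apply Nat.card_eq_of_bijective (fun z : f.ker => (⟨_, hmem z⟩ : {x // x ∈ Mset H₁ H₂ H₃}))
    constructor
    · intro z z' h
      have h0 : ((z.1.1.1 : G), (z.1.1.2 : G)) = ((z'.1.1.1 : G), (z'.1.1.2 : G)) := by
        simpa using congrArg Subtype.val h
      have h1 : (z.1.1.1 : G) = (z'.1.1.1 : G) := congrArg Prod.fst h0
      have h2 : (z.1.1.2 : G) = (z'.1.1.2 : G) := congrArg Prod.snd h0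
      have hz : (z.1.1.1 : G) + (z.1.1.2 : G) + (z.1.2 : G) = 0 := z.2
      have hz' : (z'.1.1.1 : G) + (z'.1.1.2 : G) + (z'.1.2 : G) = 0 := z'.2
      have h3 : (z.1.2 : G) = (z'.1.2 : G) := by
        rw [h1, h2] at hz
        exact add_left_cancel (hz.trans hz'.symm)
      apply Subtype.ext
      apply Prod.ext
      · exact Prod.ext (Subtype.ext h1) (Subtype.ext h2)
      · exact Subtype.ext h3
    · rintro ⟨⟨a, b⟩, hab⟩
      rw [mem_Mset] at hab
      obtain ⟨ha, hb, hc⟩ := hab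
      refine ⟨⟨((⟨a, ha⟩, ⟨b, hb⟩), ⟨-(a + b), H₃.neg_mem hc⟩), ?_⟩, ?_⟩
      · show a + b + -(a + b) = 0
        abel
      · rfl
  have h1 : Nat.card f.ker * Nat.card f.range = Nat.card ((H₁ × H₂) × H₃) := by
    have h2 := f.ker.card_mul_index
    rw [AddSubgroup.index_ker] at h2
    exact h2
  rw [← hker, ← hrange, h1, Nat.card_prod, Nat.card_prod]

/-- The counting argument. -/
lemma count_Mset (H₁ H₂ H₃ : AddSubgroup G) (A B C : Finset G)
    (hC : ∀ a ∈ A, ∀ b ∈ B, a ≠ b → a + b ∈ C) (h2 : ∀ x : G, x + x ∈ H₃ → x ∈ H₃)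
    (N₁ N₂ N₃ : Finset G) (hN₁ : ∀ h ∈ H₁, h ∉ A → h ∈ N₁) (hN₂ : ∀ h ∈ H₂, h ∉ B → h ∈ N₂)
    (hN₃ : ∀ h ∈ H₃, h ∈ C → h ∈ N₃) :
    (Mset H₁ H₂ H₃).card ≤ Nat.card (H₂ ⊓ H₃ : AddSubgroup G) * N₁.card +
      Nat.card (H₁ ⊓ H₃ : AddSubgroup G) * N₂.card +
      Nat.card (H₁ ⊓ H₂ : AddSubgroup G) * N₃.card +
      Nat.card (H₁ ⊓ H₂ ⊓ H₃ : AddSubgroup G) := by
  classical
  set M := Mset H₁ H₂ H₃ with hM
  set M₁ := M.filter (fun z => z.1 ∈ N₁) with hM₁
  set M₂ := M.filter (fun z => z.2 ∈ N₂) with hM₂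
  set M₃ := M.filter (fun z => z.1 + z.2 ∈ N₃) with hM₃
  set M₄ := M.filter (fun z => z.1 = z.2) with hM₄
  have hcover : M ⊆ M₁ ∪ M₂ ∪ M₃ ∪ M₄ := by
    intro z hz
    have hz' := mem_Mset.1 hz
    simp only [mem_union, hM₁, hM₂, hM₃, hM₄, mem_filter]
    by_cases hA : z.1 ∈ A
    · by_cases hB : z.2 ∈ B
      · by_cases hd : z.1 = z.2
        · exact Or.inr ⟨hz, hd⟩
        · exact Or.inl (Or.inr ⟨hz, hN₃ _ hz'.2.2 (hC _ hA _ hB hd)⟩)
      · exact Or.inl (Or.inl (Or.inr ⟨hz, hN₂ _ hz'.2.1 hB⟩))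
    · exact Or.inl (Or.inl (Or.inl ⟨hz, hN₁ _ hz'.1 hA⟩))
  have hc1 : M₁.card ≤ Nat.card (H₂ ⊓ H₃ : AddSubgroup G) * N₁.card := by
    apply card_le_mul_card_image_of_maps_to (f := fun z : G × G => z.1)
    · intro z hz; exact (mem_filter.1 hz).2
    · intro b _
      rw [← card_image_of_injOn (f := fun z : G × G => z.2)]
      · apply card_le_of_diff
        intro x hx y hy
        rw [mem_image] at hx hy
        obtain ⟨z, hz, rfl⟩ := hx
        obtain ⟨w, hw, rfl⟩ := hy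
        rw [mem_filter, hM₁, mem_filter, hM, mem_Mset] at hz hw
        obtain ⟨⟨⟨_, hz2, hz3⟩, _⟩, hz1⟩ := hz
        obtain ⟨⟨⟨_, hw2, hw3⟩, _⟩, hw1⟩ := hw
        refine ⟨H₂.sub_mem hz2 hw2, ?_⟩
        have := H₃.sub_mem hz3 hw3
        rw [hz1, hw1] at this
        simpa using this
      · intro z hz w hw hzw
        simp only [coe_filter, Set.mem_setOf_eq] at hz hw
        exact Prod.ext (hz.2.trans hw.2.symm) hzw
  have hc2 : M₂.card ≤ Nat.card (H₁ ⊓ H₃ : AddSubgroup G) * N₂.card := by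
    apply card_le_mul_card_image_of_maps_to (f := fun z : G × G => z.2)
    · intro z hz; exact (mem_filter.1 hz).2
    · intro b _
      rw [← card_image_of_injOn (f := fun z : G × G => z.1)]
      · apply card_le_of_diff
        intro x hx y hy
        rw [mem_image] at hx hy
        obtain ⟨z, hz, rfl⟩ := hx
        obtain ⟨w, hw, rfl⟩ := hy
        rw [mem_filter, hM₂, mem_filter, hM, mem_Mset] at hz hw
        obtain ⟨⟨⟨hz1, _, hz3⟩, _⟩, hz2⟩ := hz
        obtain ⟨⟨⟨hw1, _, hw3⟩, _⟩, hw2⟩ := hw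
        refine ⟨H₁.sub_mem hz1 hw1, ?_⟩
        have := H₃.sub_mem hz3 hw3
        rw [hz2, hw2] at this
        simpa using this
      · intro z hz w hw hzw
        simp only [coe_filter, Set.mem_setOf_eq] at hz hw
        exact Prod.ext hzw (hz.2.trans hw.2.symm)
  have hc3 : M₃.card ≤ Nat.card (H₁ ⊓ H₂ : AddSubgroup G) * N₃.card := by
    apply card_le_mul_card_image_of_maps_to (f := fun z : G × G => z.1 + z.2)
    · intro z hz; exact (mem_filter.1 hz).2
    · intro b _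
      rw [← card_image_of_injOn (f := fun z : G × G => z.1)]
      · apply card_le_of_diff
        intro x hx y hy
        rw [mem_image] at hx hy
        obtain ⟨z, hz, rfl⟩ := hx
        obtain ⟨w, hw, rfl⟩ := hy
        rw [mem_filter, hM₃, mem_filter, hM, mem_Mset] at hz hw
        obtain ⟨⟨⟨hz1, hz2, _⟩, _⟩, hz3⟩ := hz
        obtain ⟨⟨⟨hw1, hw2, _⟩, _⟩, hw3⟩ := hw
        refine ⟨H₁.sub_mem hz1 hw1, ?_⟩
        have := H₂.sub_mem hw2 hz2
        have h5 : w.2 - z.2 = z.1 - w.1 := by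
          have h6 := hz3.trans hw3.symm
          rw [sub_eq_sub_iff_add_eq_add, add_comm w.2, add_comm z.1 z.2, add_comm z.2 z.1]
          exact h6.symm
        rwa [h5] at this
      · intro z hz w hw hzw
        simp only [coe_filter, Set.mem_setOf_eq] at hz hw
        refine Prod.ext hzw ?_
        have h6 := hz.2.trans hw.2.symm
        have h7 : z.1 = w.1 := hzw
        rw [h7] at h6
        exact add_left_cancel h6
  have hc4 : M₄.card ≤ Nat.card (H₁ ⊓ H₂ ⊓ H₃ : AddSubgroup G) := by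
    rw [← card_image_of_injOn (f := fun z : G × G => z.1)]
    · apply card_le_of_diff
      intro x hx y hy
      rw [mem_image] at hx hy
      obtain ⟨z, hz, rfl⟩ := hx
      obtain ⟨w, hw, rfl⟩ := hy
      rw [hM₄, mem_filter, hM, mem_Mset] at hz hw
      obtain ⟨⟨hz1, hz2, hz3⟩, hz4⟩ := hz
      obtain ⟨⟨hw1, hw2, hw3⟩, hw4⟩ := hw
      apply AddSubgroup.sub_mem
      · rw [← hz4] at hz2 hz3
        exact ⟨⟨hz1, hz2⟩, h2 _ hz3⟩
      · rw [← hw4] at hw2 hw3
        exact ⟨⟨hw1, hw2⟩, h2 _ hw3⟩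
    · intro z hz w hw hzw
      simp only [hM₄, coe_filter, Set.mem_setOf_eq] at hz hw
      refine Prod.ext hzw ?_
      rw [← hz.2, ← hw.2]
      exact hzw
  have h5 := card_le_card hcover
  have h6 := card_union_le (M₁ ∪ M₂ ∪ M₃) M₄
  have h7 := card_union_le (M₁ ∪ M₂) M₃
  have h8 := card_union_le M₁ M₂
  omega

end triples

end Pool.Agent.Work.MP_59976d_co
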