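import Pool.Agent.Work.MP_59976d_co_odd.EL1

/-!
Elimination of the second alternative: the triple lemma.
-/

namespace Pool.Agent.Work.MP_59976d_co

open Finset
open scoped Pointwise

universe u

section avg

variable {G : Type u} [AddCommGroup G] [Fintype G]

/-- Averaging over the `L`-cosets in the hull. -/
lemma holes_avg (H L : AddSubgroup G) (hLH : L ≤ H) (X : Finset G) (a : ℕ)
    (ha : ∀ x : G ⧸ L, (part L X x).card ≤ a) :
    Nat.card L * X.card ≤ (hull H X).card * a := by
  classical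
  haveI : Fintype (G ⧸ L) := Fintype.ofFinite _
  rw [card_eq_sum_part L X, card_eq_sum_part L (hull H X), Finset.mul_sum, Finset.sum_mul]
  apply Finset.sum_le_sum
  intro x _
  rcases (part L X x).eq_empty_or_nonempty with h0 | ⟨z, hz⟩
  · rw [h0, card_empty, mul_zero]; exact Nat.zero_le _
  · have h1 : Nat.card L ∣ (part L (hull H X) x).card := by
      apply card_dvd_of_periodic
      intro h hh w hw
      rw [mem_part] at hw ⊢
      refine ⟨hull_periodic (hLH hh) hw.1, ?_⟩
      rw [← hw.2, eq_comm, QuotientAddGroup.eq]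
      simpa [add_comm] using hh
    have h2 : 0 < (part L (hull H X) x).card :=
      card_pos.2 ⟨z, part_mono (subset_hull H X) x hz⟩
    have h3 := Nat.le_of_dvd h2 h1
    calc Nat.card L * (part L X x).card ≤ (part L (hull H X) x).card * (part L X x).card :=
          Nat.mul_le_mul_right _ h3
      _ ≤ (part L (hull H X) x).card * a := Nat.mul_le_mul_left _ (ha x)

/-- If the parts over `L ≤ H` are small then there are many holes. -/
lemma no_sub (H L : AddSubgroup G) (hLH : L ≤ H) (X Y : Finset G) (hX : X.Nonempty)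
    (hY : Y.Nonempty) (a b : ℕ) (ha : ∀ x : G ⧸ L, (part L X x).card ≤ a)
    (hb : ∀ x : G ⧸ L, (part L Y x).card ≤ b) (hab : a + b ≤ Nat.card L) (hx hy : ℕ)
    (hhx : (hull H X).card = X.card + hx) (hhy : (hull H Y).card = Y.card + hy) :
    Nat.card H ≤ hx + hy := by
  have h1 := holes_avg H L hLH X a ha
  have h2 := holes_avg H L hLH Y b hb
  have h3 := card_le_hull H hX
  have h4 := card_le_hull H hY
  have hL : 0 < Nat.card L := Nat.card_pos
  obtain ⟨c, hc⟩ := Nat.exists_eq_add_of_le hab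
  apply Nat.le_of_mul_le_mul_left _ hL
  -- |L| hx = |L| |hull| - |L| |X| ≥ |hull| (|L| - a) ≥ |H| (|L| - a)
  have h5 : Nat.card H * (b + c) ≤ Nat.card L * hx := by
    have h6 : (hull H X).card * (b + c) ≤ Nat.card L * hx := by
      have h7 : Nat.card L * (hull H X).card = Nat.card L * X.card + Nat.card L * hx := by
        rw [hhx]; ring
      have h8 : Nat.card L * (hull H X).card = (hull H X).card * a + (hull H X).card * (b + c) := by
        rw [hc]; ring
      omega
    exact (Nat.mul_le_mul_right _ h3).trans h6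
  have h5' : Nat.card H * (a + c) ≤ Nat.card L * hy := by
    have h6 : (hull H Y).card * (a + c) ≤ Nat.card L * hy := by
      have h7 : Nat.card L * (hull H Y).card = Nat.card L * Y.card + Nat.card L * hy := by
        rw [hhy]; ring
      have h8 : Nat.card L * (hull H Y).card = (hull H Y).card * b + (hull H Y).card * (a + c) := by
        rw [hc]; ring
      omega
    exact (Nat.mul_le_mul_right _ h4).trans h6
  calc Nat.card L * Nat.card H = Nat.card H * (a + b + c) := by rw [← hc]; ring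
    _ ≤ Nat.card H * (b + c) + Nat.card H * (a + c) := by
        rw [← Nat.mul_add]
        apply Nat.mul_le_mul_left
        omega
    _ ≤ Nat.card L * hx + Nat.card L * hy := Nat.add_le_add h5 h5'
    _ = Nat.card L * (hx + hy) := by ring

/-- A residue that is a deviation modulo `h`. -/
lemma le_of_dvd_aux (h k a b c d : ℕ) (hk : h ∣ k) (h1 : h ∣ a + b) (h2 : a + c = k * d)
    (h3 : b < h) : b ≤ c := by
  by_contra hcon
  push Not at hcon
  have h4 : h ∣ a + c := by rw [h2]; exact Dvd.dvd.mul_right hk d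
  have h5 : h ∣ (a + b) - (a + c) := Nat.dvd_sub h1 h4
  have h6 : (a + b) - (a + c) = b - c := by omega
  rw [h6] at h5
  have h7 := Nat.le_of_dvd (by omega) h5
  omega

variable [DecidableEq G]

/-- The triple lemma. -/
lemma triple (hKn : Stmt_Kneser.{u}) (X Y Z : Finset G) (hX : X.Nonempty) (hY : Y.Nonempty)
    (hXY : X + Y ⊆ Z) (L N : AddSubgroup G) (hL : (Nat.card L).Prime) (hLN : L ≤ N)
    (hN : ∀ z ∈ Z, ∀ z' ∈ Z, z - z' ∈ N) (k : ℕ) (hk : Nat.card N = k * Nat.card L) (μ μ' : ℕ)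
    (hμ : ∀ x : G ⧸ L, (part L X x).card ≤ μ) (hμ' : ∀ x : G ⧸ L, (part L Y x).card ≤ μ')
    (hμL : μ + μ' ≤ Nat.card L) (U U' E extra : ℕ) (hU : X.card + U = k * μ)
    (hU' : Y.card + U' = k * μ') (hE : Z.card + k = k * (μ + μ') + E)
    (htot : U + U' + E + extra + 4 ≤ k) :
    ∃ (H : AddSubgroup G) (hx hy ρ : ℕ), (∀ h ∈ H, ∀ z ∈ X + Y, h + z ∈ X + Y) ∧ H ≤ N ∧
      Nat.card H ∣ k ∧ (hull H X).card = X.card + hx ∧ (hull H Y).card = Y.card + hy ∧
      Z.card = (X + Y).card + ρ ∧ hx ≤ U ∧ hy ≤ U' ∧ ρ ≤ E ∧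
      hx + hy + ρ + extra + 4 ≤ Nat.card H ∧ k ≤ Nat.card H + U + U' + E := by
  obtain ⟨H, hH, hineq⟩ := hKn G X Y hX hY
  have hXYne : (X + Y).Nonempty := hX.add hY
  obtain ⟨hx, hhx⟩ := Nat.exists_eq_add_of_le (card_hull_ge H X)
  obtain ⟨hy, hhy⟩ := Nat.exists_eq_add_of_le (card_hull_ge H Y)
  obtain ⟨ρ, hρ⟩ := Nat.exists_eq_add_of_le (card_le_card hXY)
  have hper : ∀ h ∈ H, ∀ z ∈ X + Y, h + z ∈ X + Y := fun h hh => (hH h).1 hh
  have hHN : H ≤ N := by
    intro h hh
    obtain ⟨z, hz⟩ := hXYne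
    have h1 := hN _ (hXY (hper h hh z hz)) z (hXY hz)
    rwa [add_sub_cancel_right] at h1
  have hkm : k * (μ + μ') = k * μ + k * μ' := by ring
  have hkey : hx + hy + ρ + k ≤ Nat.card H + U + U' + E := by omega
  have hsmall : hx + hy + ρ + extra + 4 ≤ Nat.card H := by omega
  have hLH : ¬ L ≤ H := by
    intro hle
    have := no_sub H L hle X Y hX hY μ μ' hμ hμ' hμL hx hy hhx hhy
    omega
  have hinf : H ⊓ L = ⊥ := by
    have h1 := card_dvd_card (show H ⊓ L ≤ L from inf_le_right)
    rcases (Nat.dvd_prime hL).1 h1 with h2 | h2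
    · exact AddSubgroup.card_eq_one.1 h2
    · exfalso
      have h3 := eq_of_le_of_card_le' (show H ⊓ L ≤ L from inf_le_right) h2.ge
      exact hLH (by rw [← h3]; exact inf_le_left)
  have hdvd : Nat.card H ∣ k := by
    have h1 := card_sup_mul_card_inf H L
    rw [hinf, AddSubgroup.card_bot, mul_one] at h1
    have h2 := card_dvd_card (show H ⊔ L ≤ N from sup_le hHN hLN)
    rw [h1, hk] at h2
    exact Nat.dvd_of_mul_dvd_mul_right hL.pos h2
  refine ⟨H, hx, hy, ρ, hper, hHN, hdvd, hhx, hhy, hρ, ?_, ?_, ?_, hsmall, by omega⟩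
  · exact le_of_dvd_aux (Nat.card H) k X.card hx U μ hdvd (hhx ▸ card_dvd_hull H X) hU (by omega)
  · exact le_of_dvd_aux (Nat.card H) k Y.card hy U' μ' hdvd (hhy ▸ card_dvd_hull H Y) hU'
      (by omega)
  · -- |H| ∣ |X+Y| and |X+Y| + ρ = |Z| = k(μ+μ'-1) + E
    by_contra hcon
    push Not at hcon
    have h1 : Nat.card H ∣ (X + Y).card := card_dvd_of_periodic H _ hper
    -- (X+Y).card + ρ + k = k (μ+μ') + E, so ρ - E = k (μ+μ') - k - (X+Y).card
    have h2 : (X + Y).card + k + (ρ - E) = k * (μ + μ') := by omega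
    have h3 : Nat.card H ∣ (X + Y).card + k := Nat.dvd_add h1 hdvd
    have h4 : Nat.card H ∣ (X + Y).card + k + (ρ - E) := by
      rw [h2]; exact Dvd.dvd.mul_right hdvd _
    have h5 := (Nat.dvd_add_right h3).1 h4
    have h6 := Nat.le_of_dvd (by omega) h5
    omega

end avg

end Pool.Agent.Work.MP_59976d_co
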